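import Mathlib

/-!
# The least common multiple of `1, ..., m` for `m ≤ 6100`
-/

set_option autoImplicit false
open Finset

namespace Pool.Agent.Lib.MP_bf4c7f

/-- evaluates its argument before it goes on -/
noncomputable def force (v : ℕ) (f : ℕ → Bool) : Bool :=
  Nat.rec (motive := fun _ => Bool) (f 0) (fun k _ => f (k + 1)) v

lemma force_eq (v : ℕ) (f : ℕ → Bool) : force v f = f v := by
  cases v <;> rfl

/-- one step of the scan -/
noncomputable def scanStep (K : ℕ → ℕ) (ih : ℕ → ℕ → ℕ → Bool) (n L R : ℕ) : Bool :=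
  force (Nat.succ n) fun n' => force (Nat.div (Nat.mul L n') (Nat.gcd L n')) fun L' =>
      force (Nat.div (Nat.mul R 30208) 10000) fun R' =>
        and (Nat.ble (Nat.mul (Nat.mul (K n') 1000000) L') R') (ih n' L' R')

/-- `K m * lcm (1, ..., m) ≤ 3.0208 ^ m` for `n < m ≤ n + fuel` -/
noncomputable def scan (K : ℕ → ℕ) (fuel : ℕ) : ℕ → ℕ → ℕ → Bool :=
  Nat.rec (motive := fun _ => ℕ → ℕ → ℕ → Bool) (fun _ _ _ => true)
    (fun _ ih => scanStep K ih) fuel

lemma scan_succ (K : ℕ → ℕ) (fuel n L R : ℕ) : scan K (fuel + 1) n L R = true ↔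
    K (n + 1) * 1000000 * (L * (n + 1) / Nat.gcd L (n + 1)) ≤ R * 30208 / 10000 ∧
      scan K fuel (n + 1) (L * (n + 1) / Nat.gcd L (n + 1)) (R * 30208 / 10000) = true := by
  have h : scan K (fuel + 1) n L R = scanStep K (scan K fuel) n L R := rfl
  rw [h]
  unfold scanStep
  rw [force_eq, force_eq, force_eq, Bool.and_eq_true, Nat.ble_eq]
  rfl

lemma lcmUpto_succ (n : ℕ) : Nat.lcmUpto (n + 1) =
    Nat.lcmUpto n * (n + 1) / Nat.gcd (Nat.lcmUpto n) (n + 1) := by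
  have h : Nat.lcmUpto (n + 1) = Nat.lcm (n + 1) (Nat.lcmUpto n) := by
    unfold Nat.lcmUpto
    have h2 : Icc 1 (n + 1) = insert (n + 1) (Icc 1 n) := by
      ext x
      simp only [mem_Icc, mem_insert]
      omega
    rw [h2, Finset.lcm_insert]
    rfl
  rw [h, Nat.lcm_comm]
  rfl

lemma scan_spec (K : ℕ → ℕ) (fuel : ℕ) : ∀ n L R : ℕ, scan K fuel n L R = true →
    L = Nat.lcmUpto n → (R : ℝ) ≤ 10 ^ 6 * (30208 / 10000 : ℝ) ^ n →
    ∀ m, n < m → m ≤ n + fuel → (K m : ℝ) * Nat.lcmUpto m ≤ (30208 / 10000 : ℝ) ^ m := by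
  induction fuel with
  | zero => intro n L R _ _ _ m h1 h2; omega
  | succ fuel ih =>
    intro n L R h hL hR m h1 h2
    rw [scan_succ] at h
    obtain ⟨h3, h4⟩ := h
    have hL' : L * (n + 1) / Nat.gcd L (n + 1) = Nat.lcmUpto (n + 1) := by
      rw [hL, ← lcmUpto_succ]
    have hR' : ((R * 30208 / 10000 : ℕ) : ℝ) ≤ 10 ^ 6 * (30208 / 10000 : ℝ) ^ (n + 1) := by
      have e1 : ((R * 30208 / 10000 : ℕ) : ℝ) ≤ ((R * 30208 : ℕ) : ℝ) / (10000 : ℕ) := Nat.cast_div_le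
      refine e1.trans ?_
      push_cast
      have e2 : (R : ℝ) * 30208 / 10000 = R * (30208 / 10000) := by ring
      have e3 : (10 : ℝ) ^ 6 * (30208 / 10000 : ℝ) ^ (n + 1) =
          10 ^ 6 * (30208 / 10000 : ℝ) ^ n * (30208 / 10000) := by ring
      rw [e2, e3]
      exact mul_le_mul_of_nonneg_right hR (by norm_num)
    rcases Nat.lt_or_ge (n + 1) m with h5 | h5
    · exact ih (n + 1) _ _ h4 hL' hR' m h5 (by omega)
    · have h6 : m = n + 1 := by omega
      subst h6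
      rw [hL'] at h3
      have h7 : ((K (n + 1) * 1000000 * Nat.lcmUpto (n + 1) : ℕ) : ℝ) ≤
          ((R * 30208 / 10000 : ℕ) : ℝ) := by exact_mod_cast h3
      have h8 := h7.trans hR'
      push_cast at h8
      nlinarith

/-- the factor to spare -/
def Kf (n : ℕ) : ℕ := Nat.pow 10 (Nat.add (Nat.mul 20 (Nat.div n 500)) (Nat.mul 3 (Nat.div n 1000)))

theorem scan_ok : scan Kf 6100 0 1 1000000 = true := by decide +kernel

theorem lcmUpto_le (m : ℕ) (h1 : 1 ≤ m) (h2 : m ≤ 6100) :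
    (10 : ℝ) ^ (20 * (m / 500) + 3 * (m / 1000)) * Nat.lcmUpto m ≤
      (30208 / 10000 : ℝ) ^ m := by
  have h := scan_spec Kf 6100 0 1 1000000 scan_ok (by simp [Nat.lcmUpto]) (by norm_num) m
    (by omega) (by omega)
  have h3 : ((Kf m : ℕ) : ℝ) = (10 : ℝ) ^ (20 * (m / 500) + 3 * (m / 1000)) := by
    have : Kf m = 10 ^ (20 * (m / 500) + 3 * (m / 1000)) := rfl
    rw [this]
    push_cast
    rfl
  rw [h3] at h
  exact h

end Pool.Agent.Lib.MP_bf4c7f
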