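import Mathlib
import Pool.Agent.Lib.MP_bf4c7f_nt.PrimeSum
import Pool.Agent.Lib.MP_bf4c7f_nt3.Scan

/-!
# Chebyshev's bounds with the constants of `(30 q)! q! / ((15 q)! (10 q)! (6 q)!)`
-/

set_option autoImplicit false
open Finset

namespace Pool.Agent.Lib.MP_bf4c7f

/-- Chebyshev's function `ψ` at natural numbers. -/
noncomputable def Psi (n : ℕ) : ℝ := ∑ d ∈ Icc 1 n, ArithmeticFunction.vonMangoldt d

/-- `log n!` -/
noncomputable def Slog (n : ℕ) : ℝ := ∑ m ∈ Icc 1 n, Real.log m

/-- the constant `(log (30^30 / (15^15 10^10 6^6)))` -/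
noncomputable def Bc : ℝ := 14 * Real.log 2 + 9 * Real.log 3 + 5 * Real.log 5

/-- the logarithm of `(30 q)! q! / ((15 q)! (10 q)! (6 q)!)` -/
noncomputable def Ulog (q : ℕ) : ℝ :=
  Slog (30 * q) + Slog q - Slog (15 * q) - Slog (10 * q) - Slog (6 * q)

lemma Psi_mono {m n : ℕ} (h : m ≤ n) : Psi m ≤ Psi n := by
  unfold Psi
  apply Finset.sum_le_sum_of_subset_of_nonneg
  · exact Finset.Icc_subset_Icc_right h
  · intro d _ _; exact ArithmeticFunction.vonMangoldt_nonneg

lemma Slog_eq (n N : ℕ) (h : n ≤ N) : Slog n =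
    ∑ d ∈ Icc 1 N, ArithmeticFunction.vonMangoldt d * ((n / d : ℕ) : ℝ) := by
  unfold Slog
  rw [sum_log_eq]
  apply Finset.sum_subset (Finset.Icc_subset_Icc_right h)
  intro d hd hd'
  rw [mem_Icc] at hd hd'
  rw [Nat.div_eq_of_lt (by omega)]
  simp

/-- the coefficient of `Λ d` -/
def fc (q d : ℕ) : ℤ := (30 * q / d : ℕ) + (q / d : ℕ) - (15 * q / d : ℕ) - (10 * q / d : ℕ) -
  (6 * q / d : ℕ)

lemma fc_eq (q d : ℕ) : ∃ s : ℕ, s = 30 * q / d ∧
    fc q d = (s : ℤ) + (s / 30 : ℕ) - (s / 2 : ℕ) - (s / 3 : ℕ) - (s / 5 : ℕ) := by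
  refine ⟨30 * q / d, rfl, ?_⟩
  unfold fc
  have h1 : 30 * q / d / 30 = q / d := by
    rw [Nat.div_div_eq_div_mul, mul_comm d 30, Nat.mul_div_mul_left _ _ (by norm_num)]
  have h2 : 30 * q / d / 2 = 15 * q / d := by
    rw [Nat.div_div_eq_div_mul, mul_comm d 2, show 30 * q = 2 * (15 * q) by ring,
      Nat.mul_div_mul_left _ _ (by norm_num)]
  have h3 : 30 * q / d / 3 = 10 * q / d := by
    rw [Nat.div_div_eq_div_mul, mul_comm d 3, show 30 * q = 3 * (10 * q) by ring,
      Nat.mul_div_mul_left _ _ (by norm_num)]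
  have h5 : 30 * q / d / 5 = 6 * q / d := by
    rw [Nat.div_div_eq_div_mul, mul_comm d 5, show 30 * q = 5 * (6 * q) by ring,
      Nat.mul_div_mul_left _ _ (by norm_num)]
  rw [h1, h2, h3, h5]

lemma fc_nonneg (q d : ℕ) : 0 ≤ fc q d := by
  obtain ⟨s, _, h⟩ := fc_eq q d
  omega

lemma fc_le_one (q d : ℕ) : fc q d ≤ 1 := by
  obtain ⟨s, _, h⟩ := fc_eq q d
  omega

lemma fc_one_le (q d : ℕ) (hd : 0 < d) (h1 : 5 * q < d) (h2 : d ≤ 30 * q) : 1 ≤ fc q d := by
  obtain ⟨s, hs, h⟩ := fc_eq q d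
  have hs1 : 1 ≤ s := by rw [hs]; exact (Nat.one_le_div_iff hd).2 h2
  have hs2 : s < 6 := by rw [hs]; exact (Nat.div_lt_iff_lt_mul hd).2 (by omega)
  omega

lemma Ulog_eq (q : ℕ) : Ulog q =
    ∑ d ∈ Icc 1 (30 * q), ArithmeticFunction.vonMangoldt d * (fc q d : ℝ) := by
  unfold Ulog
  rw [Slog_eq (30 * q) (30 * q) le_rfl, Slog_eq q (30 * q) (by omega),
    Slog_eq (15 * q) (30 * q) (by omega), Slog_eq (10 * q) (30 * q) (by omega),
    Slog_eq (6 * q) (30 * q) (by omega), ← Finset.sum_add_distrib, ← Finset.sum_sub_distrib,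
    ← Finset.sum_sub_distrib, ← Finset.sum_sub_distrib]
  apply Finset.sum_congr rfl
  intro d _
  unfold fc
  rw [Int.cast_sub, Int.cast_sub, Int.cast_sub, Int.cast_add, Int.cast_natCast, Int.cast_natCast,
    Int.cast_natCast, Int.cast_natCast, Int.cast_natCast]
  ring

/-- `ψ (30 q) - ψ (5 q) ≤ log u(q)` -/
lemma Psi_sub_le_Ulog (q : ℕ) : Psi (30 * q) - Psi (5 * q) ≤ Ulog q := by
  rw [Ulog_eq]
  have h : Psi (30 * q) - Psi (5 * q) =
      ∑ d ∈ Icc 1 (30 * q), if 5 * q < d then ArithmeticFunction.vonMangoldt d else 0 := by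
    unfold Psi
    rw [← Finset.sum_filter, sub_eq_iff_eq_add]
    have : Icc 1 (30 * q) = (Icc 1 (30 * q)).filter (fun d => 5 * q < d) ∪ Icc 1 (5 * q) := by
      ext d
      simp only [mem_union, mem_filter, mem_Icc]
      omega
    conv_lhs => rw [this]
    rw [Finset.sum_union]
    rw [Finset.disjoint_left]
    intro d h1 h2
    simp only [mem_filter, mem_Icc] at h1 h2
    omega
  rw [h]
  apply Finset.sum_le_sum
  intro d hd
  rw [mem_Icc] at hd
  have hL : 0 ≤ ArithmeticFunction.vonMangoldt d := ArithmeticFunction.vonMangoldt_nonneg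
  split_ifs with h1
  · have h2 : (1 : ℝ) ≤ fc q d := by exact_mod_cast fc_one_le q d (by omega) h1 hd.2
    nlinarith
  · have h2 : (0 : ℝ) ≤ fc q d := by exact_mod_cast fc_nonneg q d
    positivity

/-- `log u(q) ≤ ψ (30 q)` -/
lemma Ulog_le_Psi (q : ℕ) : Ulog q ≤ Psi (30 * q) := by
  rw [Ulog_eq]
  unfold Psi
  apply Finset.sum_le_sum
  intro d hd
  rw [mem_Icc] at hd
  have hL : 0 ≤ ArithmeticFunction.vonMangoldt d := ArithmeticFunction.vonMangoldt_nonneg
  have h2 : (fc q d : ℝ) ≤ 1 := by exact_mod_cast fc_le_one q d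
  nlinarith

/-! ### the size of `u(q)` -/

lemma Slog_add (n k : ℕ) : Slog (n + k) = Slog n + ∑ i ∈ range k, Real.log ((n : ℝ) + (i + 1)) := by
  induction k with
  | zero => simp
  | succ k ih =>
    have h : Slog (n + (k + 1)) = Slog (n + k) + Real.log ((n : ℝ) + (k + 1)) := by
      unfold Slog
      rw [← add_assoc, Finset.sum_Icc_succ_top (by omega)]
      push_cast
      ring_nf
    rw [h, ih, Finset.sum_range_succ]
    ring

/-- `log (30 q + j)` -/
noncomputable def lq (q j : ℕ) : ℝ := Real.log (30 * (q : ℝ) + j)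

lemma lq_div (q c j : ℕ) (m : ℕ) (hm : 0 < m) (hmc : m * c = 30) (hj : 0 < j) :
    Real.log ((c : ℝ) * q + j) = lq q (m * j) - Real.log m := by
  unfold lq
  have h1 : (30 : ℝ) * (q : ℝ) + ((m * j : ℕ) : ℝ) = m * ((c : ℝ) * q + j) := by
    have : (m : ℝ) * c = 30 := by exact_mod_cast hmc
    push_cast
    rw [← this]; ring
  have hmR : (0 : ℝ) < m := by exact_mod_cast hm
  have hjR : (0 : ℝ) < j := by exact_mod_cast hj
  rw [h1, Real.log_mul (by positivity) (by positivity)]
  ring

lemma Ulog_succ (q : ℕ) : Ulog (q + 1) = Ulog q + Bc -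
    ((lq q 6 - lq q 1) + (lq q 10 - lq q 7) + (lq q 12 - lq q 11) + (lq q 15 - lq q 13) +
      (lq q 18 - lq q 17) + (lq q 20 - lq q 19) + (lq q 24 - lq q 23) + (lq q 30 - lq q 29)) := by
  have e30 : Slog (30 * (q + 1)) = Slog (30 * q) + ∑ i ∈ range 30, lq q (i + 1) := by
    rw [show 30 * (q + 1) = 30 * q + 30 by ring, Slog_add]
    congr 1
    apply Finset.sum_congr rfl
    intro i _
    unfold lq
    push_cast
    rfl
  have e1 : Slog (q + 1) = Slog q + (lq q 30 - Real.log 30) := by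
    rw [Slog_add]
    congr 1
    rw [Finset.sum_range_one]
    have := lq_div q 1 1 30 (by norm_num) (by norm_num) (by norm_num)
    push_cast at this ⊢
    rw [one_mul] at this
    rw [zero_add, this]
  have e15 : Slog (15 * (q + 1)) = Slog (15 * q) +
      ∑ i ∈ range 15, (lq q (2 * (i + 1)) - Real.log 2) := by
    rw [show 15 * (q + 1) = 15 * q + 15 by ring, Slog_add]
    congr 1
    apply Finset.sum_congr rfl
    intro i _
    have := lq_div q 15 (i + 1) 2 (by norm_num) (by norm_num) (by omega)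
    push_cast at this ⊢
    exact this
  have e10 : Slog (10 * (q + 1)) = Slog (10 * q) +
      ∑ i ∈ range 10, (lq q (3 * (i + 1)) - Real.log 3) := by
    rw [show 10 * (q + 1) = 10 * q + 10 by ring, Slog_add]
    congr 1
    apply Finset.sum_congr rfl
    intro i _
    have := lq_div q 10 (i + 1) 3 (by norm_num) (by norm_num) (by omega)
    push_cast at this ⊢
    exact this
  have e6 : Slog (6 * (q + 1)) = Slog (6 * q) +
      ∑ i ∈ range 6, (lq q (5 * (i + 1)) - Real.log 5) := by
    rw [show 6 * (q + 1) = 6 * q + 6 by ring, Slog_add]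
    congr 1
    apply Finset.sum_congr rfl
    intro i _
    have := lq_div q 6 (i + 1) 5 (by norm_num) (by norm_num) (by omega)
    push_cast at this ⊢
    exact this
  have h30 : Real.log 30 = Real.log 2 + Real.log 3 + Real.log 5 := by
    rw [show (30 : ℝ) = 2 * 3 * 5 by norm_num, Real.log_mul (by norm_num) (by norm_num),
      Real.log_mul (by norm_num) (by norm_num)]
  unfold Ulog Bc
  rw [e30, e1, e15, e10, e6, h30]
  simp only [Finset.sum_range_succ, Finset.sum_range_zero, Nat.zero_add, Nat.reduceAdd,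
    Nat.reduceMul]
  ring

lemma lq_mono (q i j : ℕ) (hi : 0 < i) (h : i ≤ j) : lq q i ≤ lq q j := by
  unfold lq
  have h1 : (0 : ℝ) < i := by exact_mod_cast hi
  have h2 : (i : ℝ) ≤ j := by exact_mod_cast h
  apply Real.log_le_log
  · positivity
  · linarith

lemma lq_diff (q i j : ℕ) (hq : 0 < q) (hi : 0 < i) (h : i ≤ j) :
    lq q j - lq q i ≤ ((j : ℝ) - i) / (30 * q) := by
  unfold lq
  have h0 : (0 : ℝ) < q := by exact_mod_cast hq
  have h1 : (0 : ℝ) < i := by exact_mod_cast hi
  have h2 : (i : ℝ) ≤ j := by exact_mod_cast h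
  rw [← Real.log_div (by positivity) (by positivity)]
  have h3 := Real.log_le_sub_one_of_pos
    (show (0 : ℝ) < (30 * (q : ℝ) + j) / (30 * q + i) by positivity)
  have h4 : (30 * (q : ℝ) + j) / (30 * q + i) - 1 = ((j : ℝ) - i) / (30 * q + i) := by
    field_simp
    ring
  rw [h4] at h3
  refine h3.trans ?_
  apply div_le_div_of_nonneg_left (by linarith) (by positivity) (by linarith)

lemma Ulog_zero : Ulog 0 = 0 := by
  unfold Ulog Slog
  simp

lemma Ulog_upper (q : ℕ) : Ulog q ≤ Bc * q := by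
  induction q with
  | zero => rw [Ulog_zero]; simp
  | succ q ih =>
    rw [Ulog_succ]
    have h1 := lq_mono q 1 6 (by norm_num) (by norm_num)
    have h2 := lq_mono q 7 10 (by norm_num) (by norm_num)
    have h3 := lq_mono q 11 12 (by norm_num) (by norm_num)
    have h4 := lq_mono q 13 15 (by norm_num) (by norm_num)
    have h5 := lq_mono q 17 18 (by norm_num) (by norm_num)
    have h6 := lq_mono q 19 20 (by norm_num) (by norm_num)
    have h7 := lq_mono q 23 24 (by norm_num) (by norm_num)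
    have h8 := lq_mono q 29 30 (by norm_num) (by norm_num)
    push_cast
    linarith

lemma Ulog_step_lower (q : ℕ) (hq : 0 < q) : Ulog q + Bc - 1 / (2 * q) ≤ Ulog (q + 1) := by
  rw [Ulog_succ]
  have h1 := lq_diff q 1 6 hq (by norm_num) (by norm_num)
  have h2 := lq_diff q 7 10 hq (by norm_num) (by norm_num)
  have h3 := lq_diff q 11 12 hq (by norm_num) (by norm_num)
  have h4 := lq_diff q 13 15 hq (by norm_num) (by norm_num)
  have h5 := lq_diff q 17 18 hq (by norm_num) (by norm_num)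
  have h6 := lq_diff q 19 20 hq (by norm_num) (by norm_num)
  have h7 := lq_diff q 23 24 hq (by norm_num) (by norm_num)
  have h8 := lq_diff q 29 30 hq (by norm_num) (by norm_num)
  have h0 : (0 : ℝ) < q := by exact_mod_cast hq
  have h9 : (1 : ℝ) / (2 * q) = ((6 : ℕ) - (1 : ℕ) : ℝ) / (30 * q) + ((10 : ℕ) - (7 : ℕ) : ℝ) / (30 * q) +
      ((12 : ℕ) - (11 : ℕ) : ℝ) / (30 * q) + ((15 : ℕ) - (13 : ℕ) : ℝ) / (30 * q) +
      ((18 : ℕ) - (17 : ℕ) : ℝ) / (30 * q) + ((20 : ℕ) - (19 : ℕ) : ℝ) / (30 * q) +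
      ((24 : ℕ) - (23 : ℕ) : ℝ) / (30 * q) + ((30 : ℕ) - (29 : ℕ) : ℝ) / (30 * q) := by
    push_cast
    field_simp
    norm_num
  rw [h9]
  linarith

/-! ### numerical constants -/

/-- the constant `1.10555` of the upper bound -/
noncomputable def Ac : ℝ := Bc / 25

lemma Bc_bounds : 27.63875 ≤ Bc ∧ Bc ≤ 27.63877 := by
  have h1 := Real.log_two_gt_d9
  have h2 := Real.log_two_lt_d9
  have h3 := Real.log_three_gt_d9
  have h4 := Real.log_three_lt_d9
  have h5 := Real.log_five_gt_d9
  have h6 := Real.log_five_lt_d9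
  unfold Bc
  constructor
  · norm_num at h1 h3 h5 ⊢
    linarith
  · norm_num at h2 h4 h6 ⊢
    linarith

lemma Ac_bounds : 1.10555 ≤ Ac ∧ Ac ≤ 1.105551 := by
  have h := Bc_bounds
  unfold Ac
  constructor
  · rw [le_div_iff₀ (by norm_num)]; norm_num; linarith [h.1]
  · rw [div_le_iff₀ (by norm_num)]; norm_num; linarith [h.2]

lemma log_r : Real.log (30208 / 10000 : ℝ) ≤ Ac := by
  unfold Ac Bc
  rw [le_div_iff₀ (by norm_num)]
  have h1 : Real.log (30208 / 10000 : ℝ) * 25 = Real.log ((30208 / 10000 : ℝ) ^ 25) := by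
    rw [Real.log_pow]; push_cast; ring
  have h2 : 14 * Real.log 2 + 9 * Real.log 3 + 5 * Real.log 5 =
      Real.log ((2 : ℝ) ^ 14 * 3 ^ 9 * 5 ^ 5) := by
    rw [Real.log_mul (by norm_num) (by norm_num), Real.log_mul (by norm_num) (by norm_num),
      Real.log_pow, Real.log_pow, Real.log_pow]
    push_cast; ring
  rw [h1, h2]
  apply Real.log_le_log (by norm_num)
  norm_num

/-! ### the upper bound for `ψ` -/

lemma Psi_eq_log (n : ℕ) : Psi n = Real.log (Nat.lcmUpto n) := by
  rw [← Chebyshev.psi_eq_log_lcmUpto, Chebyshev.psi, Nat.floor_natCast]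
  unfold Psi
  apply Finset.sum_congr _ (fun _ _ => rfl)
  ext d
  simp only [mem_Icc, mem_Ioc]
  omega

theorem Psi_small (m : ℕ) (h1 : 1 ≤ m) (h2 : m ≤ 6100) :
    Psi m ≤ Ac * m - ((20 * (m / 500) + 3 * (m / 1000) : ℕ) : ℝ) * Real.log 10 := by
  have h := lcmUpto_le m h1 h2
  have hL : (0 : ℝ) < Nat.lcmUpto m := by exact_mod_cast Nat.lcmUpto_pos m
  have h3 := Real.log_le_log (by positivity) h
  rw [Real.log_mul (by positivity) (by positivity), Real.log_pow, Real.log_pow,
    ← Psi_eq_log] at h3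
  have h4 := log_r
  have h5 : (m : ℝ) * Real.log (30208 / 10000 : ℝ) ≤ m * Ac :=
    mul_le_mul_of_nonneg_left h4 (by positivity)
  linarith

lemma log_ten : 2.30258 ≤ Real.log 10 := by
  have h1 := Real.log_two_gt_d9
  have h5 := Real.log_five_gt_d9
  rw [show (10 : ℝ) = 2 * 5 by norm_num, Real.log_mul (by norm_num) (by norm_num)]
  norm_num at h1 h5 ⊢
  linarith

theorem Psi_le_of_le (m : ℕ) (h2 : m ≤ 6100) : Psi m ≤ Ac * m := by
  rcases Nat.eq_zero_or_pos m with rfl | h1
  · unfold Psi; simp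
  have h := Psi_small m h1 h2
  have h3 : 0 ≤ ((20 * (m / 500) + 3 * (m / 1000) : ℕ) : ℝ) * Real.log 10 := by
    have := log_ten
    apply mul_nonneg (Nat.cast_nonneg _)
    norm_num at this
    linarith
  linarith

theorem Psi_large (n : ℕ) (hn : 1000 ≤ n) : Psi n ≤ Ac * n + 18 * Real.log n - 223 := by
  induction n using Nat.strong_induction_on with
  | _ n ih =>
    have hnR : (1000 : ℝ) ≤ n := by exact_mod_cast hn
    have h10 := log_ten
    rcases Nat.lt_or_ge 6100 n with h | h
    · set q := (n + 29) / 30 with hq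
      have hq1 : n ≤ 30 * q := by omega
      have hq2 : 30 * q ≤ n + 29 := by omega
      have hm := ih (5 * q) (by omega) (by omega)
      have e1 := Psi_mono hq1
      have e2 := Psi_sub_le_Ulog q
      have e3 := Ulog_upper q
      have hq3 : (30 : ℝ) * q ≤ n + 29 := by exact_mod_cast hq2
      have hq4 : (n : ℝ) ≤ 30 * q := by exact_mod_cast hq1
      have hnR' : (6100 : ℝ) < n := by exact_mod_cast h
      have e4 : Real.log ((5 * q : ℕ) : ℝ) ≤ Real.log n + 29 / n - Real.log 6 := by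
        have hqpos : (0 : ℝ) < q := by linarith
        have f1 : Real.log (6 * ((5 * q : ℕ) : ℝ)) ≤ Real.log ((n : ℝ) + 29) := by
          apply Real.log_le_log
          · push_cast; positivity
          · push_cast; linarith
        rw [Real.log_mul (by norm_num) (by push_cast; positivity)] at f1
        have f2 : Real.log (((n : ℝ) + 29) / n) ≤ ((n : ℝ) + 29) / n - 1 :=
          Real.log_le_sub_one_of_pos (by positivity)
        rw [Real.log_div (by positivity) (by positivity)] at f2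
        have f3 : ((n : ℝ) + 29) / n - 1 = 29 / n := by field_simp; ring
        linarith
      have e5 : (29 : ℝ) / n ≤ 29 / 6100 :=
        div_le_div_of_nonneg_left (by norm_num) (by norm_num) hnR'.le
      have e6 : Real.log 6 = Real.log 2 + Real.log 3 := by
        rw [show (6 : ℝ) = 2 * 3 by norm_num, Real.log_mul (by norm_num) (by norm_num)]
      have h1 := Real.log_two_gt_d9
      have h3 := Real.log_three_gt_d9
      have hB := Bc_bounds
      have hA : Bc = 25 * Ac := by unfold Ac; ring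
      have hA2 := Ac_bounds
      push_cast at hm e4
      norm_num at h1 h3 hB hA2
      nlinarith [mul_le_mul_of_nonneg_left hq3 (show (0 : ℝ) ≤ Ac by linarith [hA2.1])]
    · have h1 := Psi_small n (by omega) h
      have h2 : (43 : ℝ) ≤ ((20 * (n / 500) + 3 * (n / 1000) : ℕ) : ℝ) := by
        have : 43 ≤ 20 * (n / 500) + 3 * (n / 1000) := by omega
        exact_mod_cast this
      have h3 : 3 * Real.log 10 ≤ Real.log n := by
        have : 3 * Real.log 10 = Real.log ((10 : ℝ) ^ 3) := by rw [Real.log_pow]; push_cast; ring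
        rw [this]
        apply Real.log_le_log (by norm_num)
        rw [show (10 : ℝ) ^ 3 = 1000 by norm_num]
        exact hnR
      norm_num at h10
      nlinarith

/-- `θ ≤ ψ` -/
lemma theta_le_Psi (n : ℕ) : ∑ p ∈ (Icc 1 n).filter Nat.Prime, Real.log p ≤ Psi n := by
  unfold Psi
  have h : ∑ p ∈ (Icc 1 n).filter Nat.Prime, Real.log p =
      ∑ p ∈ (Icc 1 n).filter Nat.Prime, ArithmeticFunction.vonMangoldt p := by
    apply Finset.sum_congr rfl
    intro p hp
    rw [ArithmeticFunction.vonMangoldt_apply_prime (mem_filter.1 hp).2]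
  rw [h]
  apply Finset.sum_le_sum_of_subset_of_nonneg (filter_subset _ _)
  intro d _ _
  exact ArithmeticFunction.vonMangoldt_nonneg

/-- the error term of the upper bound for `ψ` -/
noncomputable def errP (n : ℕ) : ℝ := max 0 (18 * Real.log n - 223)

theorem Psi_le (n : ℕ) : Psi n ≤ Ac * n + errP n := by
  rcases Nat.lt_or_ge 6100 n with h | h
  · have := Psi_large n (by omega)
    have h2 : 18 * Real.log n - 223 ≤ errP n := le_max_right _ _
    linarith
  · have := Psi_le_of_le n h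
    have h2 : 0 ≤ errP n := le_max_left _ _
    linarith

theorem theta_le (n : ℕ) :
    ∑ p ∈ (Icc 1 n).filter Nat.Prime, Real.log p ≤ 1.105551 * n + max 0 (18 * Real.log n - 223) := by
  have h1 := theta_le_Psi n
  have h2 := Psi_le n
  have h3 : Ac * n ≤ 1.105551 * n := mul_le_mul_of_nonneg_right Ac_bounds.2 (Nat.cast_nonneg n)
  unfold errP at h2
  linarith

lemma errP_le (n : ℕ) : errP n ≤ 0.00004 * n := by
  unfold errP
  apply max_le (by positivity)
  rcases Nat.eq_zero_or_pos n with rfl | hn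
  · simp
  have hnR : (0 : ℝ) < n := by exact_mod_cast hn
  have h1 : Real.log ((n : ℝ) / 2 ^ 19) ≤ (n : ℝ) / 2 ^ 19 - 1 :=
    Real.log_le_sub_one_of_pos (by positivity)
  rw [Real.log_div (by positivity) (by positivity), Real.log_pow] at h1
  have h2 := Real.log_two_lt_d9
  push_cast at h1
  norm_num at h1 h2 ⊢
  linarith

/-- `ψ n ≤ 1.1056 n` -/
theorem Psi_le_lin (n : ℕ) : Psi n ≤ 1.1056 * n := by
  have h1 := Psi_le n
  have h2 := errP_le n
  have h3 : Ac * n ≤ 1.105551 * n := mul_le_mul_of_nonneg_right Ac_bounds.2 (Nat.cast_nonneg n)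
  have h4 : (0 : ℝ) ≤ n := Nat.cast_nonneg n
  norm_num at h1 h2 h3 ⊢
  linarith

/-- `θ n ≤ 1.1056 n` -/
theorem theta_le_lin (n : ℕ) :
    ∑ p ∈ (Icc 1 n).filter Nat.Prime, Real.log p ≤ 1.1056 * n :=
  (theta_le_Psi n).trans (Psi_le_lin n)

/-! ### the lower bound for `ψ` -/

lemma Slog_factorial (n : ℕ) : Slog n = Real.log (n.factorial : ℝ) := by
  rw [log_factorial_sum]; rfl

lemma Ulog_one : 25 ≤ Ulog 1 := by
  unfold Ulog
  rw [Slog_factorial, Slog_factorial, Slog_factorial, Slog_factorial, Slog_factorial]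
  have h : (25 : ℝ) ≤ Real.log 77636318760 := by
    rw [Real.le_log_iff_exp_le (by norm_num)]
    have h1 := Real.exp_one_lt_d9
    have h2 : Real.exp 25 = (Real.exp 1) ^ 25 := by
      rw [← Real.exp_nat_mul]; norm_num
    rw [h2]
    have h3 : (Real.exp 1) ^ 25 ≤ (2.7182818286 : ℝ) ^ 25 :=
      pow_le_pow_left₀ (Real.exp_pos 1).le h1.le 25
    refine h3.trans ?_
    norm_num
  have h4 : Real.log ((30 * 1).factorial : ℝ) = Real.log 77636318760 +
      Real.log ((15 * 1).factorial : ℝ) + Real.log ((10 * 1).factorial : ℝ) +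
      Real.log ((6 * 1).factorial : ℝ) := by
    rw [← Real.log_mul (by norm_num) (by positivity), ← Real.log_mul (by positivity) (by positivity),
      ← Real.log_mul (by positivity) (by positivity)]
    congr 1
    norm_num [Nat.factorial]
  have h5 : Real.log ((1 : ℕ).factorial : ℝ) = 0 := by simp
  rw [h4, h5]
  linarith

lemma Ulog_lower (q : ℕ) (hq : 1 ≤ q) : Bc * q - 3.14 - Real.log q / 2 ≤ Ulog q := by
  have key : ∀ q : ℕ, 1 ≤ q → Bc * q - 2.64 - (1 + Real.log q) / 2 + 1 / (2 * q) ≤ Ulog q := by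
    intro q hq
    induction q, hq using Nat.le_induction with
    | base =>
      have h1 := Ulog_one
      have h2 := Bc_bounds
      norm_num at h2 ⊢
      linarith
    | succ q hq ih =>
      have h1 := Ulog_step_lower q hq
      have h2 := inv_succ_le_log q hq
      have hqR : (0 : ℝ) < q := by exact_mod_cast hq
      have h3 : (1 : ℝ) / (2 * ((q : ℝ) + 1)) = 1 / 2 * (1 / ((q : ℝ) + 1)) := by field_simp
      push_cast
      rw [h3]
      linarith
  have h := key q hq
  have hqR : (0 : ℝ) < q := by exact_mod_cast hq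
  have h2 : 0 ≤ (1 : ℝ) / (2 * q) := by positivity
  have h3 : (3.14 : ℝ) = 2.64 + 1 / 2 := by norm_num
  rw [h3]
  linarith

theorem Psi_ge (n : ℕ) (hn : 1 ≤ n) : 0.92129 * n - 28.2 - Real.log n / 2 ≤ Psi n := by
  have hnR : (1 : ℝ) ≤ n := by exact_mod_cast hn
  have hlog : 0 ≤ Real.log n := Real.log_nonneg hnR
  rcases Nat.lt_or_ge n 30 with h | h
  · have h1 : (n : ℝ) ≤ 29 := by
      have : n ≤ 29 := by omega
      exact_mod_cast this
    have h2 : 0 ≤ Psi n := Finset.sum_nonneg fun d _ => ArithmeticFunction.vonMangoldt_nonneg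
    norm_num
    linarith
  · set q := n / 30 with hq
    have hq1 : 1 ≤ q := by omega
    have hq2 : 30 * q ≤ n := by omega
    have hq3 : n ≤ 30 * q + 29 := by omega
    have h1 := Ulog_lower q hq1
    have h2 := Ulog_le_Psi q
    have h3 := Psi_mono hq2
    have hB := Bc_bounds
    have hqR : (0 : ℝ) < q := by exact_mod_cast hq1
    have e1 : (n : ℝ) ≤ 30 * q + 29 := by exact_mod_cast hq3
    have e2 : (30 : ℝ) * q ≤ n := by exact_mod_cast hq2
    have e3 : Real.log (30 * q) ≤ Real.log n := Real.log_le_log (by positivity) e2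
    rw [Real.log_mul (by norm_num) (by positivity),
      show (30 : ℝ) = 2 * 3 * 5 by norm_num, Real.log_mul (by norm_num) (by norm_num),
      Real.log_mul (by norm_num) (by norm_num)] at e3
    have l2 := Real.log_two_gt_d9
    have l3 := Real.log_three_gt_d9
    have l5 := Real.log_five_gt_d9
    have e4 : Bc * q ≥ 27.63875 * q := mul_le_mul_of_nonneg_right hB.1 hqR.le
    norm_num at h1 hB l2 l3 l5 e4 ⊢
    linarith

end Pool.Agent.Lib.MP_bf4c7f
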