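import Mathlib
import Pool.Agent.Lib.MP_bf4c7f_nt.Crit

/-!
# The criterion: a weighted sum which produces an integer with at most three prime factors
-/

set_option autoImplicit false
open Finset

namespace Pool.Agent.Lib.MP_bf4c7f

/-- the weight of one integer with at least `j` prime factors -/
lemma len_le (j n N y : ℕ) (hn1 : 1 ≤ n) (hnN : n < N) (hy : 7 ≤ y) (h30 : Nat.Coprime n 30)
    (h5 : j ≤ n.primeFactorsList.length) :
    (j : ℝ) - Real.log N / Real.log y ≤
      ∑ p ∈ P7 y, (n.factorization p : ℝ) * (1 - Real.log p / Real.log y) := by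
  have hyR : (7 : ℝ) ≤ y := by exact_mod_cast hy
  have hY : 0 < Real.log y := Real.log_pos (by linarith)
  have h1 : (j : ℝ) ≤ ∑ p ∈ n.primeFactors, (n.factorization p : ℝ) := by
    have h2 : ArithmeticFunction.cardFactors n = n.factorization.sum fun _ k => k :=
      ArithmeticFunction.cardFactors_eq_sum_factorization
    rw [ArithmeticFunction.cardFactors_apply] at h2
    unfold Finsupp.sum at h2
    rw [Nat.support_factorization] at h2
    rw [h2] at h5
    exact_mod_cast h5
  have h2 : Real.log n = ∑ p ∈ n.primeFactors, (n.factorization p : ℝ) * Real.log p := by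
    rw [Real.log_nat_eq_sum_factorization]
    unfold Finsupp.sum
    rw [Nat.support_factorization]
  have h3 : Real.log n ≤ Real.log N := by
    apply Real.log_le_log (by exact_mod_cast hn1)
    exact_mod_cast hnN.le
  have h4 : (j : ℝ) - Real.log N / Real.log y ≤
      ∑ p ∈ n.primeFactors, (n.factorization p : ℝ) * (1 - Real.log p / Real.log y) := by
    have e1 : ∑ p ∈ n.primeFactors, (n.factorization p : ℝ) * (1 - Real.log p / Real.log y) =
        ∑ p ∈ n.primeFactors, (n.factorization p : ℝ) -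
          (∑ p ∈ n.primeFactors, (n.factorization p : ℝ) * Real.log p) / Real.log y := by
      rw [Finset.sum_div, ← Finset.sum_sub_distrib]
      apply Finset.sum_congr rfl
      intro p _
      ring
    rw [e1, ← h2]
    have := div_le_div_of_nonneg_right h3 hY.le
    linarith
  refine h4.trans ?_
  have h6 : ∑ p ∈ n.primeFactors, (n.factorization p : ℝ) * (1 - Real.log p / Real.log y) ≤
      ∑ p ∈ n.primeFactors.filter (fun p => p ≤ y),
        (n.factorization p : ℝ) * (1 - Real.log p / Real.log y) := by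
    rw [← Finset.sum_filter_add_sum_filter_not n.primeFactors (fun p => p ≤ y)]
    have : ∑ p ∈ n.primeFactors.filter (fun p => ¬ p ≤ y),
        (n.factorization p : ℝ) * (1 - Real.log p / Real.log y) ≤ 0 := by
      apply Finset.sum_nonpos
      intro p hp
      rw [mem_filter] at hp
      have h7 : (y : ℝ) ≤ p := by exact_mod_cast (not_le.1 hp.2).le
      have h8 : Real.log y ≤ Real.log p := Real.log_le_log (by linarith) h7
      have h9 : 1 ≤ Real.log p / Real.log y := by rw [le_div_iff₀ hY]; linarith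
      have h10 : (0 : ℝ) ≤ (n.factorization p : ℝ) := by positivity
      nlinarith
    linarith
  refine h6.trans (le_of_eq ?_)
  apply Finset.sum_subset
  · intro p hp
    rw [mem_filter, Nat.mem_primeFactors] at hp
    rw [mem_P7]
    refine ⟨hp.1.1, ?_, hp.2⟩
    by_contra hlt
    have hpp := hp.1.1
    have hdvd := hp.1.2.1
    have hc : Nat.Coprime p 30 := Nat.Coprime.coprime_dvd_left hdvd h30
    have hlt' : p < 7 := not_le.1 hlt
    interval_cases p <;> revert hpp hc <;> decide
  · intro p hp hp'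
    rw [mem_P7] at hp
    have : n.factorization p = 0 := by
      by_contra h0
      apply hp'
      rw [mem_filter, ← Nat.support_factorization, Finsupp.mem_support_iff]
      exact ⟨h0, hp.2.2⟩
    rw [this]
    simp

/-- all prime factors are at least `z` -/
def Rough (z n : ℕ) : Prop := ∀ p : ℕ, p.Prime → p ∣ n → z ≤ p

/-- The criterion. -/
theorem crit3 (I : Finset ℕ) (N : ℕ) (hI : ∀ n ∈ I, 1 ≤ n ∧ n < N) (w0 : ℕ → ℝ) (V : ℝ)
    (hV0 : 0 ≤ V) (hw : ∀ n ∈ I, 0 ≤ w0 n) (hw30 : ∀ n ∈ I, ¬ Nat.Coprime n 30 → w0 n = 0)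
    (z y : ℕ) (hz : 7 ≤ z) (hzy : z ≤ y)
    (hV : ∀ n ∈ I, Nat.Coprime n 30 → Rough z n → w0 n ≤ V) (w1 : ℕ → ℕ → ℝ)
    (hw1 : ∀ p n, 0 ≤ w1 p n)
    (hw1' : ∀ n ∈ I, Nat.Coprime n 30 → Rough z n → ∀ p : ℕ, p.Prime → z ≤ p → p ≤ y → p ∣ n →
      1 ≤ w1 p n)
    (lm : ℝ) (hlm0 : 0 ≤ lm) (hlm : 1 ≤ lm * (4 - Real.log N / Real.log y))
    (Sq : ℝ) (hSq : ∀ B ⊆ I, (∀ n ∈ B, ∃ p : ℕ, z ≤ p ∧ p ≤ y ∧ p ^ 2 ∣ n) → (B.card : ℝ) ≤ Sq)
    (hmain : V * Sq <
      ∑ n ∈ I, w0 n - ∑ p ∈ P7 (z - 1), ∑ n ∈ I.filter (fun n => p ∣ n), w0 n -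
        lm * V * ∑ p ∈ (Icc z y).filter Nat.Prime,
          (1 - Real.log p / Real.log y) * ∑ n ∈ I.filter (fun n => p ∣ n), w1 p n) :
    ∃ n ∈ I, n.primeFactorsList.length ≤ 3 := by
  classical
  by_contra hcon
  push Not at hcon
  have hyR : (7 : ℝ) ≤ y := by exact_mod_cast hz.trans hzy
  have hY : 0 < Real.log y := Real.log_pos (by linarith)
  have hwp : ∀ p ∈ (Icc z y).filter Nat.Prime, 0 ≤ 1 - Real.log p / Real.log y := by
    intro p hp
    rw [mem_filter, mem_Icc] at hp
    have h3 : Real.log p ≤ Real.log y :=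
      Real.log_le_log (by exact_mod_cast hp.2.pos) (by exact_mod_cast hp.1.2)
    have h4 : Real.log p / Real.log y ≤ 1 := by rw [div_le_one hY]; exact h3
    linarith
  set bad : ℕ → Prop := fun n => ∃ p : ℕ, z ≤ p ∧ p ≤ y ∧ p ^ 2 ∣ n with hbad
  -- exchange the sums
  have e1 : ∑ p ∈ P7 (z - 1), ∑ n ∈ I.filter (fun n => p ∣ n), w0 n =
      ∑ n ∈ I, w0 n * (((P7 (z - 1)).filter (fun p => p ∣ n)).card : ℝ) := by
    simp_rw [Finset.sum_filter]
    rw [Finset.sum_comm]
    apply Finset.sum_congr rfl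
    intro n _
    rw [← Finset.sum_filter, Finset.sum_const, nsmul_eq_mul, mul_comm]
  have e2 : ∑ p ∈ (Icc z y).filter Nat.Prime,
      (1 - Real.log p / Real.log y) * ∑ n ∈ I.filter (fun n => p ∣ n), w1 p n =
      ∑ n ∈ I, ∑ p ∈ ((Icc z y).filter Nat.Prime).filter (fun p => p ∣ n),
        (1 - Real.log p / Real.log y) * w1 p n := by
    have : ∀ p ∈ (Icc z y).filter Nat.Prime,
        (1 - Real.log p / Real.log y) * ∑ n ∈ I.filter (fun n => p ∣ n), w1 p n =
        ∑ n ∈ I, if p ∣ n then (1 - Real.log p / Real.log y) * w1 p n else 0 := by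
      intro p _
      rw [Finset.mul_sum, Finset.sum_filter]
    rw [Finset.sum_congr rfl this, Finset.sum_comm]
    apply Finset.sum_congr rfl
    intro n _
    rw [← Finset.sum_filter]
  have e3 : V * ((I.filter bad).card : ℝ) = ∑ n ∈ I, if bad n then V else 0 := by
    rw [← Finset.sum_filter, Finset.sum_const, nsmul_eq_mul, mul_comm]
  have hmain' : V * ((I.filter bad).card : ℝ) <
      ∑ n ∈ I, w0 n - ∑ p ∈ P7 (z - 1), ∑ n ∈ I.filter (fun n => p ∣ n), w0 n -
        lm * V * ∑ p ∈ (Icc z y).filter Nat.Prime,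
          (1 - Real.log p / Real.log y) * ∑ n ∈ I.filter (fun n => p ∣ n), w1 p n := by
    refine lt_of_le_of_lt (mul_le_mul_of_nonneg_left ?_ hV0) hmain
    exact hSq _ (Finset.filter_subset _ _) (fun n hn => (mem_filter.1 hn).2)
  rw [e3, e1, e2, Finset.mul_sum, ← Finset.sum_sub_distrib, ← Finset.sum_sub_distrib] at hmain'
  have hle : ∑ n ∈ I, (w0 n - w0 n * (((P7 (z - 1)).filter (fun p => p ∣ n)).card : ℝ) -
      lm * V * ∑ p ∈ ((Icc z y).filter Nat.Prime).filter (fun p => p ∣ n),
        (1 - Real.log p / Real.log y) * w1 p n) ≤ ∑ n ∈ I, if bad n then V else 0 := by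
    apply Finset.sum_le_sum
    intro n hn
    have hbn : 0 ≤ (if bad n then V else 0) := by split_ifs <;> simp [hV0]
    have hs0 : 0 ≤ ∑ p ∈ ((Icc z y).filter Nat.Prime).filter (fun p => p ∣ n),
        (1 - Real.log p / Real.log y) * w1 p n := by
      apply Finset.sum_nonneg
      intro p hp
      exact mul_nonneg (hwp p (mem_filter.1 hp).1) (hw1 p n)
    have hs1 : 0 ≤ lm * V * ∑ p ∈ ((Icc z y).filter Nat.Prime).filter (fun p => p ∣ n),
        (1 - Real.log p / Real.log y) * w1 p n := by positivity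
    by_cases h30 : Nat.Coprime n 30
    swap
    · rw [hw30 n hn h30]
      linarith
    by_cases hr : Rough z n
    swap
    · -- a small prime factor
      unfold Rough at hr
      push Not at hr
      obtain ⟨p, hp, hpn, hpz⟩ := hr
      have hp7 : 7 ≤ p := by
        by_contra hlt
        have hc : Nat.Coprime p 30 := Nat.Coprime.coprime_dvd_left hpn h30
        have hlt' : p < 7 := not_le.1 hlt
        interval_cases p <;> revert hp hc <;> decide
      have hmem : p ∈ (P7 (z - 1)).filter (fun p => p ∣ n) := by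
        rw [mem_filter, mem_P7]
        exact ⟨⟨hp, hp7, by omega⟩, hpn⟩
      have hcard : (1 : ℝ) ≤ (((P7 (z - 1)).filter (fun p => p ∣ n)).card : ℝ) := by
        have : 1 ≤ ((P7 (z - 1)).filter (fun p => p ∣ n)).card := Finset.card_pos.2 ⟨p, hmem⟩
        exact_mod_cast this
      have h0 := hw n hn
      nlinarith
    · have hempty : (P7 (z - 1)).filter (fun p => p ∣ n) = ∅ := by
        rw [Finset.filter_eq_empty_iff]
        intro p hp hpn
        rw [mem_P7] at hp
        have := hr p hp.1 hpn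
        omega
      rw [hempty, Finset.card_empty, Nat.cast_zero, mul_zero, sub_zero]
      have hwn := hV n hn h30 hr
      have hge : ∑ p ∈ ((Icc z y).filter Nat.Prime).filter (fun p => p ∣ n),
          (1 - Real.log p / Real.log y) ≤
          ∑ p ∈ ((Icc z y).filter Nat.Prime).filter (fun p => p ∣ n),
            (1 - Real.log p / Real.log y) * w1 p n := by
        apply Finset.sum_le_sum
        intro p hp
        have h1 := hwp p (mem_filter.1 hp).1
        rw [mem_filter, mem_filter, mem_Icc] at hp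
        have h2 := hw1' n hn h30 hr p hp.1.2 hp.1.1.1 hp.1.1.2 hp.2
        nlinarith
      by_cases hb : bad n
      · rw [if_pos hb]
        linarith
      · rw [if_neg hb]
        have h4 := len_le 4 n N y (hI n hn).1 (hI n hn).2 (hz.trans hzy) h30 (hcon n hn)
        have h5 : ∑ p ∈ P7 y, (n.factorization p : ℝ) * (1 - Real.log p / Real.log y) =
            ∑ p ∈ ((Icc z y).filter Nat.Prime).filter (fun p => p ∣ n),
              (1 - Real.log p / Real.log y) := by
          symm
          have hsub : ((Icc z y).filter Nat.Prime).filter (fun p => p ∣ n) ⊆ P7 y := by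
            intro p hp
            rw [mem_filter, mem_filter, mem_Icc] at hp
            rw [mem_P7]
            exact ⟨hp.1.2, hz.trans hp.1.1.1, hp.1.1.2⟩
          rw [← Finset.sum_subset hsub (f := fun p => (n.factorization p : ℝ) *
            (1 - Real.log p / Real.log y))]
          · apply Finset.sum_congr rfl
            intro p hp
            rw [mem_filter, mem_filter, mem_Icc] at hp
            have hn0 : n ≠ 0 := by have := (hI n hn).1; omega
            have h6 : n.factorization p = 1 := by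
              have h7 : 1 ≤ n.factorization p :=
                (hp.1.2.dvd_iff_one_le_factorization hn0).1 hp.2
              have h8 : ¬ 2 ≤ n.factorization p := by
                intro h9
                apply hb
                exact ⟨p, hp.1.1.1, hp.1.1.2,
                  (hp.1.2.pow_dvd_iff_le_factorization hn0).2 h9⟩
              omega
            rw [h6]
            simp
          · intro p hp hp'
            rw [mem_P7] at hp
            have h6 : ¬ p ∣ n := by
              intro hpn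
              apply hp'
              rw [mem_filter, mem_filter, mem_Icc]
              exact ⟨⟨⟨hr p hp.1 hpn, hp.2.2⟩, hp.1⟩, hpn⟩
            rw [Nat.factorization_eq_zero_of_not_dvd h6]
            simp
        rw [h5] at h4
        push_cast at h4
        have h6 : lm * (4 - Real.log N / Real.log y) ≤
            lm * ∑ p ∈ ((Icc z y).filter Nat.Prime).filter (fun p => p ∣ n),
              (1 - Real.log p / Real.log y) * w1 p n :=
          mul_le_mul_of_nonneg_left (h4.trans hge) hlm0
        have h7 : V * 1 ≤ V * (lm * ∑ p ∈ ((Icc z y).filter Nat.Prime).filter (fun p => p ∣ n),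
              (1 - Real.log p / Real.log y) * w1 p n) :=
          mul_le_mul_of_nonneg_left (hlm.trans h6) hV0
        linarith
  linarith

lemma card_mult_le (a b q : ℕ) (hab : a ≤ b) (hq : 0 < q) :
    (((Ioc a b).filter (fun n => q ∣ n)).card : ℝ) ≤ ((b : ℝ) - a) / q + 1 := by
  have hqR : (0 : ℝ) < q := by exact_mod_cast hq
  have h1 : (Ioc a b).filter (fun n => q ∣ n) ⊆ (Ioc (a / q) (b / q)).image (fun m => q * m) := by
    intro n hn
    rw [mem_filter, mem_Ioc] at hn
    obtain ⟨⟨h1, h2⟩, ⟨m, rfl⟩⟩ := hn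
    rw [mem_image]
    refine ⟨m, ?_, rfl⟩
    rw [mem_Ioc, Nat.div_lt_iff_lt_mul hq, Nat.le_div_iff_mul_le hq]
    constructor <;> linarith [mul_comm q m]
  have h2 : ((Ioc a b).filter (fun n => q ∣ n)).card ≤ b / q - a / q := by
    refine (Finset.card_le_card h1).trans (Finset.card_image_le.trans ?_)
    rw [Nat.card_Ioc]
  have h3 : (((Ioc a b).filter (fun n => q ∣ n)).card : ℝ) ≤ ((b / q : ℕ) : ℝ) - ((a / q : ℕ) : ℝ) := by
    have h4 : a / q ≤ b / q := Nat.div_le_div_right hab
    rw [← Nat.cast_sub h4]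
    exact_mod_cast h2
  have h4 : ((b / q : ℕ) : ℝ) ≤ (b : ℝ) / q := Nat.cast_div_le
  have h5 := floor_ge a q hq
  have h6 : ((b : ℝ) - a) / q = (b : ℝ) / q - (a : ℝ) / q := by ring
  rw [h6]
  linarith

lemma sum_inv_sq_le (z y : ℕ) (hz : 2 ≤ z) :
    ∑ p ∈ Icc z y, 1 / (p : ℝ) ^ 2 ≤ 1 / ((z : ℝ) - 1) := by
  have hzR : (2 : ℝ) ≤ z := by exact_mod_cast hz
  rcases le_or_gt z y with h | h
  · have key : ∑ p ∈ Icc z y, 1 / (p : ℝ) ^ 2 ≤ 1 / ((z : ℝ) - 1) - 1 / y := by
      induction y, h using Nat.le_induction with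
      | base =>
        rw [Finset.Icc_self, Finset.sum_singleton]
        have h1 : 1 / ((z : ℝ) - 1) - 1 / z = 1 / (((z : ℝ) - 1) * z) := by
          have : (z : ℝ) - 1 ≠ 0 := by linarith
          field_simp
          ring
        rw [h1]
        apply one_div_le_one_div_of_le
        · nlinarith
        · nlinarith
      | succ n hn ih =>
        rw [Finset.sum_Icc_succ_top (by omega)]
        have hnR : (2 : ℝ) ≤ n := by exact_mod_cast hz.trans hn
        have h1 : 1 / ((n + 1 : ℕ) : ℝ) ^ 2 ≤ 1 / (n : ℝ) - 1 / ((n + 1 : ℕ) : ℝ) := by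
          push_cast
          have h2 : 1 / (n : ℝ) - 1 / ((n : ℝ) + 1) = 1 / ((n : ℝ) * ((n : ℝ) + 1)) := by
            field_simp
            ring
          rw [h2]
          apply one_div_le_one_div_of_le
          · positivity
          · nlinarith
        linarith
    have : 0 ≤ 1 / (y : ℝ) := by positivity
    linarith
  · rw [Finset.Icc_eq_empty (by omega), Finset.sum_empty]
    have : 0 < (z : ℝ) - 1 := by linarith
    positivity

/-- the number of integers divisible by the square of an integer in `[z, y]` -/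
lemma card_sq (a b z y : ℕ) (hab : a ≤ b) (hz : 2 ≤ z) (B : Finset ℕ) (hB : B ⊆ Ioc a b)
    (hP : ∀ n ∈ B, ∃ p : ℕ, z ≤ p ∧ p ≤ y ∧ p ^ 2 ∣ n) :
    (B.card : ℝ) ≤ ((b : ℝ) - a) / ((z : ℝ) - 1) + y := by
  classical
  have h1 : B ⊆ (Icc z y).biUnion (fun p => (Ioc a b).filter (fun n => p ^ 2 ∣ n)) := by
    intro n hn
    obtain ⟨p, h1, h2, h3⟩ := hP n hn
    rw [mem_biUnion]
    exact ⟨p, mem_Icc.2 ⟨h1, h2⟩, mem_filter.2 ⟨hB hn, h3⟩⟩
  have h2 : B.card ≤ ∑ p ∈ Icc z y, ((Ioc a b).filter (fun n => p ^ 2 ∣ n)).card :=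
    (Finset.card_le_card h1).trans Finset.card_biUnion_le
  have h3 : ∀ p ∈ Icc z y, (((Ioc a b).filter (fun n => p ^ 2 ∣ n)).card : ℝ) ≤
      ((b : ℝ) - a) * (1 / (p : ℝ) ^ 2) + 1 := by
    intro p hp
    rw [mem_Icc] at hp
    have hp0 : 0 < p ^ 2 := by
      have : 0 < p := by omega
      positivity
    have := card_mult_le a b (p ^ 2) hab hp0
    push_cast at this
    rw [mul_one_div]
    exact this
  have h4 : (B.card : ℝ) ≤ ∑ p ∈ Icc z y, (((b : ℝ) - a) * (1 / (p : ℝ) ^ 2) + 1) := by
    calc (B.card : ℝ) ≤ ((∑ p ∈ Icc z y, ((Ioc a b).filter (fun n => p ^ 2 ∣ n)).card : ℕ) : ℝ) := by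
          exact_mod_cast h2
      _ = ∑ p ∈ Icc z y, (((Ioc a b).filter (fun n => p ^ 2 ∣ n)).card : ℝ) := by push_cast; rfl
      _ ≤ _ := Finset.sum_le_sum h3
  rw [Finset.sum_add_distrib, ← Finset.mul_sum, Finset.sum_const, nsmul_eq_mul, mul_one,
    Nat.card_Icc] at h4
  have h5 := sum_inv_sq_le z y hz
  have habR : (0 : ℝ) ≤ (b : ℝ) - a := by
    have : (a : ℝ) ≤ b := by exact_mod_cast hab
    linarith
  have h6 := mul_le_mul_of_nonneg_left h5 habR
  have h7 : ((y + 1 - z : ℕ) : ℝ) ≤ y := by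
    have : y + 1 - z ≤ y := by omega
    exact_mod_cast this
  rw [mul_one_div] at h6
  linarith

end Pool.Agent.Lib.MP_bf4c7f
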