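import Mathlib

/-!
# Numerical values of some logarithms
-/

set_option autoImplicit false

namespace Pool.Agent.Lib.MP_bf4c7f

lemma log_lo (p a : ℕ) (hp : 1 ≤ p) (h : 2 ^ a ≤ p ^ 20000) :
    (a : ℝ) / 20000 * Real.log 2 ≤ Real.log p := by
  have hpR : (0 : ℝ) < p := by exact_mod_cast hp
  have h2 : ((2 : ℝ)) ^ a ≤ (p : ℝ) ^ 20000 := by exact_mod_cast h
  have h3 := Real.log_le_log (by positivity) h2
  rw [Real.log_pow, Real.log_pow] at h3
  push_cast at h3
  linarith

lemma log_hi (p a : ℕ) (hp : 1 ≤ p) (h : p ^ 20000 ≤ 2 ^ a) :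
    Real.log p ≤ (a : ℝ) / 20000 * Real.log 2 := by
  have hpR : (0 : ℝ) < p := by exact_mod_cast hp
  have h2 : (p : ℝ) ^ 20000 ≤ ((2 : ℝ)) ^ a := by exact_mod_cast h
  have h3 := Real.log_le_log (by positivity) h2
  rw [Real.log_pow, Real.log_pow] at h3
  push_cast at h3
  linarith

lemma lg3 : 1.0986 ≤ Real.log 3 ∧ Real.log 3 ≤ 1.0987 := by
  have h1 := log_lo 3 31699 (by norm_num) (by decide +kernel)
  have h2 := log_hi 3 31700 (by norm_num) (by decide +kernel)
  have h3 := Real.log_two_gt_d9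
  have h4 := Real.log_two_lt_d9
  push_cast at h1 h2
  norm_num at h1 h2 h3 h4 ⊢
  constructor <;> linarith

lemma lg5 : 1.6094 ≤ Real.log 5 ∧ Real.log 5 ≤ 1.6095 := by
  have h1 := log_lo 5 46438 (by norm_num) (by decide +kernel)
  have h2 := log_hi 5 46439 (by norm_num) (by decide +kernel)
  have h3 := Real.log_two_gt_d9
  have h4 := Real.log_two_lt_d9
  push_cast at h1 h2
  norm_num at h1 h2 h3 h4 ⊢
  constructor <;> linarith

lemma lg7 : 1.9459 ≤ Real.log 7 ∧ Real.log 7 ≤ 1.9460 := by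
  have h1 := log_lo 7 56147 (by norm_num) (by decide +kernel)
  have h2 := log_hi 7 56148 (by norm_num) (by decide +kernel)
  have h3 := Real.log_two_gt_d9
  have h4 := Real.log_two_lt_d9
  push_cast at h1 h2
  norm_num at h1 h2 h3 h4 ⊢
  constructor <;> linarith

lemma lg11 : 2.3978 ≤ Real.log 11 ∧ Real.log 11 ≤ 2.3980 := by
  have h1 := log_lo 11 69188 (by norm_num) (by decide +kernel)
  have h2 := log_hi 11 69189 (by norm_num) (by decide +kernel)
  have h3 := Real.log_two_gt_d9
  have h4 := Real.log_two_lt_d9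
  push_cast at h1 h2
  norm_num at h1 h2 h3 h4 ⊢
  constructor <;> linarith

lemma lg13 : 2.5649 ≤ Real.log 13 ∧ Real.log 13 ≤ 2.5650 := by
  have h1 := log_lo 13 74008 (by norm_num) (by decide +kernel)
  have h2 := log_hi 13 74009 (by norm_num) (by decide +kernel)
  have h3 := Real.log_two_gt_d9
  have h4 := Real.log_two_lt_d9
  push_cast at h1 h2
  norm_num at h1 h2 h3 h4 ⊢
  constructor <;> linarith

lemma lg17 : 2.8332 ≤ Real.log 17 ∧ Real.log 17 ≤ 2.8333 := by
  have h1 := log_lo 17 81749 (by norm_num) (by decide +kernel)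
  have h2 := log_hi 17 81750 (by norm_num) (by decide +kernel)
  have h3 := Real.log_two_gt_d9
  have h4 := Real.log_two_lt_d9
  push_cast at h1 h2
  norm_num at h1 h2 h3 h4 ⊢
  constructor <;> linarith

lemma lg19 : 2.9444 ≤ Real.log 19 ∧ Real.log 19 ≤ 2.9445 := by
  have h1 := log_lo 19 84958 (by norm_num) (by decide +kernel)
  have h2 := log_hi 19 84959 (by norm_num) (by decide +kernel)
  have h3 := Real.log_two_gt_d9
  have h4 := Real.log_two_lt_d9
  push_cast at h1 h2
  norm_num at h1 h2 h3 h4 ⊢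
  constructor <;> linarith

lemma lg23 : 3.1354 ≤ Real.log 23 ∧ Real.log 23 ≤ 3.1356 := by
  have h1 := log_lo 23 90471 (by norm_num) (by decide +kernel)
  have h2 := log_hi 23 90472 (by norm_num) (by decide +kernel)
  have h3 := Real.log_two_gt_d9
  have h4 := Real.log_two_lt_d9
  push_cast at h1 h2
  norm_num at h1 h2 h3 h4 ⊢
  constructor <;> linarith

lemma lg29 : 3.3672 ≤ Real.log 29 ∧ Real.log 29 ≤ 3.3674 := by
  have h1 := log_lo 29 97159 (by norm_num) (by decide +kernel)
  have h2 := log_hi 29 97160 (by norm_num) (by decide +kernel)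
  have h3 := Real.log_two_gt_d9
  have h4 := Real.log_two_lt_d9
  push_cast at h1 h2
  norm_num at h1 h2 h3 h4 ⊢
  constructor <;> linarith

lemma lg31 : 3.4339 ≤ Real.log 31 ∧ Real.log 31 ≤ 3.4340 := by
  have h1 := log_lo 31 99083 (by norm_num) (by decide +kernel)
  have h2 := log_hi 31 99084 (by norm_num) (by decide +kernel)
  have h3 := Real.log_two_gt_d9
  have h4 := Real.log_two_lt_d9
  push_cast at h1 h2
  norm_num at h1 h2 h3 h4 ⊢
  constructor <;> linarith

end Pool.Agent.Lib.MP_bf4c7f
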