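import Mathlib
import Pool.Agent.Lib.MP_bf4c7f_nt.Weights

/-!
# Selberg weights with general diagonal values
-/

set_option autoImplicit false

namespace Pool.Agent.Lib.MP_bf4c7f

open Finset ArithmeticFunction
open scoped ArithmeticFunction.Moebius

/-- Selberg weights with diagonal values `Y k`. -/
noncomputable def lamY (Y : ℕ → ℝ) (R d : ℕ) : ℝ :=
  (μ d : ℝ) * d * ∑ k ∈ (Icc 1 R).filter (fun k => SC k ∧ d ∣ k), Y k / (Nat.totient k : ℝ)

lemma lamY_eq_zero_of_not_squarefree {Y : ℕ → ℝ} {R d : ℕ} (h : ¬ Squarefree d) :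
    lamY Y R d = 0 := by
  unfold lamY
  rw [moebius_eq_zero_of_not_squarefree h]
  simp

lemma lamY_eq_zero_of_not_SC {Y : ℕ → ℝ} {R d : ℕ} (h : ¬ SC d) : lamY Y R d = 0 := by
  by_cases hs : Squarefree d
  · unfold lamY
    have : (Icc 1 R).filter (fun k => SC k ∧ d ∣ k) = ∅ := by
      rw [Finset.filter_eq_empty_iff]
      rintro k _ ⟨hk, hd⟩
      exact h (SC_dvd hk hd)
    rw [this, Finset.sum_empty, mul_zero]
  · exact lamY_eq_zero_of_not_squarefree hs

/-- the diagonalisation of the weights -/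
lemma sum_lamY_div (Y : ℕ → ℝ) (R k : ℕ) (hk : 0 < k) :
    ∑ d ∈ (Icc 1 R).filter (fun d => k ∣ d), lamY Y R d / d
      = if k ≤ R ∧ SC k then (μ k : ℝ) * Y k / (Nat.totient k : ℝ) else 0 := by
  have h1 : ∀ d ∈ (Icc 1 R).filter (fun d => k ∣ d), lamY Y R d / d
      = ∑ l ∈ (Icc 1 R).filter (fun l => SC l),
        (if d ∣ l then (μ d : ℝ) * (Y l / (Nat.totient l : ℝ)) else 0) := by
    intro d hd
    have hd0 : (d : ℝ) ≠ 0 := by
      have : 1 ≤ d := (mem_Icc.1 (mem_filter.1 hd).1).1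
      positivity
    rw [← Finset.sum_filter, Finset.filter_filter, ← Finset.mul_sum]
    unfold lamY
    field_simp
  rw [Finset.sum_congr rfl h1, Finset.sum_comm]
  have h2 : ∀ l ∈ (Icc 1 R).filter (fun l => SC l),
      ∑ d ∈ (Icc 1 R).filter (fun d => k ∣ d),
        (if d ∣ l then (μ d : ℝ) * (Y l / (Nat.totient l : ℝ)) else 0)
      = if k = l then (μ k : ℝ) * Y l / (Nat.totient l : ℝ) else 0 := by
    intro l hl
    simp only [mem_filter, mem_Icc] at hl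
    obtain ⟨⟨hl1, hl2⟩, hl3⟩ := hl
    rw [← Finset.sum_filter, Finset.filter_filter]
    have h3 : (Icc 1 R).filter (fun a => k ∣ a ∧ a ∣ l) = l.divisors.filter (fun d => k ∣ d) := by
      ext d
      simp only [mem_filter, mem_Icc, Nat.mem_divisors]
      constructor
      · rintro ⟨_, h5, h6⟩
        exact ⟨⟨h6, by omega⟩, h5⟩
      · rintro ⟨⟨h5, _⟩, h6⟩
        exact ⟨⟨Nat.pos_of_dvd_of_pos h5 hl1, (Nat.le_of_dvd hl1 h5).trans hl2⟩, h6, h5⟩
    rw [h3, ← Finset.sum_mul, sum_moebius_between k l hk hl3.1]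
    split_ifs
    · ring
    · ring
  rw [Finset.sum_congr rfl h2]
  by_cases hkR : k ≤ R ∧ SC k
  · rw [if_pos hkR, Finset.sum_ite_eq, if_pos]
    simp only [mem_filter, mem_Icc]
    exact ⟨⟨hk, hkR.1⟩, hkR.2⟩
  · rw [if_neg hkR, Finset.sum_ite_eq, if_neg]
    simp only [mem_filter, mem_Icc]
    tauto

/-- The main term without prime. -/
theorem main_SY (Y : ℕ → ℝ) (R : ℕ) :
    ∑ d ∈ Icc 1 R, ∑ d' ∈ Icc 1 R, lamY Y R d * lamY Y R d' / ((d.lcm d' : ℕ) : ℝ) =
      ∑ k ∈ (Icc 1 R).filter (fun k => SC k), Y k ^ 2 / (Nat.totient k : ℝ) := by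
  have h1 : ∀ d ∈ Icc 1 R, ∀ d' ∈ Icc 1 R, lamY Y R d * lamY Y R d' / ((d.lcm d' : ℕ) : ℝ)
      = (lamY Y R d / d) * (lamY Y R d' / d') * ((d.gcd d' : ℕ) : ℝ) := by
    intro d hd d' hd'
    have hd0 := (mem_Icc.1 hd).1
    have hd0' := (mem_Icc.1 hd').1
    rw [div_eq_mul_one_div, inv_lcm d d' hd0 hd0']
    have hdR : (0 : ℝ) < d := by exact_mod_cast hd0
    have hdR' : (0 : ℝ) < d' := by exact_mod_cast hd0'
    field_simp
  rw [Finset.sum_congr rfl (fun d hd => Finset.sum_congr rfl (h1 d hd))]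
  have := diag R (Icc 1 R) (fun d => d) (fun d => lamY Y R d / d)
    (fun d hd => ⟨(mem_Icc.1 hd).1, (mem_Icc.1 hd).2⟩)
  rw [this]
  rw [Finset.sum_filter]
  apply Finset.sum_congr rfl
  intro k hk
  have hk1 := (mem_Icc.1 hk).1
  have hk2 := (mem_Icc.1 hk).2
  rw [sum_lamY_div Y R k hk1]
  have hphi : (0 : ℝ) < (Nat.totient k : ℝ) := by exact_mod_cast Nat.totient_pos.2 hk1
  by_cases hsq : SC k
  · rw [if_pos ⟨hk2, hsq⟩, if_pos hsq]
    have hmu : ((μ k : ℤ) : ℝ) ^ 2 = 1 := by exact_mod_cast moebius_sq_eq_one_of_squarefree hsq.1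
    rw [div_pow, mul_pow, hmu]
    field_simp
  · rw [if_neg (fun h => hsq h.2), if_neg hsq]
    simp

/-- The main term with a prime `p`. -/
theorem main_SpY (Y : ℕ → ℝ) (R p : ℕ) (hp : p.Prime) (hp30 : Nat.Coprime p 30) :
    ∑ d ∈ Icc 1 R, ∑ d' ∈ Icc 1 R, lamY Y R d * lamY Y R d' / (((d.lcm d').lcm p : ℕ) : ℝ)
      = (1 / (p : ℝ)) * ∑ k ∈ (Icc 1 R).filter (fun k => SC k ∧ ¬ p ∣ k),
          (Y k - if k * p ≤ R then Y (k * p) else 0) ^ 2 / (Nat.totient k : ℝ) := by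
  have hpR : (0 : ℝ) < p := by exact_mod_cast hp.pos
  have h1 : ∀ d ∈ Icc 1 R, ∀ d' ∈ Icc 1 R,
      lamY Y R d * lamY Y R d' / (((d.lcm d').lcm p : ℕ) : ℝ)
      = (1 / (p : ℝ)) * ((lamY Y R d / (strip p d : ℕ)) * (lamY Y R d' / (strip p d' : ℕ)) *
        (((strip p d).gcd (strip p d') : ℕ) : ℝ)) := by
    intro d hd d' hd'
    have hd0 := (mem_Icc.1 hd).1
    have hd0' := (mem_Icc.1 hd').1
    by_cases hs : Squarefree d
    · by_cases hs' : Squarefree d'
      · rw [lcm_strip hp hs hs']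
        have a1 := strip_pos hp hd0
        have a2 := strip_pos hp hd0'
        have a1R : (0 : ℝ) < (strip p d : ℕ) := by exact_mod_cast a1
        have a2R : (0 : ℝ) < (strip p d' : ℕ) := by exact_mod_cast a2
        have := inv_lcm _ _ a1 a2
        push_cast
        rw [div_mul_eq_div_mul_one_div, this]
        field_simp
      · rw [lamY_eq_zero_of_not_squarefree hs']; simp
    · rw [lamY_eq_zero_of_not_squarefree hs]; simp
  rw [Finset.sum_congr rfl (fun d hd => Finset.sum_congr rfl (h1 d hd))]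
  simp only [← Finset.mul_sum]
  have hdiag := diag R (Icc 1 R) (fun d => strip p d) (fun d => lamY Y R d / (strip p d : ℕ))
    (fun d hd => ⟨strip_pos hp (mem_Icc.1 hd).1, (strip_le p d).trans (mem_Icc.1 hd).2⟩)
  rw [hdiag]
  congr 1
  rw [Finset.sum_filter]
  apply Finset.sum_congr rfl
  intro k hk
  have hk1 := (mem_Icc.1 hk).1
  have hk2 := (mem_Icc.1 hk).2
  have hphi : (0 : ℝ) < (Nat.totient k : ℝ) := by exact_mod_cast Nat.totient_pos.2 hk1
  by_cases hpk : p ∣ k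
  · rw [if_neg (by tauto)]
    have : ∑ d ∈ (Icc 1 R).filter (fun d => k ∣ strip p d), lamY Y R d / (strip p d : ℕ) = 0 := by
      apply Finset.sum_eq_zero
      intro d hd
      by_cases hs : Squarefree d
      · exfalso
        exact not_dvd_strip hp hs (hpk.trans (mem_filter.1 hd).2)
      · rw [lamY_eq_zero_of_not_squarefree hs]; simp
    rw [this]; simp
  · -- the main computation
    have hcop : Nat.Coprime k p := ((Nat.Prime.coprime_iff_not_dvd hp).2 hpk).symm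
    have h2 : ∑ d ∈ (Icc 1 R).filter (fun d => k ∣ strip p d), lamY Y R d / (strip p d : ℕ)
        = ∑ d ∈ (Icc 1 R).filter (fun d => k ∣ d), lamY Y R d / d
          + ((p : ℝ) - 1) * ∑ d ∈ (Icc 1 R).filter (fun d => k * p ∣ d), lamY Y R d / d := by
      have e1 : (Icc 1 R).filter (fun d => k ∣ strip p d) = (Icc 1 R).filter (fun d => k ∣ d) := by
        apply Finset.filter_congr
        intro d _
        constructor
        · intro h; exact h.trans strip_dvd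
        · intro h
          have : k ∣ p * strip p d := h.trans (dvd_mul_strip hp)
          exact hcop.dvd_of_dvd_mul_left this
      have e2 : (Icc 1 R).filter (fun d => k * p ∣ d)
          = ((Icc 1 R).filter (fun d => k ∣ d)).filter (fun d => p ∣ d) := by
        rw [Finset.filter_filter]
        apply Finset.filter_congr
        intro d _
        constructor
        · intro h
          exact ⟨(dvd_mul_right k p).trans h, (dvd_mul_left p k).trans h⟩
        · rintro ⟨h1, h2⟩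
          exact Nat.Coprime.mul_dvd_of_dvd_of_dvd hcop h1 h2
      rw [e1, e2, Finset.sum_filter (fun d => p ∣ d), Finset.mul_sum, ← Finset.sum_add_distrib]
      apply Finset.sum_congr rfl
      intro d hd
      have hd0 := (mem_Icc.1 (mem_filter.1 hd).1).1
      have hdR : (0 : ℝ) < d := by exact_mod_cast hd0
      by_cases hpd : p ∣ d
      · rw [if_pos hpd, strip_of_dvd hpd, Nat.cast_div hpd hpR.ne']
        field_simp
        ring
      · rw [if_neg hpd, strip_of_not_dvd hp hpd]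
        ring
    rw [h2, sum_lamY_div Y R k hk1, sum_lamY_div Y R (k * p) (Nat.mul_pos hk1 hp.pos)]
    by_cases hsq : SC k
    · have hsqp : SC (k * p) := by
        refine ⟨?_, Nat.Coprime.mul_left hsq.2 hp30⟩
        rw [Nat.squarefree_mul hcop]
        exact ⟨hsq.1, hp.squarefree⟩
      have hmu : ((μ k : ℤ) : ℝ) ^ 2 = 1 := by exact_mod_cast moebius_sq_eq_one_of_squarefree hsq.1
      have hmup : ((μ (k * p) : ℤ) : ℝ) = - (μ k : ℝ) := by
        rw [isMultiplicative_moebius.map_mul_of_coprime hcop, moebius_apply_prime hp]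
        push_cast; ring
      have hphip : ((Nat.totient (k * p) : ℕ) : ℝ) = (Nat.totient k : ℝ) * ((p : ℝ) - 1) := by
        rw [Nat.totient_mul hcop, Nat.totient_prime hp]
        rw [Nat.cast_mul, Nat.cast_sub hp.one_le]
        simp
      have hp1 : (0 : ℝ) < (p : ℝ) - 1 := by
        have : (1 : ℝ) < p := by exact_mod_cast hp.one_lt
        linarith
      rw [if_pos ⟨hk2, hsq⟩, hmup, hphip, if_pos (show SC k ∧ ¬ p ∣ k from ⟨hsq, hpk⟩)]
      by_cases hkp : k * p ≤ R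
      · rw [if_pos ⟨hkp, hsqp⟩, if_pos hkp]
        have e3 : (μ k : ℝ) * Y k / (Nat.totient k : ℝ) + ((p : ℝ) - 1) * (-(μ k : ℝ) * Y (k * p) /
            ((Nat.totient k : ℝ) * ((p : ℝ) - 1))) =
            (μ k : ℝ) * ((Y k - Y (k * p)) / (Nat.totient k : ℝ)) := by
          field_simp
          ring
        rw [e3, mul_pow, hmu]
        field_simp
      · rw [if_neg (fun h => hkp h.1), if_neg hkp]
        rw [mul_zero, add_zero, div_pow, mul_pow, hmu, sub_zero]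
        field_simp
    · rw [if_neg (fun h => hsq h.2), if_neg (by
        rintro ⟨_, h⟩
        exact hsq ⟨((Nat.squarefree_mul hcop).1 h.1).1,
          Nat.Coprime.coprime_dvd_left (dvd_mul_right k p) h.2⟩),
        if_neg (show ¬ (SC k ∧ ¬ p ∣ k) from fun h => hsq h.1)]
      simp

/-! ### sums of the weights over an interval -/

/-- The sieve weight. -/
noncomputable def WY (Y : ℕ → ℝ) (R n : ℕ) : ℝ :=
  ind30 n * (∑ d ∈ (Icc 1 R).filter (fun d => d ∣ n), lamY Y R d) ^ 2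

lemma WY_nonneg (Y : ℕ → ℝ) (R n : ℕ) : 0 ≤ WY Y R n := by
  unfold WY ind30
  split_ifs <;> positivity

lemma WY_eq (Y : ℕ → ℝ) (R n : ℕ) : WY Y R n = ∑ d ∈ Icc 1 R, ∑ d' ∈ Icc 1 R,
    lamY Y R d * lamY Y R d' * (if Nat.Coprime n 30 ∧ d ∣ n ∧ d' ∣ n then 1 else 0) := by
  unfold WY ind30
  rw [Finset.sum_filter, sq, Finset.sum_mul_sum, Finset.mul_sum]
  apply Finset.sum_congr rfl; intro d _
  rw [Finset.mul_sum]
  apply Finset.sum_congr rfl; intro d' _
  by_cases h1 : Nat.Coprime n 30 <;> by_cases h2 : d ∣ n <;> by_cases h3 : d' ∣ n <;>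
    simp [h1, h2, h3]

lemma sum_WY_eq (Y : ℕ → ℝ) (a b R q : ℕ) : ∑ n ∈ (Ioc a b).filter (fun n => q ∣ n), WY Y R n =
    ∑ d ∈ Icc 1 R, ∑ d' ∈ Icc 1 R, lamY Y R d * lamY Y R d' *
      (((Ioc a b).filter (fun n => Nat.Coprime n 30 ∧ (d.lcm d').lcm q ∣ n)).card : ℝ) := by
  simp_rw [WY_eq]
  rw [Finset.sum_comm]
  apply Finset.sum_congr rfl; intro d _
  rw [Finset.sum_comm]
  apply Finset.sum_congr rfl; intro d' _
  rw [← Finset.mul_sum]
  congr 1
  rw [← Finset.sum_filter, Finset.filter_filter, Finset.sum_const, nsmul_eq_mul, mul_one]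
  congr 2
  ext n
  simp only [mem_filter, Nat.lcm_dvd_iff]
  tauto

/-- The main quadratic form. -/
noncomputable def QFY (Y : ℕ → ℝ) (R q : ℕ) : ℝ :=
  ∑ d ∈ Icc 1 R, ∑ d' ∈ Icc 1 R, lamY Y R d * lamY Y R d' / (((d.lcm d').lcm q : ℕ) : ℝ)

lemma termY_bound (Y : ℕ → ℝ) (a b R q d d' : ℕ) (hab : a ≤ b) (hq0 : 0 < q)
    (hq : Nat.Coprime q 30) (hd : 1 ≤ d) (hd' : 1 ≤ d') :
    |lamY Y R d * lamY Y R d' *
      (((Ioc a b).filter (fun n => Nat.Coprime n 30 ∧ (d.lcm d').lcm q ∣ n)).card : ℝ) -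
      4 / 15 * ((b : ℝ) - a) * (lamY Y R d * lamY Y R d' / (((d.lcm d').lcm q : ℕ) : ℝ))| ≤
      28 / 15 * (|lamY Y R d| * |lamY Y R d'|) := by
  by_cases h1 : SC d
  swap
  · rw [lamY_eq_zero_of_not_SC h1]; simp
  by_cases h2 : SC d'
  swap
  · rw [lamY_eq_zero_of_not_SC h2]; simp
  have hl : Nat.Coprime (d.lcm d') 30 :=
    Nat.Coprime.coprime_dvd_left (Nat.lcm_dvd_mul d d') (Nat.Coprime.mul_left h1.2 h2.2)
  have hl2 : Nat.Coprime ((d.lcm d').lcm q) 30 :=
    Nat.Coprime.coprime_dvd_left (Nat.lcm_dvd_mul _ q) (Nat.Coprime.mul_left hl hq)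
  have hpos : 0 < (d.lcm d').lcm q := Nat.lcm_pos (Nat.lcm_pos hd hd') hq0
  have h3 := count_mult a b ((d.lcm d').lcm q) hab hpos hl2
  have e1 : lamY Y R d * lamY Y R d' *
      (((Ioc a b).filter (fun n => Nat.Coprime n 30 ∧ (d.lcm d').lcm q ∣ n)).card : ℝ) -
      4 / 15 * ((b : ℝ) - a) * (lamY Y R d * lamY Y R d' / (((d.lcm d').lcm q : ℕ) : ℝ)) =
      (lamY Y R d * lamY Y R d') * ((((Ioc a b).filter (fun n => Nat.Coprime n 30 ∧
        (d.lcm d').lcm q ∣ n)).card : ℝ) -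
        4 / 15 * ((b : ℝ) - a) / (((d.lcm d').lcm q : ℕ) : ℝ)) := by
    ring
  rw [e1, abs_mul, abs_mul]
  calc |lamY Y R d| * |lamY Y R d'| * _ ≤ |lamY Y R d| * |lamY Y R d'| * (28 / 15) :=
        mul_le_mul_of_nonneg_left h3 (by positivity)
    _ = _ := by ring

theorem sum_WY_bound (Y : ℕ → ℝ) (a b R q : ℕ) (hab : a ≤ b) (hq0 : 0 < q)
    (hq : Nat.Coprime q 30) :
    |∑ n ∈ (Ioc a b).filter (fun n => q ∣ n), WY Y R n - 4 / 15 * ((b : ℝ) - a) * QFY Y R q| ≤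
      28 / 15 * (∑ d ∈ Icc 1 R, |lamY Y R d|) ^ 2 := by
  rw [sum_WY_eq]
  unfold QFY
  rw [Finset.mul_sum, ← Finset.sum_sub_distrib]
  have h1 : ∀ d ∈ Icc 1 R, (∑ d' ∈ Icc 1 R, lamY Y R d * lamY Y R d' *
      (((Ioc a b).filter (fun n => Nat.Coprime n 30 ∧ (d.lcm d').lcm q ∣ n)).card : ℝ)) -
      4 / 15 * ((b : ℝ) - a) * ∑ d' ∈ Icc 1 R,
        lamY Y R d * lamY Y R d' / (((d.lcm d').lcm q : ℕ) : ℝ) =
      ∑ d' ∈ Icc 1 R, (lamY Y R d * lamY Y R d' *
      (((Ioc a b).filter (fun n => Nat.Coprime n 30 ∧ (d.lcm d').lcm q ∣ n)).card : ℝ) -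
      4 / 15 * ((b : ℝ) - a) * (lamY Y R d * lamY Y R d' / (((d.lcm d').lcm q : ℕ) : ℝ))) := by
    intro d _
    rw [Finset.mul_sum, ← Finset.sum_sub_distrib]
  rw [Finset.sum_congr rfl h1]
  have e2 : 28 / 15 * (∑ d ∈ Icc 1 R, |lamY Y R d|) ^ 2 =
      ∑ d ∈ Icc 1 R, ∑ d' ∈ Icc 1 R, 28 / 15 * (|lamY Y R d| * |lamY Y R d'|) := by
    rw [sq, Finset.sum_mul_sum, Finset.mul_sum]
    apply Finset.sum_congr rfl; intro d _
    rw [Finset.mul_sum]
  rw [e2]
  refine (Finset.abs_sum_le_sum_abs _ _).trans (Finset.sum_le_sum fun d hd => ?_)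
  refine (Finset.abs_sum_le_sum_abs _ _).trans (Finset.sum_le_sum fun d' hd' => ?_)
  exact termY_bound Y a b R q d d' hab hq0 hq (mem_Icc.1 hd).1 (mem_Icc.1 hd').1

lemma QFY_one (Y : ℕ → ℝ) (R : ℕ) : QFY Y R 1 =
    ∑ k ∈ (Icc 1 R).filter (fun k => SC k), Y k ^ 2 / (Nat.totient k : ℝ) := by
  rw [← main_SY]
  unfold QFY
  simp only [Nat.lcm_one_right]

lemma QFY_prime (Y : ℕ → ℝ) (R p : ℕ) (hp : p.Prime) (hp30 : Nat.Coprime p 30) :
    QFY Y R p = (1 / (p : ℝ)) * ∑ k ∈ (Icc 1 R).filter (fun k => SC k ∧ ¬ p ∣ k),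
          (Y k - if k * p ≤ R then Y (k * p) else 0) ^ 2 / (Nat.totient k : ℝ) :=
  main_SpY Y R p hp hp30

end Pool.Agent.Lib.MP_bf4c7f
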