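import Mathlib
import Pool.Agent.Lib.MP_bf4c7f_nt3.SelG
import Pool.Agent.Lib.MP_bf4c7f_nt3.Logs

/-!
# Sums with the diagonal values `log (R / k)`
-/

set_option autoImplicit false

namespace Pool.Agent.Lib.MP_bf4c7f

open Finset ArithmeticFunction
open scoped ArithmeticFunction.Moebius

/-- the diagonal values -/
noncomputable def YR (R k : ℕ) : ℝ := Real.log R - Real.log k

lemma YR_nonneg {R k : ℕ} (hk : 1 ≤ k) (hkR : k ≤ R) : 0 ≤ YR R k := by
  unfold YR
  have : Real.log k ≤ Real.log R := Real.log_le_log (by exact_mod_cast hk) (by exact_mod_cast hkR)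
  linarith

/-- the first sum -/
noncomputable def L1 (R : ℕ) : ℝ :=
  ∑ k ∈ (Icc 1 R).filter (fun k => SC k), YR R k / (Nat.totient k : ℝ)

/-- the second sum -/
noncomputable def S0 (R : ℕ) : ℝ :=
  ∑ k ∈ (Icc 1 R).filter (fun k => SC k), YR R k ^ 2 / (Nat.totient k : ℝ)

/-- the sum belonging to a prime -/
noncomputable def Np (R p : ℕ) : ℝ :=
  ∑ k ∈ (Icc 1 R).filter (fun k => SC k ∧ ¬ p ∣ k),
    (YR R k - if k * p ≤ R then YR R (k * p) else 0) ^ 2 / (Nat.totient k : ℝ)

/-! ### partial summation -/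

lemma GG_succ (n : ℕ) : GG (n + 1) = GG n + if SC (n + 1) then 1 / (Nat.totient (n + 1) : ℝ) else 0 := by
  unfold GG
  have : Icc 1 (n + 1) = insert (n + 1) (Icc 1 n) := by
    ext m; simp only [mem_Icc, mem_insert]; omega
  rw [this, Finset.filter_insert]
  split_ifs with h
  · rw [Finset.sum_insert (by simp), add_comm]
  · rw [add_zero]

lemma GG_mono {m n : ℕ} (h : m ≤ n) : GG m ≤ GG n := by
  unfold GG
  apply Finset.sum_le_sum_of_subset_of_nonneg
  · exact Finset.filter_subset_filter _ (Finset.Icc_subset_Icc le_rfl h)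
  · intro k _ _; positivity

/-- partial summation with the sums `GG` -/
lemma sum_GG (F : ℕ → ℝ) (R : ℕ) (hR : 1 ≤ R) :
    ∑ k ∈ (Icc 1 R).filter (fun k => SC k), F k / (Nat.totient k : ℝ) =
      GG R * F R + ∑ m ∈ Ico 1 R, GG m * (F m - F (m + 1)) := by
  induction R, hR using Nat.le_induction with
  | base =>
    unfold GG
    have : (Icc 1 1).filter (fun k => SC k) = {1} := by decide +kernel
    rw [this]
    simp
  | succ n hn ih =>
    have h1 : Icc 1 (n + 1) = insert (n + 1) (Icc 1 n) := by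
      ext m; simp only [mem_Icc, mem_insert]; omega
    rw [Finset.sum_Ico_succ_top (by omega), h1, Finset.filter_insert, GG_succ]
    split_ifs with h
    · rw [Finset.sum_insert (by simp), ih]
      ring
    · rw [ih]
      ring

/-- sums over a telescoping bound -/
lemma tele (Γ : ℕ → ℝ) (a R : ℕ) (h : a ≤ R) :
    ∑ m ∈ Ico a R, (Γ (m + 1) - Γ m) = Γ R - Γ a :=
  Finset.sum_Ico_sub Γ h

/-! ### small values of `GG` -/

lemma GG_one : GG 1 = 1 := by
  unfold GG
  have : (Icc 1 1).filter (fun k => SC k) = {1} := by decide +kernel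
  rw [this]
  simp

lemma GG_le6 {m : ℕ} (h1 : 1 ≤ m) (h2 : m ≤ 6) : GG m = 1 := by
  unfold GG
  have : (Icc 1 m).filter (fun k => SC k) = {1} := by
    interval_cases m <;> decide +kernel
  rw [this]
  simp

lemma GG_7 : GG 7 = 7 / 6 := by
  unfold GG
  have : (Icc 1 7).filter (fun k => SC k) = {1, 7} := by decide +kernel
  rw [this, Finset.sum_insert (by decide), Finset.sum_singleton]
  have : Nat.totient 7 = 6 := by decide
  rw [this]
  norm_num

lemma GG_11 : GG 11 = 7 / 6 + 1 / 10 := by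
  unfold GG
  have : (Icc 1 11).filter (fun k => SC k) = {1, 7, 11} := by decide +kernel
  rw [this, Finset.sum_insert (by decide), Finset.sum_insert (by decide), Finset.sum_singleton]
  have h1 : Nat.totient 7 = 6 := by decide
  have h2 : Nat.totient 11 = 10 := by decide
  rw [h1, h2]
  norm_num

lemma GG_13 : GG 13 = 7 / 6 + 1 / 10 + 1 / 12 := by
  unfold GG
  have : (Icc 1 13).filter (fun k => SC k) = {1, 7, 11, 13} := by decide +kernel
  rw [this, Finset.sum_insert (by decide), Finset.sum_insert (by decide),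
    Finset.sum_insert (by decide), Finset.sum_singleton]
  have h1 : Nat.totient 7 = 6 := by decide
  have h2 : Nat.totient 11 = 10 := by decide
  have h3 : Nat.totient 13 = 12 := by decide
  rw [h1, h2, h3]
  norm_num

lemma GG_19 : GG 19 = 7 / 6 + 1 / 10 + 1 / 12 + 1 / 16 + 1 / 18 := by
  unfold GG
  have : (Icc 1 19).filter (fun k => SC k) = {1, 7, 11, 13, 17, 19} := by decide +kernel
  rw [this, Finset.sum_insert (by decide), Finset.sum_insert (by decide),
    Finset.sum_insert (by decide), Finset.sum_insert (by decide), Finset.sum_insert (by decide),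
    Finset.sum_singleton]
  have h1 : Nat.totient 7 = 6 := by decide
  have h2 : Nat.totient 11 = 10 := by decide
  have h3 : Nat.totient 13 = 12 := by decide
  have h4 : Nat.totient 17 = 16 := by decide
  have h5 : Nat.totient 19 = 18 := by decide
  rw [h1, h2, h3, h4, h5]
  norm_num

/-! ### lower bounds -/

/-- the lower bound function for `GG` -/
noncomputable def BL (m : ℕ) : ℝ := 4 / 15 * Real.log ((m : ℝ) + 1) + 0.55

lemma BL_mono {m n : ℕ} (h : m ≤ n) : BL m ≤ BL n := by
  unfold BL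
  have : Real.log ((m : ℝ) + 1) ≤ Real.log ((n : ℝ) + 1) := by
    apply Real.log_le_log (by positivity)
    have : (m : ℝ) ≤ n := by exact_mod_cast h
    linarith
  linarith

lemma log_ten_le : Real.log 10 ≤ 2.3028 := by
  have : Real.log 10 = Real.log 2 + Real.log 5 := by
    rw [← Real.log_mul (by norm_num) (by norm_num)]
    norm_num
  rw [this]
  have h1 := lg5.2
  have h2 := Real.log_two_lt_d9
  norm_num at h1 h2 ⊢
  linarith

lemma BL_le_GG (m : ℕ) (h1 : 7 ≤ m) (h2 : m ≠ 10) : BL m ≤ GG m := by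
  rcases le_or_gt m 9 with h | h
  · refine (BL_mono h).trans (le_trans ?_ (GG_mono h1))
    rw [GG_7]
    unfold BL
    push_cast
    have := log_ten_le
    norm_num at this ⊢
    linarith
  rcases le_or_gt m 12 with h' | h'
  · refine (BL_mono h').trans (le_trans ?_ (GG_mono (show 11 ≤ m by omega)))
    rw [GG_11]
    unfold BL
    have := lg13.2
    push_cast
    norm_num at this ⊢
    linarith
  rcases le_or_gt m 18 with h'' | h''
  · refine (BL_mono h'').trans (le_trans ?_ (GG_mono (show 13 ≤ m by omega)))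
    rw [GG_13]
    unfold BL
    have := lg19.2
    push_cast
    norm_num at this ⊢
    linarith
  rcases le_or_gt m 30 with h3 | h3
  · refine (BL_mono h3).trans (le_trans ?_ (GG_mono (show 19 ≤ m by omega)))
    rw [GG_19]
    unfold BL
    have := lg31.2
    push_cast
    norm_num at this ⊢
    linarith
  · have h4 := GG_lower m h3
    have h5 := log_succ_le m (by omega)
    have h6 : 1 / (m : ℝ) ≤ 1 / 31 := by
      apply one_div_le_one_div_of_le (by norm_num)
      exact_mod_cast h3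
    unfold BL
    norm_num at h4 h5 h6 ⊢
    linarith

/-- The lower bound for sums with `GG`. -/
theorem sum_lower (R : ℕ) (hR : 31 ≤ R) (D : ℕ → ℝ) (hD0 : ∀ m, 1 ≤ m → m < R → 0 ≤ D m) :
    ∑ m ∈ Ico 1 R, BL m * D m + 0.26516 * D 1 + 0.157 * D 2 + 0.0803 * D 3 - 0.0279 * D 5
      - 0.069 * D 6 - 0.0229 * D 10 ≤ ∑ m ∈ Ico 1 R, GG m * D m := by
  rw [← Finset.sum_Ico_consecutive _ (show 1 ≤ 11 by norm_num) (show 11 ≤ R by omega),
    ← Finset.sum_Ico_consecutive _ (show 1 ≤ 11 by norm_num) (show 11 ≤ R by omega)]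
  have h1 : ∑ m ∈ Ico 11 R, BL m * D m ≤ ∑ m ∈ Ico 11 R, GG m * D m := by
    apply Finset.sum_le_sum
    intro m hm
    rw [mem_Ico] at hm
    exact mul_le_mul_of_nonneg_right (BL_le_GG m (by omega) (by omega))
      (hD0 m (by omega) hm.2)
  have e1 : ∀ f : ℕ → ℝ, ∑ m ∈ Ico 1 11, f m =
      f 1 + f 2 + f 3 + f 4 + f 5 + f 6 + f 7 + f 8 + f 9 + f 10 := by
    intro f
    simp only [Finset.sum_Ico_succ_top (show 1 ≤ 10 by norm_num),
      Finset.sum_Ico_succ_top (show 1 ≤ 9 by norm_num),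
      Finset.sum_Ico_succ_top (show 1 ≤ 8 by norm_num),
      Finset.sum_Ico_succ_top (show 1 ≤ 7 by norm_num),
      Finset.sum_Ico_succ_top (show 1 ≤ 6 by norm_num),
      Finset.sum_Ico_succ_top (show 1 ≤ 5 by norm_num),
      Finset.sum_Ico_succ_top (show 1 ≤ 4 by norm_num),
      Finset.sum_Ico_succ_top (show 1 ≤ 3 by norm_num),
      Finset.sum_Ico_succ_top (show 1 ≤ 2 by norm_num),
      Finset.sum_Ico_succ_top (show 1 ≤ 1 by norm_num)]
    simp
  rw [e1, e1]
  have hl2 := Real.log_two_lt_d9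
  have g3 := lg3.2
  have g5 := lg5.2
  have g7 := lg7.2
  have g11 := lg11.2
  have k1 : 0.26516 * D 1 ≤ (GG 1 - BL 1) * D 1 := by
    apply mul_le_mul_of_nonneg_right _ (hD0 1 (by norm_num) (by omega))
    rw [GG_one]; unfold BL
    push_cast
    norm_num at hl2 ⊢
    linarith
  have k2 : 0.157 * D 2 ≤ (GG 2 - BL 2) * D 2 := by
    apply mul_le_mul_of_nonneg_right _ (hD0 2 (by norm_num) (by omega))
    rw [GG_le6 (by norm_num) (by norm_num)]; unfold BL
    push_cast
    norm_num at g3 ⊢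
    linarith
  have l4 : Real.log 4 = 2 * Real.log 2 := by
    rw [show (4 : ℝ) = 2 ^ 2 by norm_num, Real.log_pow]; norm_num
  have l6 : Real.log 6 = Real.log 2 + Real.log 3 := by
    rw [← Real.log_mul (by norm_num) (by norm_num)]; norm_num
  have k3 : 0.0803 * D 3 ≤ (GG 3 - BL 3) * D 3 := by
    apply mul_le_mul_of_nonneg_right _ (hD0 3 (by norm_num) (by omega))
    rw [GG_le6 (by norm_num) (by norm_num)]; unfold BL
    push_cast
    norm_num at hl2 l4 ⊢
    rw [l4]
    linarith
  have k4 : 0 ≤ (GG 4 - BL 4) * D 4 := by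
    apply mul_nonneg _ (hD0 4 (by norm_num) (by omega))
    rw [GG_le6 (by norm_num) (by norm_num)]; unfold BL
    push_cast
    norm_num at g5 ⊢
    linarith
  have k5 : -0.0279 * D 5 ≤ (GG 5 - BL 5) * D 5 := by
    apply mul_le_mul_of_nonneg_right _ (hD0 5 (by norm_num) (by omega))
    rw [GG_le6 (by norm_num) (by norm_num)]; unfold BL
    push_cast
    norm_num at g3 hl2 ⊢
    rw [l6]
    linarith
  have k6 : -0.069 * D 6 ≤ (GG 6 - BL 6) * D 6 := by
    apply mul_le_mul_of_nonneg_right _ (hD0 6 (by norm_num) (by omega))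
    rw [GG_le6 (by norm_num) (by norm_num)]; unfold BL
    push_cast
    norm_num at g7 ⊢
    linarith
  have k7 : 0 ≤ (GG 7 - BL 7) * D 7 := by
    apply mul_nonneg _ (hD0 7 (by norm_num) (by omega))
    have := BL_le_GG 7 (by norm_num) (by norm_num)
    linarith
  have k8 : 0 ≤ (GG 8 - BL 8) * D 8 := by
    apply mul_nonneg _ (hD0 8 (by norm_num) (by omega))
    have := BL_le_GG 8 (by norm_num) (by norm_num)
    linarith
  have k9 : 0 ≤ (GG 9 - BL 9) * D 9 := by
    apply mul_nonneg _ (hD0 9 (by norm_num) (by omega))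
    have := BL_le_GG 9 (by norm_num) (by norm_num)
    linarith
  have k10 : -0.0229 * D 10 ≤ (GG 10 - BL 10) * D 10 := by
    apply mul_le_mul_of_nonneg_right _ (hD0 10 (by norm_num) (by omega))
    have h2 : (7 : ℝ) / 6 ≤ GG 10 := by rw [← GG_7]; exact GG_mono (by norm_num)
    unfold BL
    push_cast
    norm_num at g11 h2 ⊢
    linarith
  linarith

/-! ### the sums `S0`, `L1`: lower bounds -/

lemma YR_self (R : ℕ) : YR R R = 0 := by unfold YR; ring

lemma YR_one (R : ℕ) : YR R 1 = Real.log R := by unfold YR; simp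

/-- the difference of the diagonal values -/
lemma YR_diff (R m : ℕ) : YR R m - YR R (m + 1) = Real.log ((m : ℝ) + 1) - Real.log m := by
  unfold YR; push_cast; ring

lemma log_succ_ge (m : ℕ) (hm : 1 ≤ m) : 0 ≤ Real.log ((m : ℝ) + 1) - Real.log m := by
  have hmR : (1 : ℝ) ≤ m := by exact_mod_cast hm
  have : Real.log m ≤ Real.log ((m : ℝ) + 1) := Real.log_le_log (by linarith) (by linarith)
  linarith

lemma log4' : Real.log 4 = 2 * Real.log 2 := by
  rw [show (4 : ℝ) = 2 ^ 2 by norm_num, Real.log_pow]; norm_num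

lemma log6' : Real.log 6 = Real.log 2 + Real.log 3 := by
  rw [← Real.log_mul (by norm_num) (by norm_num)]; norm_num

lemma log10' : Real.log 10 = Real.log 2 + Real.log 5 := by
  rw [← Real.log_mul (by norm_num) (by norm_num)]; norm_num

theorem L1_lower (R : ℕ) (hR : 31 ≤ R) :
    2 / 15 * Real.log R ^ 2 + 0.55 * Real.log R + 0.25 ≤ L1 R := by
  unfold L1
  rw [sum_GG (fun k => YR R k) R (by omega)]
  rw [YR_self, mul_zero, zero_add]
  set D : ℕ → ℝ := fun m => YR R m - YR R (m + 1) with hD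
  have hDe : ∀ m, D m = Real.log ((m : ℝ) + 1) - Real.log m := fun m => YR_diff R m
  have h1 := sum_lower R hR D (by
    intro m hm _
    rw [hDe]
    exact log_succ_ge m hm)
  set Γ : ℕ → ℝ := fun m => 2 / 15 * Real.log (m : ℝ) ^ 2 + 0.55 * Real.log (m : ℝ) with hΓ
  have h2 : ∑ m ∈ Ico 1 R, (Γ (m + 1) - Γ m) ≤ ∑ m ∈ Ico 1 R, BL m * D m := by
    apply Finset.sum_le_sum
    intro m hm
    rw [mem_Ico] at hm
    have h3 := log_succ_ge m hm.1
    rw [hDe, hΓ]
    unfold BL
    push_cast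
    nlinarith [sq_nonneg (Real.log ((m : ℝ) + 1) - Real.log m)]
  rw [tele Γ 1 R (by omega)] at h2
  have h3 : Γ R - Γ 1 = 2 / 15 * Real.log R ^ 2 + 0.55 * Real.log R := by
    rw [hΓ]; simp
  rw [h3] at h2
  simp only [hDe] at h1 h2
  simp only [YR_diff]
  have hl1 := Real.log_two_gt_d9
  have hl2 := Real.log_two_lt_d9
  obtain ⟨a3, b3⟩ := lg3
  obtain ⟨a5, b5⟩ := lg5
  obtain ⟨a7, b7⟩ := lg7
  obtain ⟨a11, b11⟩ := lg11
  have l4 := log4'
  have l6 := log6'
  have l10 := log10'
  push_cast at h1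
  norm_num at h1 h2 hl1 hl2 a3 b3 a5 b5 a7 b7 a11 b11 ⊢
  rw [l4, l6, l10] at h1
  linarith

theorem S0_lower (R : ℕ) (hR : 31 ≤ R) :
    4 / 45 * Real.log R ^ 3 + 0.55 * Real.log R ^ 2 + 0.5 * Real.log R - 0.3 ≤ S0 R := by
  unfold S0
  rw [sum_GG (fun k => YR R k ^ 2) R (by omega), YR_self]
  set r := Real.log R with hr
  set D : ℕ → ℝ := fun m => YR R m ^ 2 - YR R (m + 1) ^ 2 with hD
  have hlr : ∀ m : ℕ, 1 ≤ m → m < R → Real.log ((m : ℝ) + 1) ≤ r := by
    intro m hm hmR
    apply Real.log_le_log (by positivity)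
    exact_mod_cast hmR
  have hDe : ∀ m, D m = (Real.log ((m : ℝ) + 1) - Real.log m) *
      (2 * r - Real.log m - Real.log ((m : ℝ) + 1)) := by
    intro m
    rw [hD]; beta_reduce
    unfold YR
    push_cast
    rw [← hr]
    ring
  have hD0 : ∀ m, 1 ≤ m → m < R → 0 ≤ D m := by
    intro m hm hmR
    rw [hDe]
    have h1 := log_succ_ge m hm
    have h2 := hlr m hm hmR
    apply mul_nonneg h1
    linarith
  have h1 := sum_lower R hR D hD0
  set Γ : ℕ → ℝ := fun m => 4 / 15 * (r * Real.log (m : ℝ) ^ 2 - 2 / 3 * Real.log (m : ℝ) ^ 3) -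
    0.55 * (r - Real.log (m : ℝ)) ^ 2 with hΓ
  have h2 : ∑ m ∈ Ico 1 R, (Γ (m + 1) - Γ m) ≤ ∑ m ∈ Ico 1 R, BL m * D m := by
    apply Finset.sum_le_sum
    intro m hm
    rw [mem_Ico] at hm
    have h3 := log_succ_ge m hm.1
    have h4 := hlr m hm.1 hm.2
    rw [hDe, hΓ]
    unfold BL
    push_cast
    set s := Real.log m with hs
    set s' := Real.log ((m : ℝ) + 1) with hs'
    have h5 : 0 ≤ (s' - s) ^ 2 * (r - (s' + 2 * s) / 3) := by
      apply mul_nonneg (sq_nonneg _)
      linarith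
    nlinarith
  rw [tele Γ 1 R (by omega)] at h2
  have h3 : Γ R - Γ 1 = 4 / 45 * r ^ 3 + 0.55 * r ^ 2 := by
    rw [hΓ]; beta_reduce
    rw [← hr]
    simp
    ring
  rw [h3] at h2
  have hr31 : 3.4 ≤ r := by
    have : Real.log 31 ≤ r := Real.log_le_log (by norm_num) (by exact_mod_cast hR)
    have := lg31.1
    norm_num at this ⊢
    linarith
  have hl1 := Real.log_two_gt_d9
  have hl2 := Real.log_two_lt_d9
  obtain ⟨a3, b3⟩ := lg3
  obtain ⟨a5, b5⟩ := lg5
  obtain ⟨a7, b7⟩ := lg7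
  obtain ⟨a11, b11⟩ := lg11
  have l4 := log4'
  have l6 := log6'
  have l10 := log10'
  have d1 : 0.6931 * (2 * r - 0.6932) ≤ D 1 := by
    rw [hDe]
    push_cast
    rw [show (1 : ℝ) + 1 = 2 by norm_num, Real.log_one, sub_zero, sub_zero]
    norm_num at hl1 hl2 hr31 ⊢
    apply mul_le_mul _ _ _ _ <;> linarith
  have d2 : 0.4054 * (2 * r - 1.7919) ≤ D 2 := by
    rw [hDe]
    push_cast
    rw [show (2 : ℝ) + 1 = 3 by norm_num]
    norm_num at hl1 hl2 hr31 a3 b3 ⊢
    apply mul_le_mul _ _ _ _ <;> linarith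
  have d3 : 0.2875 * (2 * r - 2.4851) ≤ D 3 := by
    rw [hDe]
    push_cast
    rw [show (3 : ℝ) + 1 = 4 by norm_num, l4]
    norm_num at hl1 hl2 hr31 a3 b3 ⊢
    apply mul_le_mul _ _ _ _ <;> linarith
  have d5 : D 5 ≤ 0.1825 * (2 * r) := by
    rw [hDe]
    push_cast
    rw [show (5 : ℝ) + 1 = 6 by norm_num, l6]
    norm_num at hl1 hl2 hr31 a3 b3 a5 b5 ⊢
    apply mul_le_mul _ _ _ _ <;> linarith
  have d6 : D 6 ≤ 0.1543 * (2 * r) := by
    rw [hDe]
    push_cast
    rw [show (6 : ℝ) + 1 = 7 by norm_num, l6]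
    norm_num at hl1 hl2 hr31 a3 b3 a7 b7 ⊢
    apply mul_le_mul _ _ _ _ <;> linarith
  have d10 : D 10 ≤ 0.0956 * (2 * r) := by
    rw [hDe]
    push_cast
    rw [show (10 : ℝ) + 1 = 11 by norm_num, l10]
    norm_num at hl1 hl2 hr31 a5 b5 a11 b11 ⊢
    apply mul_le_mul _ _ _ _ <;> linarith
  change _ ≤ GG R * 0 ^ 2 + ∑ m ∈ Ico 1 R, GG m * D m
  norm_num at h1 h2 d1 d2 d3 d5 d6 d10 hr31 ⊢
  linarith

/-! ### the sums `L1`, `Np`: upper bounds -/

theorem L1_upper (hG : ∀ R : ℕ, 7 ≤ R → GG R ≤ 4 / 15 * Real.log R + 0.75) (R : ℕ) (hR : 7 ≤ R) :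
    L1 R ≤ 2 / 15 * Real.log R ^ 2 + 0.75 * Real.log R := by
  unfold L1
  rw [sum_GG (fun k => YR R k) R (by omega), YR_self, mul_zero, zero_add]
  simp only [YR_diff]
  rw [← Finset.sum_Ico_consecutive _ (show 1 ≤ 7 by norm_num) hR]
  have h1 : ∑ m ∈ Ico 1 7, GG m * (Real.log ((m : ℝ) + 1) - Real.log m) = Real.log 7 := by
    have e1 : ∀ m ∈ Ico 1 7, GG m * (Real.log ((m : ℝ) + 1) - Real.log m) =
        (fun j : ℕ => Real.log (j : ℝ)) (m + 1) - (fun j : ℕ => Real.log (j : ℝ)) m := by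
      intro m hm
      rw [mem_Ico] at hm
      rw [GG_le6 hm.1 (by omega)]
      push_cast
      ring
    rw [Finset.sum_congr rfl e1]
    have := tele (fun j : ℕ => Real.log (j : ℝ)) 1 7 (by norm_num)
    beta_reduce at this ⊢
    rw [this]
    simp
  set Γ : ℕ → ℝ := fun m => 2 / 15 * Real.log (m : ℝ) ^ 2 + 0.75 * Real.log (m : ℝ) with hΓ
  have h2 : ∑ m ∈ Ico 7 R, GG m * (Real.log ((m : ℝ) + 1) - Real.log m) ≤
      ∑ m ∈ Ico 7 R, (Γ (m + 1) - Γ m) := by
    apply Finset.sum_le_sum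
    intro m hm
    rw [mem_Ico] at hm
    have h3 := log_succ_ge m (by omega)
    have h4 := mul_le_mul_of_nonneg_right (hG m hm.1) h3
    refine h4.trans ?_
    rw [hΓ]
    push_cast
    nlinarith [sq_nonneg (Real.log ((m : ℝ) + 1) - Real.log m)]
  rw [tele Γ 7 R hR] at h2
  rw [h1]
  have h3 : Γ R - Γ 7 = 2 / 15 * Real.log R ^ 2 + 0.75 * Real.log R -
      (2 / 15 * Real.log 7 ^ 2 + 0.75 * Real.log 7) := by
    rw [hΓ]; push_cast; ring
  rw [h3] at h2
  have h7 := lg7.1
  norm_num at h7 h2 ⊢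
  nlinarith

lemma keyN (r s s' g c : ℝ) (hg : g ≤ 4 / 15 * s + c) (h1 : s ≤ s') (h2 : s' ≤ r) :
    g * ((r - s) ^ 2 - (r - s') ^ 2) ≤
      4 / 15 * (r * s' ^ 2 - 2 / 3 * s' ^ 3) - c * (r - s') ^ 2 -
        (4 / 15 * (r * s ^ 2 - 2 / 3 * s ^ 3) - c * (r - s) ^ 2) := by
  have g1 : 0 ≤ (r - s) ^ 2 - (r - s') ^ 2 := by
    have : (r - s) ^ 2 - (r - s') ^ 2 = (s' - s) * (2 * r - s - s') := by ring
    rw [this]
    apply mul_nonneg <;> linarith
  have g2 := mul_le_mul_of_nonneg_right hg g1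
  have g3 : 0 ≤ (s' - s) ^ 2 * (r - (2 * s' + s) / 3) := by
    apply mul_nonneg (sq_nonneg _)
    linarith
  have g4 : 4 / 15 * (r * s' ^ 2 - 2 / 3 * s' ^ 3) - c * (r - s') ^ 2 -
        (4 / 15 * (r * s ^ 2 - 2 / 3 * s ^ 3) - c * (r - s) ^ 2) -
      (4 / 15 * s + c) * ((r - s) ^ 2 - (r - s') ^ 2) =
      4 / 15 * ((s' - s) ^ 2 * (r - (2 * s' + s) / 3)) := by ring
  linarith

/-- the upper bound for the sum belonging to the prime `p` -/
theorem Np_upper (hG : ∀ R : ℕ, 7 ≤ R → GG R ≤ 4 / 15 * Real.log R + 0.75) (R p : ℕ)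
    (hp : 1 ≤ p) (hR : 7 * p ≤ R) :
    Np R p ≤ (4 / 15 * Real.log R + 0.75) * Real.log p ^ 2 - 8 / 45 * Real.log p ^ 3 := by
  set r := Real.log R with hr
  set l := Real.log p with hl
  have hR1 : 1 ≤ R := by omega
  have hpR : (1 : ℝ) ≤ p := by exact_mod_cast hp
  have hl0 : 0 ≤ l := Real.log_nonneg hpR
  set F : ℕ → ℝ := fun k => (min (YR R k) l) ^ 2 with hF
  have h7p : Real.log 7 + l ≤ r := by
    rw [hl, hr, ← Real.log_mul (by norm_num) (by linarith)]
    apply Real.log_le_log (by positivity)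
    exact_mod_cast hR
  have hl7 := lg7.1
  -- pointwise bound
  have h1 : Np R p ≤ ∑ k ∈ (Icc 1 R).filter (fun k => SC k), F k / (Nat.totient k : ℝ) := by
    unfold Np
    have hsub : (Icc 1 R).filter (fun k => SC k ∧ ¬ p ∣ k) ⊆ (Icc 1 R).filter (fun k => SC k) := by
      intro k hk
      rw [mem_filter] at hk ⊢
      exact ⟨hk.1, hk.2.1⟩
    refine le_trans ?_ (Finset.sum_le_sum_of_subset_of_nonneg hsub (fun k _ _ => by positivity))
    apply Finset.sum_le_sum
    intro k hk
    rw [mem_filter, mem_Icc] at hk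
    have hY0 := YR_nonneg hk.1.1 hk.1.2
    apply div_le_div_of_nonneg_right _ (by positivity)
    rw [hF]
    have hkR : (1 : ℝ) ≤ k := by exact_mod_cast hk.1.1
    split_ifs with hkp
    · have e1 : YR R k - YR R (k * p) = l := by
        unfold YR
        push_cast
        rw [Real.log_mul (by linarith) (by linarith)]
        ring
      have e2 : 0 ≤ YR R (k * p) := YR_nonneg (by nlinarith) hkp
      have e3 : min (YR R k) l = l := min_eq_right (by linarith)
      beta_reduce
      rw [e1, e3]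
    · have e1 : YR R k ≤ l := by
        unfold YR
        have : (R : ℝ) ≤ k * p := by exact_mod_cast (not_le.1 hkp).le
        have := Real.log_le_log (by positivity) this
        rw [Real.log_mul (by linarith) (by linarith)] at this
        linarith
      beta_reduce
      rw [sub_zero, min_eq_left e1]
  refine h1.trans ?_
  rw [sum_GG F R hR1]
  have hFR : F R = 0 := by
    rw [hF]; beta_reduce
    rw [YR_self, min_eq_left hl0]; norm_num
  rw [hFR, mul_zero, zero_add]
  -- the majorant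
  set a := r - l with ha
  set Γ : ℕ → ℝ := fun m => 4 / 15 * (r * (max a (Real.log (m : ℝ))) ^ 2 -
    2 / 3 * (max a (Real.log (m : ℝ))) ^ 3) - 0.75 * F m with hΓ
  have h2 : ∑ m ∈ Ico 1 R, GG m * (F m - F (m + 1)) ≤ ∑ m ∈ Ico 1 R, (Γ (m + 1) - Γ m) := by
    apply Finset.sum_le_sum
    intro m hm
    rw [mem_Ico] at hm
    have hs1 := log_succ_ge m hm.1
    have hmR : (1 : ℝ) ≤ m := by exact_mod_cast hm.1
    set s := Real.log m with hs
    set s' := Real.log ((m : ℝ) + 1) with hs'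
    have hs'r : s' ≤ r := by
      apply Real.log_le_log (by linarith)
      exact_mod_cast hm.2
    have hs0 : 0 ≤ s := Real.log_nonneg hmR
    have eF : F m = (min (r - s) l) ^ 2 := by rw [hF]; rfl
    have eF' : F (m + 1) = (min (r - s') l) ^ 2 := by
      rw [hF]; beta_reduce; unfold YR; push_cast; rfl
    have eΓ : Γ m = 4 / 15 * (r * (max a s) ^ 2 - 2 / 3 * (max a s) ^ 3) - 0.75 * F m := rfl
    have eΓ' : Γ (m + 1) = 4 / 15 * (r * (max a s') ^ 2 - 2 / 3 * (max a s') ^ 3)
        - 0.75 * F (m + 1) := by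
      rw [hΓ]; push_cast; rfl
    rcases le_or_gt s' a with h | h
    · -- both constant
      have f1 : min (r - s) l = l := min_eq_right (by linarith)
      have f2 : min (r - s') l = l := min_eq_right (by linarith)
      have f3 : max a s = a := max_eq_left (by linarith)
      have f4 : max a s' = a := max_eq_left h
      rw [eΓ, eΓ', eF, eF', f1, f2, f3, f4]
      simp
    · have hm7 : 7 ≤ m := by
        by_contra hlt
        have h3 : (m : ℝ) + 1 ≤ 7 := by
          have : m + 1 ≤ 7 := by omega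
          exact_mod_cast this
        have h4 : s' ≤ Real.log 7 := Real.log_le_log (by linarith) h3
        linarith
      have hGm := hG m hm7
      have f2 : min (r - s') l = r - s' := min_eq_left (by linarith)
      have f4 : max a s' = s' := max_eq_right h.le
      rcases le_or_gt s a with h5 | h5
      · have f1 : min (r - s) l = l := min_eq_right (by linarith)
        have f3 : max a s = a := max_eq_left h5
        rw [eΓ, eΓ', eF, eF', f1, f2, f3, f4]
        have hla : l = r - a := by rw [ha]; ring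
        have g5 := keyN r a s' (GG m) 0.75 (by linarith) h.le hs'r
        rw [hla]
        linarith
      · have f1 : min (r - s) l = r - s := min_eq_left (by linarith)
        have f3 : max a s = s := max_eq_right h5.le
        rw [eΓ, eΓ', eF, eF', f1, f2, f3, f4]
        have g5 := keyN r s s' (GG m) 0.75 hGm (by linarith) hs'r
        linarith
  refine h2.trans ?_
  rw [tele Γ 1 R hR1]
  have e1 : Γ R = 4 / 15 * (r * r ^ 2 - 2 / 3 * r ^ 3) := by
    rw [hΓ]; beta_reduce
    rw [hFR, ← hr, max_eq_right (by linarith)]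
    ring
  have e2 : Γ 1 = 4 / 15 * (r * a ^ 2 - 2 / 3 * a ^ 3) - 0.75 * l ^ 2 := by
    rw [hΓ]; beta_reduce
    have : F 1 = l ^ 2 := by
      rw [hF]; beta_reduce
      rw [YR_one, ← hr, min_eq_right (by linarith)]
    rw [this, Nat.cast_one, Real.log_one, max_eq_left (by linarith)]
  rw [e1, e2, ha]
  apply le_of_eq
  ring

end Pool.Agent.Lib.MP_bf4c7f
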