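import Mathlib
import Pool.Agent.Lib.MP_bf4c7f_nt3.Sums

/-!
# The sum of the absolute values of the weights; the weight of an integer without small factors
-/

set_option autoImplicit false

namespace Pool.Agent.Lib.MP_bf4c7f

open Finset ArithmeticFunction
open scoped ArithmeticFunction.Moebius

lemma C30_succ (n : ℕ) : (C30 (n + 1) : ℝ) = C30 n + if Nat.Coprime (n + 1) 30 then 1 else 0 := by
  unfold C30
  have : Icc 1 (n + 1) = insert (n + 1) (Icc 1 n) := by
    ext m; simp only [mem_Icc, mem_insert]; omega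
  rw [this, Finset.filter_insert]
  split_ifs with h
  · rw [Finset.card_insert_of_notMem (by simp)]
    push_cast; ring
  · rw [add_zero]

/-- partial summation over integers coprime to 30 -/
lemma sum_C30 (F : ℕ → ℝ) (B : ℕ) (hB : 1 ≤ B) :
    ∑ b ∈ (Icc 1 B).filter (fun b => Nat.Coprime b 30), F b =
      C30 B * F B + ∑ m ∈ Ico 1 B, C30 m * (F m - F (m + 1)) := by
  induction B, hB using Nat.le_induction with
  | base =>
    have h1 : (Icc 1 1).filter (fun b => Nat.Coprime b 30) = {1} := by decide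
    have h2 : C30 1 = 1 := by decide
    rw [h1, h2]
    simp
  | succ n hn ih =>
    have h1 : Icc 1 (n + 1) = insert (n + 1) (Icc 1 n) := by
      ext m; simp only [mem_Icc, mem_insert]; omega
    rw [Finset.sum_Ico_succ_top (by omega), h1, Finset.filter_insert, C30_succ]
    split_ifs with h
    · rw [Finset.sum_insert (by simp), ih]
      ring
    · rw [ih]
      ring

/-- the inner sum -/
lemma inner_sum (R D : ℕ) (hR : 1 ≤ R) (hD : 1 ≤ D) :
    ∑ b ∈ (Icc 1 (R / D)).filter (fun b => Nat.Coprime b 30),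
      (Real.log R - Real.log D - Real.log b) ≤ 4 / 15 * ((R : ℝ) / D) + 14 / 15 * Real.log R := by
  have hRR : (1 : ℝ) ≤ R := by exact_mod_cast hR
  have hDR : (1 : ℝ) ≤ D := by exact_mod_cast hD
  have hlR : 0 ≤ Real.log R := Real.log_nonneg hRR
  have hlD : 0 ≤ Real.log D := Real.log_nonneg hDR
  rcases Nat.eq_zero_or_pos (R / D) with h0 | h0
  · rw [h0]
    simp only [Finset.Icc_eq_empty (show ¬ (1 ≤ 0) by norm_num), Finset.filter_empty, Finset.sum_empty]
    positivity
  set B := R / D with hB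
  set T : ℝ := (R : ℝ) / D with hT
  have hT0 : 0 < T := by positivity
  have hBT : (B : ℝ) ≤ T := Nat.cast_div_le
  have hBR : (1 : ℝ) ≤ B := by exact_mod_cast h0
  have hlT : Real.log T = Real.log R - Real.log D := Real.log_div (by linarith) (by linarith)
  rw [sum_C30 _ B h0]
  rw [← hlT]
  have hC : ∀ m : ℕ, (C30 m : ℝ) ≤ 4 / 15 * m + 14 / 15 := by
    intro m
    have : (15 : ℝ) * (C30 m : ℝ) ≤ 4 * (m : ℝ) + 14 := by exact_mod_cast (C30_bounds m).1
    linarith
  have h1 : ∑ m ∈ Ico 1 B, (C30 m : ℝ) * (Real.log T - Real.log m - (Real.log T -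
      Real.log ((m + 1 : ℕ) : ℝ))) ≤ ∑ m ∈ Ico 1 B,
      ((fun j : ℕ => 4 / 15 * (j : ℝ) + 14 / 15 * Real.log (j : ℝ)) (m + 1) -
        (fun j : ℕ => 4 / 15 * (j : ℝ) + 14 / 15 * Real.log (j : ℝ)) m) := by
    apply Finset.sum_le_sum
    intro m hm
    rw [mem_Ico] at hm
    have hm0 : (0 : ℝ) < m := by exact_mod_cast hm.1
    have h2 := log_succ_ge m hm.1
    have h3 := log_succ_le m hm.1
    have h4 := mul_le_mul_of_nonneg_right (hC m) h2
    have h5 : (m : ℝ) * (Real.log ((m : ℝ) + 1) - Real.log m) ≤ 1 := by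
      rw [le_div_iff₀ hm0] at h3
      linarith
    push_cast
    have e : Real.log T - Real.log m - (Real.log T - Real.log ((m : ℝ) + 1)) =
      Real.log ((m : ℝ) + 1) - Real.log m := by ring
    rw [e]
    linarith
  have h6 := tele (fun j : ℕ => 4 / 15 * (j : ℝ) + 14 / 15 * Real.log (j : ℝ)) 1 B h0
  beta_reduce at h1 h6
  rw [h6] at h1
  have h7 : 0 ≤ Real.log T - Real.log B := by
    have := Real.log_le_log (by linarith) hBT
    linarith
  have h8 := mul_le_mul_of_nonneg_right (hC B) h7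
  have h9 : (B : ℝ) * (Real.log T - Real.log B) ≤ T - B := by
    have h10 : Real.log (T / B) ≤ T / B - 1 := Real.log_le_sub_one_of_pos (by positivity)
    rw [Real.log_div hT0.ne' (by linarith)] at h10
    have h11 := mul_le_mul_of_nonneg_left h10 (by linarith : (0 : ℝ) ≤ B)
    have h12 : (B : ℝ) * (T / B - 1) = T - B := by field_simp
    linarith
  have h13 : Real.log T ≤ Real.log R := by linarith
  push_cast at h1 ⊢
  rw [Real.log_one] at h1
  linarith

/-! ### the sum of the absolute values -/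

lemma abs_lamY_le (R d : ℕ) : |lamY (YR R) R d| ≤
    d * ∑ k ∈ (Icc 1 R).filter (fun k => SC k ∧ d ∣ k), YR R k / (Nat.totient k : ℝ) := by
  unfold lamY
  have h0 : 0 ≤ ∑ k ∈ (Icc 1 R).filter (fun k => SC k ∧ d ∣ k), YR R k / (Nat.totient k : ℝ) := by
    apply Finset.sum_nonneg
    intro k hk
    rw [mem_filter, mem_Icc] at hk
    exact div_nonneg (YR_nonneg hk.1.1 hk.1.2) (by positivity)
  rw [abs_mul, abs_mul, abs_of_nonneg h0, Nat.abs_cast]
  have hmu : |((μ d : ℤ) : ℝ)| ≤ 1 := by exact_mod_cast abs_moebius_le_one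
  have hd : (0 : ℝ) ≤ d := by positivity
  calc |((μ d : ℤ) : ℝ)| * d * _ ≤ 1 * d * _ := by gcongr
    _ = _ := by rw [one_mul]

/-- `(Σ_{d ∣ k} d) / φ(k)` as a double sum -/
lemma sigma_div (R k : ℕ) (hk1 : 1 ≤ k) (hkR : k ≤ R) (hk : SC k) :
    (∑ d ∈ k.divisors, (d : ℝ)) / (Nat.totient k : ℝ) =
      ∑ e ∈ (Icc 1 R).filter (fun e => SC e), ∑ a ∈ (Icc 1 R).filter (fun a => SC a),
        if e * a ∣ k then (1 / (Nat.totient e : ℝ)) * (1 / (Nat.totient a : ℝ)) else 0 := by
  have h1 : ∀ d ∈ k.divisors, (d : ℝ) / (Nat.totient k : ℝ) =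
      (1 / (Nat.totient (k / d) : ℝ)) * ∑ a ∈ d.divisors, (1 : ℝ) / (Nat.totient a : ℝ) := by
    intro d hd
    have hdk := Nat.dvd_of_mem_divisors hd
    have hd0 : 0 < d := Nat.pos_of_mem_divisors hd
    have hmul : d * (k / d) = k := Nat.mul_div_cancel' hdk
    have hcop : Nat.Coprime d (k / d) := by
      apply Nat.coprime_of_squarefree_mul
      rw [hmul]; exact hk.1
    have h2 : Nat.totient k = Nat.totient d * Nat.totient (k / d) := by
      rw [← Nat.totient_mul hcop, hmul]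
    have hphid : (0 : ℝ) < (Nat.totient d : ℝ) := by exact_mod_cast Nat.totient_pos.2 hd0
    have hkd : 0 < k / d := Nat.div_pos (Nat.le_of_dvd hk1 hdk) hd0
    have hphi2 : (0 : ℝ) < (Nat.totient (k / d) : ℝ) := by exact_mod_cast Nat.totient_pos.2 hkd
    have h3 := inv_totient_eq d (SC_dvd hk hdk).1
    have hdR : (0 : ℝ) < d := by exact_mod_cast hd0
    have h4 : ∑ a ∈ d.divisors, (1 : ℝ) / (Nat.totient a : ℝ) = d * (1 / (Nat.totient d : ℝ)) := by
      rw [h3]; field_simp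
    rw [h4, h2]
    push_cast
    field_simp
  rw [Finset.sum_div, Finset.sum_congr rfl h1]
  rw [← Nat.sum_div_divisors k (fun d => (1 / (Nat.totient (k / d) : ℝ)) *
    ∑ a ∈ d.divisors, (1 : ℝ) / (Nat.totient a : ℝ))]
  have h5 : ∀ e ∈ k.divisors, (1 / (Nat.totient (k / (k / e)) : ℝ)) *
      ∑ a ∈ (k / e).divisors, (1 : ℝ) / (Nat.totient a : ℝ) =
      ∑ a ∈ (Icc 1 R).filter (fun a => SC a),
        if e * a ∣ k then (1 / (Nat.totient e : ℝ)) * (1 / (Nat.totient a : ℝ)) else 0 := by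
    intro e he
    have hek := Nat.dvd_of_mem_divisors he
    have he0 : 0 < e := Nat.pos_of_mem_divisors he
    rw [Nat.div_div_self hek (by omega), Finset.mul_sum, ← Finset.sum_filter]
    apply Finset.sum_congr _ (fun _ _ => rfl)
    ext a
    rw [mem_filter, mem_filter, mem_Icc, Nat.mem_divisors]
    constructor
    · rintro ⟨h1, h2⟩
      have h3 : e * a ∣ k := by
        obtain ⟨c, hc⟩ := h1
        refine ⟨c, ?_⟩
        rw [← Nat.mul_div_cancel' hek, hc]; ring
      have h4 : a ∣ k := (dvd_mul_left a e).trans h3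
      exact ⟨⟨⟨Nat.pos_of_dvd_of_pos h4 hk1, (Nat.le_of_dvd hk1 h4).trans hkR⟩, SC_dvd hk h4⟩, h3⟩
    · rintro ⟨_, h3⟩
      refine ⟨?_, ?_⟩
      · rw [Nat.dvd_div_iff_mul_dvd hek]
        exact h3
      · have := Nat.div_pos (Nat.le_of_dvd hk1 hek) he0
        omega
  rw [Finset.sum_congr rfl h5]
  apply Finset.sum_subset
  · intro e he
    have hek := Nat.dvd_of_mem_divisors he
    rw [mem_filter, mem_Icc]
    exact ⟨⟨Nat.pos_of_mem_divisors he, (Nat.le_of_dvd hk1 hek).trans hkR⟩, SC_dvd hk hek⟩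
  · intro e _ he
    apply Finset.sum_eq_zero
    intro a _
    rw [if_neg]
    intro h
    apply he
    rw [Nat.mem_divisors]
    exact ⟨(dvd_mul_right e a).trans h, by omega⟩

theorem sum_abs_lamY (R : ℕ) (hR : 1 ≤ R) :
    ∑ d ∈ Icc 1 R, |lamY (YR R) R d| ≤
      4 / 15 * c0 R ^ 2 * R + 14 / 15 * Real.log R * GG R ^ 2 := by
  have h1 : ∑ d ∈ Icc 1 R, |lamY (YR R) R d| ≤ ∑ d ∈ Icc 1 R, (d : ℝ) *
      ∑ k ∈ (Icc 1 R).filter (fun k => SC k ∧ d ∣ k), YR R k / (Nat.totient k : ℝ) :=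
    Finset.sum_le_sum (fun d _ => abs_lamY_le R d)
  refine h1.trans ?_
  -- exchange
  have h2 : ∑ d ∈ Icc 1 R, (d : ℝ) *
      ∑ k ∈ (Icc 1 R).filter (fun k => SC k ∧ d ∣ k), YR R k / (Nat.totient k : ℝ) =
      ∑ k ∈ (Icc 1 R).filter (fun k => SC k),
        YR R k * ((∑ d ∈ k.divisors, (d : ℝ)) / (Nat.totient k : ℝ)) := by
    have e1 : ∀ d ∈ Icc 1 R, (d : ℝ) *
        ∑ k ∈ (Icc 1 R).filter (fun k => SC k ∧ d ∣ k), YR R k / (Nat.totient k : ℝ) =
        ∑ k ∈ (Icc 1 R).filter (fun k => SC k),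
          if d ∣ k then (d : ℝ) * (YR R k / (Nat.totient k : ℝ)) else 0 := by
      intro d _
      rw [← Finset.sum_filter, Finset.filter_filter, Finset.mul_sum]
    rw [Finset.sum_congr rfl e1, Finset.sum_comm]
    apply Finset.sum_congr rfl
    intro k hk
    rw [mem_filter, mem_Icc] at hk
    rw [← Finset.sum_filter]
    have e2 : (Icc 1 R).filter (fun d => d ∣ k) = k.divisors := by
      ext d
      rw [mem_filter, mem_Icc, Nat.mem_divisors]
      constructor
      · rintro ⟨_, h⟩; exact ⟨h, by omega⟩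
      · rintro ⟨h, _⟩
        exact ⟨⟨Nat.pos_of_dvd_of_pos h hk.1.1, (Nat.le_of_dvd hk.1.1 h).trans hk.1.2⟩, h⟩
    rw [e2, ← Finset.sum_mul]
    ring
  rw [h2]
  have h3 : ∑ k ∈ (Icc 1 R).filter (fun k => SC k),
        YR R k * ((∑ d ∈ k.divisors, (d : ℝ)) / (Nat.totient k : ℝ)) =
      ∑ e ∈ (Icc 1 R).filter (fun e => SC e), ∑ a ∈ (Icc 1 R).filter (fun a => SC a),
        (1 / (Nat.totient e : ℝ)) * (1 / (Nat.totient a : ℝ)) *
          ∑ k ∈ ((Icc 1 R).filter (fun k => SC k)).filter (fun k => e * a ∣ k), YR R k := by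
    have e1 : ∀ k ∈ (Icc 1 R).filter (fun k => SC k),
        YR R k * ((∑ d ∈ k.divisors, (d : ℝ)) / (Nat.totient k : ℝ)) =
        ∑ e ∈ (Icc 1 R).filter (fun e => SC e), ∑ a ∈ (Icc 1 R).filter (fun a => SC a),
          if e * a ∣ k then (1 / (Nat.totient e : ℝ)) * (1 / (Nat.totient a : ℝ)) * YR R k
            else 0 := by
      intro k hk
      rw [mem_filter, mem_Icc] at hk
      rw [sigma_div R k hk.1.1 hk.1.2 hk.2, Finset.mul_sum]
      apply Finset.sum_congr rfl; intro e _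
      rw [Finset.mul_sum]
      apply Finset.sum_congr rfl; intro a _
      split_ifs
      · ring
      · ring
    rw [Finset.sum_congr rfl e1, Finset.sum_comm]
    apply Finset.sum_congr rfl; intro e _
    rw [Finset.sum_comm]
    apply Finset.sum_congr rfl; intro a _
    rw [← Finset.sum_filter, Finset.mul_sum]
  rw [h3]
  have hRR : (1 : ℝ) ≤ R := by exact_mod_cast hR
  have hlR : 0 ≤ Real.log R := Real.log_nonneg hRR
  have h4 : ∀ e ∈ (Icc 1 R).filter (fun e => SC e), ∀ a ∈ (Icc 1 R).filter (fun a => SC a),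
      (1 / (Nat.totient e : ℝ)) * (1 / (Nat.totient a : ℝ)) *
          ∑ k ∈ ((Icc 1 R).filter (fun k => SC k)).filter (fun k => e * a ∣ k), YR R k ≤
      4 / 15 * R * ((1 / ((e : ℝ) * (Nat.totient e : ℝ))) * (1 / ((a : ℝ) * (Nat.totient a : ℝ)))) +
      14 / 15 * Real.log R * ((1 / (Nat.totient e : ℝ)) * (1 / (Nat.totient a : ℝ))) := by
    intro e he a ha
    rw [mem_filter, mem_Icc] at he ha
    have heR : (0 : ℝ) < e := by exact_mod_cast he.1.1
    have haR : (0 : ℝ) < a := by exact_mod_cast ha.1.1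
    have hD : 1 ≤ e * a := Nat.mul_pos he.1.1 ha.1.1
    have h5 : ∑ k ∈ ((Icc 1 R).filter (fun k => SC k)).filter (fun k => e * a ∣ k), YR R k ≤
        ∑ b ∈ (Icc 1 (R / (e * a))).filter (fun b => Nat.Coprime b 30),
          (Real.log R - Real.log ((e * a : ℕ) : ℝ) - Real.log b) := by
      have hsub : ((Icc 1 R).filter (fun k => SC k)).filter (fun k => e * a ∣ k) ⊆
          ((Icc 1 (R / (e * a))).filter (fun b => Nat.Coprime b 30)).image (fun b => e * a * b) := by
        intro k hk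
        rw [mem_filter, mem_filter, mem_Icc] at hk
        obtain ⟨⟨⟨hk1, hk2⟩, hk3⟩, ⟨b, rfl⟩⟩ := hk
        rw [mem_image]
        refine ⟨b, ?_, rfl⟩
        rw [mem_filter, mem_Icc, Nat.le_div_iff_mul_le hD]
        refine ⟨⟨?_, by linarith [mul_comm b (e * a)]⟩,
          Nat.Coprime.coprime_dvd_left (dvd_mul_left b (e * a)) hk3.2⟩
        rcases Nat.eq_zero_or_pos b with h | h
        · subst h; simp at hk1
        · exact h
      refine (Finset.sum_le_sum_of_subset_of_nonneg hsub ?_).trans ?_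
      · intro k hk _
        rw [mem_image] at hk
        obtain ⟨b, hb, rfl⟩ := hk
        rw [mem_filter, mem_Icc, Nat.le_div_iff_mul_le hD] at hb
        apply YR_nonneg
        · exact Nat.mul_pos hD hb.1.1
        · linarith [mul_comm b (e * a), hb.1.2]
      · rw [Finset.sum_image (by intro x _ y _ hxy; exact Nat.eq_of_mul_eq_mul_left hD hxy)]
        apply Finset.sum_le_sum
        intro b hb
        rw [mem_filter, mem_Icc] at hb
        have hbR : (0 : ℝ) < b := by exact_mod_cast hb.1.1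
        unfold YR
        push_cast
        rw [Real.log_mul (by positivity) hbR.ne']
        linarith
    have h6 := h5.trans (inner_sum R (e * a) hR hD)
    have h7 : 0 ≤ (1 / (Nat.totient e : ℝ)) * (1 / (Nat.totient a : ℝ)) := by positivity
    refine (mul_le_mul_of_nonneg_left h6 h7).trans (le_of_eq ?_)
    push_cast
    field_simp
  refine (Finset.sum_le_sum fun e he => Finset.sum_le_sum fun a ha => h4 e he a ha).trans
    (le_of_eq ?_)
  simp only [Finset.sum_add_distrib, ← Finset.mul_sum, ← Finset.sum_mul]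
  unfold c0 GG
  ring

/-! ### the weight of an integer without small prime factors -/

lemma L1_nonneg (R : ℕ) : 0 ≤ L1 R := by
  apply Finset.sum_nonneg
  intro k hk
  rw [mem_filter, mem_Icc] at hk
  exact div_nonneg (YR_nonneg hk.1.1 hk.1.2) (by positivity)

lemma lamY_one (R : ℕ) : lamY (YR R) R 1 = L1 R := by
  unfold lamY L1
  rw [moebius_apply_one]
  simp

lemma lamY_prime_nonpos (R q : ℕ) (hq : q.Prime) : lamY (YR R) R q ≤ 0 := by
  unfold lamY
  rw [moebius_apply_prime hq]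
  have h0 : 0 ≤ ∑ k ∈ (Icc 1 R).filter (fun k => SC k ∧ q ∣ k), YR R k / (Nat.totient k : ℝ) := by
    apply Finset.sum_nonneg
    intro k hk
    rw [mem_filter, mem_Icc] at hk
    exact div_nonneg (YR_nonneg hk.1.1 hk.1.2) (by positivity)
  have : 0 ≤ (q : ℝ) * ∑ k ∈ (Icc 1 R).filter (fun k => SC k ∧ q ∣ k),
      YR R k / (Nat.totient k : ℝ) := by positivity
  push_cast
  linarith

/-- the weights at large primes are small -/
lemma lamY_prime (R1 z q : ℕ) (hR1 : 1 ≤ R1) (hz : 2 ≤ z) (hq : q.Prime) (hzq : z ≤ q) :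
    -((z : ℝ) / ((z : ℝ) - 1) * L1 R1) ≤ lamY (YR (z * R1)) (z * R1) q := by
  have hzR : (2 : ℝ) ≤ z := by exact_mod_cast hz
  have hqR : (z : ℝ) ≤ q := by exact_mod_cast hzq
  have hR1R : (1 : ℝ) ≤ R1 := by exact_mod_cast hR1
  unfold lamY
  rw [moebius_apply_prime hq]
  set R := z * R1 with hR
  have h1 : ∑ k ∈ (Icc 1 R).filter (fun k => SC k ∧ q ∣ k), YR R k / (Nat.totient k : ℝ) ≤
      (1 / ((q : ℝ) - 1)) * L1 R1 := by
    have hsub : (Icc 1 R).filter (fun k => SC k ∧ q ∣ k) ⊆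
        ((Icc 1 R1).filter (fun j => SC j ∧ Nat.Coprime q j ∧ q * j ≤ R)).image
          (fun j => q * j) := by
      intro k hk
      rw [mem_filter, mem_Icc] at hk
      obtain ⟨⟨hk1, hk2⟩, hk3, ⟨j, rfl⟩⟩ := hk
      rw [mem_image]
      refine ⟨j, ?_, rfl⟩
      have hj0 : 1 ≤ j := by
        rcases Nat.eq_zero_or_pos j with h | h
        · subst h; simp at hk1
        · exact h
      have hjR : j ≤ R1 := by
        have h2 : z * j ≤ z * R1 := (Nat.mul_le_mul_right j hzq).trans hk2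
        exact Nat.le_of_mul_le_mul_left h2 (by omega)
      rw [mem_filter, mem_Icc]
      exact ⟨⟨hj0, hjR⟩, SC_dvd hk3 (dvd_mul_left j q),
        Nat.coprime_of_squarefree_mul hk3.1, hk2⟩
    refine (Finset.sum_le_sum_of_subset_of_nonneg hsub ?_).trans ?_
    · intro k hk _
      rw [mem_image] at hk
      obtain ⟨j, hj, rfl⟩ := hk
      rw [mem_filter, mem_Icc] at hj
      exact div_nonneg (YR_nonneg (Nat.mul_pos hq.pos hj.1.1) hj.2.2.2) (by positivity)
    · rw [Finset.sum_image (by intro x _ y _ hxy; exact Nat.eq_of_mul_eq_mul_left hq.pos hxy)]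
      unfold L1
      rw [Finset.mul_sum]
      have hsub2 : (Icc 1 R1).filter (fun j => SC j ∧ Nat.Coprime q j ∧ q * j ≤ R) ⊆
          (Icc 1 R1).filter (fun j => SC j) := by
        intro j hj
        rw [mem_filter] at hj ⊢
        exact ⟨hj.1, hj.2.1⟩
      have hq1 : (0 : ℝ) < (q : ℝ) - 1 := by linarith
      refine le_trans ?_ (Finset.sum_le_sum_of_subset_of_nonneg hsub2 ?_)
      · apply Finset.sum_le_sum
        intro j hj
        rw [mem_filter, mem_Icc] at hj
        have hjR : (1 : ℝ) ≤ j := by exact_mod_cast hj.1.1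
        have hphi : (0 : ℝ) < (Nat.totient j : ℝ) := by
          exact_mod_cast Nat.totient_pos.2 hj.1.1
        have e1 : ((Nat.totient (q * j) : ℕ) : ℝ) = ((q : ℝ) - 1) * (Nat.totient j : ℝ) := by
          rw [Nat.totient_mul hj.2.2.1, Nat.totient_prime hq, Nat.cast_mul, Nat.cast_sub hq.one_le]
          simp
        have e2 : YR R (q * j) ≤ YR R1 j := by
          unfold YR
          rw [hR]
          push_cast
          rw [Real.log_mul (by linarith) (by linarith), Real.log_mul (by linarith) (by linarith)]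
          have : Real.log z ≤ Real.log q := Real.log_le_log (by linarith) hqR
          linarith
        rw [e1]
        calc YR R (q * j) / (((q : ℝ) - 1) * (Nat.totient j : ℝ)) ≤
            YR R1 j / (((q : ℝ) - 1) * (Nat.totient j : ℝ)) :=
              div_le_div_of_nonneg_right e2 (by positivity)
          _ = 1 / ((q : ℝ) - 1) * (YR R1 j / (Nat.totient j : ℝ)) := by field_simp
      · intro j hj _
        rw [mem_filter, mem_Icc] at hj
        have := YR_nonneg hj.1.1 hj.1.2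
        positivity
  have hL := L1_nonneg R1
  have h2 : (q : ℝ) * (1 / ((q : ℝ) - 1)) ≤ (z : ℝ) / ((z : ℝ) - 1) := by
    rw [mul_one_div, div_le_div_iff₀ (by linarith) (by linarith)]
    linarith
  have h3 : (q : ℝ) * ∑ k ∈ (Icc 1 R).filter (fun k => SC k ∧ q ∣ k),
      YR R k / (Nat.totient k : ℝ) ≤ (z : ℝ) / ((z : ℝ) - 1) * L1 R1 := by
    calc _ ≤ (q : ℝ) * ((1 / ((q : ℝ) - 1)) * L1 R1) :=
          mul_le_mul_of_nonneg_left h1 (by positivity)
      _ = (q : ℝ) * (1 / ((q : ℝ) - 1)) * L1 R1 := by ring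
      _ ≤ _ := mul_le_mul_of_nonneg_right h2 hL
  push_cast
  linarith

/-- the weight of an integer whose prime factors are at least `z` -/
theorem WY_rough (R1 z n : ℕ) (hR1 : 1 ≤ R1) (hz : 2 ≤ z) (hR1z : R1 < z) (hn : 1 ≤ n)
    (hr : ∀ p : ℕ, p.Prime → p ∣ n → z ≤ p) (hnz : n < z ^ 9)
    (hL : 8 * ((z : ℝ) / ((z : ℝ) - 1) * L1 R1) ≤ 2 * L1 (z * R1)) :
    WY (YR (z * R1)) (z * R1) n ≤ L1 (z * R1) ^ 2 := by
  set R := z * R1 with hR
  have hR1' : 1 ≤ R := Nat.mul_pos (by omega) hR1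
  have hRz : R < z * z := Nat.mul_lt_mul_of_pos_left hR1z (by omega)
  set Q := ((Icc 1 R).filter (fun d => d ∣ n)).erase 1 with hQ
  have hmem1 : 1 ∈ (Icc 1 R).filter (fun d => d ∣ n) := by
    rw [mem_filter, mem_Icc]; exact ⟨⟨le_rfl, hR1'⟩, one_dvd n⟩
  have hQp : ∀ q ∈ Q, q.Prime ∧ q ∣ n ∧ z ≤ q := by
    intro q hq
    rw [hQ, mem_erase, mem_filter, mem_Icc] at hq
    obtain ⟨hq1, ⟨hq2, hq3⟩, hq4⟩ := hq
    have hmf := Nat.minFac_prime hq1
    have hmz : z ≤ q.minFac := hr _ hmf ((Nat.minFac_dvd q).trans hq4)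
    have hqp : q.Prime := by
      by_contra hnp
      have h1 := Nat.minFac_sq_le_self hq2 hnp
      have h2 : z * z ≤ q.minFac ^ 2 := by nlinarith
      omega
    exact ⟨hqp, hq4, hr q hqp hq4⟩
  have hcard : Q.card ≤ 8 := by
    have h1 : ∏ q ∈ Q, q ∣ n := Finset.prod_primes_dvd n
      (fun q hq => (hQp q hq).1.prime) (fun q hq => (hQp q hq).2.1)
    have h2 : z ^ Q.card ≤ ∏ q ∈ Q, q := by
      rw [← Finset.prod_const]
      exact Finset.prod_le_prod' (fun q hq => (hQp q hq).2.2)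
    have h3 : z ^ Q.card ≤ n := h2.trans (Nat.le_of_dvd hn h1)
    have h4 : z ^ Q.card < z ^ 9 := lt_of_le_of_lt h3 hnz
    have h5 := (Nat.pow_lt_pow_iff_right (show 1 < z by omega)).1 h4
    omega
  have hS : ∑ d ∈ (Icc 1 R).filter (fun d => d ∣ n), lamY (YR R) R d =
      L1 R + ∑ q ∈ Q, lamY (YR R) R q := by
    rw [hQ, ← Finset.add_sum_erase _ _ hmem1, lamY_one]
  set B := (z : ℝ) / ((z : ℝ) - 1) * L1 R1 with hB
  have hzR : (2 : ℝ) ≤ z := by exact_mod_cast hz
  have hB0 : 0 ≤ B := mul_nonneg (div_nonneg (by linarith) (by linarith)) (L1_nonneg R1)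
  have hlow : -(8 * B) ≤ ∑ q ∈ Q, lamY (YR R) R q := by
    have h1 : ∑ q ∈ Q, (-B) ≤ ∑ q ∈ Q, lamY (YR R) R q := by
      apply Finset.sum_le_sum
      intro q hq
      exact lamY_prime R1 z q hR1 hz (hQp q hq).1 (hQp q hq).2.2
    rw [Finset.sum_const, nsmul_eq_mul] at h1
    have h2 : (Q.card : ℝ) ≤ 8 := by exact_mod_cast hcard
    have h3 : (Q.card : ℝ) * B ≤ 8 * B := mul_le_mul_of_nonneg_right h2 hB0
    linarith
  have hup : ∑ q ∈ Q, lamY (YR R) R q ≤ 0 := by
    apply Finset.sum_nonpos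
    intro q hq
    exact lamY_prime_nonpos R q (hQp q hq).1
  have hL0 := L1_nonneg R
  unfold WY
  rw [hS]
  have h1 : (L1 R + ∑ q ∈ Q, lamY (YR R) R q) ^ 2 ≤ L1 R ^ 2 := by
    apply sq_le_sq'
    · linarith
    · linarith
  have h2 : ind30 n ≤ 1 := by unfold ind30; split_ifs <;> norm_num
  have h3 : 0 ≤ ind30 n := by unfold ind30; split_ifs <;> norm_num
  calc ind30 n * (L1 R + ∑ q ∈ Q, lamY (YR R) R q) ^ 2 ≤ 1 * L1 R ^ 2 := by gcongr
    _ = L1 R ^ 2 := one_mul _

end Pool.Agent.Lib.MP_bf4c7f
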