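import Mathlib
import Pool.Agent.Lib.MP_bf4c7f_nt3.Sums2
import Pool.Agent.Lib.MP_bf4c7f_nt3.Crit3

/-!
# The criterion with the two kinds of Selberg weights
-/

set_option autoImplicit false

namespace Pool.Agent.Lib.MP_bf4c7f

open Finset ArithmeticFunction
open scoped ArithmeticFunction.Moebius

lemma lam_one (R : ℕ) : lam R 1 = GG R := by
  unfold lam GG
  rw [moebius_apply_one]
  simp

lemma GG_pos (R : ℕ) (hR : 1 ≤ R) : 1 ≤ GG R := by
  rw [← GG_one]; exact GG_mono hR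

/-- the weight `W` of an integer whose prime factors are at least `z` -/
lemma W_rough (R z n : ℕ) (hR : 1 ≤ R) (hRz : R < z) (h30 : Nat.Coprime n 30)
    (hr : Rough z n) : W R n = GG R ^ 2 := by
  have h1 : (Icc 1 R).filter (fun d => d ∣ n) = {1} := by
    ext d
    rw [mem_filter, mem_Icc, mem_singleton]
    constructor
    · rintro ⟨⟨h1, h2⟩, h3⟩
      by_contra hne
      have h4 := Nat.minFac_prime hne
      have h5 := hr _ h4 ((Nat.minFac_dvd d).trans h3)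
      have h6 := Nat.minFac_le h1
      omega
    · rintro rfl
      exact ⟨⟨le_rfl, hR⟩, one_dvd n⟩
  unfold W ind30
  rw [h1, Finset.sum_singleton, lam_one, if_pos h30, one_mul]

/-- the sum of the weights over the multiples of a prime -/
lemma sum_W_prime (a b R p : ℕ) (hab : a ≤ b) (hR : 1 ≤ R) (hp : p.Prime) (h7 : 7 ≤ p) :
    ∑ n ∈ (Ioc a b).filter (fun n => p ∣ n), W R n / GG R ^ 2 ≤
      4 / 15 * ((b : ℝ) - a) / (p * GG R) + 28 / 15 * ((4 * (R : ℝ) + 14) / 15) ^ 2 := by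
  have hG := GG_pos R hR
  have hpR : (0 : ℝ) < p := by exact_mod_cast hp.pos
  have habR : (0 : ℝ) ≤ (b : ℝ) - a := by
    have : (a : ℝ) ≤ b := by exact_mod_cast hab
    linarith
  have h1 := sum_W_bound a b R (p ^ 1) hab (pow_pos hp.pos 1)
    (Nat.Coprime.pow_left 1 (prime_coprime_30 hp h7))
  rw [QF_pow R p 1 hp (prime_coprime_30 hp h7) le_rfl, pow_one, pow_one] at h1
  have h2 := (abs_le.1 h1).2
  have h3 := sum_abs_lam R
  have h30 : 0 ≤ ∑ d ∈ Icc 1 R, |lam R d| := Finset.sum_nonneg (fun _ _ => abs_nonneg _)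
  have h4 : (∑ d ∈ Icc 1 R, |lam R d|) ^ 2 ≤ ((4 * (R : ℝ) + 14) / 15 * GG R) ^ 2 :=
    pow_le_pow_left₀ h30 h3 2
  have h5 : 4 / 15 * ((b : ℝ) - a) * (NN R p / p) ≤ 4 / 15 * ((b : ℝ) - a) * (GG R / p) := by
    apply mul_le_mul_of_nonneg_left _ (by positivity)
    exact div_le_div_of_nonneg_right (NN_le_GG R p) hpR.le
  rw [← Finset.sum_div, div_le_iff₀ (by positivity)]
  have h6 : (4 / 15 * ((b : ℝ) - a) / (p * GG R) + 28 / 15 * ((4 * (R : ℝ) + 14) / 15) ^ 2) *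
      GG R ^ 2 = 4 / 15 * ((b : ℝ) - a) * (GG R / p) +
        28 / 15 * ((4 * (R : ℝ) + 14) / 15 * GG R) ^ 2 := by
    have : GG R ≠ 0 := by linarith
    field_simp
  rw [h6]
  linarith

/-- the weights with the values `YR`: total sum -/
lemma sum_WY_total (a b R : ℕ) (hab : a ≤ b) :
    4 / 15 * ((b : ℝ) - a) * S0 R - 28 / 15 * (∑ d ∈ Icc 1 R, |lamY (YR R) R d|) ^ 2 ≤
      ∑ n ∈ Ioc a b, WY (YR R) R n := by
  have h1 := sum_WY_bound (YR R) a b R 1 hab (by norm_num) (by norm_num)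
  rw [QFY_one] at h1
  have h2 := (abs_le.1 h1).1
  have h3 : (Ioc a b).filter (fun n => 1 ∣ n) = Ioc a b := by
    apply Finset.filter_true_of_mem
    intro n _
    exact one_dvd n
  rw [h3] at h2
  unfold S0
  linarith

/-- the weights with the values `YR`: multiples of a prime -/
lemma sum_WY_prime (a b R p : ℕ) (hab : a ≤ b) (hp : p.Prime) (h7 : 7 ≤ p) :
    ∑ n ∈ (Ioc a b).filter (fun n => p ∣ n), WY (YR R) R n ≤
      4 / 15 * ((b : ℝ) - a) * (Np R p / p) +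
        28 / 15 * (∑ d ∈ Icc 1 R, |lamY (YR R) R d|) ^ 2 := by
  have h1 := sum_WY_bound (YR R) a b R p hab hp.pos (prime_coprime_30 hp h7)
  rw [QFY_prime (YR R) R p hp (prime_coprime_30 hp h7)] at h1
  have h2 := (abs_le.1 h1).2
  have h3 : 1 / (p : ℝ) * ∑ k ∈ (Icc 1 R).filter (fun k => SC k ∧ ¬ p ∣ k),
          (YR R k - if k * p ≤ R then YR R (k * p) else 0) ^ 2 / (Nat.totient k : ℝ) =
      Np R p / p := by
    unfold Np
    ring
  rw [h3] at h2
  linarith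

/-- The criterion. -/
theorem critB (a b N z y R1 : ℕ) (hab : a ≤ b) (hN : ∀ n ∈ Ioc a b, n < N) (hz : 7 ≤ z)
    (hzy : z ≤ y) (hR1 : 1 ≤ R1) (hR1z : R1 < z) (hNz : N ≤ z ^ 9)
    (hL : 8 * ((z : ℝ) / ((z : ℝ) - 1) * L1 R1) ≤ 2 * L1 (z * R1))
    (Rp : ℕ → ℕ) (hRp : ∀ p, z ≤ p → p ≤ y → 1 ≤ Rp p) (hRp' : ∀ p, Rp p < z) (lm : ℝ) (hlm0 : 0 ≤ lm)
    (hlm : 1 ≤ lm * (4 - Real.log N / Real.log y))
    (hmain : L1 (z * R1) ^ 2 * (((b : ℝ) - a) / ((z : ℝ) - 1) + y) <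
      4 / 15 * ((b : ℝ) - a) * S0 (z * R1)
        - 28 / 15 * (∑ d ∈ Icc 1 (z * R1), |lamY (YR (z * R1)) (z * R1) d|) ^ 2
        - ∑ p ∈ P7 (z - 1), (4 / 15 * ((b : ℝ) - a) * (Np (z * R1) p / p) +
            28 / 15 * (∑ d ∈ Icc 1 (z * R1), |lamY (YR (z * R1)) (z * R1) d|) ^ 2)
        - lm * L1 (z * R1) ^ 2 * ∑ p ∈ (Icc z y).filter Nat.Prime, (1 - Real.log p / Real.log y) *
          (4 / 15 * ((b : ℝ) - a) / (p * GG (Rp p)) +
            28 / 15 * ((4 * (Rp p : ℝ) + 14) / 15) ^ 2)) :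
    ∃ n ∈ Ioc a b, n.primeFactorsList.length ≤ 3 := by
  set R := z * R1 with hR
  have hyR : (7 : ℝ) ≤ y := by exact_mod_cast hz.trans hzy
  have hY : 0 < Real.log y := Real.log_pos (by linarith)
  refine crit3 (Ioc a b) N (fun n hn => ⟨by have := (mem_Ioc.1 hn).1; omega, hN n hn⟩)
    (WY (YR R) R) (L1 R ^ 2) (sq_nonneg _) (fun n _ => WY_nonneg _ _ _)
    (by intro n _ h; unfold WY ind30; rw [if_neg h, zero_mul]) z y hz hzy
    (by
      intro n hn _ hr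
      exact WY_rough R1 z n hR1 (by omega) hR1z (by have := (mem_Ioc.1 hn).1; omega) hr
        (lt_of_lt_of_le (hN n hn) hNz) hL)
    (fun p n => W (Rp p) n / GG (Rp p) ^ 2)
    (fun p n => div_nonneg (W_nonneg _ _) (sq_nonneg _))
    (by
      intro n _ h30 hr p _ hp1 hp2 _
      have hG := GG_pos (Rp p) (hRp p hp1 hp2)
      rw [W_rough (Rp p) z n (hRp p hp1 hp2) (hRp' p) h30 hr, div_self]
      positivity)
    lm hlm0 hlm (((b : ℝ) - a) / ((z : ℝ) - 1) + y)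
    (fun B hB hP => card_sq a b z y hab (by omega) B hB hP) ?_
  refine lt_of_lt_of_le hmain ?_
  have h1 := sum_WY_total a b R hab
  have h2 : ∑ p ∈ P7 (z - 1), ∑ n ∈ (Ioc a b).filter (fun n => p ∣ n), WY (YR R) R n ≤
      ∑ p ∈ P7 (z - 1), (4 / 15 * ((b : ℝ) - a) * (Np R p / p) +
            28 / 15 * (∑ d ∈ Icc 1 R, |lamY (YR R) R d|) ^ 2) := by
    apply Finset.sum_le_sum
    intro p hp
    rw [mem_P7] at hp
    exact sum_WY_prime a b R p hab hp.1 hp.2.1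
  have h3 : ∑ p ∈ (Icc z y).filter Nat.Prime, (1 - Real.log p / Real.log y) *
      ∑ n ∈ (Ioc a b).filter (fun n => p ∣ n), W (Rp p) n / GG (Rp p) ^ 2 ≤
      ∑ p ∈ (Icc z y).filter Nat.Prime, (1 - Real.log p / Real.log y) *
          (4 / 15 * ((b : ℝ) - a) / (p * GG (Rp p)) +
            28 / 15 * ((4 * (Rp p : ℝ) + 14) / 15) ^ 2) := by
    apply Finset.sum_le_sum
    intro p hp
    rw [mem_filter, mem_Icc] at hp
    have h4 : Real.log p ≤ Real.log y :=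
      Real.log_le_log (by exact_mod_cast hp.2.pos) (by exact_mod_cast hp.1.2)
    have h5 : Real.log p / Real.log y ≤ 1 := by rw [div_le_one hY]; exact h4
    apply mul_le_mul_of_nonneg_left _ (by linarith)
    exact sum_W_prime a b (Rp p) p hab (hRp p hp.1.1 hp.1.2) hp.2 (hz.trans hp.1.1)
  have h4 := mul_le_mul_of_nonneg_left h3 (mul_nonneg hlm0 (sq_nonneg (L1 R)))
  linarith

end Pool.Agent.Lib.MP_bf4c7f
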