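import Pool.Agent.Lib.MP_bf4c7f_nt.Consts

/-!
# Upper bound for the Selberg sum with the exact leading constant
-/

set_option autoImplicit false

namespace Pool.Agent.Lib.MP_bf4c7f

open Finset

namespace GGu

/-! ### Harmonic sums -/

lemma H_one (b : ℕ) (hb : 1 ≤ b) :
    ∑ n ∈ (Icc 1 b).filter (fun n => Nat.Coprime n 30), (1 : ℝ) / n ≤ 1 + 4 / 15 * Real.log b := by
  rcases Nat.lt_or_ge b 7 with h | h
  · have h1 : ∑ n ∈ (Icc 1 b).filter (fun n => Nat.Coprime n 30), (1 : ℝ) / n ≤ 1 := by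
      calc ∑ n ∈ (Icc 1 b).filter (fun n => Nat.Coprime n 30), (1 : ℝ) / n
          ≤ ∑ n ∈ (Icc 1 6).filter (fun n => Nat.Coprime n 30), (1 : ℝ) / n := by
            refine Finset.sum_le_sum_of_subset_of_nonneg ?_ fun _ _ _ => by positivity
            refine Finset.filter_subset_filter _ (Finset.Icc_subset_Icc le_rfl (by omega))
        _ = 1 := by
            have : (Icc 1 6).filter (fun j => Nat.Coprime j 30) = {1} := by
              decide +kernel
            rw [this]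
            norm_num
    have h2 : 0 ≤ Real.log b := Real.log_natCast_nonneg b
    linarith
  · have := H_upper b h
    linarith

lemma q180 : ∑ n ∈ (Icc 1 180).filter (fun n => Nat.Coprime n 30), (1 * 10 ^ 12 / n + 1) ≤
    1977440000000 := by
  decide +kernel

lemma H_upper2 (R : ℕ) (hR : 181 ≤ R) :
    ∑ n ∈ (Icc 1 R).filter (fun n => Nat.Coprime n 30), (1 : ℝ) / n ≤
      4 / 15 * Real.log R + 0.6 := by
  rw [split_sum _ 180 R (by omega)]
  have h1 := abel_up (fun j : ℕ => (1 : ℝ) / j) 180 R (by omega)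
    (fun n hn _ => inv_anti n (by omega)) (by positivity) (14 / 15)
    (by
      have : C30 180 = 48 := by decide +kernel
      rw [this]; norm_num)
  have h2 := sum_inv_Ioc_le 180 R (by norm_num) (by omega)
  have hexp : ∑ j ∈ (Icc 1 180).filter (fun j => Nat.Coprime j 30), 1 / (j : ℝ) ≤ 1.97744 := by
    have h3 : ∑ j ∈ (Icc 1 180).filter (fun j => Nat.Coprime j 30), 1 / (j : ℝ) ≤
        ∑ j ∈ (Icc 1 180).filter (fun j => Nat.Coprime j 30),
          (((1 * 10 ^ 12 / j + 1 : ℕ) : ℝ)) / 10 ^ 12 := by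
      refine Finset.sum_le_sum fun j hj => ?_
      have hj1 := (mem_Icc.1 (mem_filter.1 hj).1).1
      have := nat_div_le 1 j hj1
      push_cast at this ⊢
      exact this
    rw [← Finset.sum_div] at h3
    have h4 : (∑ j ∈ (Icc 1 180).filter (fun j => Nat.Coprime j 30),
        (((1 * 10 ^ 12 / j + 1 : ℕ) : ℝ))) ≤ 1977440000000 := by exact_mod_cast q180
    refine h3.trans ?_
    rw [div_le_iff₀ (by positivity)]
    norm_num at h4 ⊢
    linarith
  have h3 : 5.1916 ≤ Real.log 180 := by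
    have h4 := flog_le_log 180 (by norm_num)
    have h5 : flog 180 = 2996 := by decide +kernel
    rw [h5] at h4
    have h6 := Real.log_two_gt_d9
    push_cast at h4
    norm_num at h4 h6 ⊢
    linarith
  push_cast at h1 h2
  norm_num at h1 h2 h3 hexp ⊢
  linarith

/-- Sums over windows. -/
lemma window1 (b m : ℕ) (hm : 2 ≤ m) :
    ∑ l ∈ (Ioc (b / m) b).filter (fun n => Nat.Coprime n 30), (1 : ℝ) / l ≤
      1 + 4 / 15 * Real.log m := by
  have hlm : 0 ≤ Real.log m := Real.log_natCast_nonneg m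
  rcases Nat.eq_zero_or_pos b with rfl | hb
  · simp only [Nat.zero_div, Ioc_self, filter_empty, sum_empty]
    positivity
  rcases Nat.eq_zero_or_pos (b / m) with h0 | h0
  · have h1 : b < m := (Nat.div_eq_zero_iff.1 h0).resolve_left (by omega)
    rw [h0]
    have h2 : Ioc 0 b = Icc 1 b := by
      ext x; simp only [mem_Ioc, mem_Icc]; omega
    rw [h2]
    refine (H_one b hb).trans ?_
    have : Real.log b ≤ Real.log m :=
      Real.log_le_log (by exact_mod_cast hb) (by exact_mod_cast h1.le)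
    linarith
  · set a := b / m with ha
    have hab : a < b := Nat.div_lt_self hb hm
    have hbm : b < m * (a + 1) := Nat.lt_mul_div_succ b (by omega)
    have haR : (0 : ℝ) < a := by exact_mod_cast h0
    have hmR : (0 : ℝ) < m := by exact_mod_cast (by omega : 0 < m)
    have hbR : (0 : ℝ) < b := by exact_mod_cast hb
    have hlog : Real.log b - Real.log a ≤ Real.log m + 1 / a := by
      have h1 : (b : ℝ) ≤ m * (a + 1) := by exact_mod_cast hbm.le
      have h2 := Real.log_le_log hbR h1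
      rw [Real.log_mul hmR.ne' (by positivity)] at h2
      have h3 : Real.log ((a : ℝ) + 1) - Real.log a ≤ 1 / a := by
        rw [← Real.log_div (by positivity) haR.ne']
        have h4 := Real.log_le_sub_one_of_pos (show (0 : ℝ) < (a + 1) / a by positivity)
        have h5 : ((a : ℝ) + 1) / a - 1 = 1 / a := by field_simp; ring
        linarith
      linarith
    have hsum := sum_inv_Ioc_le a b h0 hab.le
    rcases Nat.eq_or_lt_of_le h0 with h1 | h1
    · have h1' : a = 1 := by omega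
      have h2 := abel_up (fun j : ℕ => (1 : ℝ) / j) a b hab
        (fun n hn _ => inv_anti n (by omega)) (by positivity) (1 / 5)
        (by
          rw [h1']
          have : C30 1 = 1 := by decide +kernel
          rw [this]; norm_num)
      rw [h1'] at h2 hlog hsum ⊢
      push_cast at h2 hlog hsum
      norm_num at h2 hlog hsum ⊢
      linarith
    · have h2 := abel_up (fun j : ℕ => (1 : ℝ) / j) a b hab
        (fun n hn _ => inv_anti n (by omega)) (by positivity) (24 / 15)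
        (by
          have h3 : (4 : ℝ) * a ≤ 15 * (C30 a : ℝ) + 10 := by exact_mod_cast (C30_bounds a).2
          linarith)
      have ha2 : (2 : ℝ) ≤ a := by exact_mod_cast h1
      have h3 : (1 : ℝ) / a ≤ 1 / 2 := one_div_le_one_div_of_le (by norm_num) ha2
      have h4 : (1 : ℝ) / ((a + 1 : ℕ) : ℝ) ≤ 1 / 3 := by
        push_cast
        exact one_div_le_one_div_of_le (by norm_num) (by linarith)
      linarith

/-! ### The multiplicative majorant -/

/-- The factors. -/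
noncomputable def fc (p i : ℕ) : ℝ :=
  if i = 0 then 1 else (1 + 4 / 15 * (i * Real.log p)) / (p : ℝ) ^ (i + 1)

/-- The majorant. -/
noncomputable def hh (m : ℕ) : ℝ := m.factorization.prod fc

/-- The Euler factors minus one. -/
noncomputable def xx (p : ℕ) : ℝ :=
  1 / ((p : ℝ) * (p - 1)) + 4 / 15 * Real.log p / ((p : ℝ) - 1) ^ 2

lemma hh_one : hh 1 = 1 := by simp [hh]

lemma fc_nonneg (p i : ℕ) : 0 ≤ fc p i := by
  unfold fc
  split_ifs
  · norm_num
  · have : 0 ≤ Real.log p := Real.log_natCast_nonneg p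
    positivity

lemma hh_nonneg (m : ℕ) : 0 ≤ hh m := by
  unfold hh Finsupp.prod
  exact Finset.prod_nonneg fun _ _ => fc_nonneg _ _

lemma hh_mul {m n : ℕ} (h : Nat.Coprime m n) : hh (m * n) = hh m * hh n := by
  unfold hh
  rw [Nat.factorization_mul_of_coprime h, Finsupp.prod_add_index_of_disjoint]
  exact h.disjoint_primeFactors

lemma hh_pow {p : ℕ} (hp : p.Prime) (n : ℕ) : hh (p ^ n) = fc p n := by
  unfold hh
  rw [hp.factorization_pow, Finsupp.prod_single_index]
  simp [fc]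

lemma hasSum_hh {p : ℕ} (hp : p.Prime) : HasSum (fun n : ℕ => hh (p ^ n)) (1 + xx p) := by
  have hp1 : (1 : ℝ) < p := by exact_mod_cast hp.one_lt
  have hp0 : (0 : ℝ) < p := by linarith
  have hr : ‖(p : ℝ)⁻¹‖ < 1 := by
    rw [norm_inv, Real.norm_eq_abs, abs_of_pos hp0]
    exact inv_lt_one_of_one_lt₀ hp1
  have h1 := (hasSum_geometric_of_norm_lt_one hr).mul_left (p : ℝ)⁻¹
  have h2 := (hasSum_coe_mul_geometric_of_norm_lt_one hr).mul_left
    (4 / 15 * Real.log p * (p : ℝ)⁻¹)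
  have h3 := (hasSum_ite_eq (0 : ℕ) (1 - (p : ℝ)⁻¹)).add (h1.add h2)
  convert h3 using 1
  · funext n
    rw [hh_pow hp]
    unfold fc
    by_cases hn : n = 0
    · subst hn
      simp
    · rw [if_neg hn, if_neg hn, zero_add]
      rw [pow_succ, inv_pow]
      field_simp
  · unfold xx
    have : (p : ℝ) - 1 ≠ 0 := by linarith
    have h4 : 1 - (p : ℝ)⁻¹ ≠ 0 := by
      have : (p : ℝ)⁻¹ < 1 := inv_lt_one_of_one_lt₀ hp1
      linarith
    field_simp
    ring

lemma one_add_le_prod (s : Finset ℕ) (f : ℕ → ℝ) (hf : ∀ i, 0 ≤ f i) :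
    1 + ∑ i ∈ s, f i ≤ ∏ i ∈ s, (1 + f i) := by
  classical
  induction s using Finset.induction_on with
  | empty => simp
  | insert a s ha ih =>
    rw [Finset.sum_insert ha, Finset.prod_insert ha]
    have h1 : 0 ≤ ∑ i ∈ s, f i := Finset.sum_nonneg fun i _ => hf i
    nlinarith [hf a, mul_nonneg (hf a) h1, mul_le_mul_of_nonneg_left ih (hf a)]

lemma le_hh {m : ℕ} (hm : m ≠ 0) :
    (1 + 4 / 15 * Real.log m) / (m * ∏ p ∈ m.primeFactors, (p : ℝ)) ≤ hh m := by
  unfold hh Finsupp.prod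
  rw [Nat.support_factorization]
  have h1 : ∀ p ∈ m.primeFactors, fc p (m.factorization p) =
      (1 + 4 / 15 * ((m.factorization p : ℝ) * Real.log p)) /
        ((p : ℝ) ^ (m.factorization p) * p) := by
    intro p hp
    have h2 : m.factorization p ≠ 0 := by
      rw [← Finsupp.mem_support_iff, Nat.support_factorization]
      exact hp
    rw [fc, if_neg h2, pow_succ]
  rw [Finset.prod_congr rfl h1, Finset.prod_div_distrib, Finset.prod_mul_distrib]
  have h3 : ∏ p ∈ m.primeFactors, (p : ℝ) ^ (m.factorization p) = m := by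
    have := Nat.prod_factorization_pow_eq_self hm
    unfold Finsupp.prod at this
    rw [Nat.support_factorization] at this
    exact_mod_cast congrArg (fun x : ℕ => (x : ℝ)) this
  rw [h3]
  have hm0 : (0 : ℝ) < m := by exact_mod_cast Nat.pos_of_ne_zero hm
  have h4 : 0 < ∏ p ∈ m.primeFactors, (p : ℝ) :=
    Finset.prod_pos fun p hp => by exact_mod_cast (Nat.prime_of_mem_primeFactors hp).pos
  refine div_le_div_of_nonneg_right ?_ (by positivity)
  have h5 := one_add_le_prod m.primeFactors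
    (fun p => 4 / 15 * ((m.factorization p : ℝ) * Real.log p)) (fun p => by
      have : 0 ≤ Real.log p := Real.log_natCast_nonneg p
      positivity)
  refine le_trans (le_of_eq ?_) h5
  rw [← Finset.mul_sum, Real.log_nat_eq_sum_factorization, Finsupp.sum,
    Nat.support_factorization]

/-- Partial sums of the majorant. -/
lemma sum_hh_le (M : ℕ) (S : Finset ℕ) (hS : ∀ m ∈ S, 2 ≤ m ∧ m ≤ M ∧ Nat.Coprime m 30) :
    1 + ∑ m ∈ S, hh m ≤ ∏ p ∈ P7 M, (1 + xx p) := by
  classical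
  obtain ⟨hsum, hhas⟩ := EulerProduct.summable_and_hasSum_factoredNumbers_prod_filter_prime_tsum
    (f := hh) hh_one hh_mul (fun {p} hp => by
      have : (fun n : ℕ => ‖hh (p ^ n)‖) = fun n : ℕ => hh (p ^ n) := by
        funext n
        rw [Real.norm_eq_abs, abs_of_nonneg (hh_nonneg _)]
      rw [this]
      exact (hasSum_hh hp).summable) (P7 M)
  have h1 : ∏ p ∈ P7 M with p.Prime, ∑' n : ℕ, hh (p ^ n) = ∏ p ∈ P7 M, (1 + xx p) := by
    have h2 : (P7 M).filter (fun p => p.Prime) = P7 M :=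
      Finset.filter_true_of_mem fun p hp => (mem_P7.1 hp).1
    rw [h2]
    exact Finset.prod_congr rfl fun p hp => (hasSum_hh (mem_P7.1 hp).1).tsum_eq
  rw [h1] at hhas
  have h1S : 1 ∉ S := fun h => by have := (hS 1 h).1; omega
  have hmem : ∀ m ∈ insert 1 S, m ∈ Nat.factoredNumbers (P7 M) := by
    intro m hm
    rw [Nat.mem_factoredNumbers_iff_primeFactors_subset]
    rcases Finset.mem_insert.1 hm with rfl | hm
    · simp
    · obtain ⟨h2, h3, h4⟩ := hS m hm
      refine ⟨by omega, fun p hp => ?_⟩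
      have hpp := Nat.prime_of_mem_primeFactors hp
      have hpd := Nat.dvd_of_mem_primeFactors hp
      rw [mem_P7]
      refine ⟨hpp, ?_, (Nat.le_of_dvd (by omega) hpd).trans h3⟩
      by_contra hlt
      have h5 : Nat.Coprime p 30 := Nat.Coprime.coprime_dvd_left hpd h4
      have hp7 : p < 7 := by omega
      interval_cases p <;> revert h5 hpp <;> decide
  have h0 : 1 + ∑ m ∈ S, hh m = ∑ m ∈ insert 1 S, hh m := by
    rw [Finset.sum_insert h1S, hh_one]
  rw [h0, ← Finset.sum_attach]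
  let T : Finset (Nat.factoredNumbers (P7 M)) :=
    (insert 1 S).attach.image fun n => ⟨n.1, hmem n.1 n.2⟩
  have hT : ∑ m ∈ T, hh (m : ℕ) = ∑ n ∈ (insert 1 S).attach, hh n.1 := by
    rw [Finset.sum_image]
    intro x _ y _ hxy
    exact Subtype.ext (congrArg (fun z : Nat.factoredNumbers (P7 M) => (z : ℕ)) hxy)
  rw [← hT]
  exact sum_le_hasSum T (fun m _ => hh_nonneg _) hhas

/-! ### The sum over the primes -/

lemma qx1 : ∑ p ∈ (Icc 7 100).filter Nat.Prime, (1 * 10 ^ 12 / (p * (p - 1)) + 1) ≤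
    55000000000 := by
  decide +kernel

lemma qx2 : ∑ p ∈ (Icc 7 100).filter Nat.Prime,
    ((flog p + 1) * 10 ^ 12 / (400 * (p - 1) ^ 2) + 1) ≤ 218000000000 := by
  decide +kernel

lemma xx_small : ∑ p ∈ (Icc 7 100).filter Nat.Prime, xx p ≤ 0.0954 := by
  unfold xx
  rw [Finset.sum_add_distrib]
  have h1 : ∑ p ∈ (Icc 7 100).filter Nat.Prime, 1 / ((p : ℝ) * (p - 1)) ≤ 0.055 := by
    have h3 : ∑ p ∈ (Icc 7 100).filter Nat.Prime, 1 / ((p : ℝ) * (p - 1)) ≤
        ∑ p ∈ (Icc 7 100).filter Nat.Prime,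
          (((1 * 10 ^ 12 / (p * (p - 1)) + 1 : ℕ) : ℝ)) / 10 ^ 12 := by
      refine Finset.sum_le_sum fun p hp => ?_
      have hp7 := (mem_Icc.1 (mem_filter.1 hp).1).1
      have := nat_div_le 1 (p * (p - 1)) (Nat.mul_pos (by omega) (by omega))
      rw [Nat.cast_mul, Nat.cast_sub (by omega)] at this
      push_cast at this ⊢
      exact this
    rw [← Finset.sum_div] at h3
    have h4 : (∑ p ∈ (Icc 7 100).filter Nat.Prime,
        (((1 * 10 ^ 12 / (p * (p - 1)) + 1 : ℕ) : ℝ))) ≤ 55000000000 := by exact_mod_cast qx1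
    refine h3.trans ?_
    rw [div_le_iff₀ (by positivity)]
    norm_num at h4 ⊢
    linarith
  have h2 : ∑ p ∈ (Icc 7 100).filter Nat.Prime, 4 / 15 * Real.log p / ((p : ℝ) - 1) ^ 2 ≤
      0.0404 := by
    have h3 : ∑ p ∈ (Icc 7 100).filter Nat.Prime, 4 / 15 * Real.log p / ((p : ℝ) - 1) ^ 2 ≤
        ∑ p ∈ (Icc 7 100).filter Nat.Prime, 4 / 15 * Real.log 2 *
          ((((flog p + 1) * 10 ^ 12 / (400 * (p - 1) ^ 2) + 1 : ℕ) : ℝ) / 10 ^ 12) := by
      refine Finset.sum_le_sum fun p hp => ?_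
      have hp7 := (mem_Icc.1 (mem_filter.1 hp).1).1
      have hp7R : (7 : ℝ) ≤ p := by exact_mod_cast hp7
      have h5 := nat_div_le (flog p + 1) (400 * (p - 1) ^ 2)
        (Nat.mul_pos (by norm_num) (pow_pos (by omega) 2))
      have h6 := log_le_flog p (by omega)
      have h7 : (((400 * (p - 1) ^ 2 : ℕ)) : ℝ) = 400 * ((p : ℝ) - 1) ^ 2 := by
        rw [Nat.cast_mul, Nat.cast_pow, Nat.cast_sub (by omega)]
        push_cast
        ring
      rw [h7] at h5
      have h8 : 0 < ((p : ℝ) - 1) ^ 2 := pow_pos (by linarith) 2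
      have hl2 : 0 < Real.log 2 := Real.log_pos (by norm_num)
      calc 4 / 15 * Real.log p / ((p : ℝ) - 1) ^ 2
          ≤ 4 / 15 * (((flog p : ℝ) + 1) / 400 * Real.log 2) / ((p : ℝ) - 1) ^ 2 := by gcongr
        _ = 4 / 15 * Real.log 2 * (((flog p + 1 : ℕ) : ℝ) / (400 * ((p : ℝ) - 1) ^ 2)) := by
            push_cast
            field_simp
        _ ≤ _ := by
            refine mul_le_mul_of_nonneg_left ?_ (by positivity)
            push_cast at h5 ⊢
            exact h5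
    rw [← Finset.mul_sum, ← Finset.sum_div] at h3
    have h4 : (∑ p ∈ (Icc 7 100).filter Nat.Prime,
        ((((flog p + 1) * 10 ^ 12 / (400 * (p - 1) ^ 2) + 1 : ℕ) : ℝ))) ≤ 218000000000 := by
      exact_mod_cast qx2
    have hl2 := Real.log_two_lt_d9
    have hl2' : 0 < Real.log 2 := Real.log_pos (by norm_num)
    refine h3.trans ?_
    calc 4 / 15 * Real.log 2 * ((∑ p ∈ (Icc 7 100).filter Nat.Prime,
        ((((flog p + 1) * 10 ^ 12 / (400 * (p - 1) ^ 2) + 1 : ℕ) : ℝ))) / 10 ^ 12)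
        ≤ 4 / 15 * 0.6931471808 * (218000000000 / 10 ^ 12) := by gcongr
      _ ≤ 0.0404 := by norm_num
  linarith

/-- The telescoping majorant. -/
noncomputable def gt (t : ℝ) : ℝ := (1.28 + 0.27 * Real.log t) / t

lemma xx_le_gt (n : ℕ) (hn : 101 ≤ n) : xx n ≤ gt ((n : ℝ) - 1) - gt n := by
  have hnR : (101 : ℝ) ≤ n := by exact_mod_cast hn
  have h1 : 0 < (n : ℝ) - 1 := by linarith
  have h2 : 0 < (n : ℝ) := by linarith
  have hlog : Real.log n - Real.log ((n : ℝ) - 1) ≤ 1 / ((n : ℝ) - 1) := by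
    rw [← Real.log_div h2.ne' h1.ne']
    have h4 := Real.log_le_sub_one_of_pos (show (0 : ℝ) < (n : ℝ) / ((n : ℝ) - 1) by positivity)
    have h5 : (n : ℝ) / ((n : ℝ) - 1) - 1 = 1 / ((n : ℝ) - 1) := by field_simp; ring
    linarith
  have hl0 : 0 ≤ Real.log n := Real.log_natCast_nonneg n
  have hinv : 1 / ((n : ℝ) - 1) ≤ 0.01 := by
    rw [div_le_iff₀ h1]; linarith
  unfold xx gt
  set L := Real.log n
  set L' := Real.log ((n : ℝ) - 1)
  have h3 : (1.28 + 0.27 * L') / ((n : ℝ) - 1) - (1.28 + 0.27 * L) / n -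
      (1 / ((n : ℝ) * (n - 1)) + 4 / 15 * L / ((n : ℝ) - 1) ^ 2) =
      (1.28 * (1 / ((n : ℝ) - 1)) - 1 / ((n : ℝ) - 1) + 0.27 * (L' - L) * n * (1 / ((n : ℝ) - 1)) +
        (0.27 - 4 / 15 * (1 + 1 / ((n : ℝ) - 1))) * L * (1 / ((n : ℝ) - 1))) / n := by
    field_simp
    ring
  have h4 : 0 ≤ (1.28 * (1 / ((n : ℝ) - 1)) - 1 / ((n : ℝ) - 1) +
      0.27 * (L' - L) * n * (1 / ((n : ℝ) - 1)) +
        (0.27 - 4 / 15 * (1 + 1 / ((n : ℝ) - 1))) * L * (1 / ((n : ℝ) - 1))) / n := by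
    refine div_nonneg ?_ h2.le
    have h5 : n * (L - L') ≤ 1.01 := by
      calc (n : ℝ) * (L - L') ≤ n * (1 / ((n : ℝ) - 1)) :=
            mul_le_mul_of_nonneg_left hlog h2.le
        _ = 1 + 1 / ((n : ℝ) - 1) := by field_simp; ring
        _ ≤ 1.01 := by linarith
    have h6 : 0 < 1 / ((n : ℝ) - 1) := by positivity
    have h7 : 0 ≤ (0.27 - 4 / 15 * (1 + 1 / ((n : ℝ) - 1))) * L :=
      mul_nonneg (by linarith) hl0
    have h8 : 0 ≤ 0.28 + 0.27 * (L' - L) * n + (0.27 - 4 / 15 * (1 + 1 / ((n : ℝ) - 1))) * L := by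
      nlinarith
    have h9 := mul_nonneg h8 h6.le
    nlinarith
  linarith

lemma xx_nonneg (n : ℕ) (hn : 2 ≤ n) : 0 ≤ xx n := by
  have hnR : (2 : ℝ) ≤ n := by exact_mod_cast hn
  have h1 : 0 < (n : ℝ) - 1 := by linarith
  have hl0 : 0 ≤ Real.log n := Real.log_natCast_nonneg n
  unfold xx
  positivity

lemma gt_nonneg (t : ℝ) (ht : 1 ≤ t) : 0 ≤ gt t := by
  have := Real.log_nonneg ht
  unfold gt
  positivity

lemma tail_telescope (M : ℕ) (hM : 100 ≤ M) : ∑ n ∈ Ioc 100 M, xx n ≤ gt 100 - gt M := by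
  induction M, hM using Nat.le_induction with
  | base => simp
  | succ b hb ih =>
    rw [Finset.sum_Ioc_succ_top (by omega)]
    have h1 := xx_le_gt (b + 1) (by omega)
    push_cast at h1 ⊢
    rw [add_sub_cancel_right] at h1
    linarith

lemma sum_xx (M : ℕ) : ∑ p ∈ P7 M, xx p ≤ 0.1208 := by
  have h1 : P7 M ⊆ (Icc 7 100).filter Nat.Prime ∪ Ioc 100 (max M 100) := by
    intro p hp
    obtain ⟨h1, h2, h3⟩ := mem_P7.1 hp
    rw [mem_union, mem_filter, mem_Icc, mem_Ioc]
    rcases le_or_gt p 100 with h | h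
    · exact Or.inl ⟨⟨h2, h⟩, h1⟩
    · exact Or.inr ⟨h, h3.trans (le_max_left _ _)⟩
  have h2 : ∑ p ∈ P7 M, xx p ≤
      ∑ p ∈ (Icc 7 100).filter Nat.Prime ∪ Ioc 100 (max M 100), xx p := by
    refine Finset.sum_le_sum_of_subset_of_nonneg h1 fun n hn _ => xx_nonneg n ?_
    rw [mem_union, mem_filter, mem_Icc, mem_Ioc] at hn
    omega
  have h3 : ∑ p ∈ (Icc 7 100).filter Nat.Prime ∪ Ioc 100 (max M 100), xx p ≤
      ∑ p ∈ (Icc 7 100).filter Nat.Prime, xx p + ∑ p ∈ Ioc 100 (max M 100), xx p := by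
    rw [Finset.sum_union]
    rw [Finset.disjoint_left]
    intro n hn hn'
    rw [mem_filter, mem_Icc] at hn
    rw [mem_Ioc] at hn'
    omega
  have h4 := tail_telescope (max M 100) (le_max_right _ _)
  have h5 := gt_nonneg ((max M 100 : ℕ) : ℝ) (by
    have : 100 ≤ max M 100 := le_max_right _ _
    have : (100 : ℝ) ≤ ((max M 100 : ℕ) : ℝ) := by exact_mod_cast this
    linarith)
  have h6 : gt 100 ≤ 0.0254 := by
    have h7 : Real.log 100 ≤ 4.61 := by
      have h8 := log_le_flog 100 (by norm_num)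
      have h9 : flog 100 = 2657 := by decide +kernel
      rw [h9] at h8
      have h10 := Real.log_two_lt_d9
      push_cast at h8
      norm_num at h8 h10 ⊢
      linarith
    unfold gt
    rw [div_le_iff₀ (by norm_num)]
    norm_num at h7 ⊢
    linarith
  have h7 := xx_small
  norm_num at h7 h6 ⊢
  linarith

lemma prod_xx (M : ℕ) : ∏ p ∈ P7 M, (1 + xx p) ≤ 1.138 := by
  have h1 : ∏ p ∈ P7 M, (1 + xx p) ≤ Real.exp (∑ p ∈ P7 M, xx p) := by
    rw [Real.exp_sum]
    refine Finset.prod_le_prod (fun p hp => ?_) fun p _ => ?_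
    · have := xx_nonneg p (by have := (mem_P7.1 hp).2.1; omega)
      linarith
    · rw [add_comm]
      exact Real.add_one_le_exp _
  have h2 : Real.exp (∑ p ∈ P7 M, xx p) ≤ Real.exp 0.1208 := Real.exp_le_exp.2 (sum_xx M)
  have h3 : Real.exp 0.1208 ≤ 1.138 := by
    have h4 := Real.one_sub_le_exp_neg 0.1208
    rw [Real.exp_neg] at h4
    have h5 : 0 < Real.exp 0.1208 := Real.exp_pos _
    rw [le_inv_comm₀ (by norm_num) h5] at h4
    refine h4.trans ?_
    norm_num
  linarith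

/-! ### Comparison with the harmonic sum -/

/-- The terms of the expansion of the Selberg sum. -/
noncomputable def FF (k m : ℕ) : ℝ := by
  classical exact if m ≠ 0 ∧ m.primeFactors ⊆ k.primeFactors then (k : ℝ)⁻¹ * (m : ℝ)⁻¹ else 0

lemma hasSum_FF (k : ℕ) (hk : Squarefree k) :
    HasSum (FF k) (1 / (Nat.totient k : ℝ)) := by
  have hk0 : 0 < k := Nat.pos_of_ne_zero hk.ne_zero
  have hkR : (0 : ℝ) < k := by exact_mod_cast hk0
  have hphi : (0 : ℝ) < (Nat.totient k : ℝ) := by exact_mod_cast Nat.totient_pos.2 hk0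
  let f : ℕ →* ℝ :=
    { toFun := fun n => (n : ℝ)⁻¹
      map_one' := by simp
      map_mul' := fun a b => by simp [mul_comm] }
  have hf : ∀ {p : ℕ}, p.Prime → ‖f p‖ < 1 := by
    intro p hp
    have : (1 : ℝ) < p := by exact_mod_cast hp.one_lt
    show ‖((p : ℝ))⁻¹‖ < 1
    rw [Real.norm_eq_abs, abs_of_pos (by positivity)]
    exact inv_lt_one_of_one_lt₀ this
  obtain ⟨hsum, hhas⟩ := EulerProduct.summable_and_hasSum_factoredNumbers_prod_filter_prime_geometric
    hf k.primeFactors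
  have hprod : ∏ p ∈ k.primeFactors with Nat.Prime p, (1 - f p)⁻¹ = (k : ℝ) / (Nat.totient k : ℝ) := by
    have h1 : (k.primeFactors).filter (fun p => Nat.Prime p) = k.primeFactors := by
      apply Finset.filter_true_of_mem
      intro p hp; exact Nat.prime_of_mem_primeFactors hp
    rw [h1]
    have h2 := Nat.totient_eq_mul_prod_factors k
    have h3 : (Nat.totient k : ℝ) = (k : ℝ) * ∏ p ∈ k.primeFactors, (1 - (p : ℝ)⁻¹) := by
      have h2' := congrArg (fun q : ℚ => (q : ℝ)) h2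
      push_cast at h2'
      exact h2'
    have h4 : ∏ p ∈ k.primeFactors, (1 - f p)⁻¹ = (∏ p ∈ k.primeFactors, (1 - (p : ℝ)⁻¹))⁻¹ := by
      rw [Finset.prod_inv_distrib]
      rfl
    rw [h4]
    have h5 : (∏ p ∈ k.primeFactors, (1 - (p : ℝ)⁻¹)) = (Nat.totient k : ℝ) / k := by
      rw [h3]; field_simp
    rw [h5, inv_div]
  rw [hprod] at hhas
  have h6 : HasSum ((Nat.factoredNumbers k.primeFactors).indicator fun m : ℕ => (m : ℝ)⁻¹)
      ((k : ℝ) / (Nat.totient k : ℝ)) := hasSum_subtype_iff_indicator.1 hhas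
  have h7 := h6.mul_left (k : ℝ)⁻¹
  have e1 : FF k = fun m : ℕ => (k : ℝ)⁻¹ *
      (Nat.factoredNumbers k.primeFactors).indicator (fun m : ℕ => (m : ℝ)⁻¹) m := by
    funext m
    unfold FF
    by_cases hm : m ∈ Nat.factoredNumbers k.primeFactors
    · rw [Set.indicator_of_mem hm, if_pos (Nat.mem_factoredNumbers_iff_primeFactors_subset.1 hm)]
    · rw [Set.indicator_of_notMem hm,
        if_neg (fun h => hm (Nat.mem_factoredNumbers_iff_primeFactors_subset.2 h)), mul_zero]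
  have e2 : 1 / (Nat.totient k : ℝ) = (k : ℝ)⁻¹ * ((k : ℝ) / (Nat.totient k : ℝ)) := by
    rw [← mul_div_assoc, inv_mul_cancel₀ hkR.ne']
  rw [e1, e2]
  exact h7

lemma small_part (R : ℕ) (S : Finset ℕ) :
    ∑ x ∈ (S ×ˢ (Icc 1 R).filter SC).filter (fun x : ℕ × ℕ =>
        (x.1 ≠ 0 ∧ x.1.primeFactors ⊆ x.2.primeFactors) ∧ x.2 * x.1 ≤ R),
      ((x.2 : ℝ)⁻¹ * (x.1 : ℝ)⁻¹) ≤
    ∑ n ∈ (Icc 1 R).filter (fun n => Nat.Coprime n 30), (1 : ℝ) / n := by
  classical
  set T := (S ×ˢ (Icc 1 R).filter SC).filter (fun x : ℕ × ℕ =>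
        (x.1 ≠ 0 ∧ x.1.primeFactors ⊆ x.2.primeFactors) ∧ x.2 * x.1 ≤ R) with hT
  have hmem : ∀ x ∈ T, 1 ≤ x.2 ∧ SC x.2 ∧ x.1 ≠ 0 ∧ x.1.primeFactors ⊆ x.2.primeFactors ∧
      x.2 * x.1 ≤ R := by
    intro x hx
    rw [hT, mem_filter, mem_product, mem_filter, mem_Icc] at hx
    exact ⟨hx.1.2.1.1, hx.1.2.2, hx.2.1.1, hx.2.1.2, hx.2.2⟩
  have hpf : ∀ x ∈ T, (x.2 * x.1).primeFactors = x.2.primeFactors := by
    intro x hx
    obtain ⟨h1, h2, h3, h4, h5⟩ := hmem x hx
    rw [Nat.primeFactors_mul (by omega) h3, Finset.union_eq_left]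
    exact h4
  have hinj : ∀ x ∈ T, ∀ y ∈ T, x.2 * x.1 = y.2 * y.1 → x = y := by
    intro x hx y hy hxy
    have h1 := hpf x hx
    have h2 := hpf y hy
    rw [hxy, h2] at h1
    have h3 : x.2 = y.2 := by
      rw [← Nat.prod_primeFactors_of_squarefree (hmem x hx).2.1.1,
        ← Nat.prod_primeFactors_of_squarefree (hmem y hy).2.1.1, h1]
    have h4 : x.1 = y.1 := by
      rw [h3] at hxy
      exact Nat.eq_of_mul_eq_mul_left (hmem y hy).1 hxy
    exact Prod.ext h4 h3
  calc ∑ x ∈ T, ((x.2 : ℝ)⁻¹ * (x.1 : ℝ)⁻¹)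
      = ∑ n ∈ T.image (fun x => x.2 * x.1), (1 : ℝ) / n := by
        rw [Finset.sum_image hinj]
        refine Finset.sum_congr rfl fun x _ => ?_
        push_cast
        rw [one_div, mul_inv]
    _ ≤ _ := by
        refine Finset.sum_le_sum_of_subset_of_nonneg ?_ fun _ _ _ => by positivity
        intro n hn
        obtain ⟨x, hx, rfl⟩ := Finset.mem_image.1 hn
        obtain ⟨h1, h2, h3, h4, h5⟩ := hmem x hx
        rw [mem_filter, mem_Icc]
        refine ⟨⟨Nat.mul_pos h1 (Nat.pos_of_ne_zero h3), h5⟩, ?_⟩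
        refine Nat.Coprime.mul_left h2.2 ?_
        refine Nat.Coprime.symm (Nat.coprime_of_dvd fun p hp hp30 hpx => ?_)
        have h6 : p ∈ x.2.primeFactors := h4 (Nat.mem_primeFactors.2 ⟨hp, hpx, h3⟩)
        have h7 := Nat.dvd_of_mem_primeFactors h6
        have h8 := Nat.dvd_gcd h7 hp30
        rw [h2.2] at h8
        exact hp.one_lt.ne' (Nat.dvd_one.1 h8)

lemma large_part (R m : ℕ) :
    ∑ k ∈ ((Icc 1 R).filter SC).filter (fun k =>
        (m ≠ 0 ∧ m.primeFactors ⊆ k.primeFactors) ∧ R < k * m), ((k : ℝ)⁻¹ * (m : ℝ)⁻¹) ≤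
      if 2 ≤ m ∧ Nat.Coprime m 30 then hh m else 0 := by
  classical
  set T := ((Icc 1 R).filter SC).filter (fun k =>
        (m ≠ 0 ∧ m.primeFactors ⊆ k.primeFactors) ∧ R < k * m) with hT
  have hmem : ∀ k ∈ T, 1 ≤ k ∧ k ≤ R ∧ SC k ∧ m ≠ 0 ∧ m.primeFactors ⊆ k.primeFactors ∧
      R < k * m := by
    intro k hk
    rw [hT, mem_filter, mem_filter, mem_Icc] at hk
    exact ⟨hk.1.1.1, hk.1.1.2, hk.1.2, hk.2.1.1, hk.2.1.2, hk.2.2⟩
  rcases T.eq_empty_or_nonempty with hE | ⟨k0, hk0⟩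
  · rw [hE, Finset.sum_empty]
    split_ifs
    · exact hh_nonneg m
    · exact le_rfl
  obtain ⟨a1, a2, a3, a4, a5, a6⟩ := hmem k0 hk0
  have hm2 : 2 ≤ m := by
    by_contra h
    have : m = 1 := by omega
    subst this
    omega
  have hm30 : Nat.Coprime m 30 := by
    refine Nat.Coprime.symm (Nat.coprime_of_dvd fun p hp hp30 hpm => ?_)
    have h6 : p ∈ k0.primeFactors := a5 (Nat.mem_primeFactors.2 ⟨hp, hpm, a4⟩)
    have h8 := Nat.dvd_gcd (Nat.dvd_of_mem_primeFactors h6) hp30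
    rw [a3.2] at h8
    exact hp.one_lt.ne' (Nat.dvd_one.1 h8)
  rw [if_pos ⟨hm2, hm30⟩]
  set e := ∏ p ∈ m.primeFactors, p with he
  have he0 : 0 < e := Finset.prod_pos fun p hp => (Nat.prime_of_mem_primeFactors hp).pos
  have heR : (0 : ℝ) < e := by exact_mod_cast he0
  have hmR : (0 : ℝ) < m := by exact_mod_cast (by omega : 0 < m)
  have hek : ∀ k ∈ T, e ∣ k := by
    intro k hk
    obtain ⟨b1, b2, b3, b4, b5, b6⟩ := hmem k hk
    rw [← Nat.prod_primeFactors_of_squarefree b3.1]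
    exact Finset.prod_dvd_prod_of_subset _ _ _ b5
  have hinj : ∀ x ∈ T, ∀ y ∈ T, x / e = y / e → x = y := by
    intro x hx y hy hxy
    rw [← Nat.div_mul_cancel (hek x hx), ← Nat.div_mul_cancel (hek y hy), hxy]
  have h1 : ∑ k ∈ T, ((k : ℝ)⁻¹ * (m : ℝ)⁻¹) =
      1 / ((m : ℝ) * e) * ∑ l ∈ T.image (fun k => k / e), (1 : ℝ) / l := by
    rw [Finset.sum_image hinj, Finset.mul_sum]
    refine Finset.sum_congr rfl fun k hk => ?_
    have h2 : ((k / e : ℕ) : ℝ) = (k : ℝ) / e := Nat.cast_div (hek k hk) heR.ne'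
    have hkR : (0 : ℝ) < k := by exact_mod_cast (hmem k hk).1
    rw [h2]
    field_simp
  have h2 : ∑ l ∈ T.image (fun k => k / e), (1 : ℝ) / l ≤
      ∑ l ∈ (Ioc (R / e / m) (R / e)).filter (fun n => Nat.Coprime n 30), (1 : ℝ) / l := by
    refine Finset.sum_le_sum_of_subset_of_nonneg ?_ fun _ _ _ => by positivity
    intro l hl
    obtain ⟨k, hk, rfl⟩ := Finset.mem_image.1 hl
    obtain ⟨b1, b2, b3, b4, b5, b6⟩ := hmem k hk
    rw [mem_filter, mem_Ioc]
    refine ⟨⟨?_, Nat.div_le_div_right b2⟩,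
      Nat.Coprime.coprime_dvd_left (Nat.div_dvd_of_dvd (hek k hk)) b3.2⟩
    rw [Nat.div_div_eq_div_mul, Nat.div_lt_iff_lt_mul (Nat.mul_pos he0 (by omega))]
    calc R < k * m := b6
      _ = k / e * (e * m) := by rw [← mul_assoc, Nat.div_mul_cancel (hek k hk)]
  have h3 := window1 (R / e) m hm2
  have h4 := le_hh (m := m) (by omega)
  have h5 : (∏ p ∈ m.primeFactors, (p : ℝ)) = (e : ℝ) := by
    rw [he]
    push_cast
    rfl
  rw [h5] at h4
  rw [h1]
  calc 1 / ((m : ℝ) * e) * ∑ l ∈ T.image (fun k => k / e), (1 : ℝ) / l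
      ≤ 1 / ((m : ℝ) * e) * (1 + 4 / 15 * Real.log m) :=
        mul_le_mul_of_nonneg_left (h2.trans h3) (by positivity)
    _ = (1 + 4 / 15 * Real.log m) / ((m : ℝ) * e) := by ring
    _ ≤ hh m := h4

theorem GG_le_H (R : ℕ) :
    GG R ≤ ∑ n ∈ (Icc 1 R).filter (fun n => Nat.Coprime n 30), (1 : ℝ) / n + 0.138 := by
  classical
  have h1 : HasSum (fun m : ℕ => ∑ k ∈ (Icc 1 R).filter SC, FF k m) (GG R) := by
    unfold GG
    exact hasSum_sum fun k hk => hasSum_FF k (mem_filter.1 hk).2.1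
  refine hasSum_le_of_sum_le h1 fun S => ?_
  have h2 : ∑ m ∈ S, ∑ k ∈ (Icc 1 R).filter SC, FF k m =
      ∑ x ∈ (S ×ˢ (Icc 1 R).filter SC).filter (fun x : ℕ × ℕ =>
        (x.1 ≠ 0 ∧ x.1.primeFactors ⊆ x.2.primeFactors) ∧ x.2 * x.1 ≤ R),
      ((x.2 : ℝ)⁻¹ * (x.1 : ℝ)⁻¹) +
      ∑ m ∈ S, ∑ k ∈ ((Icc 1 R).filter SC).filter (fun k =>
        (m ≠ 0 ∧ m.primeFactors ⊆ k.primeFactors) ∧ R < k * m), ((k : ℝ)⁻¹ * (m : ℝ)⁻¹) := by
    rw [Finset.sum_filter, Finset.sum_product, ← Finset.sum_add_distrib]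
    refine Finset.sum_congr rfl fun m _ => ?_
    rw [Finset.sum_filter (s := (Icc 1 R).filter SC), ← Finset.sum_add_distrib]
    refine Finset.sum_congr rfl fun k _ => ?_
    unfold FF
    by_cases hc : m ≠ 0 ∧ m.primeFactors ⊆ k.primeFactors
    · rcases le_or_gt (k * m) R with h | h
      · simp only [hc, h, not_lt.2 h, and_true, and_false, if_false, add_zero]
      · simp only [hc, h, not_le.2 h, and_true, and_false, if_false, zero_add]
    · simp only [hc, false_and, if_false, add_zero]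
  rw [h2]
  refine add_le_add (small_part R S) ?_
  calc ∑ m ∈ S, ∑ k ∈ ((Icc 1 R).filter SC).filter (fun k =>
        (m ≠ 0 ∧ m.primeFactors ⊆ k.primeFactors) ∧ R < k * m), ((k : ℝ)⁻¹ * (m : ℝ)⁻¹)
      ≤ ∑ m ∈ S, (if 2 ≤ m ∧ Nat.Coprime m 30 then hh m else 0) :=
        Finset.sum_le_sum fun m _ => large_part R m
    _ = ∑ m ∈ S.filter (fun m => 2 ≤ m ∧ Nat.Coprime m 30), hh m := by
        rw [Finset.sum_filter]
    _ ≤ 0.138 := by
        have h3 := sum_hh_le (S.sup id) (S.filter (fun m => 2 ≤ m ∧ Nat.Coprime m 30))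
          (fun m hm => by
            rw [mem_filter] at hm
            exact ⟨hm.2.1, Finset.le_sup (f := id) hm.1, hm.2.2⟩)
        have h4 := prod_xx (S.sup id)
        norm_num at h4 ⊢
        linarith

/-! ### Small arguments -/

/-- Integer upper bound for the Selberg sum. -/
def gz (b : ℕ) : ℕ := ∑ k ∈ (Icc 1 b).filter (fun k => SC k), (10 ^ 9 / Nat.totient k + 1)

lemma GG_le_gz (b : ℕ) : GG b ≤ (gz b : ℝ) / 10 ^ 9 := by
  unfold GG gz
  push_cast
  rw [Finset.sum_div]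
  refine Finset.sum_le_sum fun k hk => ?_
  have hk1 := (mem_Icc.1 (mem_filter.1 hk).1).1
  have h0 : 0 < Nat.totient k := Nat.totient_pos.2 hk1
  have h0R : (0 : ℝ) < Nat.totient k := by exact_mod_cast h0
  have h1 : 10 ^ 9 < Nat.totient k * (10 ^ 9 / Nat.totient k + 1) := Nat.lt_mul_div_succ _ h0
  have h2 : (10 : ℝ) ^ 9 ≤ Nat.totient k * (((10 ^ 9 / Nat.totient k : ℕ) : ℝ) + 1) := by
    exact_mod_cast h1.le
  rw [div_le_div_iff₀ h0R (by positivity)]
  push_cast at h2 ⊢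
  linarith

/-- Integer lower bound for the Selberg sum. -/
def gl (b : ℕ) : ℕ := ∑ k ∈ (Icc 1 b).filter (fun k => SC k), (10 ^ 9 / Nat.totient k)

lemma gl_le_GG (b : ℕ) : (gl b : ℝ) / 10 ^ 9 ≤ GG b := by
  unfold GG gl
  push_cast
  rw [Finset.sum_div]
  refine Finset.sum_le_sum fun k hk => ?_
  have hk1 := (mem_Icc.1 (mem_filter.1 hk).1).1
  have h0 : 0 < Nat.totient k := Nat.totient_pos.2 hk1
  have h0R : (0 : ℝ) < Nat.totient k := by exact_mod_cast h0
  have h1 : (10 ^ 9 / Nat.totient k) * Nat.totient k ≤ 10 ^ 9 := Nat.div_mul_le_self _ _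
  have h2 : (((10 ^ 9 / Nat.totient k : ℕ) : ℝ)) * Nat.totient k ≤ (10 : ℝ) ^ 9 := by
    exact_mod_cast h1
  rw [div_le_div_iff₀ (by positivity) h0R]
  push_cast at h2 ⊢
  linarith

lemma GG_mono {a b : ℕ} (h : a ≤ b) : GG a ≤ GG b := by
  unfold GG
  refine Finset.sum_le_sum_of_subset_of_nonneg ?_ fun _ _ _ => by positivity
  exact Finset.filter_subset_filter _ (Finset.Icc_subset_Icc le_rfl h)

lemma step {a b R : ℕ} (ha : 1 ≤ a) (h1 : a ≤ R) (h2 : R ≤ b)
    (h3 : 6000 * gz b ≤ 4 * flog a * 693147180 + 4500000000000) :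
    GG R ≤ 4 / 15 * Real.log R + 0.75 := by
  have h4 := (GG_mono h2).trans (GG_le_gz b)
  have h5 := flog_le_log a ha
  have h6 : Real.log a ≤ Real.log R :=
    Real.log_le_log (by exact_mod_cast ha) (by exact_mod_cast h1)
  have h7 : (6000 : ℝ) * gz b ≤ 4 * flog a * 693147180 + 4500000000000 := by exact_mod_cast h3
  have h8 := Real.log_two_gt_d9
  have h9 : (0 : ℝ) ≤ flog a := Nat.cast_nonneg _
  have h10 : (flog a : ℝ) / 400 * 0.693147180 ≤ (flog a : ℝ) / 400 * Real.log 2 :=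
    mul_le_mul_of_nonneg_left (by linarith) (by positivity)
  norm_num at h4 h10 ⊢
  linarith

lemma low_aux {f g : ℕ} {x G : ℝ} (h2 : 4 * (f + 1) * 693147181 + 2880000000000 ≤ 6000 * g)
    (h3 : (g : ℝ) / 10 ^ 9 ≤ G) (h4 : x ≤ ((f : ℝ) + 1) / 400 * Real.log 2) :
    4 / 15 * x + 0.48 ≤ G := by
  have h5 := Real.log_two_lt_d9
  have h6 : (4 : ℝ) * ((f : ℝ) + 1) * 693147181 + 2880000000000 ≤ 6000 * (g : ℝ) := by
    exact_mod_cast h2
  have h7 : ((f : ℝ) + 1) / 400 * Real.log 2 ≤ ((f : ℝ) + 1) / 400 * 0.693147181 :=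
    mul_le_mul_of_nonneg_left (by linarith) (by positivity)
  norm_num at h3 h7 ⊢
  linarith

end GGu

open GGu

/-- **Upper bound with the exact leading constant.** -/
theorem GG_up (R : ℕ) (hR : 7 ≤ R) : GG R ≤ 4 / 15 * Real.log R + 0.75 := by
  rcases le_or_gt 181 R with h | h
  · have h1 := GG_le_H R
    have h2 := H_upper2 R h
    norm_num at h1 h2 ⊢
    linarith
  rcases le_or_gt R 12 with h1 | h1
  · exact step (a := 7) (b := 12) (by norm_num) hR h1 (by decide +kernel)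
  rcases le_or_gt R 18 with h2 | h2
  · exact step (a := 13) (b := 18) (by norm_num) h1 h2 (by decide +kernel)
  rcases le_or_gt R 28 with h3 | h3
  · exact step (a := 19) (b := 28) (by norm_num) h2 h3 (by decide +kernel)
  rcases le_or_gt R 42 with h4 | h4
  · exact step (a := 29) (b := 42) (by norm_num) h3 h4 (by decide +kernel)
  rcases le_or_gt R 66 with h5 | h5
  · exact step (a := 43) (b := 66) (by norm_num) h4 h5 (by decide +kernel)
  rcases le_or_gt R 100 with h6 | h6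
  · exact step (a := 67) (b := 100) (by norm_num) h5 h6 (by decide +kernel)
  rcases le_or_gt R 150 with h7 | h7
  · exact step (a := 101) (b := 150) (by norm_num) h6 h7 (by decide +kernel)
  · exact step (a := 151) (b := 180) (by norm_num) h7 (by omega) (by decide +kernel)

/-- For large arguments. -/
theorem GG_up_large (R : ℕ) (hR : 181 ≤ R) : GG R ≤ 4 / 15 * Real.log R + 0.738 := by
  have h1 := GG_le_H R
  have h2 := H_upper2 R hR
  norm_num at h1 h2 ⊢
  linarith

/-- For all arguments. -/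
theorem GG_up_one (R : ℕ) (hR : 1 ≤ R) : GG R ≤ 4 / 15 * Real.log R + 1 := by
  rcases le_or_gt 7 R with h | h
  · have := GG_up R h
    linarith
  · have h3 : GG 6 ≤ 1 := by
      have h4 : (Icc 1 6).filter (fun k => SC k) = {1} := by decide +kernel
      unfold GG
      rw [h4]
      simp
    have h4 := GG_mono (show R ≤ 6 by omega)
    have h5 : 0 ≤ Real.log R := Real.log_natCast_nonneg R
    linarith

/-- Lower bound. -/
theorem GG_low (R : ℕ) (hR : 31 ≤ R) : 4 / 15 * Real.log (R + 1) + 0.55 ≤ GG R := by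
  have h1 := GG_lower R hR
  have hRR : (31 : ℝ) ≤ R := by exact_mod_cast hR
  have h2 : Real.log ((R : ℝ) + 1) - Real.log R ≤ 1 / R := by
    rw [← Real.log_div (by positivity) (by positivity)]
    have h4 := Real.log_le_sub_one_of_pos (show (0 : ℝ) < ((R : ℝ) + 1) / R by positivity)
    have h5 : ((R : ℝ) + 1) / R - 1 = 1 / R := by field_simp; ring
    linarith
  have h3 : (1 : ℝ) / R ≤ 1 / 31 := one_div_le_one_div_of_le (by norm_num) hRR
  have h6 := h2.trans h3
  norm_num at h1 h6 ⊢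
  linarith

/-- Lower bound for all arguments. -/
theorem GG_low_one (R : ℕ) (hR : 1 ≤ R) : 4 / 15 * Real.log (R + 1) + 0.48 ≤ GG R := by
  rcases le_or_gt 31 R with h | h
  · have := GG_low R h
    norm_num at this ⊢
    linarith
  · have h1 : ∀ R ∈ Icc 1 30, 4 * (flog (R + 1) + 1) * 693147181 + 2880000000000 ≤
        6000 * gl R := by decide +kernel
    have h4 := log_le_flog (R + 1) (by omega)
    push_cast at h4
    exact low_aux (h1 R (mem_Icc.2 ⟨hR, by omega⟩)) (gl_le_GG R) h4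

end Pool.Agent.Lib.MP_bf4c7f
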