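import Mathlib
import Pool.Agent.Lib.MP_bf4c7f_nt.Tail
import Pool.Agent.Lib.MP_bf4c7f_nt3.Logs

/-!
# Tails of the sum over the large primes
-/

set_option autoImplicit false
open Finset

namespace Pool.Agent.Lib.MP_bf4c7f

/-- the tail of the sum over primes -/
noncomputable def Tl (b y : ℕ) : ℝ :=
  ∑ p ∈ (Ioc b y).filter Nat.Prime, (1 - Real.log p / Real.log y) / ((p : ℝ) - 1)

/-- the bound for the tail -/
noncomputable def TT (t v : ℝ) : ℝ := Real.log (6 / t) - 1 + t / 6 + 0.7201 * (1 / t - 1 / 6) * v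

theorem tailT (hU : ∀ n : ℕ, 32761 ≤ n → Ls n ≤ Real.log n - 0.2)
    (hLo : ∀ n : ℕ, 32760 ≤ n → Real.log n - 0.92 ≤ Ls n) (m b : ℕ) (hm : 181 ≤ m)
    (hb : 32760 ≤ b) (hb6 : b < m ^ 6) (t : ℝ) (ht0 : 0 < t)
    (ht : t * Real.log m ≤ Real.log ((b : ℝ) + 1)) :
    Tl b (m ^ 6) ≤ TT t (1 / Real.log m) := by
  unfold Tl TT
  set M := Real.log m with hM
  have hmR : (181 : ℝ) ≤ m := by exact_mod_cast hm
  have hM0 : 0 < M := Real.log_pos (by linarith)
  have hbR : (32760 : ℝ) ≤ b := by exact_mod_cast hb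
  have h1 := tail_main b (m ^ 6) (by omega) hb6 (-0.2) (by
    intro n hn _
    have := hU n (by omega)
    linarith)
  refine h1.trans ?_
  have hy : Real.log ((m ^ 6 : ℕ) : ℝ) = 6 * M := by
    push_cast
    rw [Real.log_pow]; push_cast; ring
  rw [hy]
  set la := Real.log ((b : ℝ) + 1) with hla
  have hla6 : la ≤ 6 * M := by
    rw [← hy]
    apply Real.log_le_log (by linarith)
    have : b + 1 ≤ m ^ 6 := hb6
    exact_mod_cast this
  have htM : 0 < t * M := mul_pos ht0 hM0
  have hla0 : 0 < la := lt_of_lt_of_le htM ht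
  have h2 := hLo b hb
  have h3 := log_succ_le b (by omega)
  have h4 : 1 / (b : ℝ) ≤ 1 / 32760 := one_div_le_one_div_of_le (by norm_num) hbR
  have h5 : 0 ≤ 1 / la - 1 / (6 * M) := by
    have := one_div_le_one_div_of_le hla0 hla6
    linarith
  have h6 : (-0.2 - Ls b) * (1 / la - 1 / (6 * M)) ≤ (0.7201 - la) * (1 / la - 1 / (6 * M)) := by
    apply mul_le_mul_of_nonneg_right _ h5
    norm_num at h2 h3 h4 ⊢
    linarith
  have h7 : (0.7201 - la) * (1 / la - 1 / (6 * M)) =
      0.7201 * (1 / la) - 0.7201 * (1 / (6 * M)) - 1 + la / (6 * M) := by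
    field_simp
    ring
  have h8 : Real.log (t * M) - Real.log la ≤ -(1 - t * M / la) := by
    have h9 : Real.log (t * M / la) ≤ t * M / la - 1 := Real.log_le_sub_one_of_pos (by positivity)
    rw [Real.log_div htM.ne' hla0.ne'] at h9
    linarith
  have h9 : la / (6 * M) - t * M / (6 * M) ≤ 1 - t * M / la := by
    have e1 : la / (6 * M) - t * M / (6 * M) = (la - t * M) * (1 / (6 * M)) := by ring
    have e2 : 1 - t * M / la = (la - t * M) * (1 / la) := by
      field_simp
    rw [e1, e2]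
    apply mul_le_mul_of_nonneg_left _ (by linarith)
    linarith
  have h10 : t * M / (6 * M) = t / 6 := by field_simp
  have h11 : 1 / la ≤ 1 / (t * M) := one_div_le_one_div_of_le htM ht
  have h12 : Real.log (6 / t) = Real.log (6 * M) - Real.log (t * M) := by
    rw [← Real.log_div (by positivity) (by positivity)]
    congr 1
    field_simp
  have h13 : 0.7201 * (1 / t - 1 / 6) * (1 / M) = 0.7201 * (1 / (t * M)) - 0.7201 * (1 / (6 * M)) := by
    field_simp
  rw [h12, h13]
  linarith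

end Pool.Agent.Lib.MP_bf4c7f
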