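import Mathlib
import Pool.Agent.Lib.MP_bf4c7f_nt3.TailB
import Pool.Agent.Lib.MP_bf4c7f_nt3.CritB
import Pool.Agent.Lib.MP_bf4c7f_nt3.GGup

/-!
# The large primes: decomposition into blocks
-/

set_option autoImplicit false
open Finset

namespace Pool.Agent.Lib.MP_bf4c7f

/-- the level belonging to the prime `p` -/
noncomputable def Rp (m p : ℕ) : ℕ :=
  min (m ^ 2 - 1) ⌊√((m : ℝ) ^ 8 / (5 * Real.log m * p))⌋₊

lemma lg181 : 5.1984 ≤ Real.log 181 ∧ Real.log 181 ≤ 5.1986 := by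
  have h1 := log_lo 181 149996 (by norm_num) (by decide +kernel)
  have h2 := log_hi 181 149997 (by norm_num) (by decide +kernel)
  have h3 := Real.log_two_gt_d9
  have h4 := Real.log_two_lt_d9
  push_cast at h1 h2
  norm_num at h1 h2 h3 h4 ⊢
  constructor <;> linarith

lemma log_m_ge {m : ℕ} (hm : 181 ≤ m) : 5.198 ≤ Real.log m := by
  have hmR : (181 : ℝ) ≤ m := by exact_mod_cast hm
  have h1 := Real.log_le_log (by norm_num) hmR
  have h2 := lg181.1
  norm_num at h2 ⊢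
  linarith

lemma log_m_le {m : ℕ} (hm : 181 ≤ m) : Real.log m ≤ 0.0288 * m := by
  have hmR : (181 : ℝ) ≤ m := by exact_mod_cast hm
  have h1 : Real.log m = Real.log 181 + Real.log ((m : ℝ) / 181) := by
    rw [← Real.log_mul (by norm_num) (by positivity)]
    congr 1; field_simp
  have h2 : Real.log ((m : ℝ) / 181) ≤ (m : ℝ) / 181 - 1 :=
    Real.log_le_sub_one_of_pos (by positivity)
  have h3 := lg181.2
  rw [h1]
  norm_num at h3 ⊢
  linarith

lemma Rp_lt {m : ℕ} (hm : 181 ≤ m) (p : ℕ) : Rp m p < m ^ 2 := by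
  have h1 : Rp m p ≤ m ^ 2 - 1 := min_le_left _ _
  have h2 : 1 ≤ m ^ 2 := Nat.one_le_pow _ _ (by omega)
  omega

lemma Rp_ge {m p : ℕ} (hm : 181 ≤ m) (hp1 : 1 ≤ p) (hp : p ≤ m ^ 6) : 31 ≤ Rp m p := by
  have hmR : (181 : ℝ) ≤ m := by exact_mod_cast hm
  have hM := log_m_ge hm
  have hM' := log_m_le hm
  have hpR : (1 : ℝ) ≤ p := by exact_mod_cast hp1
  have hp6 : (p : ℝ) ≤ (m : ℝ) ^ 6 := by exact_mod_cast hp
  unfold Rp
  apply le_min
  · have : 181 ^ 2 ≤ m ^ 2 := Nat.pow_le_pow_left hm 2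
    norm_num at this
    omega
  · apply Nat.le_floor
    apply Real.le_sqrt_of_sq_le
    rw [le_div_iff₀ (by positivity)]
    have h1 : Real.log m * p ≤ 0.0288 * m * (m : ℝ) ^ 6 :=
      mul_le_mul hM' hp6 (by positivity) (by positivity)
    have h2 : (181 : ℝ) * (m : ℝ) ^ 7 ≤ (m : ℝ) ^ 8 := by
      calc (181 : ℝ) * (m : ℝ) ^ 7 ≤ m * (m : ℝ) ^ 7 := by gcongr
        _ = (m : ℝ) ^ 8 := by ring
    have h3 : (0.0288 * (m : ℝ) * (m : ℝ) ^ 6) = 0.0288 * (m : ℝ) ^ 7 := by ring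
    have h4 : (0 : ℝ) < (m : ℝ) ^ 7 := by positivity
    push_cast
    norm_num at h1 h3 ⊢
    nlinarith

lemma log40 : Real.log 40 ≤ 3.689 := by
  have h1 : Real.log 40 = 3 * Real.log 2 + Real.log 5 := by
    rw [show (40 : ℝ) = 2 ^ 3 * 5 by norm_num, Real.log_mul (by norm_num) (by norm_num),
      Real.log_pow]
    push_cast; ring
  have h2 := lg5.2
  have h3 := Real.log_two_lt_d9
  rw [h1]
  norm_num at h2 h3 ⊢
  linarith

lemma log5M {M : ℝ} (hM : 0 < M) : Real.log (5 * M) ≤ 2.689 + 0.125 * M := by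
  have h1 : Real.log (5 * M) = Real.log 40 + Real.log (M / 8) := by
    rw [← Real.log_mul (by norm_num) (by positivity)]
    congr 1; ring
  have h2 : Real.log (M / 8) ≤ M / 8 - 1 := Real.log_le_sub_one_of_pos (by positivity)
  have h3 := log40
  rw [h1]
  norm_num at h3 ⊢
  linarith

/-- the lower bound for `GG (Rp m p)` -/
lemma GG_Rp {m p : ℕ} (hm : 181 ≤ m) (hp1 : 1 ≤ p) (hp : p ≤ m ^ 6) (t : ℝ)
    (ht : Real.log p ≤ t * Real.log m) (B : ℝ) (hB1 : B ≤ 2 * Real.log m)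
    (hB2 : B ≤ (4 - t / 2 - 0.0625) * Real.log m - 1.3445) :
    4 / 15 * B + 0.55 ≤ GG (Rp m p) := by
  have hmR : (181 : ℝ) ≤ m := by exact_mod_cast hm
  have hM := log_m_ge hm
  have hM0 : 0 < Real.log m := by linarith
  have hpR : (1 : ℝ) ≤ p := by exact_mod_cast hp1
  have h1 := GG_low (Rp m p) (Rp_ge hm hp1 hp)
  refine le_trans ?_ h1
  have h2 : B ≤ Real.log ((Rp m p : ℝ) + 1) := by
    unfold Rp
    rcases le_total (m ^ 2 - 1) ⌊√((m : ℝ) ^ 8 / (5 * Real.log m * p))⌋₊ with h | h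
    · rw [min_eq_left h]
      have h3 : (((m ^ 2 - 1 : ℕ) : ℝ) + 1) = (m : ℝ) ^ 2 := by
        rw [Nat.cast_sub (Nat.one_le_pow _ _ (by omega))]
        push_cast; ring
      rw [h3, Real.log_pow]
      push_cast
      exact hB1
    · rw [min_eq_right h]
      have h3 := Nat.lt_floor_add_one (√((m : ℝ) ^ 8 / (5 * Real.log m * p)))
      have h4 : 0 < √((m : ℝ) ^ 8 / (5 * Real.log m * p)) := Real.sqrt_pos.2 (by positivity)
      have h5 := Real.log_le_log h4 h3.le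
      refine le_trans ?_ h5
      rw [Real.log_sqrt (by positivity), Real.log_div (by positivity) (by positivity),
        Real.log_pow, Real.log_mul (by positivity) (by positivity)]
      have h6 := log5M hM0
      push_cast
      norm_num at h6 hB2 ⊢
      linarith
  linarith

/-- sums over blocks -/
lemma blocks (n : ℕ) (b : ℕ → ℕ) (hb : ∀ i, b i ≤ b (i + 1)) (f w g : ℕ → ℝ)
    (h : ∀ i < n, ∀ p : ℕ, p.Prime → b i < p → p ≤ b (i + 1) → f p ≤ g i * w p) :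
    ∑ p ∈ (Ioc (b 0) (b n)).filter Nat.Prime, f p ≤
      ∑ i ∈ range n, g i * ∑ p ∈ (Ioc (b i) (b (i + 1))).filter Nat.Prime, w p := by
  have hb0 : ∀ n, b 0 ≤ b n := fun n => monotone_nat_of_le_succ hb (Nat.zero_le n)
  induction n with
  | zero => simp
  | succ n ih =>
    rw [Finset.sum_range_succ]
    have h1 : (Ioc (b 0) (b (n + 1))).filter Nat.Prime =
        (Ioc (b 0) (b n)).filter Nat.Prime ∪ (Ioc (b n) (b (n + 1))).filter Nat.Prime := by
      rw [← Finset.filter_union, Finset.Ioc_union_Ioc_eq_Ioc (hb0 n) (hb n)]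
    have h2 : Disjoint ((Ioc (b 0) (b n)).filter Nat.Prime)
        ((Ioc (b n) (b (n + 1))).filter Nat.Prime) := by
      rw [Finset.disjoint_left]
      intro p hp hp'
      simp only [mem_filter, mem_Ioc] at hp hp'
      omega
    rw [h1, Finset.sum_union h2]
    have h3 := ih (fun i hi => h i (by omega))
    have h4 : ∑ p ∈ (Ioc (b n) (b (n + 1))).filter Nat.Prime, f p ≤
        g n * ∑ p ∈ (Ioc (b n) (b (n + 1))).filter Nat.Prime, w p := by
      rw [Finset.mul_sum]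
      apply Finset.sum_le_sum
      intro p hp
      rw [mem_filter, mem_Ioc] at hp
      exact h n (by omega) p hp.2 hp.1.1 hp.1.2
    linarith

/-- the end points of the blocks -/
def bb (m i : ℕ) : ℕ := if i = 0 then m ^ 2 - 1 else Nat.sqrt (m ^ (i + 5))

lemma bb_mono {m : ℕ} (hm : 181 ≤ m) (i : ℕ) : bb m i ≤ bb m (i + 1) := by
  rcases Nat.eq_zero_or_pos i with rfl | h
  · have h1 : Nat.sqrt (m ^ (0 + 1 + 5)) = m ^ 3 := by
      have : m ^ (0 + 1 + 5) = m ^ 3 * m ^ 3 := by ring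
      rw [this, Nat.sqrt_eq]
    have h2 : bb m (0 + 1) = m ^ 3 := by
      unfold bb
      rw [if_neg (by norm_num), h1]
    rw [h2]
    unfold bb
    rw [if_pos rfl]
    have : m ^ 2 ≤ m ^ 3 := Nat.pow_le_pow_right (by omega) (by norm_num)
    omega
  · unfold bb
    rw [if_neg (show i ≠ 0 by omega), if_neg (show i + 1 ≠ 0 by omega)]
    exact Nat.sqrt_le_sqrt (Nat.pow_le_pow_right (by omega) (by omega))

lemma bb_seven (m : ℕ) : bb m 7 = m ^ 6 := by
  unfold bb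
  rw [if_neg (by norm_num)]
  have : m ^ (7 + 5) = m ^ 6 * m ^ 6 := by ring
  rw [this, Nat.sqrt_eq]

lemma log_le_bb {m i p : ℕ} (hi : 1 ≤ i) (hp1 : 1 ≤ p) (hp : p ≤ bb m i) :
    Real.log p ≤ ((i : ℝ) + 5) / 2 * Real.log m := by
  have hpR : (1 : ℝ) ≤ p := by exact_mod_cast hp1
  unfold bb at hp
  rw [if_neg (by omega), Nat.le_sqrt'] at hp
  have h1 : (p : ℝ) ^ 2 ≤ (m : ℝ) ^ (i + 5) := by exact_mod_cast hp
  have h2 := Real.log_le_log (by positivity) h1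
  rw [Real.log_pow, Real.log_pow] at h2
  push_cast at h2
  linarith

lemma le_log_bb {m : ℕ} (hm : 181 ≤ m) {i : ℕ} (hi : 1 ≤ i) :
    ((i : ℝ) + 5) / 2 * Real.log m ≤ Real.log ((bb m i : ℝ) + 1) := by
  unfold bb
  rw [if_neg (by omega)]
  have h0 : m ^ (i + 5) < (Nat.sqrt (m ^ (i + 5)) + 1) ^ 2 := Nat.lt_succ_sqrt' _
  have hmR : (181 : ℝ) ≤ m := by exact_mod_cast hm
  have h1 : (m : ℝ) ^ (i + 5) ≤ ((Nat.sqrt (m ^ (i + 5)) : ℝ) + 1) ^ 2 := by exact_mod_cast h0.le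
  have h2 := Real.log_le_log (by positivity) h1
  rw [Real.log_pow, Real.log_pow] at h2
  push_cast at h2
  linarith

lemma le_log_bb0 {m : ℕ} (hm : 181 ≤ m) : 2 * Real.log m ≤ Real.log ((bb m 0 : ℝ) + 1) := by
  unfold bb
  rw [if_pos rfl, Nat.cast_sub (Nat.one_le_pow _ _ (by omega))]
  push_cast
  rw [sub_add_cancel, Real.log_pow]
  push_cast
  exact le_rfl

lemma bb_ge {m : ℕ} (hm : 181 ≤ m) (i : ℕ) : 32760 ≤ bb m i := by
  have h1 : 32760 ≤ bb m 0 := by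
    unfold bb
    rw [if_pos rfl]
    have : 181 ^ 2 ≤ m ^ 2 := Nat.pow_le_pow_left hm 2
    norm_num at this
    omega
  exact h1.trans (monotone_nat_of_le_succ (bb_mono hm) (Nat.zero_le i))

lemma bb_lt {m : ℕ} (hm : 181 ≤ m) {i : ℕ} (hi : i ≤ 6) : bb m i < m ^ 6 := by
  have h1 : bb m i ≤ bb m 6 := monotone_nat_of_le_succ (bb_mono hm) hi
  refine lt_of_le_of_lt h1 ?_
  unfold bb
  rw [if_neg (by norm_num), Nat.sqrt_lt']
  calc m ^ (6 + 5) < m ^ 12 := Nat.pow_lt_pow_right (by omega) (by norm_num)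
    _ = (m ^ 6) ^ 2 := by ring

lemma Tl_split (a b y : ℕ) (h1 : a ≤ b) (h2 : b ≤ y) :
    ∑ p ∈ (Ioc a b).filter Nat.Prime, (1 - Real.log p / Real.log y) / ((p : ℝ) - 1) =
      Tl a y - Tl b y := by
  unfold Tl
  have h3 : (Ioc a y).filter Nat.Prime =
      (Ioc a b).filter Nat.Prime ∪ (Ioc b y).filter Nat.Prime := by
    rw [← Finset.filter_union, Finset.Ioc_union_Ioc_eq_Ioc h1 h2]
  have h4 : Disjoint ((Ioc a b).filter Nat.Prime) ((Ioc b y).filter Nat.Prime) := by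
    rw [Finset.disjoint_left]
    intro p hp hp'
    simp only [mem_filter, mem_Ioc] at hp hp'
    omega
  rw [h3, Finset.sum_union h4]
  ring

/-! ### the sum over the large primes -/

/-- the lower bounds for `GG` on the blocks -/
noncomputable def gb (M : ℝ) (i : ℕ) : ℝ :=
  4 / 15 * (if i = 0 then 2 * M else if i = 1 then 2 * M - 0.37 else
    (2.4375 - (i : ℝ) / 4) * M - 1.3445) + 0.55

lemma gb_pos {M : ℝ} (hM : 5.198 ≤ M) {i : ℕ} (hi : i ≤ 6) : 0 < gb M i := by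
  unfold gb
  norm_num at hM
  interval_cases i <;> norm_num <;> linarith

lemma gb_anti {M : ℝ} (hM : 5.198 ≤ M) {i : ℕ} (hi : i ≤ 5) : gb M (i + 1) ≤ gb M i := by
  unfold gb
  norm_num at hM
  interval_cases i <;> norm_num <;> linarith

/-- the bound for the sum over the large primes -/
noncomputable def IB (M : ℝ) : ℝ :=
  1 / gb M 0 * (TT 2 (1 / M) - TT 3 (1 / M)) + 1 / gb M 1 * (TT 3 (1 / M) - TT 3.5 (1 / M)) +
  1 / gb M 2 * (TT 3.5 (1 / M) - TT 4 (1 / M)) + 1 / gb M 3 * (TT 4 (1 / M) - TT 4.5 (1 / M)) +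
  1 / gb M 4 * (TT 4.5 (1 / M) - TT 5 (1 / M)) + 1 / gb M 5 * (TT 5 (1 / M) - TT 5.5 (1 / M)) +
  1 / gb M 6 * TT 5.5 (1 / M)

lemma Tl_self (y : ℕ) : Tl y y = 0 := by unfold Tl; simp

lemma GG_ge_gb {m p i : ℕ} (hm : 181 ≤ m) (hp1 : 1 ≤ p) (hi : i ≤ 6)
    (hp : p ≤ bb m (i + 1)) : gb (Real.log m) i ≤ GG (Rp m p) := by
  have hM := log_m_ge hm
  have hp6 : p ≤ m ^ 6 := by
    rw [← bb_seven m]
    exact hp.trans (monotone_nat_of_le_succ (bb_mono hm) (show i + 1 ≤ 7 by omega))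
  have h1 := log_le_bb (m := m) (i := i + 1) (p := p) (by omega) hp1 hp
  push_cast at h1
  unfold gb
  norm_num at hM
  interval_cases i
  · apply GG_Rp hm hp1 hp6 _ h1 _ <;> norm_num; linarith
  · apply GG_Rp hm hp1 hp6 _ h1 _ <;> norm_num; linarith
  · apply GG_Rp hm hp1 hp6 _ h1 _ <;> norm_num; linarith
  · apply GG_Rp hm hp1 hp6 _ h1 _ <;> norm_num; linarith
  · apply GG_Rp hm hp1 hp6 _ h1 _ <;> norm_num; linarith
  · apply GG_Rp hm hp1 hp6 _ h1 _ <;> norm_num; linarith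
  · apply GG_Rp hm hp1 hp6 _ h1 _ <;> norm_num; linarith

lemma wt_nonneg {m p : ℕ} (hm : 181 ≤ m) (hp : p.Prime) (hp6 : p ≤ m ^ 6) :
    0 ≤ (1 - Real.log p / Real.log ((m ^ 6 : ℕ) : ℝ)) := by
  have hy1 : (1 : ℝ) < ((m ^ 6 : ℕ) : ℝ) := by
    have : 1 < m ^ 6 := Nat.one_lt_pow (by norm_num) (by omega)
    exact_mod_cast this
  have hY : 0 < Real.log ((m ^ 6 : ℕ) : ℝ) := Real.log_pos hy1
  have h4 : Real.log p ≤ Real.log ((m ^ 6 : ℕ) : ℝ) :=
    Real.log_le_log (by exact_mod_cast hp.pos) (by exact_mod_cast hp6)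
  have h5 : Real.log p / Real.log ((m ^ 6 : ℕ) : ℝ) ≤ 1 := by rw [div_le_one hY]; exact h4
  linarith

/-- the tails at the end points of the blocks -/
lemma Tl_bb (hU : ∀ n : ℕ, 32761 ≤ n → Ls n ≤ Real.log n - 0.2)
    (hLo : ∀ n : ℕ, 32760 ≤ n → Real.log n - 0.92 ≤ Ls n) {m : ℕ} (hm : 181 ≤ m) :
    Tl (bb m 0) (m ^ 6) ≤ TT 2 (1 / Real.log m) ∧ Tl (bb m 1) (m ^ 6) ≤ TT 3 (1 / Real.log m) ∧
    Tl (bb m 2) (m ^ 6) ≤ TT 3.5 (1 / Real.log m) ∧ Tl (bb m 3) (m ^ 6) ≤ TT 4 (1 / Real.log m) ∧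
    Tl (bb m 4) (m ^ 6) ≤ TT 4.5 (1 / Real.log m) ∧ Tl (bb m 5) (m ^ 6) ≤ TT 5 (1 / Real.log m) ∧
    Tl (bb m 6) (m ^ 6) ≤ TT 5.5 (1 / Real.log m) := by
  refine ⟨?_, ?_, ?_, ?_, ?_, ?_, ?_⟩
  · exact tailT hU hLo m _ hm (bb_ge hm 0) (bb_lt hm (by norm_num)) 2 (by norm_num) (le_log_bb0 hm)
  · apply tailT hU hLo m _ hm (bb_ge hm 1) (bb_lt hm (by norm_num)) 3 (by norm_num)
    have := le_log_bb (m := m) hm (i := 1) (by norm_num)
    norm_num at this ⊢
    exact this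
  · apply tailT hU hLo m _ hm (bb_ge hm 2) (bb_lt hm (by norm_num)) 3.5 (by norm_num)
    have := le_log_bb (m := m) hm (i := 2) (by norm_num)
    norm_num at this ⊢
    exact this
  · apply tailT hU hLo m _ hm (bb_ge hm 3) (bb_lt hm (by norm_num)) 4 (by norm_num)
    have := le_log_bb (m := m) hm (i := 3) (by norm_num)
    norm_num at this ⊢
    exact this
  · apply tailT hU hLo m _ hm (bb_ge hm 4) (bb_lt hm (by norm_num)) 4.5 (by norm_num)
    have := le_log_bb (m := m) hm (i := 4) (by norm_num)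
    norm_num at this ⊢
    exact this
  · apply tailT hU hLo m _ hm (bb_ge hm 5) (bb_lt hm (by norm_num)) 5 (by norm_num)
    have := le_log_bb (m := m) hm (i := 5) (by norm_num)
    norm_num at this ⊢
    exact this
  · apply tailT hU hLo m _ hm (bb_ge hm 6) (bb_lt hm (by norm_num)) 5.5 (by norm_num)
    have := le_log_bb (m := m) hm (i := 6) (by norm_num)
    norm_num at this ⊢
    exact this

theorem large_sum (hU : ∀ n : ℕ, 32761 ≤ n → Ls n ≤ Real.log n - 0.2)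
    (hLo : ∀ n : ℕ, 32760 ≤ n → Real.log n - 0.92 ≤ Ls n) {m : ℕ} (hm : 181 ≤ m) :
    ∑ p ∈ (Icc (m ^ 2) (m ^ 6)).filter Nat.Prime,
      (1 - Real.log p / Real.log ((m ^ 6 : ℕ) : ℝ)) / (p * GG (Rp m p)) ≤ IB (Real.log m) := by
  have hM := log_m_ge hm
  set M := Real.log m with hMdef
  have hset : (Icc (m ^ 2) (m ^ 6)).filter Nat.Prime = (Ioc (bb m 0) (bb m 7)).filter Nat.Prime := by
    have h1 : 1 ≤ m ^ 2 := Nat.one_le_pow _ _ (by omega)
    ext p
    rw [bb_seven]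
    simp only [mem_filter, mem_Icc, mem_Ioc]
    have h2 : bb m 0 = m ^ 2 - 1 := by unfold bb; rw [if_pos rfl]
    rw [h2]
    constructor
    · rintro ⟨⟨h3, h4⟩, h5⟩; exact ⟨⟨by omega, h4⟩, h5⟩
    · rintro ⟨⟨h3, h4⟩, h5⟩; exact ⟨⟨by omega, h4⟩, h5⟩
  rw [hset]
  have h1 := blocks 7 (bb m) (bb_mono hm)
    (fun p => (1 - Real.log p / Real.log ((m ^ 6 : ℕ) : ℝ)) / (p * GG (Rp m p)))
    (fun p => (1 - Real.log p / Real.log ((m ^ 6 : ℕ) : ℝ)) / ((p : ℝ) - 1))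
    (fun i => 1 / gb M i) (by
      intro i hi p hp hp1 hp2
      have hp6 : p ≤ m ^ 6 := by
        rw [← bb_seven m]
        exact hp2.trans (monotone_nat_of_le_succ (bb_mono hm) (show i + 1 ≤ 7 by omega))
      have h1 := wt_nonneg hm hp hp6
      have h2 := GG_ge_gb hm hp.one_le (show i ≤ 6 by omega) hp2
      have h3 := gb_pos hM (show i ≤ 6 by omega)
      rw [← hMdef] at h2
      have hpR : (1 : ℝ) < p := by exact_mod_cast hp.one_lt
      have h4 : 1 / (p * GG (Rp m p)) ≤ 1 / gb M i * (1 / ((p : ℝ) - 1)) := by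
        rw [one_div_mul_one_div]
        apply one_div_le_one_div_of_le
        · exact mul_pos h3 (by linarith)
        · calc gb M i * ((p : ℝ) - 1) ≤ GG (Rp m p) * p :=
              mul_le_mul h2 (by linarith) (by linarith) (by linarith)
            _ = p * GG (Rp m p) := by ring
      calc (1 - Real.log p / Real.log ((m ^ 6 : ℕ) : ℝ)) / (p * GG (Rp m p)) =
          (1 - Real.log p / Real.log ((m ^ 6 : ℕ) : ℝ)) * (1 / (p * GG (Rp m p))) := by ring
        _ ≤ (1 - Real.log p / Real.log ((m ^ 6 : ℕ) : ℝ)) * (1 / gb M i * (1 / ((p : ℝ) - 1))) :=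
            mul_le_mul_of_nonneg_left h4 h1
        _ = _ := by ring)
  refine h1.trans ?_
  have hle : ∀ i ≤ 6, bb m (i + 1) ≤ m ^ 6 := by
    intro i hi
    rw [← bb_seven m]
    exact monotone_nat_of_le_succ (bb_mono hm) (show i + 1 ≤ 7 by omega)
  have e : ∀ i ≤ 6, ∑ p ∈ (Ioc (bb m i) (bb m (i + 1))).filter Nat.Prime,
      (1 - Real.log p / Real.log ((m ^ 6 : ℕ) : ℝ)) / ((p : ℝ) - 1) =
      Tl (bb m i) (m ^ 6) - Tl (bb m (i + 1)) (m ^ 6) := by
    intro i hi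
    exact Tl_split _ _ _ (bb_mono hm i) (hle i hi)
  simp only [Finset.sum_range_succ, Finset.sum_range_zero, zero_add]
  rw [e 0 (by norm_num), e 1 (by norm_num), e 2 (by norm_num), e 3 (by norm_num),
    e 4 (by norm_num), e 5 (by norm_num), e 6 (by norm_num)]
  norm_num only
  rw [bb_seven, Tl_self]
  obtain ⟨t0, t1, t2, t3, t4, t5, t6⟩ := Tl_bb hU hLo hm
  rw [← hMdef] at t0 t1 t2 t3 t4 t5 t6
  have p0 := gb_pos hM (show 0 ≤ 6 by norm_num)
  have a : ∀ i ≤ 5, 0 ≤ 1 / gb M (i + 1) - 1 / gb M i := by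
    intro i hi
    have := one_div_le_one_div_of_le (gb_pos hM (show i + 1 ≤ 6 by omega)) (gb_anti hM hi)
    linarith
  have a0 := mul_le_mul_of_nonneg_left t0 (by positivity : 0 ≤ 1 / gb M 0)
  have a1 := mul_le_mul_of_nonneg_left t1 (a 0 (by norm_num))
  have a2 := mul_le_mul_of_nonneg_left t2 (a 1 (by norm_num))
  have a3 := mul_le_mul_of_nonneg_left t3 (a 2 (by norm_num))
  have a4 := mul_le_mul_of_nonneg_left t4 (a 3 (by norm_num))
  have a5 := mul_le_mul_of_nonneg_left t5 (a 4 (by norm_num))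
  have a6 := mul_le_mul_of_nonneg_left t6 (a 5 (by norm_num))
  norm_num only at a1 a2 a3 a4 a5 a6
  unfold IB
  linarith

lemma Rp_sq_le {m p : ℕ} (hm : 181 ≤ m) (hp1 : 1 ≤ p) :
    (Rp m p : ℝ) ^ 2 ≤ (m : ℝ) ^ 8 / (5 * Real.log m * p) := by
  have hmR : (181 : ℝ) ≤ m := by exact_mod_cast hm
  have hM := log_m_ge hm
  have hM0 : 0 < Real.log m := by linarith
  have hpR : (1 : ℝ) ≤ p := by exact_mod_cast hp1
  have h1 : (Rp m p : ℝ) ≤ √((m : ℝ) ^ 8 / (5 * Real.log m * p)) := by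
    have h2 : Rp m p ≤ ⌊√((m : ℝ) ^ 8 / (5 * Real.log m * p))⌋₊ := min_le_right _ _
    have h3 : (Rp m p : ℝ) ≤ (⌊√((m : ℝ) ^ 8 / (5 * Real.log m * p))⌋₊ : ℝ) := by exact_mod_cast h2
    exact h3.trans (Nat.floor_le (Real.sqrt_nonneg _))
  have h2 : (0 : ℝ) ≤ Rp m p := by positivity
  calc (Rp m p : ℝ) ^ 2 ≤ √((m : ℝ) ^ 8 / (5 * Real.log m * p)) ^ 2 :=
        pow_le_pow_left₀ h2 h1 2
    _ = _ := Real.sq_sqrt (by positivity)

lemma err_factor {R : ℝ} (hR : 31 ≤ R) : ((4 * R + 14) / 15) ^ 2 ≤ 0.0881 * R ^ 2 := by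
  nlinarith

theorem err_large (hU : ∀ n : ℕ, 32761 ≤ n → Ls n ≤ Real.log n - 0.2)
    (hLo : ∀ n : ℕ, 32760 ≤ n → Real.log n - 0.92 ≤ Ls n) {m : ℕ} (hm : 181 ≤ m) :
    ∑ p ∈ (Icc (m ^ 2) (m ^ 6)).filter Nat.Prime,
      (1 - Real.log p / Real.log ((m ^ 6 : ℕ) : ℝ)) * ((4 * (Rp m p : ℝ) + 14) / 15) ^ 2 ≤
      0.0881 * ((m : ℝ) ^ 7 * (TT 2 (1 / Real.log m) - TT 3 (1 / Real.log m)) +
        (m : ℝ) ^ 8 / (5 * Real.log m) * TT 3 (1 / Real.log m)) := by
  have hM := log_m_ge hm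
  have hM' := log_m_le hm
  have hmR : (181 : ℝ) ≤ m := by exact_mod_cast hm
  set M := Real.log m with hMdef
  have hM0 : 0 < M := by linarith
  have hset : (Icc (m ^ 2) (m ^ 6)).filter Nat.Prime = (Ioc (bb m 0) (bb m 7)).filter Nat.Prime := by
    have h1 : 1 ≤ m ^ 2 := Nat.one_le_pow _ _ (by omega)
    ext p
    rw [bb_seven]
    simp only [mem_filter, mem_Icc, mem_Ioc]
    have h2 : bb m 0 = m ^ 2 - 1 := by unfold bb; rw [if_pos rfl]
    rw [h2]
    constructor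
    · rintro ⟨⟨h3, h4⟩, h5⟩; exact ⟨⟨by omega, h4⟩, h5⟩
    · rintro ⟨⟨h3, h4⟩, h5⟩; exact ⟨⟨by omega, h4⟩, h5⟩
  have hbb1 : bb m 1 = m ^ 3 := by
    unfold bb
    rw [if_neg (by norm_num)]
    have : m ^ (1 + 5) = m ^ 3 * m ^ 3 := by ring
    rw [this, Nat.sqrt_eq]
  rw [hset]
  have h1 := blocks 7 (bb m) (bb_mono hm)
    (fun p => (1 - Real.log p / Real.log ((m ^ 6 : ℕ) : ℝ)) * ((4 * (Rp m p : ℝ) + 14) / 15) ^ 2)
    (fun p => (1 - Real.log p / Real.log ((m ^ 6 : ℕ) : ℝ)) / ((p : ℝ) - 1))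
    (fun i => if i = 0 then 0.0881 * (m : ℝ) ^ 7 else 0.0881 * ((m : ℝ) ^ 8 / (5 * M))) (by
      intro i hi p hp hp1 hp2
      have hp6 : p ≤ m ^ 6 := by
        rw [← bb_seven m]
        exact hp2.trans (monotone_nat_of_le_succ (bb_mono hm) (show i + 1 ≤ 7 by omega))
      have h1 := wt_nonneg hm hp hp6
      have hpR : (1 : ℝ) < p := by exact_mod_cast hp.one_lt
      have h2 := Rp_ge hm hp.one_le hp6
      have h2R : (31 : ℝ) ≤ Rp m p := by exact_mod_cast h2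
      have h3 := err_factor h2R
      have hp10 : 0 < (p : ℝ) - 1 := by linarith
      split_ifs with h0
      · subst h0
        rw [hbb1] at hp2
        have h4 : (Rp m p : ℝ) ≤ (m : ℝ) ^ 2 := by exact_mod_cast (Rp_lt hm p).le
        have h5 : (Rp m p : ℝ) ^ 2 ≤ (m : ℝ) ^ 4 := by
          calc (Rp m p : ℝ) ^ 2 ≤ ((m : ℝ) ^ 2) ^ 2 := pow_le_pow_left₀ (by positivity) h4 2
            _ = (m : ℝ) ^ 4 := by ring
        have h6 : (m : ℝ) ^ 4 ≤ (m : ℝ) ^ 7 * (1 / ((p : ℝ) - 1)) := by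
          rw [mul_one_div, le_div_iff₀ hp10]
          have h7 : (p : ℝ) ≤ (m : ℝ) ^ 3 := by exact_mod_cast hp2
          calc (m : ℝ) ^ 4 * ((p : ℝ) - 1) ≤ (m : ℝ) ^ 4 * (m : ℝ) ^ 3 := by
                apply mul_le_mul_of_nonneg_left _ (by positivity)
                linarith
            _ = (m : ℝ) ^ 7 := by ring
        calc (1 - Real.log p / Real.log ((m ^ 6 : ℕ) : ℝ)) * ((4 * (Rp m p : ℝ) + 14) / 15) ^ 2
            ≤ (1 - Real.log p / Real.log ((m ^ 6 : ℕ) : ℝ)) *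
              (0.0881 * ((m : ℝ) ^ 7 * (1 / ((p : ℝ) - 1)))) := by
              apply mul_le_mul_of_nonneg_left _ h1
              refine h3.trans ?_
              apply mul_le_mul_of_nonneg_left _ (by norm_num)
              exact h5.trans h6
          _ = _ := by ring
      · have h5 := Rp_sq_le hm hp.one_le
        rw [← hMdef] at h5
        have h6 : (m : ℝ) ^ 8 / (5 * M * p) ≤ (m : ℝ) ^ 8 / (5 * M) * (1 / ((p : ℝ) - 1)) := by
          rw [div_mul_div_comm, mul_one]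
          apply div_le_div_of_nonneg_left (by positivity) (by positivity)
          apply mul_le_mul_of_nonneg_left _ (by positivity)
          linarith
        calc (1 - Real.log p / Real.log ((m ^ 6 : ℕ) : ℝ)) * ((4 * (Rp m p : ℝ) + 14) / 15) ^ 2
            ≤ (1 - Real.log p / Real.log ((m ^ 6 : ℕ) : ℝ)) *
              (0.0881 * ((m : ℝ) ^ 8 / (5 * M) * (1 / ((p : ℝ) - 1)))) := by
              apply mul_le_mul_of_nonneg_left _ h1
              refine h3.trans ?_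
              apply mul_le_mul_of_nonneg_left _ (by norm_num)
              exact h5.trans h6
          _ = _ := by ring)
  refine h1.trans ?_
  have hle : ∀ i ≤ 6, bb m (i + 1) ≤ m ^ 6 := by
    intro i hi
    rw [← bb_seven m]
    exact monotone_nat_of_le_succ (bb_mono hm) (show i + 1 ≤ 7 by omega)
  have e : ∀ i ≤ 6, ∑ p ∈ (Ioc (bb m i) (bb m (i + 1))).filter Nat.Prime,
      (1 - Real.log p / Real.log ((m ^ 6 : ℕ) : ℝ)) / ((p : ℝ) - 1) =
      Tl (bb m i) (m ^ 6) - Tl (bb m (i + 1)) (m ^ 6) := by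
    intro i hi
    exact Tl_split _ _ _ (bb_mono hm i) (hle i hi)
  simp only [Finset.sum_range_succ, Finset.sum_range_zero, zero_add]
  rw [e 0 (by norm_num), e 1 (by norm_num), e 2 (by norm_num), e 3 (by norm_num),
    e 4 (by norm_num), e 5 (by norm_num), e 6 (by norm_num)]
  norm_num only
  rw [bb_seven, Tl_self]
  obtain ⟨t0, t1, -⟩ := Tl_bb hU hLo hm
  rw [← hMdef] at t0 t1
  have k1 : (m : ℝ) ^ 7 ≤ (m : ℝ) ^ 8 / (5 * M) := by
    rw [le_div_iff₀ (by positivity)]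
    have : 5 * M ≤ m := by
      norm_num at hM' ⊢
      linarith
    calc (m : ℝ) ^ 7 * (5 * M) ≤ (m : ℝ) ^ 7 * m := mul_le_mul_of_nonneg_left this (by positivity)
      _ = (m : ℝ) ^ 8 := by ring
  have a0 := mul_le_mul_of_nonneg_left t0 (by positivity : 0 ≤ (m : ℝ) ^ 7)
  have a1 := mul_le_mul_of_nonneg_left t1 (by linarith : 0 ≤ (m : ℝ) ^ 8 / (5 * M) - (m : ℝ) ^ 7)
  simp only [if_true, if_false]
  norm_num only
  linarith

end Pool.Agent.Lib.MP_bf4c7f
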