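import Mathlib
import Pool.Agent.Lib.MP_bf4c7f_nt3.Crit3

/-!
# Counting integers coprime to 30030, and the corresponding criterion
-/

set_option autoImplicit false
open Finset

namespace Pool.Agent.Lib.MP_bf4c7f

/-- primes in `[17, z]` -/
def P17 (z : ℕ) : Finset ℕ := (Icc 17 z).filter Nat.Prime

lemma mem_P17 {z p : ℕ} : p ∈ P17 z ↔ p.Prime ∧ 17 ≤ p ∧ p ≤ z := by
  unfold P17
  simp only [mem_filter, mem_Icc]
  tauto

/-- `ρ = φ(30030) / 30030` -/
noncomputable def rho13 : ℝ := 4 / 15 * (6 / 7) * (10 / 11) * (12 / 13)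

/-- the number of multiples of `e` in `(a, b]` which are coprime to `M` is
`r (b - a) / e + O(E)` -/
def CountH (M : ℕ) (r E : ℝ) : Prop :=
  ∀ a b e : ℕ, a ≤ b → 0 < e → Nat.Coprime e M →
    |(((Ioc a b).filter (fun n => Nat.Coprime n M ∧ e ∣ n)).card : ℝ) -
      r * ((b : ℝ) - a) / e| ≤ E

lemma CountH.step {M : ℕ} {r E : ℝ} (h : CountH M r E) {p : ℕ} (hp : p.Prime)
    (hpM : Nat.Coprime p M) : CountH (M * p) (r * (1 - 1 / (p : ℝ))) (2 * E) := by
  intro a b e hab he0 he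
  have hp0 : 0 < p := hp.pos
  have hpR : (0 : ℝ) < p := by exact_mod_cast hp0
  have heR : (0 : ℝ) < e := by exact_mod_cast he0
  have heM : Nat.Coprime e M := Nat.Coprime.coprime_mul_right_right he
  have hep : Nat.Coprime e p := Nat.Coprime.coprime_mul_left_right he
  have h1 := h a b e hab he0 heM
  have h2 := h a b (p * e) hab (Nat.mul_pos hp0 he0) (Nat.Coprime.mul_left hpM heM)
  have hset : (Ioc a b).filter (fun n => Nat.Coprime n M ∧ e ∣ n) =
      (Ioc a b).filter (fun n => Nat.Coprime n (M * p) ∧ e ∣ n) ∪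
        (Ioc a b).filter (fun n => Nat.Coprime n M ∧ p * e ∣ n) := by
    ext n
    simp only [mem_union, mem_filter]
    constructor
    · rintro ⟨hn, hc, hd⟩
      by_cases hpn : p ∣ n
      · exact Or.inr ⟨hn, hc, Nat.Coprime.mul_dvd_of_dvd_of_dvd hep.symm hpn hd⟩
      · exact Or.inl ⟨hn, Nat.Coprime.mul_right hc
          ((Nat.Prime.coprime_iff_not_dvd hp).2 hpn).symm, hd⟩
    · rintro (⟨hn, hc, hd⟩ | ⟨hn, hc, hd⟩)
      · exact ⟨hn, Nat.Coprime.coprime_mul_right_right hc, hd⟩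
      · exact ⟨hn, hc, (Nat.dvd_mul_left e p).trans hd⟩
  have hdisj : Disjoint ((Ioc a b).filter (fun n => Nat.Coprime n (M * p) ∧ e ∣ n))
      ((Ioc a b).filter (fun n => Nat.Coprime n M ∧ p * e ∣ n)) := by
    rw [Finset.disjoint_left]
    intro n hn hn'
    rw [mem_filter] at hn hn'
    have hc := Nat.Coprime.coprime_mul_left_right hn.2.1
    have hpn : p ∣ n := (Nat.dvd_mul_right p e).trans hn'.2.2
    exact (Nat.Prime.coprime_iff_not_dvd hp).1 hc.symm hpn
  rw [hset, card_union_of_disjoint hdisj] at h1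
  push_cast at h1 h2
  have e1 : r * (1 - 1 / (p : ℝ)) * ((b : ℝ) - a) / e =
      r * ((b : ℝ) - a) / e - r * ((b : ℝ) - a) / (p * e) := by
    field_simp
  rw [e1]
  rw [abs_le] at h1 h2 ⊢
  constructor <;> linarith [h1.1, h1.2, h2.1, h2.2]

/-- the number of multiples of `e` in `(a, b]` which are coprime to 30030 -/
theorem count13 (a b e : ℕ) (hab : a ≤ b) (he0 : 0 < e) (he : Nat.Coprime e 30030) :
    |(((Ioc a b).filter (fun n => Nat.Coprime n 30030 ∧ e ∣ n)).card : ℝ) -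
      rho13 * ((b : ℝ) - a) / e| ≤ 28 / 15 * 8 := by
  have h0 : CountH 30 (4 / 15) (28 / 15) := count_mult
  have h1 := h0.step (p := 7) (by norm_num) (by norm_num)
  have h2 := h1.step (p := 11) (by norm_num) (by norm_num)
  have h3 := h2.step (p := 13) (by norm_num) (by norm_num)
  have h4 := h3 a b e hab he0 (by simpa using he)
  have e1 : (4 : ℝ) / 15 * (1 - 1 / ((7 : ℕ) : ℝ)) * (1 - 1 / ((11 : ℕ) : ℝ)) *
      (1 - 1 / ((13 : ℕ) : ℝ)) = rho13 := by
    unfold rho13
    norm_num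
  have e2 : 2 * (2 * (2 * (28 / 15))) = (28 : ℝ) / 15 * 8 := by norm_num
  rw [e1, e2] at h4
  exact h4

lemma coprime_30_of {n : ℕ} (h : Nat.Coprime n 30030) : Nat.Coprime n 30 := by
  have : (30030 : ℕ) = 30 * 1001 := by norm_num
  rw [this] at h
  exact Nat.Coprime.coprime_mul_right_right h

lemma ge17_of_dvd {n p : ℕ} (hp : p.Prime) (hpn : p ∣ n) (h : Nat.Coprime n 30030) : 17 ≤ p := by
  by_contra hlt
  have hc : Nat.Coprime p 30030 := Nat.Coprime.coprime_dvd_left hpn h
  have hlt' : p < 17 := not_le.1 hlt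
  interval_cases p <;> revert hp hc <;> norm_num

lemma prime_coprime_30030 {p : ℕ} (hp : p.Prime) (h : 17 ≤ p) : Nat.Coprime p 30030 := by
  rw [Nat.Prime.coprime_iff_not_dvd hp]
  intro hd
  have h1 : (30030 : ℕ) = 2 * (3 * (5 * (7 * (11 * 13)))) := by norm_num
  rw [h1, hp.dvd_mul, hp.dvd_mul, hp.dvd_mul, hp.dvd_mul, hp.dvd_mul] at hd
  rcases hd with hd | hd | hd | hd | hd | hd <;> have := Nat.le_of_dvd (by norm_num) hd <;> omega

/-- the weight of one integer coprime to 30030 with at least `j` prime factors -/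
lemma len_le17 (j n N y : ℕ) (hn1 : 1 ≤ n) (hnN : n < N) (hy : 17 ≤ y)
    (h30 : Nat.Coprime n 30030) (h5 : j ≤ n.primeFactorsList.length) :
    (j : ℝ) - Real.log N / Real.log y ≤
      ∑ p ∈ P17 y, (n.factorization p : ℝ) * (1 - Real.log p / Real.log y) := by
  refine (len_le j n N y hn1 hnN (by omega) (coprime_30_of h30) h5).trans (le_of_eq ?_)
  symm
  apply Finset.sum_subset
  · intro p hp
    rw [mem_P17] at hp
    rw [mem_P7]
    exact ⟨hp.1, by omega, hp.2.2⟩
  · intro p hp hp'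
    rw [mem_P7] at hp
    have h6 : ¬ p ∣ n := by
      intro hpn
      apply hp'
      rw [mem_P17]
      exact ⟨hp.1, ge17_of_dvd hp.1 hpn h30, hp.2.2⟩
    rw [Nat.factorization_eq_zero_of_not_dvd h6]
    simp

/-- The criterion. -/
theorem critA3 (I : Finset ℕ) (N : ℕ) (hI : ∀ n ∈ I, 1 ≤ n ∧ n < N) (w : ℕ → ℝ)
    (hw : ∀ n ∈ I, 0 ≤ w n) (hw30 : ∀ n ∈ I, ¬ Nat.Coprime n 30030 → w n = 0) (y : ℕ)
    (hy : 17 ≤ y)
    (X Er : ℝ) (hX : 0 ≤ X) (hEr : 0 ≤ Er) (m : ℕ → ℝ) (hm : ∀ p, 0 ≤ m p)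
    (hq : ∀ p, p.Prime → 17 ≤ p → p ≤ y → ∀ k, 1 ≤ k →
      ∑ n ∈ I.filter (fun n => p ^ k ∣ n), w n ≤ X * m p / (p : ℝ) ^ k + Er)
    (h0 : X - Er ≤ ∑ n ∈ I, w n) (hlam : 0 ≤ 4 - Real.log N / Real.log y)
    (hmain : X * ∑ p ∈ P17 y, (1 - Real.log p / Real.log y) * m p / ((p : ℝ) - 1) +
      Er * ∑ p ∈ P17 y, (1 - Real.log p / Real.log y) * (Real.log N / Real.log p) <
        (4 - Real.log N / Real.log y) * (X - Er)) :
    ∃ n ∈ I, n.primeFactorsList.length ≤ 3 := by
  by_contra hcon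
  push Not at hcon
  have hyR : (17 : ℝ) ≤ y := by exact_mod_cast hy
  have hY : 0 < Real.log y := Real.log_pos (by linarith)
  -- lower bound
  have h1 : (4 - Real.log N / Real.log y) * ∑ n ∈ I, w n ≤
      ∑ n ∈ I, w n * ∑ p ∈ P17 y, (n.factorization p : ℝ) * (1 - Real.log p / Real.log y) := by
    rw [Finset.mul_sum]
    apply Finset.sum_le_sum
    intro n hn
    by_cases h30 : Nat.Coprime n 30030
    · rw [mul_comm]
      apply mul_le_mul_of_nonneg_left _ (hw n hn)
      have h := len_le17 4 n N y (hI n hn).1 (hI n hn).2 hy h30 (hcon n hn)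
      exact_mod_cast h
    · rw [hw30 n hn h30]
      simp
  have h2 : ∑ n ∈ I, w n * ∑ p ∈ P17 y, (n.factorization p : ℝ) *
      (1 - Real.log p / Real.log y) =
      ∑ p ∈ P17 y, (1 - Real.log p / Real.log y) * ∑ n ∈ I, w n * (n.factorization p : ℝ) := by
    simp only [Finset.mul_sum]
    rw [Finset.sum_comm]
    apply Finset.sum_congr rfl; intro p _
    apply Finset.sum_congr rfl; intro n _
    ring
  have hwp : ∀ p ∈ P17 y, 0 ≤ 1 - Real.log p / Real.log y := by
    intro p hp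
    rw [mem_P17] at hp
    have h3 : Real.log p ≤ Real.log y :=
      Real.log_le_log (by exact_mod_cast hp.1.pos) (by exact_mod_cast hp.2.2)
    have h4 : Real.log p / Real.log y ≤ 1 := by rw [div_le_one hY]; exact h3
    linarith
  have h3 : ∑ p ∈ P17 y, (1 - Real.log p / Real.log y) * ∑ n ∈ I, w n * (n.factorization p : ℝ) ≤
      ∑ p ∈ P17 y, (X * ((1 - Real.log p / Real.log y) * m p / ((p : ℝ) - 1)) +
        Er * ((1 - Real.log p / Real.log y) * (Real.log N / Real.log p))) := by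
    apply Finset.sum_le_sum
    intro p hp
    have hwp' := hwp p hp
    rw [mem_P17] at hp
    rw [sum_fact I N hI w p hp.1]
    have hpR : (17 : ℝ) ≤ p := by exact_mod_cast hp.2.1
    have hlp : 0 < Real.log p := Real.log_pos (by linarith)
    have h4 : ∑ k ∈ Icc 1 (Nat.log p N), ∑ n ∈ I.filter (fun n => p ^ k ∣ n), w n ≤
        ∑ k ∈ Icc 1 (Nat.log p N), (X * m p * (1 / (p : ℝ) ^ k) + Er) := by
      apply Finset.sum_le_sum
      intro k hk
      rw [mem_Icc] at hk
      refine (hq p hp.1 hp.2.1 hp.2.2 k hk.1).trans (le_of_eq ?_)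
      ring
    rw [Finset.sum_add_distrib, ← Finset.mul_sum, Finset.sum_const, nsmul_eq_mul,
      Nat.card_Icc, Nat.add_sub_cancel] at h4
    have h5 := sum_inv_pow_le p (Nat.log p N) (by omega)
    have h6 : ((Nat.log p N : ℕ) : ℝ) ≤ Real.log N / Real.log p := by
      rw [le_div_iff₀ hlp]
      rcases Nat.eq_zero_or_pos N with h0 | h0
      · rw [h0]; simp
      · have h7 : p ^ Nat.log p N ≤ N := Nat.pow_log_le_self p (by omega)
        have h8 : (p : ℝ) ^ Nat.log p N ≤ N := by exact_mod_cast h7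
        have h9 := Real.log_le_log (by positivity) h8
        rwa [Real.log_pow] at h9
    have h7 : X * m p * ∑ k ∈ Icc 1 (Nat.log p N), 1 / (p : ℝ) ^ k ≤
        X * m p * (1 / ((p : ℝ) - 1)) :=
      mul_le_mul_of_nonneg_left h5 (mul_nonneg hX (hm p))
    have h8 : ((Nat.log p N : ℕ) : ℝ) * Er ≤ Real.log N / Real.log p * Er :=
      mul_le_mul_of_nonneg_right h6 hEr
    calc (1 - Real.log p / Real.log y) *
          ∑ k ∈ Icc 1 (Nat.log p N), ∑ n ∈ I.filter (fun n => p ^ k ∣ n), w n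
        ≤ (1 - Real.log p / Real.log y) *
          (X * m p * (1 / ((p : ℝ) - 1)) + Real.log N / Real.log p * Er) := by
          apply mul_le_mul_of_nonneg_left _ hwp'
          linarith
      _ = _ := by ring
  rw [Finset.sum_add_distrib, ← Finset.mul_sum, ← Finset.mul_sum] at h3
  have h4 := mul_le_mul_of_nonneg_left h0 hlam
  linarith

/-- The weight: the indicator function of the integers coprime to 30030. -/
noncomputable def ind30030 (n : ℕ) : ℝ := if Nat.Coprime n 30030 then 1 else 0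

lemma sum_ind30030 (I : Finset ℕ) (P : ℕ → Prop) [DecidablePred P] :
    ∑ n ∈ I.filter P, ind30030 n =
      ((I.filter (fun n => Nat.Coprime n 30030 ∧ P n)).card : ℝ) := by
  unfold ind30030
  rw [← Finset.sum_filter, Finset.filter_filter, Finset.sum_const, nsmul_eq_mul, mul_one]
  congr 2
  ext n
  simp only [mem_filter]
  tauto

/-- The criterion for the half intervals `(a, a + x)`, `a + x ≤ x² + x`: what remains is the
numerical inequality `hmain`. -/
theorem regA2_of (x a y : ℕ) (hx : 1 ≤ x) (ha : a + x ≤ x ^ 2 + x) (hy : 17 ≤ y)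
    (hlam : 0 ≤ 4 - Real.log ((x ^ 2 + x : ℕ) : ℝ) / Real.log y)
    (hmain : rho13 * ((x : ℝ) - 1) * ∑ p ∈ P17 y, (1 - Real.log p / Real.log y) / ((p : ℝ) - 1) +
      28 / 15 * 8 * ∑ p ∈ P17 y, (1 - Real.log p / Real.log y) *
        (Real.log ((x ^ 2 + x : ℕ) : ℝ) / Real.log p) <
        (4 - Real.log ((x ^ 2 + x : ℕ) : ℝ) / Real.log y) *
          (rho13 * ((x : ℝ) - 1) - 28 / 15 * 8)) :
    ∃ n, a < n ∧ n < a + x ∧ n.primeFactorsList.length ≤ 3 := by
  have hxR : (1 : ℝ) ≤ x := by exact_mod_cast hx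
  have hrho : 0 ≤ rho13 := by unfold rho13; norm_num
  have h3 : ((a + (x - 1) : ℕ) : ℝ) - a = (x : ℝ) - 1 := by
    rw [Nat.cast_add, Nat.cast_sub hx]
    push_cast; ring
  obtain ⟨n, hn, hn4⟩ := critA3 (Ioc a (a + (x - 1))) (x ^ 2 + x)
    (by
      intro n hn
      rw [mem_Ioc] at hn
      constructor
      · omega
      · omega)
    ind30030 (by intro n _; unfold ind30030; split_ifs <;> norm_num)
    (by intro n _ h; unfold ind30030; rw [if_neg h]) y hy
    (rho13 * ((x : ℝ) - 1)) (28 / 15 * 8) (mul_nonneg hrho (by linarith)) (by norm_num)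
    (fun _ => 1) (by intro; norm_num)
    (by
      intro p hp hp17 _ k _
      rw [sum_ind30030]
      have h1 := count13 a (a + (x - 1)) (p ^ k) (by omega) (pow_pos hp.pos k)
        (Nat.Coprime.pow_left k (prime_coprime_30030 hp hp17))
      have h2 := (abs_le.1 h1).2
      rw [h3] at h2
      push_cast at h2 ⊢
      rw [mul_one]
      linarith)
    (by
      have h1 := count13 a (a + (x - 1)) 1 (by omega) (by norm_num) (by norm_num)
      have h2 := (abs_le.1 h1).1
      rw [h3] at h2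
      have h4 := sum_ind30030 (Ioc a (a + (x - 1))) (fun n => 1 ∣ n)
      have h5 : (Ioc a (a + (x - 1))).filter (fun n => 1 ∣ n) = Ioc a (a + (x - 1)) := by
        apply Finset.filter_true_of_mem
        intro n _
        exact one_dvd n
      rw [h5] at h4
      rw [h4]
      push_cast at h2
      rw [div_one] at h2
      linarith)
    hlam (by simpa using hmain)
  rw [mem_Ioc] at hn
  exact ⟨n, hn.1, by omega, hn4⟩

/-- the number of multiples of `e` in `(a, b]` which are coprime to 30 and to all primes of `S` -/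
theorem count_sieved (S : Finset ℕ) (hS : ∀ q ∈ S, q.Prime ∧ 7 ≤ q) (a b e : ℕ) (hab : a ≤ b)
    (he0 : 0 < e) (he : Nat.Coprime e 30) (heS : ∀ q ∈ S, Nat.Coprime e q) :
    |((((Finset.Ioc a b).filter (fun n => Nat.Coprime n 30 ∧ (∀ q ∈ S, ¬ q ∣ n) ∧
      e ∣ n)).card : ℕ) : ℝ) - 4 / 15 * (∏ q ∈ S, (1 - 1 / (q : ℝ))) * ((b : ℝ) - a) / e| ≤
      28 / 15 * 2 ^ S.card := by
  classical
  induction S using Finset.induction_on generalizing e with
  | empty =>
    have h := count_mult a b e hab he0 he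
    simpa using h
  | insert p S hpS ih =>
    have hp : p.Prime := (hS p (mem_insert_self p S)).1
    have hp7 : 7 ≤ p := (hS p (mem_insert_self p S)).2
    have hS' : ∀ q ∈ S, q.Prime ∧ 7 ≤ q := fun q hq => hS q (mem_insert_of_mem hq)
    have hep : Nat.Coprime e p := heS p (mem_insert_self p S)
    have hp0 : 0 < p := hp.pos
    have hpR : (0 : ℝ) < p := by exact_mod_cast hp0
    have heR : (0 : ℝ) < e := by exact_mod_cast he0
    have h1 := ih hS' e he0 he (fun q hq => heS q (mem_insert_of_mem hq))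
    have h2 := ih hS' (p * e) (Nat.mul_pos hp0 he0)
      (Nat.Coprime.mul_left (prime_coprime_30 hp hp7) he)
      (by
        intro q hq
        refine Nat.Coprime.mul_left ?_ (heS q (mem_insert_of_mem hq))
        rw [Nat.coprime_primes hp (hS' q hq).1]
        rintro rfl
        exact hpS hq)
    have hset : (Ioc a b).filter (fun n => Nat.Coprime n 30 ∧ (∀ q ∈ S, ¬ q ∣ n) ∧ e ∣ n) =
        (Ioc a b).filter (fun n => Nat.Coprime n 30 ∧ (∀ q ∈ insert p S, ¬ q ∣ n) ∧ e ∣ n) ∪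
          (Ioc a b).filter (fun n => Nat.Coprime n 30 ∧ (∀ q ∈ S, ¬ q ∣ n) ∧ p * e ∣ n) := by
      ext n
      simp only [mem_union, mem_filter]
      constructor
      · rintro ⟨hn, hc, hs, hd⟩
        by_cases hpn : p ∣ n
        · exact Or.inr ⟨hn, hc, hs, Nat.Coprime.mul_dvd_of_dvd_of_dvd hep.symm hpn hd⟩
        · refine Or.inl ⟨hn, hc, ?_, hd⟩
          intro q hq
          rw [mem_insert] at hq
          rcases hq with rfl | hq
          · exact hpn
          · exact hs q hq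
      · rintro (⟨hn, hc, hs, hd⟩ | ⟨hn, hc, hs, hd⟩)
        · exact ⟨hn, hc, fun q hq => hs q (mem_insert_of_mem hq), hd⟩
        · exact ⟨hn, hc, hs, (Nat.dvd_mul_left e p).trans hd⟩
    have hdisj : Disjoint
        ((Ioc a b).filter (fun n => Nat.Coprime n 30 ∧ (∀ q ∈ insert p S, ¬ q ∣ n) ∧ e ∣ n))
        ((Ioc a b).filter (fun n => Nat.Coprime n 30 ∧ (∀ q ∈ S, ¬ q ∣ n) ∧ p * e ∣ n)) := by
      rw [Finset.disjoint_left]
      intro n hn hn'
      rw [mem_filter] at hn hn'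
      exact hn.2.2.1 p (mem_insert_self p S) ((Nat.dvd_mul_right p e).trans hn'.2.2.2)
    rw [hset, card_union_of_disjoint hdisj] at h1
    push_cast at h1 h2
    rw [Finset.prod_insert hpS, Finset.card_insert_of_notMem hpS, pow_succ]
    have e1 : 4 / 15 * ((1 - 1 / (p : ℝ)) * ∏ q ∈ S, (1 - 1 / (q : ℝ))) * ((b : ℝ) - a) / e =
        4 / 15 * (∏ q ∈ S, (1 - 1 / (q : ℝ))) * ((b : ℝ) - a) / e -
          4 / 15 * (∏ q ∈ S, (1 - 1 / (q : ℝ))) * ((b : ℝ) - a) / (p * e) := by
      field_simp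
    rw [e1]
    rw [abs_le] at h1 h2 ⊢
    constructor <;> linarith [h1.1, h1.2, h2.1, h2.2]

end Pool.Agent.Lib.MP_bf4c7f
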