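import Mathlib
import Pool.Agent.Lib.MP_bf4c7f_nt3.Crit3

/-!
# The simple criterion: a weighted sum which produces an integer with at most `j` prime factors
-/

set_option autoImplicit false
open Finset

namespace Pool.Agent.Lib.MP_bf4c7f

/-- The criterion. -/
theorem critJ (j : ℕ) (I : Finset ℕ) (N : ℕ) (hI : ∀ n ∈ I, 1 ≤ n ∧ n < N) (w : ℕ → ℝ)
    (hw : ∀ n ∈ I, 0 ≤ w n) (hw30 : ∀ n ∈ I, ¬ Nat.Coprime n 30 → w n = 0) (y : ℕ) (hy : 7 ≤ y)
    (X E0 : ℝ) (hX : 0 ≤ X) (er : ℕ → ℝ) (hEr : ∀ p, 0 ≤ er p) (m : ℕ → ℝ) (hm : ∀ p, 0 ≤ m p)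
    (hq : ∀ p, p.Prime → 7 ≤ p → p ≤ y → ∀ k, 1 ≤ k →
      ∑ n ∈ I.filter (fun n => p ^ k ∣ n), w n ≤ X * m p / (p : ℝ) ^ k + er p)
    (h0 : X - E0 ≤ ∑ n ∈ I, w n) (hlam : 0 ≤ ((j : ℝ) + 1) - Real.log N / Real.log y)
    (hmain : X * ∑ p ∈ P7 y, (1 - Real.log p / Real.log y) * m p / ((p : ℝ) - 1) +
      ∑ p ∈ P7 y, er p * ((1 - Real.log p / Real.log y) * (Real.log N / Real.log p)) <
        (((j : ℝ) + 1) - Real.log N / Real.log y) * (X - E0)) :
    ∃ n ∈ I, n.primeFactorsList.length ≤ j := by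
  by_contra hcon
  push Not at hcon
  have hyR : (7 : ℝ) ≤ y := by exact_mod_cast hy
  have hY : 0 < Real.log y := Real.log_pos (by linarith)
  -- lower bound
  have h1 : (((j : ℝ) + 1) - Real.log N / Real.log y) * ∑ n ∈ I, w n ≤
      ∑ n ∈ I, w n * ∑ p ∈ P7 y, (n.factorization p : ℝ) * (1 - Real.log p / Real.log y) := by
    rw [Finset.mul_sum]
    apply Finset.sum_le_sum
    intro n hn
    by_cases h30 : Nat.Coprime n 30
    · rw [mul_comm]
      apply mul_le_mul_of_nonneg_left _ (hw n hn)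
      have := len_le (j + 1) n N y (hI n hn).1 (hI n hn).2 hy h30 (hcon n hn)
      push_cast at this
      exact this
    · rw [hw30 n hn h30]
      simp
  have h2 : ∑ n ∈ I, w n * ∑ p ∈ P7 y, (n.factorization p : ℝ) * (1 - Real.log p / Real.log y) =
      ∑ p ∈ P7 y, (1 - Real.log p / Real.log y) * ∑ n ∈ I, w n * (n.factorization p : ℝ) := by
    simp only [Finset.mul_sum]
    rw [Finset.sum_comm]
    apply Finset.sum_congr rfl; intro p _
    apply Finset.sum_congr rfl; intro n _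
    ring
  have hwp : ∀ p ∈ P7 y, 0 ≤ 1 - Real.log p / Real.log y := by
    intro p hp
    rw [mem_P7] at hp
    have h3 : Real.log p ≤ Real.log y :=
      Real.log_le_log (by exact_mod_cast hp.1.pos) (by exact_mod_cast hp.2.2)
    have h4 : Real.log p / Real.log y ≤ 1 := by rw [div_le_one hY]; exact h3
    linarith
  have h3 : ∑ p ∈ P7 y, (1 - Real.log p / Real.log y) * ∑ n ∈ I, w n * (n.factorization p : ℝ) ≤
      ∑ p ∈ P7 y, (X * ((1 - Real.log p / Real.log y) * m p / ((p : ℝ) - 1)) +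
        er p * ((1 - Real.log p / Real.log y) * (Real.log N / Real.log p))) := by
    apply Finset.sum_le_sum
    intro p hp
    have hwp' := hwp p hp
    rw [mem_P7] at hp
    rw [sum_fact I N hI w p hp.1]
    have hpR : (7 : ℝ) ≤ p := by exact_mod_cast hp.2.1
    have hlp : 0 < Real.log p := Real.log_pos (by linarith)
    have h4 : ∑ k ∈ Icc 1 (Nat.log p N), ∑ n ∈ I.filter (fun n => p ^ k ∣ n), w n ≤
        ∑ k ∈ Icc 1 (Nat.log p N), (X * m p * (1 / (p : ℝ) ^ k) + er p) := by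
      apply Finset.sum_le_sum
      intro k hk
      rw [mem_Icc] at hk
      refine (hq p hp.1 hp.2.1 hp.2.2 k hk.1).trans (le_of_eq ?_)
      ring
    rw [Finset.sum_add_distrib, ← Finset.mul_sum, Finset.sum_const, nsmul_eq_mul,
      Nat.card_Icc, Nat.add_sub_cancel] at h4
    have h5 := sum_inv_pow_le p (Nat.log p N) (by omega)
    have h6 : ((Nat.log p N : ℕ) : ℝ) ≤ Real.log N / Real.log p := by
      rw [le_div_iff₀ hlp]
      rcases Nat.eq_zero_or_pos N with h0 | h0
      · rw [h0]; simp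
      · have h7 : p ^ Nat.log p N ≤ N := Nat.pow_log_le_self p (by omega)
        have h8 : (p : ℝ) ^ Nat.log p N ≤ N := by exact_mod_cast h7
        have h9 := Real.log_le_log (by positivity) h8
        rwa [Real.log_pow] at h9
    have h7 : X * m p * ∑ k ∈ Icc 1 (Nat.log p N), 1 / (p : ℝ) ^ k ≤
        X * m p * (1 / ((p : ℝ) - 1)) :=
      mul_le_mul_of_nonneg_left h5 (mul_nonneg hX (hm p))
    have h8 : ((Nat.log p N : ℕ) : ℝ) * er p ≤ Real.log N / Real.log p * er p :=
      mul_le_mul_of_nonneg_right h6 (hEr p)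
    calc (1 - Real.log p / Real.log y) *
          ∑ k ∈ Icc 1 (Nat.log p N), ∑ n ∈ I.filter (fun n => p ^ k ∣ n), w n
        ≤ (1 - Real.log p / Real.log y) *
          (X * m p * (1 / ((p : ℝ) - 1)) + Real.log N / Real.log p * er p) := by
          apply mul_le_mul_of_nonneg_left _ hwp'
          linarith
      _ = _ := by ring
  rw [Finset.sum_add_distrib, ← Finset.mul_sum] at h3
  have h4 := mul_le_mul_of_nonneg_left h0 hlam
  linarith

end Pool.Agent.Lib.MP_bf4c7f
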