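import Mathlib
import Pool.Agent.Lib.MP_bf4c7f_nt3.Cheb

/-!
# Mertens' sum, first version
-/

set_option autoImplicit false
open Finset

namespace Pool.Agent.Lib.MP_bf4c7f

/-- the sum of `Λ d / d` for `d ≤ n` -/
noncomputable def ML (n : ℕ) : ℝ := ∑ d ∈ Icc 1 n, ArithmeticFunction.vonMangoldt d / d

lemma ML_mono {m n : ℕ} (h : m ≤ n) : ML m ≤ ML n := by
  unfold ML
  apply Finset.sum_le_sum_of_subset_of_nonneg
  · exact Finset.Icc_subset_Icc_right h
  · intro d _ _
    exact div_nonneg ArithmeticFunction.vonMangoldt_nonneg (Nat.cast_nonneg d)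

lemma ML_succ (n : ℕ) : ML (n + 1) = ML n + (Psi (n + 1) - Psi n) / ((n : ℝ) + 1) := by
  unfold ML Psi
  rw [Finset.sum_Icc_succ_top (by omega), Finset.sum_Icc_succ_top (by omega)]
  push_cast
  ring

lemma Psi_nonneg (n : ℕ) : 0 ≤ Psi n :=
  Finset.sum_nonneg fun _ _ => ArithmeticFunction.vonMangoldt_nonneg

/-- partial summation on `(m, k]` -/
lemma ML_sub_le (m k : ℕ) (hk : m + 1 ≤ k) :
    ML k - ML m ≤ Psi k / k - Psi m / ((m : ℝ) + 1) +
      1.1056 * (Real.log k - Real.log ((m : ℝ) + 1)) := by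
  induction k, hk using Nat.le_induction with
  | base =>
    rw [ML_succ]
    push_cast
    have : (0 : ℝ) < (m : ℝ) + 1 := by positivity
    have e : (Psi (m + 1) - Psi m) / ((m : ℝ) + 1) =
      Psi (m + 1) / ((m : ℝ) + 1) - Psi m / ((m : ℝ) + 1) := by ring
    rw [e]
    linarith
  | succ k hk ih =>
    rw [ML_succ]
    have hk0 : 0 < k := by omega
    have hkR : (0 : ℝ) < k := by exact_mod_cast hk0
    have h1 := inv_succ_le_log k hk0
    have h2 := Psi_le_lin k
    have h3 : Psi k / k - Psi k / ((k : ℝ) + 1) ≤ 1.1056 * (1 / ((k : ℝ) + 1)) := by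
      have e : Psi k / k - Psi k / ((k : ℝ) + 1) = Psi k / k * (1 / ((k : ℝ) + 1)) := by
        field_simp
        ring
      rw [e]
      apply mul_le_mul_of_nonneg_right _ (by positivity)
      rw [div_le_iff₀ hkR]
      exact h2
    have e2 : (Psi (k + 1) - Psi k) / ((k : ℝ) + 1) =
      Psi (k + 1) / ((k : ℝ) + 1) - Psi k / ((k : ℝ) + 1) := by ring
    rw [e2]
    push_cast
    linarith

lemma Slog_eq' (n : ℕ) : Slog n =
    ∑ d ∈ Icc 1 n, ArithmeticFunction.vonMangoldt d * ((n / d : ℕ) : ℝ) := Slog_eq n n le_rfl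

/-- `log n! ≥ n ML(n) - ψ(m) - ...` with `m = n / 2` -/
lemma ML_le_Slog (n : ℕ) : n * ML n ≤ Slog n + 2 * Psi (n / 2) - Psi n +
    n * (ML n - ML (n / 2)) := by
  set m := n / 2 with hm
  rw [Slog_eq']
  have hsplit : ∀ g : ℕ → ℝ, ∑ d ∈ Icc 1 n, g d = ∑ d ∈ Icc 1 m, g d + ∑ d ∈ Ioc m n, g d := by
    intro g
    rw [← Finset.sum_union]
    · apply Finset.sum_congr _ (fun _ _ => rfl)
      ext d
      simp only [mem_Icc, mem_union, mem_Ioc]
      omega
    · rw [Finset.disjoint_left]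
      intro d h1 h2
      simp only [mem_Icc, mem_Ioc] at h1 h2
      omega
  have h1 : Psi n - Psi m = ∑ d ∈ Ioc m n, ArithmeticFunction.vonMangoldt d := by
    unfold Psi; rw [hsplit]; ring
  have h3 : n * ML m ≤ Psi m +
      ∑ d ∈ Icc 1 m, ArithmeticFunction.vonMangoldt d * ((n / d : ℕ) : ℝ) := by
    unfold ML Psi
    rw [Finset.mul_sum, ← Finset.sum_add_distrib]
    apply Finset.sum_le_sum
    intro d hd
    rw [mem_Icc] at hd
    have h4 := floor_ge n d (by omega)
    have h5 : 0 ≤ ArithmeticFunction.vonMangoldt d := ArithmeticFunction.vonMangoldt_nonneg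
    have h6 : (n : ℝ) * (ArithmeticFunction.vonMangoldt d / d) =
      ArithmeticFunction.vonMangoldt d * ((n : ℝ) / d) := by ring
    rw [h6]
    nlinarith [mul_le_mul_of_nonneg_left h4 h5]
  have h7 : ∑ d ∈ Ioc m n, ArithmeticFunction.vonMangoldt d ≤
      ∑ d ∈ Ioc m n, ArithmeticFunction.vonMangoldt d * ((n / d : ℕ) : ℝ) := by
    apply Finset.sum_le_sum
    intro d hd
    rw [mem_Ioc] at hd
    have h5 : 0 ≤ ArithmeticFunction.vonMangoldt d := ArithmeticFunction.vonMangoldt_nonneg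
    have h6 : (1 : ℝ) ≤ ((n / d : ℕ) : ℝ) := by
      have : 1 ≤ n / d := (Nat.one_le_div_iff (by omega)).2 hd.2
      exact_mod_cast this
    nlinarith
  rw [hsplit]
  linarith

theorem ML_upper (n : ℕ) (hn : 1 ≤ n) :
    ML n ≤ Real.log n - 1 + 1.1056 * Real.log 2 + (Real.log n + 1) / n := by
  have hnR : (0 : ℝ) < n := by exact_mod_cast hn
  have h1 := ML_le_Slog n
  have h2 : Slog n ≤ ((n : ℝ) + 1) * Real.log n - n + 1 := sum_log_upper n hn
  set m := n / 2 with hm
  have h3 := ML_sub_le m n (by omega)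
  have h4 := Psi_le_lin m
  have hmR : (0 : ℝ) ≤ m := Nat.cast_nonneg m
  have hcase : (n : ℝ) = 2 * m ∨ (n : ℝ) = 2 * m + 1 := by
    have : n = 2 * m ∨ n = 2 * m + 1 := by omega
    rcases this with h | h
    · left; exact_mod_cast h
    · right; exact_mod_cast h
  have h5 : Real.log n - Real.log ((m : ℝ) + 1) ≤ Real.log 2 + ((n : ℝ) / (2 * ((m : ℝ) + 1)) - 1) := by
    have e := Real.log_le_sub_one_of_pos
      (show (0 : ℝ) < (n : ℝ) / (2 * ((m : ℝ) + 1)) by positivity)
    rw [Real.log_div (by positivity) (by positivity), Real.log_mul (by norm_num) (by positivity)] at e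
    linarith
  -- multiply by n
  have h6 : (n : ℝ) * (ML n - ML m) ≤ Psi n - n / ((m : ℝ) + 1) * Psi m +
      1.1056 * (n * (Real.log 2 + ((n : ℝ) / (2 * ((m : ℝ) + 1)) - 1))) := by
    have e1 := mul_le_mul_of_nonneg_left h3 hnR.le
    have e2 := mul_le_mul_of_nonneg_left h5 hnR.le
    have e3 : (n : ℝ) * (Psi n / n - Psi m / ((m : ℝ) + 1) +
        1.1056 * (Real.log n - Real.log ((m : ℝ) + 1))) =
        Psi n - n / ((m : ℝ) + 1) * Psi m +
          1.1056 * (n * (Real.log n - Real.log ((m : ℝ) + 1))) := by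
      field_simp
    rw [e3] at e1
    norm_num at e1 e2 ⊢
    linarith
  have h7 : (2 - n / ((m : ℝ) + 1)) * Psi m ≤ (2 - n / ((m : ℝ) + 1)) * (1.1056 * m) := by
    apply mul_le_mul_of_nonneg_left h4
    rw [sub_nonneg, div_le_iff₀ (by positivity)]
    rcases hcase with h | h <;> rw [h] <;> linarith
  have h8 : (2 - n / ((m : ℝ) + 1)) * m + n * ((n : ℝ) / (2 * ((m : ℝ) + 1)) - 1) ≤ 0 := by
    have e : (2 - n / ((m : ℝ) + 1)) * m + n * ((n : ℝ) / (2 * ((m : ℝ) + 1)) - 1) =
        (4 * m * (m + 1) - 2 * n * m + n ^ 2 - 2 * n * (m + 1)) / (2 * ((m : ℝ) + 1)) := by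
      field_simp
      ring
    rw [e]
    apply div_nonpos_of_nonpos_of_nonneg _ (by positivity)
    rcases hcase with h | h <;> rw [h] <;> nlinarith
  have h9 : (n : ℝ) * ML n ≤ n * (Real.log n - 1 + 1.1056 * Real.log 2 + (Real.log n + 1) / n) := by
    have e : (n : ℝ) * (Real.log n - 1 + 1.1056 * Real.log 2 + (Real.log n + 1) / n) =
        (n + 1) * Real.log n - n + 1 + 1.1056 * (n * Real.log 2) := by
      field_simp
      ring
    rw [e]
    norm_num at h6 h7 h8 ⊢
    nlinarith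
  exact le_of_mul_le_mul_left h9 hnR

/-! ### from prime powers to primes -/

lemma sum_Lambda_mul (n : ℕ) (g : ℕ → ℝ) :
    ∑ m ∈ Icc 1 n, ArithmeticFunction.vonMangoldt m * g m =
      ∑ p ∈ (Icc 1 n).filter Nat.Prime, Real.log p * ∑ k ∈ Icc 1 (Nat.log p n), g (p ^ k) := by
  calc
  _ = ∑ m ∈ ((Icc 1 n).filter Nat.Prime).biUnion fun p ↦ image (p ^ ·) (Icc 1 (p.log n)),
      ArithmeticFunction.vonMangoldt m * g m := by
    refine (sum_subset (fun q hq ↦ ?_) fun x hx hx2 ↦ ?_).symm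
    · simp only [mem_biUnion, mem_filter, mem_Icc, mem_image] at hq ⊢
      obtain ⟨p, hp, k, ⟨_, hk⟩, rfl⟩ := hq
      exact ⟨Nat.one_le_pow _ _ hp.2.pos, Nat.pow_le_of_le_log (by omega) hk⟩
    · have h0 : ArithmeticFunction.vonMangoldt x = 0 := by
        rw [ArithmeticFunction.vonMangoldt_eq_zero_iff, isPrimePow_nat_iff]
        rintro ⟨p, k, hp, hk, rfl⟩
        apply hx2
        simp only [mem_biUnion, mem_filter, mem_Icc, mem_image] at hx ⊢
        have hpn : p ≤ n := (Nat.le_of_dvd (by omega) (dvd_pow_self p hk.ne')).trans hx.2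
        exact ⟨p, ⟨⟨hp.one_le, hpn⟩, hp⟩, ⟨k, ⟨by omega, Nat.le_log_of_pow_le hp.one_lt hx.2⟩, rfl⟩⟩
      rw [h0, zero_mul]
  _ = ∑ p ∈ (Icc 1 n).filter Nat.Prime, ∑ q ∈ image (fun k ↦ p ^ k) (Icc 1 (p.log n)),
      ArithmeticFunction.vonMangoldt q * g q := by
      rw [sum_biUnion]
      intro p hp q hq hpq
      simp only [Finset.coe_filter, Set.mem_ofPred_eq] at hp hq
      rw [Function.onFun, Finset.disjoint_left]
      intro x hx hy
      simp only [mem_image, mem_Icc] at hx hy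
      obtain ⟨a, ha, rfl⟩ := hx
      obtain ⟨b, hb, hb2⟩ := hy
      apply hpq
      exact (Nat.Prime.pow_inj' hq.2 hp.2 (by omega) (by omega) hb2).1.symm
  _ = _ := by
      apply Finset.sum_congr rfl
      intro p hp
      rw [mem_filter] at hp
      rw [sum_image fun a _ b _ hab ↦ Nat.pow_right_injective hp.2.two_le hab, Finset.mul_sum]
      apply Finset.sum_congr rfl
      intro k hk
      rw [mem_Icc] at hk
      rw [ArithmeticFunction.vonMangoldt_apply_pow (by omega),
        ArithmeticFunction.vonMangoldt_apply_prime hp.2]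

lemma geom (p : ℝ) (hp : 1 < p) (K : ℕ) :
    ∑ k ∈ Icc 1 K, 1 / p ^ k = 1 / (p - 1) - 1 / (p ^ K * (p - 1)) := by
  have h1 : p - 1 ≠ 0 := by linarith
  have h2 : p ≠ 0 := by linarith
  induction K with
  | zero => simp
  | succ K ih =>
    rw [Finset.sum_Icc_succ_top (by omega), ih]
    field_simp
    ring


lemma ML_eq (n : ℕ) : ML n =
    ∑ p ∈ (Icc 1 n).filter Nat.Prime, Real.log p * (1 / ((p : ℝ) - 1) -
      1 / ((p : ℝ) ^ (Nat.log p n) * ((p : ℝ) - 1))) := by
  have h := sum_Lambda_mul n (fun d => 1 / (d : ℝ))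
  have h1 : ML n = ∑ m ∈ Icc 1 n, ArithmeticFunction.vonMangoldt m * (1 / (m : ℝ)) := by
    unfold ML
    apply Finset.sum_congr rfl
    intro d _
    ring
  rw [h1, h]
  apply Finset.sum_congr rfl
  intro p hp
  have hp1 : (1 : ℝ) < p := by exact_mod_cast (mem_filter.1 hp).2.one_lt
  rw [← geom p hp1]
  push_cast
  rfl

lemma ML_le_Ls (n : ℕ) : ML n ≤ Ls n := by
  rw [ML_eq]
  unfold Ls
  apply Finset.sum_le_sum
  intro p hp
  have hp1 : (1 : ℝ) < p := by exact_mod_cast (mem_filter.1 hp).2.one_lt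
  have h1 : 0 ≤ Real.log p := Real.log_nonneg hp1.le
  have h2 : 0 ≤ 1 / ((p : ℝ) ^ (Nat.log p n) * ((p : ℝ) - 1)) := by
    have : 0 < (p : ℝ) - 1 := by linarith
    positivity
  have h3 : Real.log p / ((p : ℝ) - 1) = Real.log p * (1 / ((p : ℝ) - 1)) := by ring
  rw [h3]
  apply mul_le_mul_of_nonneg_left _ h1
  linarith

/-- `θ` at natural numbers -/
noncomputable def Th (n : ℕ) : ℝ := ∑ p ∈ (Icc 1 n).filter Nat.Prime, Real.log p

lemma Th_succ (n : ℕ) : Th (n + 1) = Th n + if (n + 1).Prime then Real.log ((n : ℝ) + 1) else 0 := by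
  unfold Th
  rw [Finset.sum_filter, Finset.sum_filter, Finset.sum_Icc_succ_top (by omega)]
  push_cast
  rfl

lemma Th_nonneg (n : ℕ) : 0 ≤ Th n := by
  unfold Th
  apply Finset.sum_nonneg
  intro p hp
  apply Real.log_nonneg
  exact_mod_cast (mem_filter.1 hp).2.one_lt.le

/-- the primes between `s` and `n`, with weight `log p / (p (p - 1))` -/
noncomputable def Tp (s n : ℕ) : ℝ :=
  ∑ p ∈ (Ioc s n).filter Nat.Prime, Real.log p / ((p : ℝ) * ((p : ℝ) - 1))

lemma Tp_le (s : ℕ) (hs : 1 ≤ s) (k : ℕ) (hk : s + 1 ≤ k) :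
    Tp s k ≤ Th k / ((k : ℝ) * ((k : ℝ) - 1)) - Th s / (((s : ℝ) + 1) * s) +
      1.1056 * (1 / s + 1 / ((s : ℝ) + 1) - 1 / ((k : ℝ) - 1) - 1 / k) := by
  have hsR : (0 : ℝ) < s := by exact_mod_cast hs
  induction k, hk using Nat.le_induction with
  | base =>
    have h1 : Tp s (s + 1) = (Th (s + 1) - Th s) / (((s : ℝ) + 1) * s) := by
      unfold Tp
      rw [Finset.sum_filter, Th_succ]
      have h2 : Ioc s (s + 1) = {s + 1} := by
        ext d
        simp only [mem_Ioc, mem_singleton]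
        omega
      rw [h2, Finset.sum_singleton]
      push_cast
      split_ifs
      · congr 1
        · ring
        · ring
      · simp
    rw [h1]
    have e : (Th (s + 1) - Th s) / (((s : ℝ) + 1) * s) =
      Th (s + 1) / (((s : ℝ) + 1) * s) - Th s / (((s : ℝ) + 1) * s) := by ring
    rw [e]
    push_cast
    have e2 : (s : ℝ) + 1 - 1 = s := by ring
    rw [e2]
    have e3 : (1 : ℝ) / s + 1 / ((s : ℝ) + 1) - 1 / s - 1 / ((s : ℝ) + 1) = 0 := by ring
    rw [e3]
    linarith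
  | succ k hk ih =>
    have hk0 : (1 : ℝ) < k := by
      have : 1 < k := by omega
      exact_mod_cast this
    have hk1 : (0 : ℝ) < (k : ℝ) - 1 := by linarith
    have h1 : Tp s (k + 1) = Tp s k + (Th (k + 1) - Th k) / (((k : ℝ) + 1) * k) := by
      unfold Tp
      rw [Finset.sum_filter, Finset.sum_filter, Th_succ]
      have h2 : Ioc s (k + 1) = insert (k + 1) (Ioc s k) := by
        ext d
        simp only [mem_Ioc, mem_insert]
        omega
      rw [h2, Finset.sum_insert (by simp)]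
      push_cast
      split_ifs
      · rw [add_comm]
        congr 1
        · congr 1
          · ring
          · ring
      · simp
    have h2 : Th k ≤ 1.1056 * k := theta_le_lin k
    have h3 : Th k / ((k : ℝ) * ((k : ℝ) - 1)) - Th k / (((k : ℝ) + 1) * k) ≤
        1.1056 * (1 / ((k : ℝ) - 1) - 1 / ((k : ℝ) + 1)) := by
      have e : Th k / ((k : ℝ) * ((k : ℝ) - 1)) - Th k / (((k : ℝ) + 1) * k) =
        Th k / k * (1 / ((k : ℝ) - 1) - 1 / ((k : ℝ) + 1)) := by
        field_simp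
      rw [e]
      apply mul_le_mul_of_nonneg_right _
      · rw [sub_nonneg]
        apply one_div_le_one_div_of_le hk1
        linarith
      · rw [div_le_iff₀ (by linarith)]
        exact h2
    rw [h1]
    push_cast
    have e2 : (k : ℝ) + 1 - 1 = k := by ring
    rw [e2]
    have e3 : (Th (k + 1) - Th k) / (((k : ℝ) + 1) * k) =
      Th (k + 1) / (((k : ℝ) + 1) * k) - Th k / (((k : ℝ) + 1) * k) := by ring
    rw [e3]
    linarith

lemma Tp_le' (s : ℕ) (hs : 1 ≤ s) (n : ℕ) (hn : s + 1 ≤ n) :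
    Tp s n ≤ 1.1056 * (1 / s + 1 / ((s : ℝ) + 1)) := by
  have h := Tp_le s hs n hn
  have h1 : Th n ≤ 1.1056 * n := theta_le_lin n
  have h2 := Th_nonneg s
  have hsR : (0 : ℝ) < s := by exact_mod_cast hs
  have hn1 : (1 : ℝ) < n := by
    have : 1 < n := by omega
    exact_mod_cast this
  have hn2 : (0 : ℝ) < (n : ℝ) - 1 := by linarith
  have h3 : Th n / ((n : ℝ) * ((n : ℝ) - 1)) ≤ 1.1056 * (1 / ((n : ℝ) - 1)) := by
    rw [div_le_iff₀ (by positivity)]
    have : 1.1056 * (1 / ((n : ℝ) - 1)) * ((n : ℝ) * ((n : ℝ) - 1)) = 1.1056 * n := by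
      field_simp
    rw [this]
    exact h1
  have h4 : 0 ≤ Th s / (((s : ℝ) + 1) * s) := by positivity
  have h5 : 0 ≤ 1 / (n : ℝ) := by positivity
  linarith

lemma Ls_le_ML (n s : ℕ) (hs : s ≤ n) :
    Ls n ≤ ML n + (Th s + Ls s) / n + Tp s n := by
  rw [ML_eq]
  have hsplit : ∀ g : ℕ → ℝ, ∑ p ∈ (Icc 1 n).filter Nat.Prime, g p =
      ∑ p ∈ (Icc 1 s).filter Nat.Prime, g p + ∑ p ∈ (Ioc s n).filter Nat.Prime, g p := by
    intro g
    rw [← Finset.sum_union]
    · apply Finset.sum_congr _ (fun _ _ => rfl)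
      ext d
      simp only [mem_Icc, mem_union, mem_Ioc, mem_filter]
      constructor
      · rintro ⟨⟨h1, h2⟩, h3⟩
        rcases Nat.lt_or_ge s d with h | h
        · right; exact ⟨⟨h, h2⟩, h3⟩
        · left; exact ⟨⟨h1, h⟩, h3⟩
      · rintro (⟨⟨h1, h2⟩, h3⟩ | ⟨⟨h1, h2⟩, h3⟩)
        · exact ⟨⟨h1, by omega⟩, h3⟩
        · exact ⟨⟨by omega, h2⟩, h3⟩
    · rw [Finset.disjoint_left]
      intro d h1 h2
      simp only [mem_Icc, mem_Ioc, mem_filter] at h1 h2
      omega
  have hLs : Ls n = ∑ p ∈ (Icc 1 s).filter Nat.Prime, Real.log p / ((p : ℝ) - 1) +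
      ∑ p ∈ (Ioc s n).filter Nat.Prime, Real.log p / ((p : ℝ) - 1) := by
    unfold Ls; rw [hsplit]
  rw [hLs, hsplit]
  have h1 : ∑ p ∈ (Icc 1 s).filter Nat.Prime, Real.log p / ((p : ℝ) - 1) ≤
      ∑ p ∈ (Icc 1 s).filter Nat.Prime, Real.log p * (1 / ((p : ℝ) - 1) -
      1 / ((p : ℝ) ^ (Nat.log p n) * ((p : ℝ) - 1))) + (Th s + Ls s) / n := by
    unfold Th Ls
    rw [← Finset.sum_add_distrib, Finset.sum_div, ← Finset.sum_add_distrib]
    apply Finset.sum_le_sum
    intro p hp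
    have hpp := (mem_filter.1 hp).2
    have hps := (mem_Icc.1 (mem_filter.1 hp).1).2
    have hp1 : (1 : ℝ) < p := by exact_mod_cast hpp.one_lt
    have hp2 : (0 : ℝ) < (p : ℝ) - 1 := by linarith
    have hn0 : (0 : ℝ) < n := by
      have : 0 < n := by have := hpp.pos; omega
      exact_mod_cast this
    have hlog : 0 ≤ Real.log p := Real.log_nonneg hp1.le
    have h2 : (n : ℝ) < (p : ℝ) ^ (Nat.log p n) * p := by
      have := Nat.lt_pow_succ_log_self hpp.one_lt n
      rw [pow_succ] at this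
      exact_mod_cast this
    have h3 : 1 / ((p : ℝ) ^ (Nat.log p n) * ((p : ℝ) - 1)) ≤ (1 + 1 / ((p : ℝ) - 1)) / n := by
      rw [div_le_div_iff₀ (by positivity) hn0]
      have e : (1 + 1 / ((p : ℝ) - 1)) * ((p : ℝ) ^ (Nat.log p n) * ((p : ℝ) - 1)) =
          (p : ℝ) ^ (Nat.log p n) * p := by
        field_simp
        ring
      rw [e]
      linarith
    have h4 := mul_le_mul_of_nonneg_left h3 hlog
    have e1 : Real.log p * ((1 + 1 / ((p : ℝ) - 1)) / n) =
      (Real.log p + Real.log p / ((p : ℝ) - 1)) / n := by ring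
    rw [e1] at h4
    have e2 : Real.log p / ((p : ℝ) - 1) = Real.log p * (1 / ((p : ℝ) - 1)) := by ring
    linarith
  have h2 : ∑ p ∈ (Ioc s n).filter Nat.Prime, Real.log p / ((p : ℝ) - 1) ≤
      ∑ p ∈ (Ioc s n).filter Nat.Prime, Real.log p * (1 / ((p : ℝ) - 1) -
      1 / ((p : ℝ) ^ (Nat.log p n) * ((p : ℝ) - 1))) + Tp s n := by
    unfold Tp
    rw [← Finset.sum_add_distrib]
    apply Finset.sum_le_sum
    intro p hp
    have hpp := (mem_filter.1 hp).2
    have hpn := (mem_Ioc.1 (mem_filter.1 hp).1).2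
    have hp1 : (1 : ℝ) < p := by exact_mod_cast hpp.one_lt
    have hp2 : (0 : ℝ) < (p : ℝ) - 1 := by linarith
    have hlog : 0 ≤ Real.log p := Real.log_nonneg hp1.le
    have h2 : (p : ℝ) ≤ (p : ℝ) ^ (Nat.log p n) := by
      have h5 : 1 ≤ Nat.log p n := Nat.le_log_of_pow_le hpp.one_lt (by simpa using hpn)
      calc (p : ℝ) = (p : ℝ) ^ 1 := by ring
        _ ≤ _ := pow_le_pow_right₀ hp1.le h5
    have h3 : 1 / ((p : ℝ) ^ (Nat.log p n) * ((p : ℝ) - 1)) ≤ 1 / ((p : ℝ) * ((p : ℝ) - 1)) := by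
      apply one_div_le_one_div_of_le (by positivity)
      exact mul_le_mul_of_nonneg_right h2 hp2.le
    have h4 := mul_le_mul_of_nonneg_left h3 hlog
    have e1 : Real.log p / ((p : ℝ) * ((p : ℝ) - 1)) = Real.log p * (1 / ((p : ℝ) * ((p : ℝ) - 1))) := by
      ring
    have e2 : Real.log p / ((p : ℝ) - 1) = Real.log p * (1 / ((p : ℝ) - 1)) := by ring
    linarith
  linarith

lemma Ls_le_two_ML (s : ℕ) : Ls s ≤ 2 * ML s := by
  have h1 : ∑ p ∈ (Icc 1 s).filter Nat.Prime, Real.log p / p ≤ ML s := by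
    unfold ML
    have h : ∑ p ∈ (Icc 1 s).filter Nat.Prime, Real.log p / p =
        ∑ p ∈ (Icc 1 s).filter Nat.Prime, ArithmeticFunction.vonMangoldt p / p := by
      apply Finset.sum_congr rfl
      intro p hp
      rw [ArithmeticFunction.vonMangoldt_apply_prime (mem_filter.1 hp).2]
    rw [h]
    apply Finset.sum_le_sum_of_subset_of_nonneg (filter_subset _ _)
    intro d _ _
    exact div_nonneg ArithmeticFunction.vonMangoldt_nonneg (Nat.cast_nonneg d)
  have h2 : Ls s ≤ 2 * ∑ p ∈ (Icc 1 s).filter Nat.Prime, Real.log p / p := by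
    unfold Ls
    rw [Finset.mul_sum]
    apply Finset.sum_le_sum
    intro p hp
    have hpp := (mem_filter.1 hp).2
    have hp1 : (2 : ℝ) ≤ p := by exact_mod_cast hpp.two_le
    have hlog : 0 ≤ Real.log p := Real.log_nonneg (by linarith)
    rw [show 2 * (Real.log p / (p : ℝ)) = Real.log p * (2 / p) by ring,
      show Real.log p / ((p : ℝ) - 1) = Real.log p * (1 / ((p : ℝ) - 1)) by ring]
    apply mul_le_mul_of_nonneg_left _ hlog
    rw [div_le_div_iff₀ (by linarith) (by linarith)]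
    linarith
  linarith

/-- the passage from the sum over prime powers to the sum over primes -/
theorem Ls_le_ML_add (n : ℕ) (hn : 1000 ≤ n) :
    Ls n ≤ ML n + 3.36 / Real.sqrt n + Real.log n / n := by
  set s := Nat.sqrt n with hs
  have hs31 : 31 ≤ s := by
    rw [hs, Nat.le_sqrt]
    omega
  have hsn : s + 1 ≤ n := by
    have : s * s ≤ n := Nat.sqrt_le n
    nlinarith
  have h1 := Ls_le_ML n s (by omega)
  have h2 := Tp_le' s (by omega) n hsn
  have h3 : Th s ≤ 1.1056 * s := theta_le_lin s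
  have h4 := Ls_le_two_ML s
  have h5 := ML_upper s (by omega)
  have hsR : (31 : ℝ) ≤ s := by exact_mod_cast hs31
  have hnR : (0 : ℝ) < n := by
    have : 0 < n := by omega
    exact_mod_cast this
  set r := Real.sqrt n with hr
  have hr0 : 0 < r := Real.sqrt_pos.2 hnR
  have hrr : r * r = n := Real.mul_self_sqrt hnR.le
  have hsr : (s : ℝ) ≤ r := by
    rw [hr]
    apply Real.le_sqrt_of_sq_le
    have : s * s ≤ n := Nat.sqrt_le n
    rw [sq]
    exact_mod_cast this
  have hrs : r < (s : ℝ) + 1 := by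
    rw [hr, Real.sqrt_lt' (by positivity)]
    have : n < (s + 1) * (s + 1) := Nat.lt_succ_sqrt n
    rw [sq]
    exact_mod_cast this
  -- `ML s ≤ log s`
  have h6 : ML s ≤ Real.log s := by
    have e1 : (Real.log s + 1) / s ≤ 0.2 := by
      rw [div_le_iff₀ (by linarith)]
      have e2 : Real.log ((s : ℝ) / 32) ≤ (s : ℝ) / 32 - 1 :=
        Real.log_le_sub_one_of_pos (by positivity)
      rw [Real.log_div (by positivity) (by norm_num),
        show (32 : ℝ) = 2 ^ 5 by norm_num, Real.log_pow] at e2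
      have e3 := Real.log_two_lt_d9
      push_cast at e2
      norm_num at e2 e3 ⊢
      linarith
    have e3 := Real.log_two_lt_d9
    norm_num at e1 e3 h5
    linarith
  have h7 : Real.log s = Real.log n / 2 + Real.log (s / r) := by
    rw [Real.log_div (by positivity) (by positivity), ← hrr, Real.log_mul (by positivity) (by positivity)]
    ring
  have h8 : Real.log ((s : ℝ) / r) ≤ 0 := by
    apply Real.log_nonpos (by positivity)
    rw [div_le_one hr0]
    exact hsr
  have h9 : (Th s + Ls s) / n ≤ 1.1056 / r + Real.log n / n := by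
    have e : 1.1056 / r + Real.log n / n = (1.1056 * r + Real.log n) / n := by
      rw [← hrr]
      field_simp
    rw [e]
    apply div_le_div_of_nonneg_right _ hnR.le
    norm_num at h3 ⊢
    linarith
  have h10 : (1 : ℝ) / s + 1 / ((s : ℝ) + 1) ≤ (63 / 31) / r := by
    have e1 : 1 / ((s : ℝ) + 1) ≤ 1 / r := one_div_le_one_div_of_le hr0 hrs.le
    have e2 : (1 : ℝ) / s ≤ (32 / 31) / r := by
      rw [div_le_div_iff₀ (by linarith) hr0]
      linarith
    have e3 : (63 / 31) / r = (32 / 31) / r + 1 / r := by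
      rw [← add_div]; norm_num
    linarith
  have h11 : 3.36 / r ≥ 1.1056 / r + 1.1056 * ((63 / 31) / r) := by
    rw [ge_iff_le, show 1.1056 / r + 1.1056 * ((63 / 31) / r) = (1.1056 + 1.1056 * (63 / 31)) / r by ring]
    apply div_le_div_of_nonneg_right _ hr0.le
    norm_num
  norm_num at h2 h9 h10 h11 ⊢
  linarith

theorem Ls_upper_gen (n : ℕ) (hn : 1000 ≤ n) :
    Ls n ≤ Real.log n - 0.2336 + 3.36 / Real.sqrt n + (2 * Real.log n + 1) / n := by
  have h1 := Ls_le_ML_add n hn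
  have h2 := ML_upper n (by omega)
  have h3 := Real.log_two_lt_d9
  have e : (2 * Real.log n + 1) / (n : ℝ) = (Real.log n + 1) / n + Real.log n / n := by ring
  rw [e]
  norm_num at h1 h2 h3 ⊢
  linarith

lemma log_div_anti (N n : ℝ) (hN : 3 ≤ N) (h : N ≤ n) : Real.log n / n ≤ Real.log N / N := by
  apply Real.log_div_self_antitoneOn _ _ h
  · rw [Set.mem_Ici]
    have := Real.exp_one_lt_d9
    linarith
  · rw [Set.mem_Ici]
    have := Real.exp_one_lt_d9
    linarith

lemma log_ten_lt : Real.log 10 ≤ 2.30259 := by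
  have h1 := Real.log_two_lt_d9
  have h5 := Real.log_five_lt_d9
  rw [show (10 : ℝ) = 2 * 5 by norm_num, Real.log_mul (by norm_num) (by norm_num)]
  norm_num at h1 h5 ⊢
  linarith

theorem Ls_upper_1000 (n : ℕ) (hn : 1000 ≤ n) : Ls n ≤ Real.log n - 0.112 := by
  have h1 := Ls_upper_gen n hn
  have hnR : (1000 : ℝ) ≤ n := by exact_mod_cast hn
  have h2 : (31.62 : ℝ) ≤ Real.sqrt n := by
    apply Real.le_sqrt_of_sq_le
    norm_num
    linarith
  have h3 : 3.36 / Real.sqrt n ≤ 3.36 / 31.62 :=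
    div_le_div_of_nonneg_left (by norm_num) (by norm_num) h2
  have h4 := log_div_anti 1000 n (by norm_num) hnR
  have h5 : Real.log 1000 = 3 * Real.log 10 := by
    rw [show (1000 : ℝ) = 10 ^ 3 by norm_num, Real.log_pow]; push_cast; ring
  have h6 := log_ten_lt
  have h7 : (1 : ℝ) / n ≤ 1 / 1000 := one_div_le_one_div_of_le (by norm_num) hnR
  have e : (2 * Real.log n + 1) / (n : ℝ) = 2 * (Real.log n / n) + 1 / n := by ring
  rw [e] at h1
  rw [h5] at h4
  norm_num at h1 h3 h4 h6 h7 ⊢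
  linarith

theorem Ls_upper_10000 (n : ℕ) (hn : 10000 ≤ n) : Ls n ≤ Real.log n - 0.198 := by
  have h1 := Ls_upper_gen n (by omega)
  have hnR : (10000 : ℝ) ≤ n := by exact_mod_cast hn
  have h2 : (100 : ℝ) ≤ Real.sqrt n := by
    apply Real.le_sqrt_of_sq_le
    norm_num
    linarith
  have h3 : 3.36 / Real.sqrt n ≤ 3.36 / 100 :=
    div_le_div_of_nonneg_left (by norm_num) (by norm_num) h2
  have h4 := log_div_anti 10000 n (by norm_num) hnR
  have h5 : Real.log 10000 = 4 * Real.log 10 := by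
    rw [show (10000 : ℝ) = 10 ^ 4 by norm_num, Real.log_pow]; push_cast; ring
  have h6 := log_ten_lt
  have h7 : (1 : ℝ) / n ≤ 1 / 10000 := one_div_le_one_div_of_le (by norm_num) hnR
  have e : (2 * Real.log n + 1) / (n : ℝ) = 2 * (Real.log n / n) + 1 / n := by ring
  rw [e] at h1
  rw [h5] at h4
  norm_num at h1 h3 h4 h6 h7 ⊢
  linarith

/-! ### lower bounds -/

lemma ML_sub_ge (e : ℝ) (m k : ℕ) (hk : m + 1 ≤ k)
    (he : ∀ j, m + 1 ≤ j → j < k → 0.92129 * j - e ≤ Psi j) :
    Psi k / k - Psi m / ((m : ℝ) + 1) +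
      0.92129 * (Real.log ((k : ℝ) + 1) - Real.log ((m : ℝ) + 2)) -
      e * (1 / ((m : ℝ) + 1) - 1 / k) ≤ ML k - ML m := by
  induction k, hk using Nat.le_induction with
  | base =>
    rw [ML_succ]
    push_cast
    have : (0 : ℝ) < (m : ℝ) + 1 := by positivity
    have e1 : (Psi (m + 1) - Psi m) / ((m : ℝ) + 1) =
      Psi (m + 1) / ((m : ℝ) + 1) - Psi m / ((m : ℝ) + 1) := by ring
    have e2 : (m : ℝ) + 1 + 1 = m + 2 := by ring
    rw [e1, e2]
    linarith
  | succ k hk ih =>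
    have ih' := ih (fun j h1 h2 => he j h1 (by omega))
    rw [ML_succ]
    have hk0 : 0 < k := by omega
    have hkR : (0 : ℝ) < k := by exact_mod_cast hk0
    have h1 := log_succ_le (k + 1) (by omega)
    have h2 := he k hk (by omega)
    have h3 : 0.92129 * (1 / ((k : ℝ) + 1)) - e * (1 / k - 1 / ((k : ℝ) + 1)) ≤
        Psi k / k - Psi k / ((k : ℝ) + 1) := by
      have e1 : Psi k / k - Psi k / ((k : ℝ) + 1) = Psi k * (1 / (k * ((k : ℝ) + 1))) := by
        field_simp
        ring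
      have e2 : 0.92129 * (1 / ((k : ℝ) + 1)) - e * (1 / k - 1 / ((k : ℝ) + 1)) =
        (0.92129 * k - e) * (1 / (k * ((k : ℝ) + 1))) := by
        field_simp
        ring
      rw [e1, e2]
      exact mul_le_mul_of_nonneg_right h2 (by positivity)
    have e3 : (Psi (k + 1) - Psi k) / ((k : ℝ) + 1) =
      Psi (k + 1) / ((k : ℝ) + 1) - Psi k / ((k : ℝ) + 1) := by ring
    rw [e3]
    push_cast at h1 ⊢
    norm_num at h1 h3 ih' ⊢
    linarith

lemma Slog_add_le (n : ℕ) : Slog n + n * (ML n - ML (n / 2)) - (Psi n - Psi (n / 2)) ≤ n * ML n := by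
  set m := n / 2 with hm
  rw [Slog_eq']
  have hsplit : ∀ g : ℕ → ℝ, ∑ d ∈ Icc 1 n, g d = ∑ d ∈ Icc 1 m, g d + ∑ d ∈ Ioc m n, g d := by
    intro g
    rw [← Finset.sum_union]
    · apply Finset.sum_congr _ (fun _ _ => rfl)
      ext d
      simp only [mem_Icc, mem_union, mem_Ioc]
      omega
    · rw [Finset.disjoint_left]
      intro d h1 h2
      simp only [mem_Icc, mem_Ioc] at h1 h2
      omega
  have h1 : Psi n - Psi m = ∑ d ∈ Ioc m n, ArithmeticFunction.vonMangoldt d := by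
    unfold Psi; rw [hsplit]; ring
  have h3 : ∑ d ∈ Icc 1 m, ArithmeticFunction.vonMangoldt d * ((n / d : ℕ) : ℝ) ≤ n * ML m := by
    unfold ML
    rw [Finset.mul_sum]
    apply Finset.sum_le_sum
    intro d hd
    rw [mem_Icc] at hd
    have h4 : ((n / d : ℕ) : ℝ) ≤ (n : ℝ) / d := Nat.cast_div_le
    have h6 : (n : ℝ) * (ArithmeticFunction.vonMangoldt d / d) =
      ArithmeticFunction.vonMangoldt d * ((n : ℝ) / d) := by ring
    rw [h6]
    exact mul_le_mul_of_nonneg_left h4 ArithmeticFunction.vonMangoldt_nonneg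
  have h7 : ∑ d ∈ Ioc m n, ArithmeticFunction.vonMangoldt d * ((n / d : ℕ) : ℝ) =
      ∑ d ∈ Ioc m n, ArithmeticFunction.vonMangoldt d := by
    apply Finset.sum_congr rfl
    intro d hd
    rw [mem_Ioc] at hd
    have h6 : n / d = 1 := by
      apply Nat.div_eq_of_lt_le
      · omega
      · omega
    rw [h6]
    simp
  rw [hsplit]
  linarith

theorem ML_lower (n : ℕ) (hn : 2 ≤ n) :
    Real.log n - 0.91422 - (31 + Real.log n / 2) / n ≤ ML n := by
  have hnR : (2 : ℝ) ≤ n := by exact_mod_cast hn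
  have h1 := Slog_add_le n
  have h2 : (n : ℝ) * Real.log n - n + 1 ≤ Slog n := sum_log_lower n (by omega)
  set m := n / 2 with hm
  have h3 := ML_sub_ge (28.2 + Real.log n / 2) m n (by omega) (by
    intro j hj1 hj2
    have h4 := Psi_ge j (by omega)
    have h5 : Real.log j ≤ Real.log n := by
      apply Real.log_le_log
      · have : 0 < j := by omega
        exact_mod_cast this
      · exact_mod_cast hj2.le
    linarith)
  have h4 := Psi_le_lin m
  have hmR : (1 : ℝ) ≤ m := by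
    have : 1 ≤ m := by omega
    exact_mod_cast this
  have hcase : (n : ℝ) = 2 * m ∨ (n : ℝ) = 2 * m + 1 := by
    have : n = 2 * m ∨ n = 2 * m + 1 := by omega
    rcases this with h | h
    · left; exact_mod_cast h
    · right; exact_mod_cast h
  have hlog : 0 ≤ Real.log n := Real.log_nonneg (by linarith)
  -- `n (log (n + 1) - log (m + 2)) ≥ n log 2 - 3`
  have h5 : (n : ℝ) * Real.log 2 - 3 ≤ n * (Real.log ((n : ℝ) + 1) - Real.log ((m : ℝ) + 2)) := by
    have e := Real.log_le_sub_one_of_pos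
      (show (0 : ℝ) < 2 * ((m : ℝ) + 2) / ((n : ℝ) + 1) by positivity)
    rw [Real.log_div (by positivity) (by positivity), Real.log_mul (by norm_num) (by positivity)] at e
    have e2 : (n : ℝ) * (2 * ((m : ℝ) + 2) / ((n : ℝ) + 1) - 1) ≤ 3 := by
      have e3 : (n : ℝ) * (2 * ((m : ℝ) + 2) / ((n : ℝ) + 1) - 1) =
        n * (2 * m + 3 - n) / ((n : ℝ) + 1) := by field_simp; ring
      rw [e3, div_le_iff₀ (by positivity)]
      rcases hcase with h | h <;> rw [h] <;> nlinarith
    have e4 := mul_le_mul_of_nonneg_left e (show (0 : ℝ) ≤ n by linarith)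
    nlinarith
  have h6 : (n : ℝ) * (ML n - ML m) ≥ Psi n - n / ((m : ℝ) + 1) * Psi m +
      0.92129 * (n * (Real.log ((n : ℝ) + 1) - Real.log ((m : ℝ) + 2))) -
      (28.2 + Real.log n / 2) * (n / ((m : ℝ) + 1) - 1) := by
    have e1 := mul_le_mul_of_nonneg_left h3 (show (0 : ℝ) ≤ n by linarith)
    have e3 : (n : ℝ) * (Psi n / n - Psi m / ((m : ℝ) + 1) +
        0.92129 * (Real.log ((n : ℝ) + 1) - Real.log ((m : ℝ) + 2)) -
        (28.2 + Real.log n / 2) * (1 / ((m : ℝ) + 1) - 1 / n)) =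
        Psi n - n / ((m : ℝ) + 1) * Psi m +
        0.92129 * (n * (Real.log ((n : ℝ) + 1) - Real.log ((m : ℝ) + 2))) -
        (28.2 + Real.log n / 2) * (n / ((m : ℝ) + 1) - 1) := by
      field_simp
    rw [e3] at e1
    exact e1
  have hx0 : 0 ≤ n / ((m : ℝ) + 1) - 1 := by
    rw [sub_nonneg, le_div_iff₀ (by positivity)]
    rcases hcase with h | h <;> rw [h] <;> linarith
  have hx1 : n / ((m : ℝ) + 1) - 1 ≤ 1 := by
    rw [sub_le_iff_le_add, div_le_iff₀ (by positivity)]
    rcases hcase with h | h <;> rw [h] <;> linarith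
  have hx2 : (n / ((m : ℝ) + 1) - 1) * m ≤ n / 2 := by
    have e3 : (n / ((m : ℝ) + 1) - 1) * m = (n - m - 1) * m / ((m : ℝ) + 1) := by field_simp; ring
    rw [e3, div_le_iff₀ (by positivity)]
    rcases hcase with h | h <;> rw [h] <;> nlinarith
  have h7 : (n / ((m : ℝ) + 1) - 1) * Psi m ≤ 1.1056 * (n / 2) := by
    have e1 := mul_le_mul_of_nonneg_left h4 hx0
    have e2 : (n / ((m : ℝ) + 1) - 1) * (1.1056 * m) = 1.1056 * ((n / ((m : ℝ) + 1) - 1) * m) := by
      ring
    rw [e2] at e1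
    have e3 : 1.1056 * ((n / ((m : ℝ) + 1) - 1) * m) ≤ 1.1056 * ((n : ℝ) / 2) :=
      mul_le_mul_of_nonneg_left hx2 (by norm_num)
    linarith
  have h8 : (28.2 + Real.log n / 2) * (n / ((m : ℝ) + 1) - 1) ≤ (28.2 + Real.log n / 2) * 1 :=
    mul_le_mul_of_nonneg_left hx1 (by positivity)
  have l2 := Real.log_two_gt_d9
  have h9 : (n : ℝ) * (Real.log n - 0.91422 - (31 + Real.log n / 2) / n) ≤ n * ML n := by
    have e : (n : ℝ) * (Real.log n - 0.91422 - (31 + Real.log n / 2) / n) =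
        n * Real.log n - 0.91422 * n - (31 + Real.log n / 2) := by
      field_simp
    rw [e]
    have e5 : 0.69314 * (n : ℝ) ≤ n * Real.log 2 := by
      rw [mul_comm (n : ℝ)]
      apply mul_le_mul_of_nonneg_right _ (by linarith)
      norm_num at l2 ⊢
      linarith
    norm_num at h6 h7 h8 e5 ⊢
    nlinarith
  exact le_of_mul_le_mul_left h9 (by linarith)

theorem Ls_lower_gen (n : ℕ) (hn : 2 ≤ n) :
    Real.log n - 0.91422 - (31 + Real.log n / 2) / n ≤ Ls n :=
  (ML_lower n hn).trans (ML_le_Ls n)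

end Pool.Agent.Lib.MP_bf4c7f
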