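import Mathlib
import Pool.Agent.Lib.MP_bf4c7f_nt3.BlockB

/-!
# The numerical inequality for `x ≥ 2 ^ 60`
-/

set_option autoImplicit false

namespace Pool.Agent.Lib.MP_bf4c7f

/-- the polynomial inequality -/
lemma numPoly (v : ℝ) (hv0 : 0 ≤ v) (hv1 : v ≤ 0.1924) :
    (2 * (4 / 15 * (3 + 1.6095 * v) + 0.75 * v) - 64 / 135) +
      0.8 * (2 * (4 / 15 * (3 + 1.6095 * v) + 0.75 * v) - 32 / 45) * v -
      3.17 * (4 / 15 * (3 + 1.6094 * v) + 0.75 * v) * v ^ 2 + 0.91 * v ^ 3 + 4.26 * v ^ 3 +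
      0.7517 * (2 / 15 * (3 + 1.6095 * v) ^ 2 + 0.75 * (3 + 1.6095 * v) * v) ^ 2 *
        (0.895 - 0.071 * v - 0.345 * v ^ 2) +
      0.0012 * (2 / 15 * (3 + 1.6095 * v) ^ 2 + 0.75 * (3 + 1.6095 * v) * v) ^ 2 + 0.1 <
    4 / 45 * (3 + 1.6094 * v) ^ 3 + 0.55 * (3 + 1.6094 * v) ^ 2 * v +
      0.5 * (3 + 1.6094 * v) * v ^ 2 - 0.3 * v ^ 3 := by
  have h2 : v ^ 2 ≤ 0.03702 := by nlinarith
  have h20 : 0 ≤ v ^ 2 := by positivity
  have h3 : v ^ 3 ≤ 0.00713 := by nlinarith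
  have h30 : 0 ≤ v ^ 3 := by positivity
  have h40 : 0 ≤ v ^ 4 := by positivity
  have h50 : 0 ≤ v ^ 5 := by positivity
  have h60 : 0 ≤ v ^ 6 := by positivity
  nlinarith

lemma TT_log : Real.log (6 / 2) = Real.log 3 ∧ Real.log (6 / 3) = Real.log 2 ∧
    Real.log (6 / 3.5) = 2 * Real.log 2 + Real.log 3 - Real.log 7 ∧
    Real.log (6 / 4) = Real.log 3 - Real.log 2 ∧
    Real.log (6 / 4.5) = 2 * Real.log 2 - Real.log 3 ∧
    Real.log (6 / 5) = Real.log 2 + Real.log 3 - Real.log 5 ∧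
    Real.log (6 / 5.5) = 2 * Real.log 2 + Real.log 3 - Real.log 11 := by
  have h4 : Real.log 4 = 2 * Real.log 2 := by
    rw [show (4 : ℝ) = 2 ^ 2 by norm_num, Real.log_pow]; norm_num
  have h6 : Real.log 6 = Real.log 2 + Real.log 3 := by
    rw [← Real.log_mul (by norm_num) (by norm_num)]; norm_num
  have h12 : Real.log 12 = 2 * Real.log 2 + Real.log 3 := by
    rw [show (12 : ℝ) = 4 * 3 by norm_num, Real.log_mul (by norm_num) (by norm_num), h4]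
  refine ⟨?_, ?_, ?_, ?_, ?_, ?_, ?_⟩
  · norm_num
  · norm_num
  · rw [show (6 : ℝ) / 3.5 = 12 / 7 by norm_num, Real.log_div (by norm_num) (by norm_num), h12]
  · rw [show (6 : ℝ) / 4 = 3 / 2 by norm_num, Real.log_div (by norm_num) (by norm_num)]
  · rw [show (6 : ℝ) / 4.5 = 4 / 3 by norm_num, Real.log_div (by norm_num) (by norm_num), h4]
  · rw [Real.log_div (by norm_num) (by norm_num), h6]
  · rw [show (6 : ℝ) / 5.5 = 12 / 11 by norm_num, Real.log_div (by norm_num) (by norm_num), h12]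

lemma TT_diff (v : ℝ) (hv : 0 ≤ v) :
    TT 2 v - TT 3 v ≤ 0.23889 + 0.12002 * v ∧ TT 3 v - TT 3.5 v ≤ 0.07092 + 0.0343 * v ∧
    TT 3.5 v - TT 4 v ≤ 0.05021 + 0.02572 * v ∧ TT 4 v - TT 4.5 v ≤ 0.03463 + 0.02001 * v ∧
    TT 4.5 v - TT 5 v ≤ 0.02212 + 0.01601 * v ∧ TT 5 v - TT 5.5 v ≤ 0.01212 + 0.0131 * v ∧
    TT 5.5 v ≤ 0.00387 + 0.01092 * v := by
  obtain ⟨l1, l2, l3, l4, l5, l6, l7⟩ := TT_log
  have hl1 := Real.log_two_gt_d9
  have hl2 := Real.log_two_lt_d9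
  obtain ⟨a3, b3⟩ := lg3
  obtain ⟨a5, b5⟩ := lg5
  obtain ⟨a7, b7⟩ := lg7
  obtain ⟨a11, b11⟩ := lg11
  unfold TT
  rw [l1, l2, l3, l4, l5, l6, l7]
  norm_num at hl1 hl2 a3 b3 a5 b5 a7 b7 a11 b11
  refine ⟨?_, ?_, ?_, ?_, ?_, ?_, ?_⟩ <;> norm_num <;> linarith

/-- the linear bound for the reciprocals -/
lemma inv_lin (A B α κ v : ℝ) (hA : 0 < A) (hB : 0 ≤ B) (hv0 : 0 ≤ v) (hv1 : v ≤ 0.1924)
    (h0 : 1 ≤ α * A) (h1 : 1 ≤ (α - κ * 0.1924) * (A + B * 0.1924)) (hκ : 0 ≤ κ) :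
    1 / (A + B * v) ≤ α - κ * v := by
  have h2 : 0 < A + B * v := by positivity
  rw [div_le_iff₀ h2]
  have h3 : (α - κ * v) * (A + B * v) * 0.1924 ^ 2 =
      (0.1924 * (0.1924 - v)) * (α * A) +
      (0.1924 * v) * ((α - κ * 0.1924) * (A + B * 0.1924)) +
      κ * B * v * (0.1924 - v) * 0.1924 ^ 2 := by ring
  have h4 : 0 ≤ 0.1924 - v := by linarith
  have h5 : 0 ≤ κ * B * v * (0.1924 - v) * 0.1924 ^ 2 := by positivity
  have h6 : (0.1924 * (0.1924 - v)) * 1 ≤ (0.1924 * (0.1924 - v)) * (α * A) :=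
    mul_le_mul_of_nonneg_left h0 (by positivity)
  have h7 : (0.1924 * v) * 1 ≤ (0.1924 * v) * ((α - κ * 0.1924) * (A + B * 0.1924)) :=
    mul_le_mul_of_nonneg_left h1 (by positivity)
  nlinarith

lemma gb_term (M D α κ a b : ℝ) (i : ℕ) (A B : ℝ) (hM : 5.198 ≤ M) (hi : i ≤ 6)
    (hg : gb M i = M * (A + B * (1 / M))) (hA : 0 < A) (hB : 0 ≤ B) (hκ : 0 ≤ κ)
    (h0 : 1 ≤ α * A) (h1 : 1 ≤ (α - κ * 0.1924) * (A + B * 0.1924))
    (hD : D ≤ a + b * (1 / M)) (ha : 0 ≤ a) (hb : 0 ≤ b) :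
    M * (1 / gb M i * D) ≤ (α - κ * (1 / M)) * (a + b * (1 / M)) := by
  have hM0 : 0 < M := lt_of_lt_of_le (by norm_num) hM
  have hg0 := gb_pos hM hi
  have hv1 : 1 / M ≤ 0.1924 := by
    rw [div_le_iff₀ hM0]
    norm_num at hM ⊢
    linarith
  have hv0 : 0 ≤ 1 / M := by positivity
  have e1 : M * (1 / gb M i * D) = 1 / (A + B * (1 / M)) * D := by
    rw [hg]
    have : A + B * (1 / M) ≠ 0 := by positivity
    field_simp
  rw [e1]
  have e2 := inv_lin A B α κ (1 / M) hA hB hv0 hv1 h0 h1 hκ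
  have e3 : 0 ≤ 1 / (A + B * (1 / M)) := by positivity
  calc 1 / (A + B * (1 / M)) * D ≤ 1 / (A + B * (1 / M)) * (a + b * (1 / M)) :=
        mul_le_mul_of_nonneg_left hD e3
    _ ≤ _ := mul_le_mul_of_nonneg_right e2 (by positivity)

theorem Q_bound (M : ℝ) (hM : 5.198 ≤ M) :
    M * IB M + 0.6168 * (0.0288 * (TT 2 (1 / M) - TT 3 (1 / M)) + 0.2 * TT 3 (1 / M)) ≤
      0.895 - 0.071 * (1 / M) - 0.345 * (1 / M) ^ 2 := by
  have hM0 : 0 < M := lt_of_lt_of_le (by norm_num) hM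
  have hv0 : 0 ≤ 1 / M := by positivity
  obtain ⟨d0, d1, d2, d3, d4, d5, d6⟩ := TT_diff (1 / M) hv0
  have t0 := gb_term M (TT 2 (1 / M) - TT 3 (1 / M)) 1.875 1.613 0.23889 0.12002 0 (8 / 15) 0.55
    hM (by norm_num) (by unfold gb; field_simp; norm_num; ring) (by norm_num) (by norm_num)
    (by norm_num) (by norm_num) (by norm_num) d0 (by norm_num) (by norm_num)
  have t1 := gb_term M (TT 3 (1 / M) - TT 3.5 (1 / M)) 1.875 1.364 0.07092 0.0343 1 (8 / 15)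
    (677 / 1500) hM (by norm_num) (by unfold gb; field_simp; norm_num; ring) (by norm_num)
    (by norm_num) (by norm_num) (by norm_num) (by norm_num) d1 (by norm_num) (by norm_num)
  have t2 := gb_term M (TT 3.5 (1 / M) - TT 4 (1 / M)) 1.9355 0.669 0.05021 0.02572 2 (31 / 60)
    (359 / 1875) hM (by norm_num) (by unfold gb; field_simp; norm_num; ring) (by norm_num)
    (by norm_num) (by norm_num) (by norm_num) (by norm_num) d2 (by norm_num) (by norm_num)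
  have t3 := gb_term M (TT 4 (1 / M) - TT 4.5 (1 / M)) 2.2223 0.873 0.03463 0.02001 3 (9 / 20)
    (359 / 1875) hM (by norm_num) (by unfold gb; field_simp; norm_num; ring) (by norm_num)
    (by norm_num) (by norm_num) (by norm_num) (by norm_num) d3 (by norm_num) (by norm_num)
  have t4 := gb_term M (TT 4.5 (1 / M) - TT 5 (1 / M)) 2.6087 1.188 0.02212 0.01601 4 (23 / 60)
    (359 / 1875) hM (by norm_num) (by unfold gb; field_simp; norm_num; ring) (by norm_num)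
    (by norm_num) (by norm_num) (by norm_num) (by norm_num) d4 (by norm_num) (by norm_num)
  have t5 := gb_term M (TT 5 (1 / M) - TT 5.5 (1 / M)) 3.1579 1.71 0.01212 0.0131 5 (19 / 60)
    (359 / 1875) hM (by norm_num) (by unfold gb; field_simp; norm_num; ring) (by norm_num)
    (by norm_num) (by norm_num) (by norm_num) (by norm_num) d5 (by norm_num) (by norm_num)
  have t6 := gb_term M (TT 5.5 (1 / M)) 4 2.67 0.00387 0.01092 6 (1 / 4)
    (359 / 1875) hM (by norm_num) (by unfold gb; field_simp; norm_num; ring) (by norm_num)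
    (by norm_num) (by norm_num) (by norm_num) (by norm_num) d6 (by norm_num) (by norm_num)
  have e : M * IB M = M * (1 / gb M 0 * (TT 2 (1 / M) - TT 3 (1 / M))) +
      M * (1 / gb M 1 * (TT 3 (1 / M) - TT 3.5 (1 / M))) +
      M * (1 / gb M 2 * (TT 3.5 (1 / M) - TT 4 (1 / M))) +
      M * (1 / gb M 3 * (TT 4 (1 / M) - TT 4.5 (1 / M))) +
      M * (1 / gb M 4 * (TT 4.5 (1 / M) - TT 5 (1 / M))) +
      M * (1 / gb M 5 * (TT 5 (1 / M) - TT 5.5 (1 / M))) +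
      M * (1 / gb M 6 * TT 5.5 (1 / M)) := by
    unfold IB; ring
  rw [e]
  set v := 1 / M with hv
  have hv2 : 0 ≤ v ^ 2 := by positivity
  nlinarith

/-- the final numerical inequality -/
theorem num_final (M r S P L I E w : ℝ) (hM : 5.198 ≤ M) (hr1 : 3 * M + 1.6094 ≤ r)
    (hr2 : r ≤ 3 * M + 1.6095) (hS : 4 / 45 * r ^ 3 + 0.55 * r ^ 2 + 0.5 * r - 0.3 ≤ S)
    (hL0 : 0 ≤ L) (hL : L ≤ 2 / 15 * r ^ 2 + 0.75 * r)
    (hP : P ≤ (4 / 15 * r + 0.75) * (2 * M) ^ 2 / 2 - 8 / 135 * (2 * M) ^ 3 +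
      0.8 * ((4 / 15 * r + 0.75) * (2 * M) - 8 / 45 * (2 * M) ^ 2) -
      3.17 * (4 / 15 * r + 0.75) + 0.91)
    (hI : I ≤ IB M)
    (hE : M * E ≤ 0.6168 * (0.0288 * (TT 2 (1 / M) - TT 3 (1 / M)) + 0.2 * TT 3 (1 / M)))
    (hw : M * w ≤ 0.0012) :
    P + 4.26 + 0.7517 * L ^ 2 * (I + E) + w * L ^ 2 < S := by
  have hM0 : 0 < M := lt_of_lt_of_le (by norm_num) hM
  set v := 1 / M with hv
  have hv0 : 0 < v := by positivity
  have hv1 : v ≤ 0.1924 := by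
    rw [hv, div_le_iff₀ hM0]
    norm_num at hM ⊢
    linarith
  have hMv : M * v = 1 := by rw [hv]; field_simp
  set ρ := r * v with hρ
  have hρ1 : 3 + 1.6094 * v ≤ ρ := by
    have := mul_le_mul_of_nonneg_right hr1 hv0.le
    rw [hρ]
    nlinarith
  have hρ2 : ρ ≤ 3 + 1.6095 * v := by
    have := mul_le_mul_of_nonneg_right hr2 hv0.le
    rw [hρ]
    nlinarith
  have hρ0 : 0 < ρ := by nlinarith
  have hQ := Q_bound M hM
  rw [← hv] at hQ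
  set Qv := 0.895 - 0.071 * v - 0.345 * v ^ 2 with hQv
  have hQ0 : 0 ≤ Qv := by rw [hQv]; nlinarith
  -- the pieces, scaled
  have kS : 4 / 45 * (3 + 1.6094 * v) ^ 3 + 0.55 * (3 + 1.6094 * v) ^ 2 * v +
      0.5 * (3 + 1.6094 * v) * v ^ 2 - 0.3 * v ^ 3 ≤ S * v ^ 3 := by
    have h1 := mul_le_mul_of_nonneg_right hS (by positivity : 0 ≤ v ^ 3)
    have h2 : (4 / 45 * r ^ 3 + 0.55 * r ^ 2 + 0.5 * r - 0.3) * v ^ 3 =
        4 / 45 * ρ ^ 3 + 0.55 * ρ ^ 2 * v + 0.5 * ρ * v ^ 2 - 0.3 * v ^ 3 := by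
      rw [hρ]; ring
    have h3 : 0 ≤ 3 + 1.6094 * v := by positivity
    have h4 := pow_le_pow_left₀ h3 hρ1 3
    have h5 := pow_le_pow_left₀ h3 hρ1 2
    have h6 := mul_le_mul_of_nonneg_right h5 hv0.le
    have h7 := mul_le_mul_of_nonneg_right hρ1 (by positivity : 0 ≤ v ^ 2)
    linarith
  have kP : P * v ^ 3 ≤ (2 * (4 / 15 * (3 + 1.6095 * v) + 0.75 * v) - 64 / 135) +
      0.8 * (2 * (4 / 15 * (3 + 1.6095 * v) + 0.75 * v) - 32 / 45) * v -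
      3.17 * (4 / 15 * (3 + 1.6094 * v) + 0.75 * v) * v ^ 2 + 0.91 * v ^ 3 := by
    have h1 := mul_le_mul_of_nonneg_right hP (by positivity : 0 ≤ v ^ 3)
    have h2 : ((4 / 15 * r + 0.75) * (2 * M) ^ 2 / 2 - 8 / 135 * (2 * M) ^ 3 +
      0.8 * ((4 / 15 * r + 0.75) * (2 * M) - 8 / 45 * (2 * M) ^ 2) -
      3.17 * (4 / 15 * r + 0.75) + 0.91) * v ^ 3 =
        2 * (4 / 15 * ρ + 0.75 * v) * (M * v) ^ 2 - 64 / 135 * (M * v) ^ 3 +
        0.8 * (2 * (4 / 15 * ρ + 0.75 * v) * (M * v) - 32 / 45 * (M * v) ^ 2) * v -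
        3.17 * (4 / 15 * ρ + 0.75 * v) * v ^ 2 + 0.91 * v ^ 3 := by
      rw [hρ]; ring
    rw [h2, hMv] at h1
    have h3 := mul_le_mul_of_nonneg_right hρ1 (by positivity : 0 ≤ v ^ 2)
    have h4 := mul_le_mul_of_nonneg_right hρ2 hv0.le
    linarith
  set l := 2 / 15 * (3 + 1.6095 * v) ^ 2 + 0.75 * (3 + 1.6095 * v) * v with hl
  have kL : L ^ 2 * v ^ 4 ≤ l ^ 2 := by
    have h1 : L * v ^ 2 ≤ l := by
      have h2 := mul_le_mul_of_nonneg_right hL (by positivity : 0 ≤ v ^ 2)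
      have h3 : (2 / 15 * r ^ 2 + 0.75 * r) * v ^ 2 = 2 / 15 * ρ ^ 2 + 0.75 * ρ * v := by
        rw [hρ]; ring
      have h4 := pow_le_pow_left₀ hρ0.le hρ2 2
      have h5 := mul_le_mul_of_nonneg_right hρ2 hv0.le
      rw [hl]
      linarith
    have h6 : 0 ≤ L * v ^ 2 := by positivity
    calc L ^ 2 * v ^ 4 = (L * v ^ 2) ^ 2 := by ring
      _ ≤ l ^ 2 := pow_le_pow_left₀ h6 h1 2
  have kI : L ^ 2 * (I + E) * v ^ 3 ≤ l ^ 2 * Qv := by
    have h1 : M * (I + E) ≤ Qv := by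
      have := mul_le_mul_of_nonneg_left hI hM0.le
      linarith
    have h2 : L ^ 2 * (I + E) * v ^ 3 = L ^ 2 * v ^ 4 * (M * (I + E)) := by
      have : v ^ 3 = v ^ 3 * (M * v) := by rw [hMv, mul_one]
      rw [this]; ring
    rw [h2]
    calc L ^ 2 * v ^ 4 * (M * (I + E)) ≤ L ^ 2 * v ^ 4 * Qv :=
          mul_le_mul_of_nonneg_left h1 (by positivity)
      _ ≤ l ^ 2 * Qv := mul_le_mul_of_nonneg_right kL hQ0
  have kw : w * L ^ 2 * v ^ 3 ≤ 0.0012 * l ^ 2 := by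
    have h2 : w * L ^ 2 * v ^ 3 = L ^ 2 * v ^ 4 * (M * w) := by
      have : v ^ 3 = v ^ 3 * (M * v) := by rw [hMv, mul_one]
      rw [this]; ring
    rw [h2]
    calc L ^ 2 * v ^ 4 * (M * w) ≤ L ^ 2 * v ^ 4 * 0.0012 :=
          mul_le_mul_of_nonneg_left hw (by positivity)
      _ ≤ l ^ 2 * 0.0012 := mul_le_mul_of_nonneg_right kL (by norm_num)
      _ = 0.0012 * l ^ 2 := by ring
  have hfin := numPoly v hv0.le hv1
  rw [← hl, ← hQv] at hfin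
  have hv3 : 0 < v ^ 3 := by positivity
  have h1 : (P + 4.26 + 0.7517 * L ^ 2 * (I + E) + w * L ^ 2) * v ^ 3 < S * v ^ 3 := by
    have : (P + 4.26 + 0.7517 * L ^ 2 * (I + E) + w * L ^ 2) * v ^ 3 = P * v ^ 3 + 4.26 * v ^ 3 +
        0.7517 * (L ^ 2 * (I + E) * v ^ 3) + w * L ^ 2 * v ^ 3 := by ring
    rw [this]
    linarith
  exact lt_of_mul_lt_mul_right h1 hv3.le

end Pool.Agent.Lib.MP_bf4c7f
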