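import Mathlib
import Pool.Agent.Lib.MP_bf4c7f_nt3.NumB
import Pool.Agent.Lib.MP_bf4c7f_nt3.Mert
import Pool.Agent.Lib.MP_bf4c7f_nt3_h34.SmallSum

/-!
# The range `x ≥ 2 ^ 60`
-/

set_option autoImplicit false

namespace Pool.Agent.Lib.MP_bf4c7f

open Finset

lemma hU_holds (n : ℕ) (hn : 32760 ≤ n) : Ls n ≤ Real.log n - 0.2 := by
  have h := Ls_upper_gen n (by omega)
  have hnR : (32760 : ℝ) ≤ n := by exact_mod_cast hn
  have h1 : 180 ≤ √(n : ℝ) := by
    apply Real.le_sqrt_of_sq_le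
    norm_num
    linarith
  have h2 : 3.36 / √(n : ℝ) ≤ 3.36 / 180 :=
    div_le_div_of_nonneg_left (by norm_num) (by norm_num) h1
  have h3 : Real.log n ≤ (n : ℝ) / 1000 := by
    have h4 : Real.log n = Real.log (2 ^ 15) + Real.log ((n : ℝ) / 2 ^ 15) := by
      rw [← Real.log_mul (by norm_num) (by positivity)]
      congr 1; field_simp
    have h5 : Real.log ((n : ℝ) / 2 ^ 15) ≤ (n : ℝ) / 2 ^ 15 - 1 :=
      Real.log_le_sub_one_of_pos (by positivity)
    have h6 := Real.log_two_lt_d9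
    rw [Real.log_pow] at h4
    push_cast at h4
    rw [h4]
    norm_num at h5 h6 ⊢
    linarith
  have h4 : (2 * Real.log n + 1) / n ≤ 0.0021 := by
    rw [div_le_iff₀ (by linarith)]
    norm_num
    linarith
  norm_num at h h2 h4 ⊢
  linarith

lemma hLo_holds (n : ℕ) (hn : 32760 ≤ n) : Real.log n - 0.92 ≤ Ls n := by
  have h := Ls_lower_gen n (by omega)
  have hnR : (32760 : ℝ) ≤ n := by exact_mod_cast hn
  have h3 : Real.log n ≤ (n : ℝ) / 1000 := by
    have h4 : Real.log n = Real.log (2 ^ 15) + Real.log ((n : ℝ) / 2 ^ 15) := by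
      rw [← Real.log_mul (by norm_num) (by positivity)]
      congr 1; field_simp
    have h5 : Real.log ((n : ℝ) / 2 ^ 15) ≤ (n : ℝ) / 2 ^ 15 - 1 :=
      Real.log_le_sub_one_of_pos (by positivity)
    have h6 := Real.log_two_lt_d9
    rw [Real.log_pow] at h4
    push_cast at h4
    rw [h4]
    norm_num at h5 h6 ⊢
    linarith
  have h4 : (31 + Real.log n / 2) / n ≤ 0.0015 := by
    rw [div_le_iff₀ (by linarith)]
    norm_num
    linarith
  norm_num at h h4 ⊢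
  linarith

lemma exists_root8 (x : ℕ) : ∃ m, m ^ 8 ≤ x ∧ x < (m + 1) ^ 8 := by
  have h : ∃ r, x < (r + 1) ^ 8 := ⟨x, by
    have : x + 1 ≤ (x + 1) ^ 8 := Nat.le_self_pow (by norm_num) _
    omega⟩
  classical
  refine ⟨Nat.find h, ?_, Nat.find_spec h⟩
  rcases Nat.eq_zero_or_pos (Nat.find h) with h0 | h0
  · rw [h0]; simp
  · have h1 := Nat.find_min h (m := Nat.find h - 1) (by omega)
    rw [Nat.sub_add_cancel h0, not_lt] at h1
    exact h1

/-- the sum of the absolute values of the weights -/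
lemma lam_total {m : ℕ} (hm : 181 ≤ m) :
    ∑ d ∈ Icc 1 (m ^ 2 * (5 * m)), |lamY (YR (m ^ 2 * (5 * m))) (m ^ 2 * (5 * m)) d| ≤
      1.5088 * (m : ℝ) ^ 3 := by
  have hmR : (181 : ℝ) ≤ m := by exact_mod_cast hm
  have hM' := log_m_le hm
  have hM := log_m_ge hm
  set R := m ^ 2 * (5 * m) with hR
  have hR3 : (R : ℝ) = 5 * (m : ℝ) ^ 3 := by rw [hR]; push_cast; ring
  have hRge : 7 ≤ R := by
    have h1 : 181 ^ 2 ≤ m ^ 2 := Nat.pow_le_pow_left hm 2
    rw [hR]
    nlinarith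
  have h1 := sum_abs_lamY R (by omega)
  have hc := c0_le R (by omega)
  have hc0 : 0 ≤ c0 R := Finset.sum_nonneg (fun _ _ => by positivity)
  have hlog : Real.log R = Real.log 5 + 3 * Real.log m := by
    rw [hR3, Real.log_mul (by norm_num) (by positivity), Real.log_pow]
    push_cast; ring
  have hG := GG_up R hRge
  have hG0 := GG_nonneg R
  have h5 := lg5.2
  have hl : Real.log R ≤ 0.0953 * m := by
    rw [hlog]
    norm_num at h5 hM' ⊢
    linarith
  have hl0 : 0 ≤ Real.log R := by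
    rw [hlog]
    have := lg5.1
    norm_num at this hM ⊢
    linarith
  have hG2 : GG R ≤ 0.0296 * m := by
    norm_num at hl hG ⊢
    linarith
  have hc2 : c0 R ^ 2 ≤ 1.1315 := by
    calc c0 R ^ 2 ≤ 1.0637 ^ 2 := pow_le_pow_left₀ hc0 hc 2
      _ ≤ 1.1315 := by norm_num
  have h2 : 4 / 15 * c0 R ^ 2 * R ≤ 1.50868 * (m : ℝ) ^ 3 := by
    rw [hR3]
    have : (0 : ℝ) ≤ (m : ℝ) ^ 3 := by positivity
    nlinarith
  have h3 : 14 / 15 * Real.log R * GG R ^ 2 ≤ 0.0001 * (m : ℝ) ^ 3 := by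
    have e1 : GG R ^ 2 ≤ (0.0296 * m) ^ 2 := pow_le_pow_left₀ hG0 hG2 2
    calc 14 / 15 * Real.log R * GG R ^ 2 ≤ 14 / 15 * (0.0953 * m) * (0.0296 * m) ^ 2 := by
          apply mul_le_mul _ e1 (by positivity) (by positivity)
          linarith
      _ = 14 / 15 * 0.0953 * 0.0296 ^ 2 * (m : ℝ) ^ 3 := by ring
      _ ≤ 0.0001 * (m : ℝ) ^ 3 := by
          apply mul_le_mul_of_nonneg_right _ (by positivity)
          norm_num
  linarith

lemma card_P7 {m : ℕ} (hm : 181 ≤ m) :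
    1 + ((P7 (m ^ 2 - 1)).card : ℝ) ≤ (4 * (m : ℝ) ^ 2 + 10) / 15 := by
  have h1 : insert 1 (P7 (m ^ 2 - 1)) ⊆ (Icc 1 (m ^ 2 - 1)).filter (fun n => Nat.Coprime n 30) := by
    intro p hp
    rw [mem_insert, mem_P7] at hp
    rw [mem_filter, mem_Icc]
    rcases hp with rfl | ⟨h1, h2, h3⟩
    · refine ⟨⟨le_rfl, ?_⟩, by norm_num⟩
      have : 181 ^ 2 ≤ m ^ 2 := Nat.pow_le_pow_left hm 2
      norm_num at this
      omega
    · exact ⟨⟨by omega, h3⟩, prime_coprime_30 h1 h2⟩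
  have h2 : (insert 1 (P7 (m ^ 2 - 1))).card = (P7 (m ^ 2 - 1)).card + 1 := by
    apply Finset.card_insert_of_notMem
    rw [mem_P7]
    rintro ⟨h, _⟩
    exact Nat.not_prime_one h
  have h3 := Finset.card_le_card h1
  rw [h2] at h3
  have h4 : (15 : ℝ) * (C30 (m ^ 2 - 1) : ℝ) ≤ 4 * ((m ^ 2 - 1 : ℕ) : ℝ) + 14 := by
    exact_mod_cast (C30_bounds (m ^ 2 - 1)).1
  rw [Nat.cast_sub (Nat.one_le_pow _ _ (by omega))] at h4
  push_cast at h4
  have h5 : ((P7 (m ^ 2 - 1)).card : ℝ) + 1 ≤ (C30 (m ^ 2 - 1) : ℝ) := by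
    unfold C30
    exact_mod_cast h3
  linarith

/-- the condition on the weights at large primes -/
lemma cond_L {m : ℕ} (hm : 181 ≤ m) :
    8 * (((m ^ 2 : ℕ) : ℝ) / (((m ^ 2 : ℕ) : ℝ) - 1) * L1 (5 * m)) ≤ 2 * L1 (m ^ 2 * (5 * m)) := by
  have hmR : (181 : ℝ) ≤ m := by exact_mod_cast hm
  have hM := log_m_ge hm
  set M := Real.log m with hMdef
  have hU := L1_upper (fun R h => GG_up R h) (5 * m) (by omega)
  have hR31 : 31 ≤ m ^ 2 * (5 * m) := by
    have h1 : 181 ^ 2 ≤ m ^ 2 := Nat.pow_le_pow_left hm 2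
    nlinarith
  have hLw := L1_lower (m ^ 2 * (5 * m)) hR31
  have e1 : Real.log ((5 * m : ℕ) : ℝ) = Real.log 5 + M := by
    push_cast
    rw [Real.log_mul (by norm_num) (by positivity)]
  have e2 : Real.log ((m ^ 2 * (5 * m) : ℕ) : ℝ) = 3 * M + Real.log 5 := by
    push_cast
    rw [Real.log_mul (by positivity) (by positivity), Real.log_pow,
      Real.log_mul (by norm_num) (by positivity)]
    push_cast; ring
  rw [e1] at hU
  rw [e2] at hLw
  have h5 := lg5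
  set c := Real.log 5 with hc
  have hz : ((m ^ 2 : ℕ) : ℝ) / (((m ^ 2 : ℕ) : ℝ) - 1) ≤ 1.0001 := by
    push_cast
    have : (181 : ℝ) ^ 2 ≤ (m : ℝ) ^ 2 := pow_le_pow_left₀ (by norm_num) hmR 2
    rw [div_le_iff₀ (by norm_num at this; linarith)]
    norm_num at this ⊢
    linarith
  have hL0 := L1_nonneg (5 * m)
  have h1 : ((m ^ 2 : ℕ) : ℝ) / (((m ^ 2 : ℕ) : ℝ) - 1) * L1 (5 * m) ≤ 1.0001 * L1 (5 * m) :=
    mul_le_mul_of_nonneg_right hz hL0
  obtain ⟨h5a, h5b⟩ := h5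
  have h2 : 8 * (1.0001 * (2 / 15 * (c + M) ^ 2 + 0.75 * (c + M))) ≤
      2 * (2 / 15 * (3 * M + c) ^ 2 + 0.55 * (3 * M + c) + 0.25) := by
    norm_num at hM h5a h5b ⊢
    nlinarith [mul_nonneg (by linarith : (0 : ℝ) ≤ M - 2599 / 500) (by linarith : (0 : ℝ) ≤ M),
      mul_nonneg (by linarith : (0 : ℝ) ≤ 3219 / 2000 - c) (by linarith : (0 : ℝ) ≤ M)]
  linarith

lemma TT_pos (v : ℝ) (hv : 0 ≤ v) : 0 ≤ TT 3 v ∧ 0 ≤ TT 2 v - TT 3 v := by
  obtain ⟨l1, l2, -⟩ := TT_log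
  have hl1 := Real.log_two_gt_d9
  have hl2 := Real.log_two_lt_d9
  obtain ⟨a3, b3⟩ := lg3
  unfold TT
  rw [l1, l2]
  norm_num at hl1 hl2 a3 b3
  constructor <;> norm_num <;> linarith

/-- **Regime B.** -/
theorem regB3 (x a : ℕ) (hx : 2 ^ 60 ≤ x) (ha : a + x ≤ x ^ 2 + x) :
    ∃ n, a < n ∧ n < a + x ∧ n.primeFactorsList.length ≤ 3 := by
  obtain ⟨m, hm1, hm2⟩ := exists_root8 x
  have hm : 181 ≤ m := by
    by_contra hlt
    have h1 : (m + 1) ^ 8 ≤ 181 ^ 8 := Nat.pow_le_pow_left (by omega) 8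
    norm_num at hx h1
    omega
  have hmR : (181 : ℝ) ≤ m := by exact_mod_cast hm
  have hm0 : (0 : ℝ) < m := by linarith
  have hM := log_m_ge hm
  have hM' := log_m_le hm
  have hx1 : 1 ≤ x := le_trans (by norm_num) hx
  set M := Real.log m with hMdef
  have hM0 : 0 < M := lt_of_lt_of_le (by norm_num) hM
  set z := m ^ 2 with hz
  set y := m ^ 6 with hy
  set R := z * (5 * m) with hR
  have hzR : (z : ℝ) = (m : ℝ) ^ 2 := by rw [hz]; push_cast; ring
  have hyR : (y : ℝ) = (m : ℝ) ^ 6 := by rw [hy]; push_cast; ring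
  have hxm : (m : ℝ) ^ 8 ≤ x := by exact_mod_cast hm1
  have hxm2 : (x : ℝ) + 1 ≤ ((m : ℝ) + 1) ^ 8 := by exact_mod_cast hm2
  have hm8 : (181 : ℝ) ^ 8 ≤ (m : ℝ) ^ 8 := pow_le_pow_left₀ (by norm_num) hmR 8
  -- the logarithm of `N`
  have hlogN : Real.log ((x ^ 2 + x : ℕ) : ℝ) ≤ 16 * M + 0.0885 := by
    have h1 : ((x ^ 2 + x : ℕ) : ℝ) ≤ ((m : ℝ) + 1) ^ 16 := by
      push_cast
      have h2 : (x : ℝ) ≤ ((m : ℝ) + 1) ^ 8 := by linarith
      calc (x : ℝ) ^ 2 + x = x * (x + 1) := by ring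
        _ ≤ ((m : ℝ) + 1) ^ 8 * ((m : ℝ) + 1) ^ 8 :=
            mul_le_mul h2 hxm2 (by positivity) (by positivity)
        _ = _ := by ring
    have h2 : (0 : ℝ) < ((x ^ 2 + x : ℕ) : ℝ) := by
      have : 0 < x ^ 2 + x := by positivity
      exact_mod_cast this
    have h3 := Real.log_le_log h2 h1
    rw [Real.log_pow] at h3
    have h4 := log_succ_le m (by omega)
    have h5 : 1 / (m : ℝ) ≤ 1 / 181 := one_div_le_one_div_of_le (by norm_num) hmR
    push_cast at h3 ⊢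
    norm_num at h3 h4 h5 ⊢
    linarith
  have hlogy : Real.log (y : ℝ) = 6 * M := by
    rw [hyR, Real.log_pow]; push_cast; ring
  have hlogR : Real.log (R : ℝ) = 3 * M + Real.log 5 := by
    rw [hR]
    push_cast
    rw [Real.log_mul (by positivity) (by positivity), hzR, Real.log_pow,
      Real.log_mul (by norm_num) (by positivity)]
    push_cast; ring
  have hRge : 7 * m ^ 2 ≤ R := by rw [hR, hz]; nlinarith
  have hR31 : 31 ≤ R := by
    have h1 : 181 ^ 2 ≤ m ^ 2 := Nat.pow_le_pow_left hm 2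
    omega
  have hcast : ((a + (x - 1) : ℕ) : ℝ) - a = (x : ℝ) - 1 := by
    rw [Nat.cast_add, Nat.cast_sub hx1]
    push_cast; ring
  set X : ℝ := (x : ℝ) - 1 with hX
  have hXm : (m : ℝ) ^ 8 ≤ 1.0001 * X := by
    rw [hX]
    norm_num at hm8 ⊢
    linarith
  have hX0 : 0 < X := by
    have : (0 : ℝ) < (m : ℝ) ^ 8 := by positivity
    linarith
  -- the sums
  set I := ∑ p ∈ (Icc z y).filter Nat.Prime, (1 - Real.log p / Real.log y) / (p * GG (Rp m p))
    with hI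
  set ER := ∑ p ∈ (Icc z y).filter Nat.Prime, (1 - Real.log p / Real.log y) *
    ((4 * (Rp m p : ℝ) + 14) / 15) ^ 2 with hER
  have kI : I ≤ IB M := large_sum (fun n h => hU_holds n (by omega)) hLo_holds hm
  have kER := err_large (fun n h => hU_holds n (by omega)) hLo_holds hm
  rw [← hMdef, ← hz, ← hy, ← hER] at kER
  set P := ∑ p ∈ P7 (z - 1), Np R p / p with hP
  have kP := small_sum hU_holds m R hm hRge (by
    rw [hlogR]
    have := lg5.1
    norm_num at this ⊢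
    linarith)
  rw [← hMdef, ← hz, ← hP] at kP
  have kS := S0_lower R hR31
  have kL := L1_upper (fun R h => GG_up R h) R (by omega)
  have kL0 := L1_nonneg R
  have kLam := lam_total hm
  rw [← hz, ← hR] at kLam
  have kLam0 : 0 ≤ ∑ d ∈ Icc 1 R, |lamY (YR R) R d| := Finset.sum_nonneg (fun _ _ => abs_nonneg _)
  have kcard := card_P7 hm
  rw [← hz] at kcard
  set Λ := ∑ d ∈ Icc 1 R, |lamY (YR R) R d| with hΛ
  obtain ⟨T3, T23⟩ := TT_pos (1 / M) (by positivity)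
  obtain ⟨c5a, c5b⟩ := lg5
  have hfin := num_final M (Real.log R) (S0 R) P (L1 R) I (7 * ER / X)
    (15 / 4 * (1 / ((z : ℝ) - 1) + y / X)) hM (by rw [hlogR]; linarith) (by rw [hlogR]; linarith)
    kS kL0 kL kP kI
    (by
      have e1 : M * (7 * ER / X) = 7 * M * ER / X := by ring
      rw [e1, div_le_iff₀ hX0]
      have e2 : 7 * M * ER ≤ 7 * M * (0.0881 * ((m : ℝ) ^ 7 * (TT 2 (1 / M) - TT 3 (1 / M)) +
          (m : ℝ) ^ 8 / (5 * M) * TT 3 (1 / M))) :=
        mul_le_mul_of_nonneg_left kER (by positivity)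
      have e3 : 7 * M * (0.0881 * ((m : ℝ) ^ 7 * (TT 2 (1 / M) - TT 3 (1 / M)) +
          (m : ℝ) ^ 8 / (5 * M) * TT 3 (1 / M))) =
          0.6167 * (M * (m : ℝ) ^ 7 * (TT 2 (1 / M) - TT 3 (1 / M)) +
            0.2 * (m : ℝ) ^ 8 * TT 3 (1 / M)) := by
        field_simp
        ring
      have e4 : M * (m : ℝ) ^ 7 ≤ 0.0288 * (m : ℝ) ^ 8 := by
        calc M * (m : ℝ) ^ 7 ≤ (0.0288 * m) * (m : ℝ) ^ 7 :=
              mul_le_mul_of_nonneg_right hM' (by positivity)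
          _ = _ := by ring
      have e5 := mul_le_mul_of_nonneg_right e4 T23
      have e6 : 0.0288 * (m : ℝ) ^ 8 * (TT 2 (1 / M) - TT 3 (1 / M)) ≤
          0.0288 * (1.0001 * X) * (TT 2 (1 / M) - TT 3 (1 / M)) := by
        apply mul_le_mul_of_nonneg_right _ T23
        exact mul_le_mul_of_nonneg_left hXm (by norm_num)
      have e7 : 0.2 * (m : ℝ) ^ 8 * TT 3 (1 / M) ≤ 0.2 * (1.0001 * X) * TT 3 (1 / M) := by
        apply mul_le_mul_of_nonneg_right _ T3
        exact mul_le_mul_of_nonneg_left hXm (by norm_num)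
      have e8 : 0 ≤ X * (0.0288 * (TT 2 (1 / M) - TT 3 (1 / M)) + 0.2 * TT 3 (1 / M)) := by
        positivity
      nlinarith)
    (by
      have f1 : 1 / ((z : ℝ) - 1) ≤ 1.0001 / (m : ℝ) ^ 2 := by
        have : (181 : ℝ) ^ 2 ≤ (m : ℝ) ^ 2 := pow_le_pow_left₀ (by norm_num) hmR 2
        rw [hzR, div_le_div_iff₀ (by norm_num at this; linarith) (by positivity)]
        norm_num at this ⊢
        linarith
      have f2 : (y : ℝ) / X ≤ 1.0001 / (m : ℝ) ^ 2 := by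
        rw [hyR, div_le_div_iff₀ hX0 (by positivity)]
        calc (m : ℝ) ^ 6 * (m : ℝ) ^ 2 = (m : ℝ) ^ 8 := by ring
          _ ≤ 1.0001 * X := hXm
      have f3 : M * (1 / (m : ℝ) ^ 2) ≤ 0.0288 / 181 := by
        rw [mul_one_div, div_le_div_iff₀ (by positivity) (by norm_num)]
        have : M * 181 ≤ 0.0288 * m * m := by
          have := mul_le_mul hM' hmR (by norm_num) (by positivity)
          linarith
        linarith
      have f4 : M * (15 / 4 * (1 / ((z : ℝ) - 1) + y / X)) ≤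
          M * (15 / 4 * (1.0001 / (m : ℝ) ^ 2 + 1.0001 / (m : ℝ) ^ 2)) := by
        apply mul_le_mul_of_nonneg_left _ hM0.le
        linarith
      have f5 : M * (15 / 4 * (1.0001 / (m : ℝ) ^ 2 + 1.0001 / (m : ℝ) ^ 2)) =
          15 / 4 * 2.0002 * (M * (1 / (m : ℝ) ^ 2)) := by ring
      rw [f5] at f4
      norm_num at f3 f4 ⊢
      linarith)
  have h7z : 7 ≤ z := by
    have : 181 ^ 2 ≤ m ^ 2 := Nat.pow_le_pow_left hm 2
    omega
  have hzy : z ≤ y := Nat.pow_le_pow_right (by omega) (by norm_num)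
  have hNz : x ^ 2 + x ≤ z ^ 9 := by
    have h1 : ((m : ℝ) + 1) ^ 8 ≤ (m : ℝ) ^ 9 := by
      have h2 : (m : ℝ) + 1 ≤ 182 / 181 * m := by linarith
      calc ((m : ℝ) + 1) ^ 8 ≤ (182 / 181 * m) ^ 8 := pow_le_pow_left₀ (by positivity) h2 8
        _ = (182 / 181) ^ 8 * (m : ℝ) ^ 8 := by ring
        _ ≤ m * (m : ℝ) ^ 8 := by
            apply mul_le_mul_of_nonneg_right _ (by positivity)
            refine le_trans ?_ hmR
            norm_num
        _ = (m : ℝ) ^ 9 := by ring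
    have h2 : (m + 1) ^ 8 ≤ m ^ 9 := by exact_mod_cast h1
    have h3 : x + 1 ≤ m ^ 9 := le_trans hm2 h2
    calc x ^ 2 + x = x * (x + 1) := by ring
      _ ≤ m ^ 9 * m ^ 9 := Nat.mul_le_mul (by omega) h3
      _ = z ^ 9 := by rw [hz]; ring
  obtain ⟨n, hn, hn3⟩ := critB a (a + (x - 1)) (x ^ 2 + x) z y (5 * m) (by omega)
    (by
      intro n hn
      rw [mem_Ioc] at hn
      omega) h7z hzy (by omega) (by rw [hz]; nlinarith) hNz (cond_L hm) (Rp m)
    (by
      intro p hp1 hp2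
      have := Rp_ge hm (p := p) (by omega) hp2
      omega)
    (fun p => Rp_lt hm p) 0.7517 (by norm_num)
    (by
      rw [hlogy]
      have h1 : Real.log ((x ^ 2 + x : ℕ) : ℝ) / (6 * M) ≤ 2.6696 := by
        rw [div_le_iff₀ (by positivity)]
        norm_num at hlogN hM ⊢
        linarith
      norm_num at h1 ⊢
      linarith)
    (by
      rw [hcast, ← hR]
      have e1 : ∑ p ∈ P7 (z - 1), (4 / 15 * X * (Np R p / p) + 28 / 15 * Λ ^ 2) =
          4 / 15 * X * P + 28 / 15 * Λ ^ 2 * ((P7 (z - 1)).card : ℝ) := by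
        rw [Finset.sum_add_distrib, ← Finset.mul_sum, Finset.sum_const, nsmul_eq_mul]
        ring
      have e2 : ∑ p ∈ (Icc z y).filter Nat.Prime, (1 - Real.log p / Real.log y) *
          (4 / 15 * X / (p * GG (Rp m p)) + 28 / 15 * ((4 * (Rp m p : ℝ) + 14) / 15) ^ 2) =
          4 / 15 * X * I + 28 / 15 * ER := by
        rw [hI, hER, Finset.mul_sum, Finset.mul_sum, ← Finset.sum_add_distrib]
        apply Finset.sum_congr rfl
        intro p _
        ring
      rw [e1, e2]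
      -- the error of the small primes
      have e3 : 28 / 15 * Λ ^ 2 * (1 + ((P7 (z - 1)).card : ℝ)) ≤ 4 / 15 * X * 4.26 := by
        have g1 : Λ ^ 2 ≤ (1.5088 * (m : ℝ) ^ 3) ^ 2 := pow_le_pow_left₀ kLam0 kLam 2
        have g2 : 28 / 15 * Λ ^ 2 * (1 + ((P7 (z - 1)).card : ℝ)) ≤
            28 / 15 * (1.5088 * (m : ℝ) ^ 3) ^ 2 * ((4 * (m : ℝ) ^ 2 + 10) / 15) := by
          apply mul_le_mul _ kcard (by positivity) (by positivity)
          linarith
        have g3 : 28 / 15 * (1.5088 * (m : ℝ) ^ 3) ^ 2 * ((4 * (m : ℝ) ^ 2 + 10) / 15) =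
            28 / 15 * 1.5088 ^ 2 / 15 * (4 * (m : ℝ) ^ 8 + 10 * (m : ℝ) ^ 6) := by ring
        have g4 : (10 : ℝ) * (m : ℝ) ^ 6 ≤ 0.0004 * (m : ℝ) ^ 8 := by
          have : (181 : ℝ) ^ 2 ≤ (m : ℝ) ^ 2 := pow_le_pow_left₀ (by norm_num) hmR 2
          calc (10 : ℝ) * (m : ℝ) ^ 6 ≤ 0.0004 * (m : ℝ) ^ 2 * (m : ℝ) ^ 6 := by
                apply mul_le_mul_of_nonneg_right _ (by positivity)
                norm_num at this ⊢
                linarith
            _ = _ := by ring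
        have g5 : 28 / 15 * 1.5088 ^ 2 / 15 * (4 * (m : ℝ) ^ 8 + 10 * (m : ℝ) ^ 6) ≤
            28 / 15 * 1.5088 ^ 2 / 15 * (4.0004 * (1.0001 * X)) := by
          apply mul_le_mul_of_nonneg_left _ (by norm_num)
          linarith
        rw [g3] at g2
        refine g2.trans (g5.trans ?_)
        have : 28 / 15 * 1.5088 ^ 2 / 15 * (4.0004 * (1.0001 * X)) =
            (28 / 15 * 1.5088 ^ 2 / 15 * 4.0004 * 1.0001) * X := by ring
        rw [this]
        have : 4 / 15 * X * 4.26 = (4 / 15 * 4.26) * X := by ring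
        rw [this]
        apply mul_le_mul_of_nonneg_right _ hX0.le
        norm_num
      have e4 := mul_lt_mul_of_pos_left hfin (by positivity : 0 < 4 / 15 * X)
      have e5 : 4 / 15 * X * (P + 4.26 + 0.7517 * L1 R ^ 2 * (I + 7 * ER / X) +
          15 / 4 * (1 / ((z : ℝ) - 1) + y / X) * L1 R ^ 2) =
          4 / 15 * X * P + 4 / 15 * X * 4.26 +
            0.7517 * L1 R ^ 2 * (4 / 15 * X * I + 28 / 15 * ER) +
            L1 R ^ 2 * (X / ((z : ℝ) - 1) + y) := by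
        have hz1 : (z : ℝ) - 1 ≠ 0 := by
          have : (7 : ℝ) ≤ z := by exact_mod_cast h7z
          linarith
        field_simp
        ring
      rw [e5] at e4
      linarith)
  rw [mem_Ioc] at hn
  exact ⟨n, hn.1, by omega, hn3⟩

end Pool.Agent.Lib.MP_bf4c7f
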