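import Mathlib
import Pool.Agent.Lib.MP_bf4c7f_nt.Tail
import Pool.Agent.Lib.MP_bf4c7f_nt3.Logs

/-!
# Numerical estimates for sums over the primes up to `1000`
-/

set_option autoImplicit false
set_option exponentiation.threshold 500
open Finset

namespace Pool.Agent.Lib.MP_bf4c7f

/-! ### a sum which the kernel computes quickly -/

/-- evaluates its argument before it goes on -/
noncomputable def forceN (v : ℕ) (f : ℕ → ℕ) : ℕ :=
  Nat.rec (motive := fun _ => ℕ) (f 0) (fun k _ => f (k + 1)) v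

lemma forceN_eq (v : ℕ) (f : ℕ → ℕ) : forceN v f = f v := by
  cases v <;> rfl

/-- one step -/
noncomputable def sumStep (g : ℕ → ℕ) (ih : ℕ → ℕ → ℕ) (n A : ℕ) : ℕ :=
  forceN (Nat.succ n) fun n' => forceN (Nat.add A (g n')) fun A' => ih n' A'

/-- the sum of `g` over `n < m ≤ n + fuel`, plus the second argument -/
noncomputable def sumScan (g : ℕ → ℕ) (fuel : ℕ) : ℕ → ℕ → ℕ :=
  Nat.rec (motive := fun _ => ℕ → ℕ → ℕ) (fun _ A => A) (fun _ ih => sumStep g ih) fuel

lemma sumScan_eq (g : ℕ → ℕ) (fuel : ℕ) : ∀ n A : ℕ, sumScan g fuel n A =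
    A + ∑ m ∈ Ioc n (n + fuel), g m := by
  induction fuel with
  | zero => intro n A; simp [sumScan]
  | succ fuel ih =>
    intro n A
    have h : sumScan g (fuel + 1) n A = sumStep g (sumScan g fuel) n A := rfl
    rw [h]
    unfold sumStep
    rw [forceN_eq, forceN_eq, ih]
    have h2 : Ioc n (n + (fuel + 1)) = insert (n + 1) (Ioc (n + 1) (n + 1 + fuel)) := by
      ext m; simp only [mem_Ioc, mem_insert]; omega
    rw [h2, Finset.sum_insert (by simp)]
    change A + g (n + 1) + ∑ m ∈ Ioc (n + 1) (n + 1 + fuel), g m = _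
    ring

/-- indicator of the integers without prime factors `≤ 31`, times `f` -/
noncomputable def gcdf (f : ℕ → ℕ) (n : ℕ) : ℕ :=
  cond (Nat.beq (Nat.gcd n 200560490130) 1) (f n) 0

/-- one step of the binary search -/
noncomputable def bst (N b k : ℕ) : ℕ := cond (Nat.ble (Nat.pow 2 (Nat.add k b)) N) (Nat.add k b) k

/-- the integer part of the logarithm of `p ^ 400` to base `2`, by a binary search -/
noncomputable def kl (p : ℕ) : ℕ :=
  forceN (Nat.pow p 400) fun N => forceN (bst N 2048 0) fun k => forceN (bst N 1024 k) fun k =>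
  forceN (bst N 512 k) fun k => forceN (bst N 256 k) fun k => forceN (bst N 128 k) fun k =>
  forceN (bst N 64 k) fun k => forceN (bst N 32 k) fun k => forceN (bst N 16 k) fun k =>
  forceN (bst N 8 k) fun k => forceN (bst N 4 k) fun k => forceN (bst N 2 k) fun k => bst N 1 k

lemma bst_le (N b k : ℕ) (h : 2 ^ k ≤ N) : 2 ^ (bst N b k) ≤ N := by
  unfold bst
  cases h2 : Nat.ble (Nat.pow 2 (Nat.add k b)) N
  · exact h
  · rw [Nat.ble_eq] at h2
    exact h2

lemma kl_le (p : ℕ) (hp : 1 ≤ p) : 2 ^ (kl p) ≤ p ^ 400 := by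
  unfold kl
  simp only [forceN_eq]
  have h0 : 2 ^ 0 ≤ Nat.pow p 400 := by
    rw [pow_zero]
    exact Nat.one_le_pow _ _ hp
  exact bst_le _ _ _ (bst_le _ _ _ (bst_le _ _ _ (bst_le _ _ _ (bst_le _ _ _ (bst_le _ _ _
    (bst_le _ _ _ (bst_le _ _ _ (bst_le _ _ _ (bst_le _ _ _ (bst_le _ _ _
    (bst_le _ _ _ h0)))))))))))

lemma kl_le_log (p : ℕ) (hp : 1 ≤ p) : (kl p : ℝ) / 400 * Real.log 2 ≤ Real.log p := by
  have hpR : (0 : ℝ) < p := by exact_mod_cast hp
  have h1 := kl_le p hp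
  have h2 : ((2 : ℝ)) ^ kl p ≤ (p : ℝ) ^ 400 := by exact_mod_cast h1
  have h3 := Real.log_le_log (by positivity) h2
  rw [Real.log_pow, Real.log_pow] at h3
  push_cast at h3
  linarith

/-- the terms of the sum of `1 / (p - 1)` -/
noncomputable def f1 (n : ℕ) : ℕ := Nat.add (Nat.div 1000000000000 (Nat.sub n 1)) 1

/-- the terms of the sum of `log p / (p - 1)` -/
noncomputable def f2 (n : ℕ) : ℕ := Nat.div (Nat.mul (kl n) 1000000000000)
  (Nat.mul 400 (Nat.sub n 1))

lemma prime_coprime_aux (n q : ℕ) (hn : n.Prime) (hq : q.Prime) (h : q < n) : Nat.Coprime n q :=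
  (Nat.coprime_primes hn hq).2 (by omega)

lemma prime_iff_gcd (n : ℕ) (h1 : 31 < n) (h2 : n ≤ 1000) :
    n.Prime ↔ Nat.gcd n 200560490130 = 1 := by
  constructor
  · intro hn
    have e : 200560490130 = 2 * (3 * (5 * (7 * (11 * (13 * (17 * (19 * (23 * (29 * 31))))))))) := by
      norm_num
    rw [e]
    have aux : ∀ q : ℕ, q.Prime → q ≤ 31 → Nat.Coprime n q := fun q hq h =>
      prime_coprime_aux n q hn hq (by omega)
    exact (aux 2 (by norm_num) (by norm_num)).mul_right <|
      (aux 3 (by norm_num) (by norm_num)).mul_right <|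
      (aux 5 (by norm_num) (by norm_num)).mul_right <|
      (aux 7 (by norm_num) (by norm_num)).mul_right <|
      (aux 11 (by norm_num) (by norm_num)).mul_right <|
      (aux 13 (by norm_num) (by norm_num)).mul_right <|
      (aux 17 (by norm_num) (by norm_num)).mul_right <|
      (aux 19 (by norm_num) (by norm_num)).mul_right <|
      (aux 23 (by norm_num) (by norm_num)).mul_right <|
      (aux 29 (by norm_num) (by norm_num)).mul_right (aux 31 (by norm_num) (by norm_num))
  · intro hg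
    by_contra hn
    have h3 : n.minFac ^ 2 ≤ n := Nat.minFac_sq_le_self (by omega) hn
    have h4 : n.minFac ≤ 31 := by
      by_contra h
      have : 32 ≤ n.minFac := by omega
      nlinarith
    have h5 : n.minFac.Prime := Nat.minFac_prime (by omega)
    have h6 : n.minFac ∣ n := Nat.minFac_dvd n
    have h7 : n.minFac ∣ 200560490130 := by
      set q := n.minFac with hq
      clear_value q
      have h8 := h5.two_le
      interval_cases q <;> first | (norm_num; done) | (exact absurd h5 (by norm_num))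
    have h9 := Nat.dvd_gcd h6 h7
    rw [hg] at h9
    have := Nat.le_of_dvd (by norm_num) h9
    have := h5.two_le
    omega

lemma sum_primes_1000 (f : ℕ → ℕ) (a : ℕ) (ha : a ≤ 32) :
    ∑ p ∈ (Icc a 1000).filter Nat.Prime, f p =
      sumScan (gcdf f) 969 31 (∑ p ∈ (Icc a 31).filter Nat.Prime, f p) := by
  have h1 : Icc a 1000 = Icc a 31 ∪ Ioc 31 1000 := by
    ext m; simp only [mem_Icc, mem_union, mem_Ioc]; omega
  have h5 : ∑ p ∈ (Ioc 31 1000).filter Nat.Prime, f p = ∑ m ∈ Ioc 31 1000, gcdf f m := by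
    rw [Finset.sum_filter]
    apply Finset.sum_congr rfl
    intro m hm
    rw [mem_Ioc] at hm
    have h2 := prime_iff_gcd m hm.1 hm.2
    unfold gcdf
    by_cases h3 : Nat.gcd m 200560490130 = 1
    · rw [if_pos (h2.2 h3), h3]
      rfl
    · rw [if_neg (fun h => h3 (h2.1 h))]
      have h4 : Nat.beq (Nat.gcd m 200560490130) 1 = false := by
        cases h5 : Nat.beq (Nat.gcd m 200560490130) 1
        · rfl
        · exact absurd (Nat.eq_of_beq_eq_true h5) h3
      rw [h4]
      rfl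
  have h6 := sumScan_eq (gcdf f) 969 31 (∑ p ∈ (Icc a 31).filter Nat.Prime, f p)
  rw [show 31 + 969 = 1000 by norm_num] at h6
  rw [h6, ← h5, h1, Finset.filter_union, Finset.sum_union]
  apply Finset.disjoint_filter_filter
  rw [Finset.disjoint_left]
  intro m hm hm'
  simp only [mem_Icc, mem_Ioc] at hm hm'
  omega

lemma q1000_1 : ∑ p ∈ (Icc 23 1000).filter Nat.Prime, f1 p ≤ 753060000000 := by
  rw [sum_primes_1000 f1 23 (by norm_num)]
  have h : Nat.ble (sumScan (gcdf f1) 969 31 (∑ p ∈ (Icc 23 31).filter Nat.Prime, f1 p))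
      753060000000 = true := by decide +kernel
  rwa [Nat.ble_eq] at h

lemma q1000_2 : 5193500000000 ≤ ∑ p ∈ (Icc 23 1000).filter Nat.Prime, f2 p := by
  rw [sum_primes_1000 f2 23 (by norm_num)]
  have h : Nat.ble 5193500000000
      (sumScan (gcdf f2) 969 31 (∑ p ∈ (Icc 23 31).filter Nat.Prime, f2 p)) = true := by
    decide +kernel
  rwa [Nat.ble_eq] at h

lemma q1000_3 : 9177700000000 ≤ ∑ p ∈ (Icc 1 1000).filter Nat.Prime, f2 p := by
  rw [sum_primes_1000 f2 1 (by norm_num)]
  have h : Nat.ble 9177700000000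
      (sumScan (gcdf f2) 969 31 (∑ p ∈ (Icc 1 31).filter Nat.Prime, f2 p)) = true := by
    decide +kernel
  rwa [Nat.ble_eq] at h

/-! ### the bounds -/

theorem B1 : ∑ p ∈ (Icc 23 1000).filter Nat.Prime, 1 / ((p : ℝ) - 1) ≤ 0.75306 := by
  have h1 : ∀ p ∈ (Icc 23 1000).filter Nat.Prime, 1 / ((p : ℝ) - 1) ≤
      1 / 10 ^ 12 * ((f1 p : ℕ) : ℝ) := by
    intro p hp
    have hpp := (mem_filter.1 hp).2
    have h3 := nat_div_le 1 (p - 1) (by have := hpp.one_lt; omega)
    rw [pred_cast hpp, Nat.cast_one] at h3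
    have h4 : f1 p = 1 * 10 ^ 12 / (p - 1) + 1 := by
      unfold f1
      norm_num
      rfl
    rw [h4]
    refine h3.trans (le_of_eq ?_)
    push_cast; ring
  refine (Finset.sum_le_sum h1).trans ?_
  rw [← Finset.mul_sum, ← Nat.cast_sum]
  have h2 : ((∑ p ∈ (Icc 23 1000).filter Nat.Prime, f1 p : ℕ) : ℝ) ≤
      753060000000 := by exact_mod_cast q1000_1
  calc 1 / 10 ^ 12 * _ ≤ 1 / 10 ^ 12 * (753060000000 : ℝ) :=
        mul_le_mul_of_nonneg_left h2 (by positivity)
    _ ≤ _ := by norm_num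

lemma term_lower_kl (p : ℕ) (hpp : p.Prime) :
    Real.log 2 / 10 ^ 12 * ((f2 p : ℕ) : ℝ) ≤ Real.log p / ((p : ℝ) - 1) := by
  have hp1 := pred_pos hpp
  have h2 := kl_le_log p hpp.one_le
  have h3 := le_nat_div (kl p) (400 * (p - 1))
    (by have := hpp.one_lt; have : 0 < p - 1 := by omega
        positivity)
  have h4 : ((400 * (p - 1) : ℕ) : ℝ) = 400 * ((p : ℝ) - 1) := by
    rw [Nat.cast_mul, pred_cast hpp]; norm_num
  rw [h4] at h3
  have hl2 : 0 ≤ Real.log 2 := Real.log_nonneg (by norm_num)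
  have h5 : f2 p = kl p * 10 ^ 12 / (400 * (p - 1)) := by
    unfold f2
    norm_num
    rfl
  rw [h5]
  calc Real.log 2 / 10 ^ 12 * ((kl p * 10 ^ 12 / (400 * (p - 1)) : ℕ) : ℝ)
      = Real.log 2 * (((kl p * 10 ^ 12 / (400 * (p - 1)) : ℕ) : ℝ) / 10 ^ 12) := by ring
    _ ≤ Real.log 2 * ((kl p : ℝ) / (400 * ((p : ℝ) - 1))) := mul_le_mul_of_nonneg_left h3 hl2
    _ = ((kl p : ℝ) / 400 * Real.log 2) / ((p : ℝ) - 1) := by field_simp
    _ ≤ _ := by gcongr

theorem B2 : 3.5998 ≤ ∑ p ∈ (Icc 23 1000).filter Nat.Prime, Real.log p / ((p : ℝ) - 1) := by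
  refine le_trans ?_ (Finset.sum_le_sum (fun p hp => term_lower_kl p (mem_filter.1 hp).2))
  rw [← Finset.mul_sum, ← Nat.cast_sum]
  have h2 : (5193500000000 : ℝ) ≤ ((∑ p ∈ (Icc 23 1000).filter Nat.Prime, f2 p : ℕ) : ℝ) := by
    exact_mod_cast q1000_2
  have hl3 := Real.log_two_gt_d9
  have hl2 : 0 ≤ Real.log 2 := Real.log_nonneg (by norm_num)
  calc (3.5998 : ℝ) ≤ Real.log 2 / 10 ^ 12 * 5193500000000 := by norm_num at hl3 ⊢; linarith
    _ ≤ _ := mul_le_mul_of_nonneg_left h2 (by positivity)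

theorem L1000 : 6.3614 ≤ Ls 1000 := by
  unfold Ls
  refine le_trans ?_ (Finset.sum_le_sum (fun p hp => term_lower_kl p (mem_filter.1 hp).2))
  rw [← Finset.mul_sum, ← Nat.cast_sum]
  have h2 : (9177700000000 : ℝ) ≤ ((∑ p ∈ (Icc 1 1000).filter Nat.Prime, f2 p : ℕ) : ℝ) := by
    exact_mod_cast q1000_3
  have hl3 := Real.log_two_gt_d9
  have hl2 : 0 ≤ Real.log 2 := Real.log_nonneg (by norm_num)
  calc (6.3614 : ℝ) ≤ Real.log 2 / 10 ^ 12 * 9177700000000 := by norm_num at hl3 ⊢; linarith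
    _ ≤ _ := mul_le_mul_of_nonneg_left h2 (by positivity)

lemma log1001 : 6.9072 ≤ Real.log 1001 ∧ Real.log 1001 ≤ 6.90895 := by
  have h1 := flog_le_log 1001 (by norm_num)
  have h2 := log_le_flog 1001 (by norm_num)
  have h3 : flog 1001 = 3986 := by decide +kernel
  rw [h3] at h1 h2
  have hl3 := Real.log_two_gt_d9
  have hl4 := Real.log_two_lt_d9
  push_cast at h1 h2
  norm_num at h1 h2 hl3 hl4 ⊢
  constructor <;> linarith

lemma loglog1001 : 1.9313 ≤ Real.log (Real.log 1001) := by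
  have h1 : Real.log (69 / 10) ≤ Real.log (Real.log 1001) := by
    apply Real.log_le_log (by norm_num)
    have := log1001.1
    norm_num at this ⊢
    linarith
  have h2 : Real.log (69 / 10) = Real.log 3 + Real.log 23 - Real.log 2 - Real.log 5 := by
    rw [show (69 : ℝ) / 10 = (3 * 23) / (2 * 5) by norm_num,
      Real.log_div (by norm_num) (by norm_num), Real.log_mul (by norm_num) (by norm_num),
      Real.log_mul (by norm_num) (by norm_num)]
    ring
  rw [h2] at h1
  have h3 := lg3.1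
  have h4 := lg23.1
  have h5 := lg5.2
  have h6 := Real.log_two_lt_d9
  norm_num at h3 h4 h5 h6 ⊢
  linarith

end Pool.Agent.Lib.MP_bf4c7f
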