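import Mathlib
import Pool.Agent.Lib.MP_bf4c7f_nt.RegA
import Pool.Agent.Lib.MP_bf4c7f_nt3.CritJ
import Pool.Agent.Lib.MP_bf4c7f_nt3.Logs

/-!
# The range `169 ≤ x < 2 ^ 26`: integers with at most three prime factors
-/

set_option autoImplicit false
open Finset

namespace Pool.Agent.Lib.MP_bf4c7f

lemma log_seg {Y c u v K M : ℝ} (hc : 0 < c) (hu : 0 < u) (h1 : u ≤ Y) (h2 : Y ≤ v)
    (e1 : u / c + K / u ≤ M) (e2 : v / c + K / v ≤ M) :
    Real.log Y + K / Y ≤ Real.log c - 1 + M := by
  have hY : 0 < Y := by linarith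
  have hv : 0 < v := by linarith
  have h3 : Real.log Y ≤ Real.log c + Y / c - 1 := by
    have := Real.log_le_sub_one_of_pos (show 0 < Y / c by positivity)
    rw [Real.log_div hY.ne' hc.ne'] at this
    linarith
  have h4 : Y / c + K / Y ≤ M := by
    have a1 : u ^ 2 / c + K ≤ M * u := by
      have : (u / c + K / u) * u ≤ M * u := mul_le_mul_of_nonneg_right e1 hu.le
      refine le_trans (le_of_eq ?_) this
      field_simp
    have a2 : v ^ 2 / c + K ≤ M * v := by
      have : (v / c + K / v) * v ≤ M * v := mul_le_mul_of_nonneg_right e2 hv.le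
      refine le_trans (le_of_eq ?_) this
      field_simp
    have a3 : Y ^ 2 / c + K ≤ M * Y := by
      rcases (h1.trans h2).eq_or_lt with h | h
      · have : Y = u := by linarith
        rw [this]
        exact a1
      · have b1 := mul_le_mul_of_nonneg_right a1 (show 0 ≤ v - Y by linarith)
        have b2 := mul_le_mul_of_nonneg_right a2 (show 0 ≤ Y - u by linarith)
        have b3 : 0 ≤ 1 / c * ((v - u) * ((Y - u) * (v - Y))) :=
          mul_nonneg (by positivity) (mul_nonneg (by linarith)
            (mul_nonneg (by linarith) (by linarith)))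
        have b4 : (Y ^ 2 / c + K) * (v - u) + 1 / c * ((v - u) * ((Y - u) * (v - Y))) =
            (u ^ 2 / c + K) * (v - Y) + (v ^ 2 / c + K) * (Y - u) := by
          field_simp
          ring
        have b5 : (Y ^ 2 / c + K) * (v - u) ≤ (M * Y) * (v - u) := by linarith
        exact le_of_mul_le_mul_right b5 (by linarith)
    have : Y / c + K / Y = (Y ^ 2 / c + K) / Y := by field_simp
    rw [this, div_le_iff₀ hY]
    exact a3
  linarith

lemma numA1 (Y : ℝ) (h1 : 5.12 ≤ Y) (h2 : Y ≤ 16) : Real.log Y + 8.41 / Y ≤ 3.32 := by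
  have hl4 := Real.log_two_lt_d9
  obtain ⟨b1, b2⟩ := lg5
  obtain ⟨c1, c2⟩ := lg7
  rcases le_or_gt Y 8 with h | h
  · refine (log_seg (c := 5.12) (M := 2.6668) (by norm_num) (by norm_num) h1 h (by norm_num)
      (by norm_num)).trans ?_
    have : Real.log 5.12 ≤ Real.log 5 + (5.12 / 5 - 1) := by
      have := Real.log_le_sub_one_of_pos (show (0 : ℝ) < 5.12 / 5 by norm_num)
      rw [Real.log_div (by norm_num) (by norm_num)] at this
      linarith
    norm_num at this b2 ⊢
    linarith
  rcases le_or_gt Y 12 with h' | h'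
  · refine (log_seg (c := 8) (M := 2.21) (by norm_num) (by norm_num) h.le h' (by norm_num)
      (by norm_num)).trans ?_
    have : Real.log 8 = 3 * Real.log 2 := by
      rw [show (8 : ℝ) = 2 ^ 3 by norm_num, Real.log_pow]
      push_cast; ring
    rw [this]
    norm_num at hl4 ⊢
    linarith
  · refine (log_seg (c := 14) (M := 1.6689) (by norm_num) (by norm_num) h'.le h2 (by norm_num)
      (by norm_num)).trans ?_
    have : Real.log 14 = Real.log 2 + Real.log 7 := by
      rw [show (14 : ℝ) = 2 * 7 by norm_num, Real.log_mul (by norm_num) (by norm_num)]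
    rw [this]
    norm_num at hl4 c2 ⊢
    linarith

lemma numA2 (Y : ℝ) (h1 : 16 ≤ Y) (h2 : Y ≤ 18.1) : Real.log Y + 8.41 / Y ≤ 3.381 := by
  obtain ⟨b1, b2⟩ := lg17
  refine (log_seg (c := 17) (M := 1.5294) (by norm_num) (by norm_num) h1 h2 (by norm_num)
      (by norm_num)).trans ?_
  norm_num at b2 ⊢
  linarith

theorem regA1 (x a : ℕ) (hx : 169 ≤ x) (hx2 : x < 2 ^ 26) (ha : a + x ≤ x ^ 2 + x) :
    ∃ n, a < n ∧ n < a + x ∧ n.primeFactorsList.length ≤ 3 := by
  have hxR : (169 : ℝ) ≤ x := by exact_mod_cast hx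
  set Y := Real.log x with hY
  have hl3 := Real.log_two_gt_d9
  have hl4 := Real.log_two_lt_d9
  have hY1 : 5.12 ≤ Y := by
    have h1 : Real.log 169 = 2 * Real.log 13 := by
      rw [show (169 : ℝ) = 13 ^ 2 by norm_num, Real.log_pow]
      push_cast; ring
    have h2 : Real.log 169 ≤ Y := Real.log_le_log (by norm_num) (by linarith)
    have h3 := lg13.1
    rw [h1] at h2
    norm_num at h2 h3 ⊢
    linarith
  have hY2 : Y ≤ 18.1 := by
    have h1 : (x : ℝ) ≤ 2 ^ 26 := by exact_mod_cast hx2.le
    have h2 := Real.log_le_log (by linarith) h1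
    rw [Real.log_pow] at h2
    push_cast at h2
    norm_num at h2 hl4 ⊢
    linarith
  have hY0 : 0 < Y := by linarith
  have hlogN := logN_le x (by omega)
  have hNY : Real.log ((x ^ 2 + x : ℕ) : ℝ) / Y ≤ 2 + 1 / (x * Y) := by
    rw [div_le_iff₀ hY0]
    refine hlogN.trans (le_of_eq ?_)
    rw [← hY]
    field_simp
  have hxY : 1 / ((x : ℝ) * Y) ≤ 0.0012 := by
    rw [div_le_iff₀ (by positivity)]
    nlinarith
  have hxY0 : 0 < 1 / ((x : ℝ) * Y) := by positivity
  obtain ⟨n, hn, hn4⟩ := critJ 3 (Ioc a (a + (x - 1))) (x ^ 2 + x)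
    (by
      intro n hn
      rw [mem_Ioc] at hn
      constructor
      · omega
      · omega)
    ind30 (by intro n _; unfold ind30; split_ifs <;> norm_num)
    (by intro n _ h; unfold ind30; rw [if_neg h]) x (by omega)
    (4 / 15 * ((x : ℝ) - 1)) (28 / 15) (by nlinarith) (fun _ => 28 / 15)
    (by intro; norm_num) (fun _ => 1)
    (by intro; norm_num)
    (by
      intro p hp hp7 _ k _
      rw [sum_ind30]
      have h1 := count_mult a (a + (x - 1)) (p ^ k) (by omega) (pow_pos hp.pos k)
        (Nat.Coprime.pow_left k (prime_coprime_30 hp hp7))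
      have h2 := (abs_le.1 h1).2
      have h3 : ((a + (x - 1) : ℕ) : ℝ) - a = (x : ℝ) - 1 := by
        rw [Nat.cast_add, Nat.cast_sub (by omega)]
        push_cast; ring
      rw [h3] at h2
      push_cast at h2 ⊢
      rw [mul_one]
      linarith)
    (by
      have h1 := count_mult a (a + (x - 1)) 1 (by omega) (by norm_num) (by norm_num)
      have h2 := (abs_le.1 h1).1
      have h3 : ((a + (x - 1) : ℕ) : ℝ) - a = (x : ℝ) - 1 := by
        rw [Nat.cast_add, Nat.cast_sub (by omega)]
        push_cast; ring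
      rw [h3] at h2
      have h4 := sum_ind30 (Ioc a (a + (x - 1))) (fun n => 1 ∣ n)
      have h5 : (Ioc a (a + (x - 1))).filter (fun n => 1 ∣ n) = Ioc a (a + (x - 1)) := by
        apply Finset.filter_true_of_mem
        intro n _
        exact one_dvd n
      rw [h5] at h4
      rw [h4]
      push_cast at h2 ⊢
      linarith)
    (by rw [← hY, show ((3 : ℕ) : ℝ) = 3 by norm_num]; linarith)
    (by
      have hmain := mainA x (by omega)
      have herr := errSum_prime x (by omega)
      rw [← hY] at hmain herr ⊢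
      have e1 : ∑ p ∈ P7 x, (1 - Real.log p / Y) * 1 / ((p : ℝ) - 1) =
          ∑ p ∈ P7 x, (1 - Real.log p / Y) / ((p : ℝ) - 1) := by
        apply Finset.sum_congr rfl; intro p _; ring
      have e2 : ∑ p ∈ P7 x, 28 / 15 * ((1 - Real.log p / Y) *
          (Real.log ((x ^ 2 + x : ℕ) : ℝ) / Real.log p)) =
          28 / 15 * ((Real.log ((x ^ 2 + x : ℕ) : ℝ) / Y) * ∑ p ∈ P7 x, (Y / Real.log p - 1)) := by
        rw [Finset.mul_sum, Finset.mul_sum]
        apply Finset.sum_congr rfl
        intro p hp
        rw [mem_P7] at hp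
        have hlp : Real.log p ≠ 0 := (Real.log_pos (by exact_mod_cast hp.1.one_lt)).ne'
        field_simp
      rw [e1, e2]
      set S := ∑ p ∈ P7 x, (1 - Real.log p / Y) / ((p : ℝ) - 1) with hS
      set S2 := ∑ p ∈ P7 x, (Y / Real.log p - 1) with hS2
      set ν := Real.log ((x ^ 2 + x : ℕ) : ℝ) / Y with hν
      have hν0 : 0 ≤ ν := by
        apply div_nonneg _ hY0.le
        apply Real.log_nonneg
        have : 1 ≤ x ^ 2 + x := by nlinarith
        exact_mod_cast this
      set t := 1 / Y with ht
      have ht0 : 0 < t := by positivity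
      have f1 : ν * S2 ≤ (2 + 0.0012) * (8 / 15 * x * t) := by
        have g1 : ν * S2 ≤ ν * (8 / 15 * x * t) := by
          apply mul_le_mul_of_nonneg_left _ hν0
          refine herr.trans (le_of_eq ?_)
          rw [ht]; ring
        have g2 : ν * (8 / 15 * x * t) ≤ (2 + 0.0012) * (8 / 15 * x * t) := by
          apply mul_le_mul_of_nonneg_right (by linarith) (by positivity)
        linarith
      have f2 : S ≤ Real.log Y - 1.435 + 0.923 * t := by
        refine hmain.trans (le_of_eq ?_)
        rw [ht]; ring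
      have f6 : ((3 : ℕ) + 1 - ν) * (4 / 15 * ((x : ℝ) - 1) - 28 / 15) ≥
          (2 - 0.0012) * (4 / 15 * ((x : ℝ) - 1) - 28 / 15) := by
        apply mul_le_mul_of_nonneg_right _ (by linarith)
        push_cast
        linarith
      have f7 : t ≤ 0.1954 := by
        rw [ht, div_le_iff₀ hY0]
        norm_num at hY1 ⊢
        linarith
      have f8 : 0 ≤ ((x : ℝ) - 169) * t := mul_nonneg (by linarith) ht0.le
      rcases le_or_gt Y 16 with hc | hc
      · have f3 : Real.log Y + 8.41 * t ≤ 3.32 := by
          refine le_trans (le_of_eq ?_) (numA1 Y hY1 hc)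
          rw [ht]; ring
        have f4 : S ≤ 1.885 - 7.487 * t := by linarith
        have f5 : 4 / 15 * ((x : ℝ) - 1) * S ≤ 4 / 15 * ((x : ℝ) - 1) * (1.885 - 7.487 * t) :=
          mul_le_mul_of_nonneg_left f4 (by nlinarith)
        nlinarith
      · have hx3 : (300 : ℝ) ≤ x := by
          by_contra hlt
          have hlt' : (x : ℝ) ≤ 2 ^ 9 := by linarith [not_le.1 hlt]
          have g1 := Real.log_le_log (by linarith) hlt'
          rw [Real.log_pow] at g1
          push_cast at g1
          norm_num at g1 hl4 hc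
          linarith
        have f3 : Real.log Y + 8.41 * t ≤ 3.381 := by
          refine le_trans (le_of_eq ?_) (numA2 Y hc.le hY2)
          rw [ht]; ring
        have f4 : S ≤ 1.946 - 7.487 * t := by linarith
        have f5 : 4 / 15 * ((x : ℝ) - 1) * S ≤ 4 / 15 * ((x : ℝ) - 1) * (1.946 - 7.487 * t) :=
          mul_le_mul_of_nonneg_left f4 (by nlinarith)
        nlinarith)
  rw [mem_Ioc] at hn
  exact ⟨n, hn.1, by omega, hn4⟩

end Pool.Agent.Lib.MP_bf4c7f
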