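import Mathlib
import Pool.Agent.Lib.MP_bf4c7f_nt3.RegA1
import Pool.Agent.Lib.MP_bf4c7f_nt3.Num1000
import Pool.Agent.Lib.MP_bf4c7f_nt3.Count13

/-!
# The range `2 ^ 26 ≤ x < 2 ^ 64`: integers with at most three prime factors
-/

set_option autoImplicit false
open Finset

namespace Pool.Agent.Lib.MP_bf4c7f

/-- The main sum. -/
theorem mainA2 (hM : ∀ n : ℕ, 1000 ≤ n → Ls n ≤ Real.log n - 0.05) (y : ℕ) (hy : 1001 ≤ y) :
    ∑ p ∈ (Icc 23 y).filter Nat.Prime, (1 - Real.log p / Real.log y) / ((p : ℝ) - 1) ≤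
      Real.log (Real.log y) - 2.1062 + 2.8116 / Real.log y := by
  have hsplit : (Icc 23 y).filter Nat.Prime =
      (Icc 23 1000).filter Nat.Prime ∪ (Ioc 1000 y).filter Nat.Prime := by
    ext p
    simp only [mem_union, mem_filter, mem_Icc, mem_Ioc]
    constructor
    · rintro ⟨⟨h1, h2⟩, h3⟩
      rcases le_or_gt p 1000 with h | h
      · exact Or.inl ⟨⟨h1, h⟩, h3⟩
      · exact Or.inr ⟨⟨h, h2⟩, h3⟩
    · rintro (⟨⟨h1, h2⟩, h3⟩ | ⟨⟨h1, h2⟩, h3⟩)
      · exact ⟨⟨h1, by omega⟩, h3⟩
      · exact ⟨⟨by omega, h2⟩, h3⟩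
  have hdisj : Disjoint ((Icc 23 1000).filter Nat.Prime) ((Ioc 1000 y).filter Nat.Prime) := by
    rw [Finset.disjoint_left]
    intro m hm hm'
    simp only [mem_filter, mem_Icc, mem_Ioc] at hm hm'
    omega
  rw [hsplit, Finset.sum_union hdisj]
  have hyR : (1001 : ℝ) ≤ y := by exact_mod_cast hy
  have hY : 6.9072 ≤ Real.log y := log1001.1.trans (Real.log_le_log (by norm_num) hyR)
  have hY0 : 0 < Real.log y := by linarith
  have h1 : ∑ p ∈ (Icc 23 1000).filter Nat.Prime, (1 - Real.log p / Real.log y) / ((p : ℝ) - 1) =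
      ∑ p ∈ (Icc 23 1000).filter Nat.Prime, 1 / ((p : ℝ) - 1) -
      (1 / Real.log y) * ∑ p ∈ (Icc 23 1000).filter Nat.Prime, Real.log p / ((p : ℝ) - 1) := by
    rw [Finset.mul_sum, ← Finset.sum_sub_distrib]
    apply Finset.sum_congr rfl
    intro p _
    ring
  have h2 := tail_main 1000 y (by norm_num) (by omega) (-0.05)
    (fun n h _ => by have := hM n h.le; linarith)
  have h3 := B1
  have h4 := B2
  have h5 := L1000
  obtain ⟨a1, a2⟩ := log1001
  have h6 := loglog1001
  have h7 : 0 < 1 / Real.log y := by positivity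
  have h8 : (1 : ℝ) / 6.90895 ≤ 1 / Real.log 1001 :=
    one_div_le_one_div_of_le (by linarith) a2
  have h9 : 1 / Real.log y ≤ 1 / Real.log 1001 :=
    one_div_le_one_div_of_le (by linarith) (Real.log_le_log (by norm_num) hyR)
  push_cast at h2
  rw [show (1000 : ℝ) + 1 = 1001 by norm_num] at h2
  rw [h1]
  set S1 := ∑ p ∈ (Icc 23 1000).filter Nat.Prime, 1 / ((p : ℝ) - 1) with hS1
  set S2 := ∑ p ∈ (Icc 23 1000).filter Nat.Prime, Real.log p / ((p : ℝ) - 1) with hS2
  set t := 1 / Real.log y with ht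
  set r := 1 / Real.log 1001 with hr
  have h10 : t * 3.5998 ≤ t * S2 := mul_le_mul_of_nonneg_left h4 h7.le
  have h11 : (-0.05 - Ls 1000) * (r - t) ≤ (-0.05 - 6.3614) * (r - t) :=
    mul_le_mul_of_nonneg_right (by linarith) (by linarith)
  have h12 : (2.8116 : ℝ) / Real.log y = 2.8116 * t := by rw [ht]; ring
  rw [h12]
  norm_num at h2 h3 h8 h6 h10 h11 ⊢
  linarith

/-- the primes from `7` to `19` -/
def S5 : Finset ℕ := {7, 11, 13, 17, 19}

lemma S5_prime : ∀ q ∈ S5, q.Prime ∧ 7 ≤ q := by decide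

lemma S5_card : S5.card = 5 := by decide

lemma mem_S5 {p : ℕ} (hp : p.Prime) (h7 : 7 ≤ p) : p ∈ S5 ↔ p < 23 := by
  constructor
  · intro h
    simp only [S5, mem_insert, mem_singleton] at h
    omega
  · intro h
    interval_cases p <;> first | decide | exact absurd hp (by norm_num)

lemma S5_prod : ∏ q ∈ S5, (1 - 1 / (q : ℝ)) = 6 / 7 * (10 / 11) * (12 / 13) * (16 / 17) *
    (18 / 19) := by
  unfold S5
  rw [Finset.prod_insert (by decide), Finset.prod_insert (by decide),
    Finset.prod_insert (by decide), Finset.prod_insert (by decide), Finset.prod_singleton]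
  norm_num

/-- the indicator function of the integers free of prime factors `< 23` -/
noncomputable def indS (n : ℕ) : ℝ := if Nat.Coprime n 30 ∧ (∀ q ∈ S5, ¬ q ∣ n) then 1 else 0

lemma sum_indS (I : Finset ℕ) (P : ℕ → Prop) [DecidablePred P] :
    ∑ n ∈ I.filter P, indS n =
      ((I.filter (fun n => Nat.Coprime n 30 ∧ (∀ q ∈ S5, ¬ q ∣ n) ∧ P n)).card : ℝ) := by
  unfold indS
  rw [← Finset.sum_filter, Finset.filter_filter, Finset.sum_const, nsmul_eq_mul, mul_one]
  congr 2
  ext n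
  simp only [mem_filter]
  tauto

lemma numA3 (Y : ℝ) (h1 : 11.78 ≤ Y) (h2 : Y ≤ 38.2) : Real.log Y + 16.41 / Y ≤ 4.08 := by
  have hl4 := Real.log_two_lt_d9
  rcases le_or_gt Y 22 with h | h
  · refine (log_seg (c := 16) (M := 2.1294) (by norm_num) (by norm_num) h1 h (by norm_num)
      (by norm_num)).trans ?_
    have : Real.log 16 = 4 * Real.log 2 := by
      rw [show (16 : ℝ) = 2 ^ 4 by norm_num, Real.log_pow]
      push_cast; ring
    rw [this]
    norm_num at hl4 ⊢
    linarith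
  rcases le_or_gt Y 32 with h' | h'
  · refine (log_seg (c := 27) (M := 1.6981) (by norm_num) (by norm_num) h.le h' (by norm_num)
      (by norm_num)).trans ?_
    have : Real.log 27 = 3 * Real.log 3 := by
      rw [show (27 : ℝ) = 3 ^ 3 by norm_num, Real.log_pow]
      push_cast; ring
    rw [this]
    have := lg3.2
    norm_num at this ⊢
    linarith
  · refine (log_seg (c := 35) (M := 1.5211) (by norm_num) (by norm_num) h'.le h2 (by norm_num)
      (by norm_num)).trans ?_
    have : Real.log 35 = Real.log 5 + Real.log 7 := by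
      rw [show (35 : ℝ) = 5 * 7 by norm_num, Real.log_mul (by norm_num) (by norm_num)]
    rw [this]
    have h5 := lg5.2
    have h7 := lg7.2
    norm_num at h5 h7 ⊢
    linarith

/-- the density of the integers free of prime factors `< 23` -/
noncomputable def rho19 : ℝ := 829440 / 4849845

lemma rho19_eq : 4 / 15 * ∏ q ∈ S5, (1 - 1 / (q : ℝ)) = rho19 := by
  rw [S5_prod]
  unfold rho19
  norm_num

lemma P7_split (y : ℕ) (f : ℕ → ℝ) :
    ∑ p ∈ P7 y, f p * (if p ∈ S5 then 0 else 1) = ∑ p ∈ (Icc 23 y).filter Nat.Prime, f p := by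
  have h1 : (Icc 23 y).filter Nat.Prime = (P7 y).filter (fun p => ¬ p ∈ S5) := by
    ext p
    rw [mem_filter, mem_filter, mem_Icc, mem_P7]
    constructor
    · rintro ⟨⟨h1, h2⟩, h3⟩
      refine ⟨⟨h3, by omega, h2⟩, ?_⟩
      rw [mem_S5 h3 (by omega)]
      omega
    · rintro ⟨⟨h1, h2, h3⟩, h4⟩
      rw [mem_S5 h1 h2] at h4
      exact ⟨⟨by omega, h3⟩, h1⟩
  rw [h1, Finset.sum_filter]
  apply Finset.sum_congr rfl
  intro p _
  by_cases h : p ∈ S5
  · simp [h]
  · simp [h]

lemma arithA2 (x t T ν S2 : ℝ) (hx : 67108864 ≤ x) (ht0 : 0 < t) (ht1 : t ≤ 0.0849)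
    (f1 : T ≤ 1.9738 - 13.5984 * t) (f2 : ν * S2 ≤ 3.0594 * (8 / 15 * (x / 512) * t))
    (hν : ν ≤ 2 + 12.4767 * t) :
    829440 / 4849845 * (x - 1) * T + 28 / 15 * 32 * (ν * S2) <
      (3 + 1 - ν) * (829440 / 4849845 * (x - 1) - 28 / 15 * 32) := by
  have f3 : 829440 / 4849845 * (x - 1) * T ≤ 829440 / 4849845 * (x - 1) * (1.9738 - 13.5984 * t) :=
    mul_le_mul_of_nonneg_left f1 (by linarith)
  have f4 : (2 - 12.4767 * t) * (829440 / 4849845 * (x - 1) - 28 / 15 * 32) ≤
      (3 + 1 - ν) * (829440 / 4849845 * (x - 1) - 28 / 15 * 32) := by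
    apply mul_le_mul_of_nonneg_right _ (by linarith)
    linarith
  have f5 : 0 ≤ (x - 1) * t := mul_nonneg (by linarith) ht0.le
  obtain ⟨P, hP⟩ : ∃ P, P = (x - 1) * t := ⟨_, rfl⟩
  have f6 : x * t = P + t := by rw [hP]; ring
  have f7 : 829440 / 4849845 * (x - 1) * (1.9738 - 13.5984 * t) =
      829440 / 4849845 * (1.9738 * (x - 1) - 13.5984 * P) := by rw [hP]; ring
  have f8 : (2 - 12.4767 * t) * (829440 / 4849845 * (x - 1) - 28 / 15 * 32) =
      829440 / 4849845 * (2 * (x - 1) - 12.4767 * P) - 28 / 15 * 32 * (2 - 12.4767 * t) := by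
    rw [hP]; ring
  have f9 : 3.0594 * (8 / 15 * (x / 512) * t) = 3.0594 * (8 / 15) / 512 * (P + t) := by
    rw [← f6]; ring
  rw [f7] at f3
  rw [f8] at f4
  rw [f9] at f2
  rw [← hP] at f5
  norm_num at f2 f3 f4 ht1 ⊢
  linarith

theorem regA2 (hM : ∀ n : ℕ, 1000 ≤ n → Ls n ≤ Real.log n - 0.05) (x a : ℕ) (hx : 2 ^ 26 ≤ x)
    (hx2 : x < 2 ^ 64) (ha : a + x ≤ x ^ 2 + x) :
    ∃ n, a < n ∧ n < a + x ∧ n.primeFactorsList.length ≤ 3 := by
  have hxR : (67108864 : ℝ) ≤ x := by
    have : 67108864 ≤ x := by norm_num at hx; exact hx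
    exact_mod_cast this
  obtain ⟨y, hy⟩ : ∃ y, y = x / 512 := ⟨_, rfl⟩
  have hy1 : 131072 ≤ y := by omega
  have hy2 : 512 * y ≤ x := by omega
  have hy3 : x ≤ 512 * (y + 1) := by omega
  have hy4 : y ≤ 2 ^ 55 := by norm_num at hx2 ⊢; omega
  have hy1R : (131072 : ℝ) ≤ y := by exact_mod_cast hy1
  have hy2R : 512 * (y : ℝ) ≤ x := by exact_mod_cast hy2
  have hy3R : (x : ℝ) ≤ 512 * ((y : ℝ) + 1) := by exact_mod_cast hy3
  have hy4R : (y : ℝ) ≤ 2 ^ 55 := by exact_mod_cast hy4
  set ℓ := Real.log y with hℓ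
  have hl3 := Real.log_two_gt_d9
  have hl4 := Real.log_two_lt_d9
  have hY1 : 11.78 ≤ ℓ := by
    have h1 : Real.log ((2 : ℝ) ^ 17) ≤ ℓ := Real.log_le_log (by norm_num) (by linarith)
    rw [Real.log_pow] at h1
    push_cast at h1
    norm_num at h1 hl3 ⊢
    linarith
  have hY2 : ℓ ≤ 38.2 := by
    have h2 := Real.log_le_log (by linarith) hy4R
    rw [Real.log_pow] at h2
    push_cast at h2
    norm_num at h2 hl4 ⊢
    linarith
  have hY0 : 0 < ℓ := by linarith
  have hlogN := logN_le x (by omega)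
  have hlogx : Real.log x ≤ 9 * Real.log 2 + ℓ + 1 / (y : ℝ) := by
    have h1 : Real.log x ≤ Real.log (2 ^ 9 * ((y : ℝ) + 1)) :=
      Real.log_le_log (by linarith) (by norm_num; exact hy3R)
    rw [Real.log_mul (by norm_num) (by positivity), Real.log_pow] at h1
    have h2 := log_succ_le y (by omega)
    push_cast at h1
    rw [← hℓ] at h2
    linarith
  have hy5 : 1 / (y : ℝ) ≤ 1 / 131072 := one_div_le_one_div_of_le (by norm_num) hy1R
  have hx5 : 1 / (x : ℝ) ≤ 1 / 67108864 := one_div_le_one_div_of_le (by norm_num) hxR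
  have hlN : Real.log ((x ^ 2 + x : ℕ) : ℝ) ≤ 2 * ℓ + 12.4767 := by
    norm_num at hy5 hx5 hlogN hlogx hl4 ⊢
    linarith
  obtain ⟨LN, hLN⟩ : ∃ L, L = Real.log ((x ^ 2 + x : ℕ) : ℝ) := ⟨_, rfl⟩
  rw [← hLN] at hlN
  have hLN0 : 0 ≤ LN := by
    rw [hLN]
    apply Real.log_nonneg
    have : 1 ≤ x ^ 2 + x := by nlinarith
    exact_mod_cast this
  set t := 1 / ℓ with ht
  have ht0 : 0 < t := by positivity
  have ht1 : t ≤ 0.0849 := by
    rw [ht, div_le_iff₀ hY0]
    norm_num at hY1 ⊢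
    linarith
  have hν : LN / ℓ ≤ 2 + 12.4767 * t := by
    rw [ht, div_le_iff₀ hY0]
    refine hlN.trans (le_of_eq ?_)
    field_simp
  have hν0 : 0 ≤ LN / ℓ := div_nonneg hLN0 hY0.le
  have hrho : rho19 = 829440 / 4849845 := rfl
  have h3 : ((a + (x - 1) : ℕ) : ℝ) - a = (x : ℝ) - 1 := by
    rw [Nat.cast_add, Nat.cast_sub (by omega)]
    push_cast; ring
  obtain ⟨n, hn, hn4⟩ := critJ 3 (Ioc a (a + (x - 1))) (x ^ 2 + x)
    (by
      intro n hn
      rw [mem_Ioc] at hn
      constructor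
      · omega
      · omega)
    indS (by intro n _; unfold indS; split_ifs <;> norm_num)
    (by
      intro n _ h
      unfold indS
      rw [if_neg (fun h' => h h'.1)]) y (by omega)
    (rho19 * ((x : ℝ) - 1)) (28 / 15 * 32) (by rw [hrho]; nlinarith)
    (fun p => if p ∈ S5 then 0 else 28 / 15 * 32)
    (by intro p; split_ifs <;> norm_num) (fun p => if p ∈ S5 then 0 else 1)
    (by intro p; split_ifs <;> norm_num)
    (by
      intro p hp hp7 _ k hk
      by_cases hpS : p ∈ S5
      · rw [if_pos hpS, if_pos hpS]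
        have : ∑ n ∈ (Ioc a (a + (x - 1))).filter (fun n => p ^ k ∣ n), indS n = 0 := by
          apply Finset.sum_eq_zero
          intro n hn
          rw [mem_filter] at hn
          unfold indS
          rw [if_neg]
          rintro ⟨_, h⟩
          exact h p hpS ((dvd_pow_self p (by omega)).trans hn.2)
        rw [this]
        simp
      · rw [if_neg hpS, if_neg hpS, sum_indS]
        have h1 := count_sieved S5 S5_prime a (a + (x - 1)) (p ^ k) (by omega) (pow_pos hp.pos k)
          (Nat.Coprime.pow_left k (prime_coprime_30 hp hp7))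
          (by
            intro q hq
            apply Nat.Coprime.pow_left k
            rw [Nat.coprime_primes hp (S5_prime q hq).1]
            rintro rfl
            exact hpS hq)
        have h2 := (abs_le.1 h1).2
        rw [h3, rho19_eq, S5_card] at h2
        push_cast at h2 ⊢
        rw [mul_one]
        norm_num at h2 ⊢
        linarith)
    (by
      have h1 := count_sieved S5 S5_prime a (a + (x - 1)) 1 (by omega) (by norm_num) (by norm_num)
        (by intro q _; exact Nat.coprime_one_left q)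
      have h2 := (abs_le.1 h1).1
      rw [h3, rho19_eq, S5_card] at h2
      have h4 := sum_indS (Ioc a (a + (x - 1))) (fun n => 1 ∣ n)
      have h5 : (Ioc a (a + (x - 1))).filter (fun n => 1 ∣ n) = Ioc a (a + (x - 1)) := by
        apply Finset.filter_true_of_mem
        intro n _
        exact one_dvd n
      rw [h5] at h4
      rw [h4]
      push_cast at h2 ⊢
      rw [div_one] at h2
      norm_num at h2 ⊢
      linarith)
    (by rw [← hLN, ← hℓ, show ((3 : ℕ) : ℝ) = 3 by norm_num]; linarith)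
    (by
      rw [← hLN, ← hℓ]
      have hmain := mainA2 hM y (by omega)
      have herr := errSum_prime y (by omega)
      rw [← hℓ] at hmain herr
      have e1 : ∑ p ∈ P7 y, (1 - Real.log p / ℓ) * (fun p => if p ∈ S5 then (0 : ℝ) else 1) p /
          ((p : ℝ) - 1) =
          ∑ p ∈ (Icc 23 y).filter Nat.Prime, (1 - Real.log p / ℓ) / ((p : ℝ) - 1) := by
        rw [← P7_split y]
        apply Finset.sum_congr rfl; intro p _; beta_reduce; ring
      have e2 : ∑ p ∈ P7 y, (fun p => if p ∈ S5 then (0 : ℝ) else 28 / 15 * 32) p *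
          ((1 - Real.log p / ℓ) * (LN / Real.log p)) ≤
          28 / 15 * 32 * ((LN / ℓ) * ∑ p ∈ P7 y, (ℓ / Real.log p - 1)) := by
        rw [Finset.mul_sum, Finset.mul_sum]
        apply Finset.sum_le_sum
        intro p hp
        rw [mem_P7] at hp
        have hlp : 0 < Real.log p := Real.log_pos (by exact_mod_cast hp.1.one_lt)
        have hlp2 : Real.log p ≤ ℓ :=
          Real.log_le_log (by exact_mod_cast hp.1.pos) (by exact_mod_cast hp.2.2)
        have g1 : (1 - Real.log p / ℓ) * (LN / Real.log p) = (LN / ℓ) * (ℓ / Real.log p - 1) := by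
          field_simp
        have g2 : 0 ≤ (LN / ℓ) * (ℓ / Real.log p - 1) := by
          apply mul_nonneg hν0
          have : 1 ≤ ℓ / Real.log p := by rw [le_div_iff₀ hlp]; linarith
          linarith
        rw [g1]
        beta_reduce
        split_ifs
        · rw [zero_mul]
          positivity
        · exact le_refl _
      rw [e1]
      set T := ∑ p ∈ (Icc 23 y).filter Nat.Prime, (1 - Real.log p / ℓ) / ((p : ℝ) - 1) with hT
      set S2 := ∑ p ∈ P7 y, (ℓ / Real.log p - 1) with hS2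
      have f0 := numA3 ℓ hY1 hY2
      have f0' : (16.41 : ℝ) / ℓ = 16.41 * t := by rw [ht]; ring
      have f0'' : (2.8116 : ℝ) / ℓ = 2.8116 * t := by rw [ht]; ring
      rw [f0'] at f0
      rw [f0''] at hmain
      have f1 : T ≤ 1.9738 - 13.5984 * t := by
        norm_num at f0 hmain ⊢
        linarith
      have f2 : (LN / ℓ) * S2 ≤ 3.0594 * (8 / 15 * (x / 512) * t) := by
        have g1 : (LN / ℓ) * S2 ≤ (LN / ℓ) * (8 / 15 * (x / 512) * t) := by
          apply mul_le_mul_of_nonneg_left _ hν0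
          refine herr.trans ?_
          rw [ht, mul_one_div]
          apply div_le_div_of_nonneg_right _ hY0.le
          linarith
        have g2 : (LN / ℓ) * (8 / 15 * (x / 512) * t) ≤ 3.0594 * (8 / 15 * (x / 512) * t) := by
          apply mul_le_mul_of_nonneg_right _ (by positivity)
          norm_num at ht1 hν ⊢
          linarith
        linarith
      have f3 := arithA2 x t T (LN / ℓ) S2 hxR ht0 ht1 f1 f2 hν
      rw [hrho]
      refine lt_of_le_of_lt (add_le_add le_rfl e2) ?_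
      rw [show ((3 : ℕ) : ℝ) = 3 by norm_num]
      exact f3)
  rw [mem_Ioc] at hn
  exact ⟨n, hn.1, by omega, hn4⟩

end Pool.Agent.Lib.MP_bf4c7f
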