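import Mathlib

/-!
# The range `2 ≤ x ≤ 168`: integers with at most three prime factors
-/

set_option autoImplicit false

namespace Pool.Agent.Lib.MP_bf4c7f

namespace Sm3

lemma exists_coprime_gen (M g : ℕ) (hM : 0 < M)
    (hres : ∀ r < M, ∃ i < g, Nat.Coprime (r + (i + 1)) M) (a : ℕ) :
    ∃ i, 1 ≤ i ∧ i ≤ g ∧ Nat.Coprime (a + i) M := by
  obtain ⟨i, hi, h⟩ := hres (a % M) (Nat.mod_lt _ hM)
  refine ⟨i + 1, by omega, by omega, ?_⟩
  have h1 : a + (i + 1) = (a % M + (i + 1)) + M * (a / M) := by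
    have := Nat.mod_add_div a M
    omega
  rw [h1]
  unfold Nat.Coprime at *
  rwa [Nat.gcd_add_mul_left_left]

lemma pow_le_gen (q M n : ℕ) (hn : 1 ≤ n) (h : Nat.Coprime n M)
    (hq : ∀ p < q, p.Prime → ¬ Nat.Coprime p M) : q ^ n.primeFactorsList.length ≤ n := by
  have h1 : ∀ p ∈ n.primeFactorsList, q ≤ p := by
    intro p hp
    have hpp := Nat.prime_of_mem_primeFactorsList hp
    have hdvd := Nat.dvd_of_mem_primeFactorsList hp
    have hc : Nat.Coprime p M := Nat.Coprime.coprime_dvd_left hdvd h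
    by_contra hlt
    exact hq p (not_le.1 hlt) hpp hc
  have h2 := List.pow_card_le_prod n.primeFactorsList q h1
  rwa [Nat.prod_primeFactorsList (by omega)] at h2

/-- The general step. -/
lemma main_gen (q M g X x a : ℕ) (hq1 : 1 < q) (hM : 0 < M)
    (hres : ∀ r < M, ∃ i < g, Nat.Coprime (r + (i + 1)) M)
    (hq : ∀ p < q, p.Prime → ¬ Nat.Coprime p M) (hX : X ^ 2 + X ≤ q ^ 4) (hx : g < x)
    (hx2 : x ≤ X) (ha : a ≤ x ^ 2) :
    ∃ n, a < n ∧ n < a + x ∧ n.primeFactorsList.length ≤ 3 := by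
  obtain ⟨i, hi1, hi2, hc⟩ := exists_coprime_gen M g hM hres a
  refine ⟨a + i, by omega, by omega, ?_⟩
  have h1 := pow_le_gen q M (a + i) (by omega) hc hq
  by_contra hlt
  have h2 : q ^ 4 ≤ q ^ (a + i).primeFactorsList.length :=
    Nat.pow_le_pow_right (by omega) (by omega)
  have h3 : x ^ 2 ≤ X ^ 2 := Nat.pow_le_pow_left hx2 2
  omega

lemma res2 : ∀ r < 2, ∃ i < 2, Nat.Coprime (r + (i + 1)) 2 := by
  decide +kernel

lemma res30 : ∀ r < 30, ∃ i < 6, Nat.Coprime (r + (i + 1)) 30 := by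
  decide +kernel

lemma res210 : ∀ r < 210, ∃ i < 10, Nat.Coprime (r + (i + 1)) 210 := by
  decide +kernel

lemma res2310 : ∀ r < 2310, ∃ i < 14, Nat.Coprime (r + (i + 1)) 2310 := by
  decide +kernel

end Sm3

open Sm3

/-- The small cases. -/
theorem small3 (x a : ℕ) (hx : 1 < x) (hx2 : x ≤ 168) (ha : a ≤ x ^ 2) :
    ∃ n, a < n ∧ n < a + x ∧ n.primeFactorsList.length ≤ 3 := by
  rcases le_or_gt x 2 with h | h
  · have hx2 : x = 2 := by omega
    subst hx2
    refine ⟨a + 1, by omega, by omega, ?_⟩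
    have h1 := pow_le_gen 2 1 (a + 1) (by omega) (Nat.coprime_one_right _) (by decide)
    by_contra hlt
    have h2 : 2 ^ 4 ≤ 2 ^ (a + 1).primeFactorsList.length :=
      Nat.pow_le_pow_right (by omega) (by omega)
    omega
  rcases le_or_gt x 6 with h1 | h1
  · exact main_gen 3 2 2 8 x a (by norm_num) (by norm_num) res2 (by decide) (by norm_num) h
      (by omega) ha
  rcases le_or_gt x 48 with h2 | h2
  · exact main_gen 7 30 6 48 x a (by norm_num) (by norm_num) res30 (by decide) (by norm_num) h1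
      (by omega) ha
  rcases le_or_gt x 120 with h3 | h3
  · exact main_gen 11 210 10 120 x a (by norm_num) (by norm_num) res210 (by decide) (by norm_num)
      (by omega) (by omega) ha
  · exact main_gen 13 2310 14 168 x a (by norm_num) (by norm_num) res2310 (by decide)
      (by norm_num) (by omega) (by omega) ha

end Pool.Agent.Lib.MP_bf4c7f
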